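import Pool.Agent.Helper34.OneLoop.Core

namespace Pool.Agent.Helper34.OneLoop

open Equiv Matrix Finset

variable {N : ℕ} {T : Triang N} {z : Fin N → ℂ}

variable (K : Cells T) (D : Develop T z)

lemma sym_self (v : Fin 2 → ℂ) : sym v v = nil v := by
  funext i
  fin_cases i <;> simp [sym, nil] <;> ring

lemma inv_of_det_one (g : Matrix (Fin 2) (Fin 2) ℂ) (hg : g.det = 1) :
    g⁻¹ = !![g 1 1, -g 0 1; -g 1 0, g 0 0] := by
  rw [Matrix.inv_def, hg, Matrix.adjugate_fin_two]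
  simp

lemma Ad_sym (g : Matrix (Fin 2) (Fin 2) ℂ) (hg : g.det = 1) (v w : Fin 2 → ℂ) :
    Ad g (sym v w) = sym (g *ᵥ v) (g *ᵥ w) := by
  rw [Ad, inv_of_det_one g hg]
  rw [Matrix.det_fin_two] at hg
  funext i
  fin_cases i <;>
    simp [coord, toMat, sym, Matrix.mul_apply, Fin.sum_univ_two, Matrix.mulVec, dotProduct] <;> ring

lemma Ad_nil (g : Matrix (Fin 2) (Fin 2) ℂ) (hg : g.det = 1) (v : Fin 2 → ℂ) :
    Ad g (nil v) = nil (g *ᵥ v) := by
  rw [← sym_self, Ad_sym g hg, sym_self]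

lemma Ad_add (g : Matrix (Fin 2) (Fin 2) ℂ) (x y : Fin 3 → ℂ) : Ad g (x + y) = Ad g x + Ad g y := by
  have h1 : toMat (x + y) = toMat x + toMat y := by
    ext i j
    fin_cases i <;> fin_cases j <;> simp [toMat] <;> ring
  have h2 : ∀ A B : Matrix (Fin 2) (Fin 2) ℂ, coord (A + B) = coord A + coord B := by
    intro A B
    funext i
    fin_cases i <;> simp [coord]
  rw [Ad, h1, Matrix.mul_add, Matrix.add_mul, h2]
  rfl

lemma Ad_smul (g : Matrix (Fin 2) (Fin 2) ℂ) (a : ℂ) (x : Fin 3 → ℂ) : Ad g (a • x) = a • Ad g x := by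
  have h1 : toMat (a • x) = a • toMat x := by
    ext i j
    fin_cases i <;> fin_cases j <;> simp [toMat]
  have h2 : ∀ A : Matrix (Fin 2) (Fin 2) ℂ, coord (a • A) = a • coord A := by
    intro A
    funext i
    fin_cases i <;> simp [coord]
  rw [Ad, h1, Matrix.mul_smul, Matrix.smul_mul, h2]
  rfl

lemma Ad_mul (g h : Matrix (Fin 2) (Fin 2) ℂ) (hg : g.det = 1) (hh : h.det = 1) (x : Fin 3 → ℂ) :
    Ad (g * h) x = Ad g (Ad h x) := by
  have hgh : (g * h).det = 1 := by rw [Matrix.det_mul, hg, hh, one_mul]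
  rw [Ad, Ad, Ad, inv_of_det_one _ hgh, inv_of_det_one _ hg, inv_of_det_one _ hh]
  rw [Matrix.det_fin_two] at hg hh
  funext i
  fin_cases i <;>
    simp [coord, toMat, Matrix.mul_apply, Fin.sum_univ_two] <;> ring_nf

lemma om_mulVec (g : Matrix (Fin 2) (Fin 2) ℂ) (v w : Fin 2 → ℂ) :
    om (g *ᵥ v) (g *ᵥ w) = g.det * om v w := by
  rw [Matrix.det_fin_two]
  simp [om, Matrix.mulVec, dotProduct, Fin.sum_univ_two]
  ring


/-! ### Vertices of the derived flags -/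

lemma Flag.LOvx_inj (x : Flag N) : Function.Injective x.vx := (x.2 : Perm (Fin 4)).injective

lemma Develop.LOvv_rho0 (x : Flag N) : D.vv x.rho 0 = D.vv x 0 := rfl
lemma Develop.LOvv_rho1 (x : Flag N) : D.vv x.rho 1 = D.vv x 2 := rfl
lemma Develop.LOvv_rho2 (x : Flag N) : D.vv x.rho 2 = D.vv x 3 := rfl
lemma Develop.LOvv_rho3 (x : Flag N) : D.vv x.rho 3 = D.vv x 1 := rfl
lemma Develop.LOvv_kap0 (x : Flag N) : D.vv x.kap 0 = D.vv x 1 := rfl
lemma Develop.LOvv_kap1 (x : Flag N) : D.vv x.kap 1 = D.vv x 3 := rfl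
lemma Develop.LOvv_kap2 (x : Flag N) : D.vv x.kap 2 = D.vv x 2 := rfl
lemma Develop.LOvv_kap3 (x : Flag N) : D.vv x.kap 3 = D.vv x 0 := rfl
lemma Develop.LOvv_rev0 (x : Flag N) : D.vv x.rev 0 = D.vv x 1 := rfl
lemma Develop.LOvv_rev1 (x : Flag N) : D.vv x.rev 1 = D.vv x 0 := rfl
lemma Develop.LOvv_rev2 (x : Flag N) : D.vv x.rev 2 = D.vv x 3 := rfl
lemma Develop.LOvv_rev3 (x : Flag N) : D.vv x.rev 3 = D.vv x 2 := rfl

lemma LOpar (x : Flag N) (i : Fin 4) (hi : i ≠ 2) :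
    D.g x.1 (x.vx 2) *ᵥ D.vv x i = D.v (T.nbr x.1 (x.vx 2)) (T.glue x.1 (x.vx 2) (x.vx i)) ∨
    D.g x.1 (x.vx 2) *ᵥ D.vv x i = -D.v (T.nbr x.1 (x.vx 2)) (T.glue x.1 (x.vx 2) (x.vx i)) :=
  D.parallel _ _ _ (fun h => hi (x.LOvx_inj h))

lemma LOvv_iota (x : Flag N) (i : Fin 4) : D.vv (T.iota x) i =
    D.v (T.nbr x.1 (x.vx 2)) (T.glue x.1 (x.vx 2) (x.vx (swap 1 3 i))) := rfl

lemma LOvv_turn (x : Flag N) (i : Fin 4) : D.vv (T.turn x) i =
    D.v (T.nbr x.1 (x.vx 2)) (T.glue x.1 (x.vx 2) (x.vx (swap 2 3 i))) := rfl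

lemma nil_neg (v : Fin 2 → ℂ) : nil (-v) = nil v := by
  funext i
  fin_cases i <;> simp [nil]

lemma sym_neg_left (v w : Fin 2 → ℂ) : sym (-v) w = -sym v w := by
  funext i
  fin_cases i <;> simp [sym]
  ring

lemma sym_neg_right (v w : Fin 2 → ℂ) : sym v (-w) = -sym v w := by
  funext i
  fin_cases i <;> simp [sym]
  ring

lemma om_neg_left (v w : Fin 2 → ℂ) : om (-v) w = -om v w := by
  simp [om]
  ring

lemma om_neg_right (v w : Fin 2 → ℂ) : om v (-w) = -om v w := by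
  simp [om]
  ring

/-- nilpotents are transported -/
lemma Develop.Ad_g_nil (x : Flag N) (i : Fin 4) (hi : i ≠ 2) :
    Ad (D.g x.1 (x.vx 2)) (nil (D.vv x i)) = nil (D.vv (T.iota x) (swap 1 3 i)) := by
  rw [Ad_nil _ (D.det_g _ _), LOvv_iota, Equiv.swap_apply_self]
  rcases LOpar D x i hi with h | h
  · rw [h]
  · rw [h, nil_neg]

lemma Develop.Ad_g_H (x : Flag N) :
    Ad (D.g x.1 (x.vx 2)) (D.H x) = D.H (T.turn x) := by
  have h0 : D.vv (T.turn x) 0 = D.v (T.nbr x.1 (x.vx 2)) (T.glue x.1 (x.vx 2) (x.vx 0)) := rfl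
  have h1 : D.vv (T.turn x) 1 = D.v (T.nbr x.1 (x.vx 2)) (T.glue x.1 (x.vx 2) (x.vx 1)) := rfl
  have hc : D.c x 0 1 = om (D.g x.1 (x.vx 2) *ᵥ D.vv x 0) (D.g x.1 (x.vx 2) *ᵥ D.vv x 1) := by
    rw [om_mulVec, D.det_g, one_mul]
    rfl
  rw [Develop.H, Develop.H, Ad_smul, Ad_sym _ (D.det_g _ _), hc, Develop.c, h0, h1]
  rcases LOpar D x 0 (by decide) with h | h <;> rcases LOpar D x 1 (by decide) with h' | h' <;>
    rw [h, h'] <;> simp [sym_neg_left, sym_neg_right, om_neg_left, om_neg_right]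

lemma Develop.c_ne (x : Flag N) (i j : Fin 4) (h : i ≠ j) : D.c x i j ≠ 0 :=
  D.indep _ _ _ (fun h' => h (x.LOvx_inj h'))

lemma Develop.c_swap (x : Flag N) (i j : Fin 4) : D.c x j i = -D.c x i j := by
  simp only [Develop.c, om]
  ring

lemma Develop.plucker (x : Flag N) :
    D.c x 0 1 * D.c x 2 3 - D.c x 0 2 * D.c x 1 3 + D.c x 0 3 * D.c x 1 2 = 0 := by
  simp only [Develop.c, om]
  ring

lemma LOu_sign (a b d a' b' d' : Fin 2 → ℂ) (ha : a = a' ∨ a = -a') (hb : b = b' ∨ b = -b')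
    (hd : d = d' ∨ d = -d') :
    om d' b' / (om a' d' * om a' b') = -(om b d / (om a b * om a d)) := by
  have hs : om d' b' = -om b' d' := by
    simp only [om]
    ring
  rw [hs, mul_comm (om a' d'), neg_div]
  congr 1
  rcases ha with rfl | rfl <;> rcases hb with rfl | rfl <;> rcases hd with rfl | rfl <;>
    simp only [om_neg_left, om_neg_right, neg_neg, neg_mul, mul_neg, neg_div, div_neg]

lemma Develop.u_iota (x : Flag N) : D.u (T.iota x) = -D.u x := by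
  have hc : ∀ i j, D.c x i j =
      om (D.g x.1 (x.vx 2) *ᵥ D.vv x i) (D.g x.1 (x.vx 2) *ᵥ D.vv x j) := by
    intro i j
    rw [om_mulVec, D.det_g, one_mul]
    rfl
  rw [Develop.u, Develop.u, hc 1 3, hc 0 1, hc 0 3]
  exact LOu_sign _ _ _ _ _ _ (LOpar D x 0 (by decide)) (LOpar D x 1 (by decide))
    (LOpar D x 3 (by decide))

lemma Develop.u_cocycle (x : Flag N) : D.u x + D.u x.rho + D.u x.rho.rho = 0 := by
  have h1 : D.u x.rho = D.c x 2 1 / (D.c x 0 2 * D.c x 0 1) := rfl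
  have h2 : D.u x.rho.rho = D.c x 3 2 / (D.c x 0 3 * D.c x 0 2) := rfl
  have h01 := D.c_ne x 0 1 (by decide)
  have h02 := D.c_ne x 0 2 (by decide)
  have h03 := D.c_ne x 0 3 (by decide)
  rw [h1, h2, Develop.u, D.c_swap x 1 2, D.c_swap x 2 3]
  field_simp
  linear_combination -D.plucker x

lemma Develop.Csq_turn (x : Flag N) : D.Csq (T.turn x) = D.Csq x := by
  have h0 : D.vv (T.turn x) 0 = D.v (T.nbr x.1 (x.vx 2)) (T.glue x.1 (x.vx 2) (x.vx 0)) := rfl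
  have h1 : D.vv (T.turn x) 1 = D.v (T.nbr x.1 (x.vx 2)) (T.glue x.1 (x.vx 2) (x.vx 1)) := rfl
  have hc : D.c x 0 1 = om (D.g x.1 (x.vx 2) *ᵥ D.vv x 0) (D.g x.1 (x.vx 2) *ᵥ D.vv x 1) := by
    rw [om_mulVec, D.det_g, one_mul]
    rfl
  rw [Develop.Csq, Develop.Csq, hc, Develop.c, h0, h1]
  rcases LOpar D x 0 (by decide) with h | h <;> rcases LOpar D x 1 (by decide) with h' | h' <;>
    rw [h, h'] <;> simp [om_neg_left, om_neg_right]

lemma Develop.Csq_rev (x : Flag N) : D.Csq x.rev = D.Csq x := by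
  have h : D.c x.rev 0 1 = D.c x 1 0 := rfl
  rw [Develop.Csq, Develop.Csq, h, D.c_swap x 0 1, neg_sq]

/-- the infinitesimal rotation in terms of the three parabolic elements of a face -/
lemma Develop.H_eq (x : Flag N) : D.H x = (1 / 2 : ℂ) • (D.u x • nil (D.vv x 0) +
    D.u x.kap • nil (D.vv x 1) - D.u x.kap.kap • nil (D.vv x 3)) := by
  have h1 : D.u x.kap = D.c x 3 0 / (D.c x 1 3 * D.c x 1 0) := rfl
  have h2 : D.u x.kap.kap = D.c x 0 1 / (D.c x 3 0 * D.c x 3 1) := rfl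
  have h01 := D.c_ne x 0 1 (by decide)
  have h03 := D.c_ne x 0 3 (by decide)
  have h13 := D.c_ne x 1 3 (by decide)
  have hrel0 : D.c x 0 1 * D.vv x 3 0 = D.c x 0 3 * D.vv x 1 0 - D.c x 1 3 * D.vv x 0 0 := by
    simp only [Develop.c, om]; ring
  have hrel1 : D.c x 0 1 * D.vv x 3 1 = D.c x 0 3 * D.vv x 1 1 - D.c x 1 3 * D.vv x 0 1 := by
    simp only [Develop.c, om]; ring
  have e0 : D.vv x 3 0 = (D.c x 0 3 * D.vv x 1 0 - D.c x 1 3 * D.vv x 0 0) / D.c x 0 1 := by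
    rw [eq_div_iff h01, ← hrel0]; ring
  have e1 : D.vv x 3 1 = (D.c x 0 3 * D.vv x 1 1 - D.c x 1 3 * D.vv x 0 1) / D.c x 0 1 := by
    rw [eq_div_iff h01, ← hrel1]; ring
  rw [h1, h2, Develop.u, Develop.H, D.c_swap x 0 3, D.c_swap x 0 1, D.c_swap x 1 3]
  funext i
  fin_cases i <;> simp [sym, nil, e0, e1] <;> field_simp <;> ring


/-! ### Shapes -/

include D in
lemma Develop.LO_z_ne (j : Fin N) : z j ≠ 0 ∧ 1 - z j ≠ 0 := by
  have h := D.cross_ratio j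
  have h01 := D.indep j 0 1 (by decide)
  have h23 := D.indep j 2 3 (by decide)
  have h02 := D.indep j 0 2 (by decide)
  have h31 := D.indep j 3 1 (by decide)
  constructor
  · intro hz
    rw [hz, mul_zero, sub_zero, mul_one] at h
    exact mul_ne_zero h02 h31 h.symm
  · intro hz
    rw [hz, mul_zero] at h
    have hz' : z j = 1 := by linear_combination -hz
    rw [hz', mul_one] at h
    exact mul_ne_zero h01 h23 h

lemma LO_even_cases : ∀ σ : alternatingGroup (Fin 4),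
    (((σ : Perm (Fin 4)) 0, (σ : Perm (Fin 4)) 1, (σ : Perm (Fin 4)) 2, (σ : Perm (Fin 4)) 3) :
      Fin 4 × Fin 4 × Fin 4 × Fin 4) ∈
    ([(0, 1, 2, 3), (1, 0, 3, 2), (2, 3, 0, 1), (3, 2, 1, 0),
      (0, 2, 3, 1), (2, 0, 1, 3), (3, 1, 0, 2), (1, 3, 2, 0),
      (0, 3, 1, 2), (3, 0, 2, 1), (1, 2, 0, 3), (2, 1, 3, 0)] :
      List (Fin 4 × Fin 4 × Fin 4 × Fin 4)) := by
  decide

lemma Flag.LO_cases (x : Flag N) :
    ((x.vx 0, x.vx 1, x.vx 2, x.vx 3) : Fin 4 × Fin 4 × Fin 4 × Fin 4) ∈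
    ([(0, 1, 2, 3), (1, 0, 3, 2), (2, 3, 0, 1), (3, 2, 1, 0),
      (0, 2, 3, 1), (2, 0, 1, 3), (3, 1, 0, 2), (1, 3, 2, 0),
      (0, 3, 1, 2), (3, 0, 2, 1), (1, 2, 0, 3), (2, 1, 3, 0)] :
      List (Fin 4 × Fin 4 × Fin 4 × Fin 4)) :=
  LO_even_cases x.2

lemma Develop.cc_eq (x : Flag N) :
    D.c x 0 1 * D.c x 2 3 = D.m x.1 * zet (z x.1) (kind (x.vx 0) (x.vx 1)) := by
  obtain ⟨hz, hz'⟩ := D.LO_z_ne x.1
  have hz'' : z x.1 - 1 ≠ 0 := fun h => hz' (by linear_combination -h)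
  have hcr := D.cross_ratio x.1
  have hpl : om (D.v x.1 0) (D.v x.1 1) * om (D.v x.1 2) (D.v x.1 3) -
      om (D.v x.1 0) (D.v x.1 2) * om (D.v x.1 1) (D.v x.1 3) +
      om (D.v x.1 0) (D.v x.1 3) * om (D.v x.1 1) (D.v x.1 2) = 0 := by
    simp only [om]
    ring
  have hs : ∀ i j, om (D.v x.1 i) (D.v x.1 j) = -om (D.v x.1 j) (D.v x.1 i) := by
    intro i j
    simp only [om]
    ring
  have hc := x.LO_cases
  have e : ∀ i j, D.c x i j = om (D.v x.1 (x.vx i)) (D.v x.1 (x.vx j)) := fun i j => rfl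
  rw [e, e, Develop.m]
  simp only [List.mem_cons, Prod.mk.injEq, List.not_mem_nil, or_false] at hc
  rw [hs 3 1] at hcr
  rcases hc with hc | hc | hc | hc | hc | hc | hc | hc | hc | hc | hc | hc <;>
    obtain ⟨h0, h1, h2, h3⟩ := hc <;> rw [h0, h1, h2, h3]
  · simp only [kind, zet]
    simp
    field_simp
  · rw [hs 1 0, hs 3 2]
    simp only [kind, zet]
    simp
    field_simp
  · simp only [kind, zet]
    simp
    field_simp
  · rw [hs 3 2, hs 1 0]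
    simp only [kind, zet]
    simp
    field_simp
  · rw [hs 3 1]
    simp only [kind, zet]
    simp
    field_simp
    linear_combination -hcr
  · rw [hs 2 0]
    simp only [kind, zet]
    simp
    field_simp
    linear_combination -hcr
  · rw [hs 3 1]
    simp only [kind, zet]
    simp
    field_simp
    linear_combination -hcr
  · rw [hs 2 0]
    simp only [kind, zet]
    simp
    field_simp
    linear_combination -hcr
  · simp only [kind, zet]
    simp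
    field_simp
    linear_combination (z x.1 - 1) * hpl - hcr
  · rw [hs 3 0, hs 2 1]
    simp only [kind, zet]
    simp
    field_simp
    linear_combination (z x.1 - 1) * hpl - hcr
  · simp only [kind, zet]
    simp
    field_simp
    linear_combination (z x.1 - 1) * hpl - hcr
  · rw [hs 3 0, hs 2 1]
    simp only [kind, zet]
    simp
    field_simp
    linear_combination (z x.1 - 1) * hpl - hcr

lemma Develop.m_ne (j : Fin N) : D.m j ≠ 0 := by
  rw [Develop.m]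
  exact mul_ne_zero (mul_ne_zero (D.indep j 0 1 (by decide)) (D.indep j 2 3 (by decide)))
    (D.LO_z_ne j).1

include D in
lemma Develop.zet_ne (j : Fin N) (k : Fin 3) : zet (z j) k ≠ 0 := by
  obtain ⟨h, h'⟩ := D.LO_z_ne j
  have h'' : z j - 1 ≠ 0 := fun h0 => h' (by linear_combination -h0)
  fin_cases k <;> simp [zet, h, h', h'']

lemma Develop.kk_eq (x : Flag N) (i : Fin 4) :
    D.kk x.1 (x.vx i) = (∏ l ∈ univ.erase i, D.c x i l)⁻¹ := by
  rw [Develop.kk]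
  congr 1
  symm
  refine Finset.prod_bij (fun l _ => x.vx l) ?_ ?_ ?_ ?_
  · intro l hl
    rw [Finset.mem_erase] at hl ⊢
    exact ⟨fun h => hl.1 (x.LOvx_inj h), Finset.mem_univ _⟩
  · intro a _ b _ h
    exact x.LOvx_inj h
  · intro b hb
    refine ⟨(x.2 : Perm (Fin 4)).symm b, ?_, ?_⟩
    · rw [Finset.mem_erase] at hb ⊢
      refine ⟨fun h => hb.1 ?_, Finset.mem_univ _⟩
      rw [← h]
      exact ((x.2 : Perm (Fin 4)).apply_symm_apply b).symm
    · exact (x.2 : Perm (Fin 4)).apply_symm_apply b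
  · intro l _
    rfl


lemma Develop.LOu_iota_kap (y : Flag N) : D.u (T.iota y).kap = -D.u y.kap.kap := by
  have hc : ∀ i j, D.c y i j =
      om (D.g y.1 (y.vx 2) *ᵥ D.vv y i) (D.g y.1 (y.vx 2) *ᵥ D.vv y j) := by
    intro i j
    rw [om_mulVec, D.det_g, one_mul]
    rfl
  have h1 : D.u y.kap.kap = D.c y 0 1 / (D.c y 3 0 * D.c y 3 1) := rfl
  rw [h1, hc 0 1, hc 3 0, hc 3 1]
  exact LOu_sign _ _ _ _ _ _ (LOpar D y 3 (by decide)) (LOpar D y 0 (by decide))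
    (LOpar D y 1 (by decide))

lemma Develop.LOu_iota_kap2 (y : Flag N) : D.u (T.iota y).kap.kap = -D.u y.kap := by
  have hc : ∀ i j, D.c y i j =
      om (D.g y.1 (y.vx 2) *ᵥ D.vv y i) (D.g y.1 (y.vx 2) *ᵥ D.vv y j) := by
    intro i j
    rw [om_mulVec, D.det_g, one_mul]
    rfl
  have h1 : D.u y.kap = D.c y 3 0 / (D.c y 1 3 * D.c y 1 0) := rfl
  rw [h1, hc 3 0, hc 1 3, hc 1 0]
  exact LOu_sign _ _ _ _ _ _ (LOpar D y 1 (by decide)) (LOpar D y 3 (by decide))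
    (LOpar D y 0 (by decide))

lemma Develop.LOaugk_eq (x : Flag N) : D.augk x.1 =
    (D.c x 0 1 * D.c x 0 2 * D.c x 0 3)⁻¹ + (D.c x 1 0 * D.c x 1 2 * D.c x 1 3)⁻¹ +
    (D.c x 2 0 * D.c x 2 1 * D.c x 2 3)⁻¹ + (D.c x 3 0 * D.c x 3 1 * D.c x 3 2)⁻¹ := by
  have h : D.augk x.1 = ∑ i, D.kk x.1 (x.vx i) := by
    rw [Develop.augk]
    exact (Equiv.sum_comp (x.2 : Perm (Fin 4)) (fun a => D.kk x.1 a)).symm
  have e0 : (univ : Finset (Fin 4)).erase 0 = {1, 2, 3} := by decide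
  have e1 : (univ : Finset (Fin 4)).erase 1 = {0, 2, 3} := by decide
  have e2 : (univ : Finset (Fin 4)).erase 2 = {0, 1, 3} := by decide
  have e3 : (univ : Finset (Fin 4)).erase 3 = {0, 1, 2} := by decide
  rw [h, Fin.sum_univ_four, D.kk_eq, D.kk_eq, D.kk_eq, D.kk_eq, e0, e1, e2, e3]
  simp [Finset.prod_insert, mul_assoc]

lemma LOrat (p q r s t w : ℂ) (hp : p ≠ 0) (hq : q ≠ 0) (hr : r ≠ 0) (hs : s ≠ 0) (ht : t ≠ 0)
    (hw : w ≠ 0) (h : p * w - q * t + r * s = 0) :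
    p * w * ((p * q * r)⁻¹ + (-p * s * t)⁻¹ + (-q * -s * w)⁻¹ + (-r * -t * -w)⁻¹) =
      (t / (p * r) + -r / (t * -p) - p / (-r * -t)) -
      (-(-s / (q * p)) + -(q / (-p * s)) - -(-p / (-s * -q))) := by
  have hw' : w = (q * t - r * s) / p := by
    rw [eq_div_iff hp]
    linear_combination h
  have hw2 : q * t - r * s ≠ 0 := by
    intro h0
    apply hw
    rw [hw', h0, zero_div]
  rw [hw']
  field_simp
  ring

/-- `c_ab c_cd (∑ k) = r(x) - r(turn⁻¹ x)`, `r = u + u ∘ kap - u ∘ kap²` -/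
lemma Develop.cc_augk (x : Flag N) :
    D.c x 0 1 * D.c x 2 3 * D.augk x.1 =
      (D.u x + D.u x.kap - D.u x.kap.kap) -
      (D.u (T.iota x.rho) + D.u (T.iota x.rho).kap - D.u (T.iota x.rho).kap.kap) := by
  rw [D.u_iota, D.LOu_iota_kap, D.LOu_iota_kap2, D.LOaugk_eq]
  have h1 : D.u x.kap = D.c x 3 0 / (D.c x 1 3 * D.c x 1 0) := rfl
  have h2 : D.u x.kap.kap = D.c x 0 1 / (D.c x 3 0 * D.c x 3 1) := rfl
  have h3 : D.u x.rho = D.c x 2 1 / (D.c x 0 2 * D.c x 0 1) := rfl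
  have h4 : D.u x.rho.kap.kap = D.c x 0 2 / (D.c x 1 0 * D.c x 1 2) := rfl
  have h5 : D.u x.rho.kap = D.c x 1 0 / (D.c x 2 1 * D.c x 2 0) := rfl
  rw [h1, h2, h3, h4, h5, Develop.u, D.c_swap x 0 1, D.c_swap x 0 2, D.c_swap x 0 3,
    D.c_swap x 1 2, D.c_swap x 1 3, D.c_swap x 2 3]
  exact LOrat _ _ _ _ _ _ (D.c_ne x 0 1 (by decide)) (D.c_ne x 0 2 (by decide))
    (D.c_ne x 0 3 (by decide)) (D.c_ne x 1 2 (by decide)) (D.c_ne x 1 3 (by decide))
    (D.c_ne x 2 3 (by decide)) (D.plucker x)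

end Pool.Agent.Helper34.OneLoop
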