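import Pool.Agent.Helper34.OneLoop.FL
import Pool.Agent.Helper34.OneLoop.LO

/-!
Module CH: chain maps.
-/

namespace Pool.Agent.Helper34.OneLoop

open Equiv Matrix Finset

section

variable {N : ℕ} {T : Triang N} {z : Fin N → ℂ} (K : Cells T) (D : Develop T z)

/-- `Ad g` as a linear map. -/
noncomputable def AdL (g : Matrix (Fin 2) (Fin 2) ℂ) : (Fin 3 → ℂ) →ₗ[ℂ] (Fin 3 → ℂ) where
  toFun := Ad g
  map_add' := Ad_add g
  map_smul' a x := Ad_smul g a x

lemma AdL_apply (g : Matrix (Fin 2) (Fin 2) ℂ) (x : Fin 3 → ℂ) : AdL g x = Ad g x := rfl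

/-- `crossCh` as a linear map. -/
noncomputable def crossL (p : Fin N × Fin 4) : (Fin 3 → ℂ) →ₗ[ℂ] (Fin (2 * N) → Fin 3 → ℂ) where
  toFun := crossCh K D p
  map_add' x y := by
    funext f
    simp only [crossCh, Pi.add_apply]
    split_ifs
    · rfl
    · rw [Ad_add, neg_add]
    · rw [add_zero]
  map_smul' a x := by
    funext f
    simp only [crossCh, Pi.smul_apply, RingHom.id_apply]
    split_ifs
    · rfl
    · rw [Ad_smul, smul_neg]
    · rw [smul_zero]

lemma crossL_apply (p : Fin N × Fin 4) (y : Fin 3 → ℂ) : crossL K D p y = crossCh K D p y := rfl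

/-- `Phi1` as a linear map. -/
noncomputable def Phi1L : (EE N → ℂ) →ₗ[ℂ] (Fin (2 * N) → Fin 3 → ℂ) where
  toFun := Phi1 K D
  map_add' x y := by
    funext f
    simp only [Phi1, Pi.add_apply, add_smul, sum_add_distrib]
  map_smul' a x := by
    funext f
    simp only [Phi1, Pi.smul_apply, RingHom.id_apply, smul_sum, smul_smul, smul_eq_mul]

lemma Phi1L_apply (y : EE N → ℂ) : Phi1L K D y = Phi1 K D y := rfl

lemma bd1_add (x y) : bd1 K D (x + y) = bd1 K D x + bd1 K D y := by
  funext j
  simp only [bd1, Pi.add_apply]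
  rw [← sum_add_distrib]
  refine sum_congr rfl fun f _ => ?_
  rw [Ad_add]
  split_ifs <;> abel

lemma bd1_smul (a : ℂ) (x) : bd1 K D (a • x) = a • bd1 K D x := by
  funext j
  simp only [bd1, Pi.smul_apply]
  rw [smul_sum]
  refine sum_congr rfl fun f _ => ?_
  rw [Ad_smul, smul_sub, smul_ite, smul_ite, smul_zero]

lemma bd2_add (x y) : bd2 K D (x + y) = bd2 K D x + bd2 K D y := by
  simp only [bd2, Pi.add_apply]
  rw [← sum_add_distrib]
  refine sum_congr rfl fun e _ => ?_
  rw [← sum_add_distrib]
  refine sum_congr rfl fun k _ => ?_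
  rw [Ad_add]
  exact (crossL K D _).map_add _ _

lemma bd2_smul (a : ℂ) (x) : bd2 K D (a • x) = a • bd2 K D x := by
  simp only [bd2, Pi.smul_apply]
  rw [smul_sum]
  refine sum_congr rfl fun e _ => ?_
  rw [smul_sum]
  refine sum_congr rfl fun k _ => ?_
  rw [Ad_smul]
  exact (crossL K D _).map_smul _ _

/-! ### values of flags -/

lemma vv_kap0 (x : Flag N) : D.vv x.kap 0 = D.vv x 1 := rfl
lemma vv_kap1 (x : Flag N) : D.vv x.kap 1 = D.vv x 3 := rfl
lemma vv_kap3 (x : Flag N) : D.vv x.kap 3 = D.vv x 0 := rfl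

lemma eps_face (f : Fin (2 * N)) (s : Fin 3) : (K.eps (f, s)).face = K.side f := face_faceFlag _ _

/-- crossing a face with the parabolic element of the first vertex -/
lemma crossCh_nil0 (x : Flag N) : crossCh K D x.face (nil (D.vv x 0)) = Phi1 K D (K.dch x) := by
  funext f
  simp only [crossCh, Phi1, Cells.dch]
  by_cases h1 : K.side f = x.face
  · rw [if_pos h1]
    obtain ⟨s, hs, hs'⟩ := faceFlag_bij (K.side f) x h1.symm
    rw [Finset.sum_eq_single s]
    · have h2 : K.eps (f, s) = x := hs
      have h3 : T.iota (K.eps (f, s)) ≠ x := by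
        intro h
        have h4 := congrArg Flag.face h
        rw [T.face_iota, eps_face, ← h1] at h4
        exact T.opp_ne _ h4
      rw [if_pos h2, if_neg h3, sub_zero, one_smul, h2]
    · intro t _ ht
      have h2 : K.eps (f, t) ≠ x := fun h => ht (hs' t h)
      have h3 : T.iota (K.eps (f, t)) ≠ x := by
        intro h
        have h4 := congrArg Flag.face h
        rw [T.face_iota, eps_face, ← h1] at h4
        exact T.opp_ne _ h4
      rw [if_neg h2, if_neg h3, sub_zero, zero_smul]
    · intro h
      exact absurd (mem_univ s) h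
  · rw [if_neg h1]
    by_cases h2 : T.opp (K.side f) = x.face
    · rw [if_pos h2]
      have h5 : (T.iota x).face = K.side f := by rw [T.face_iota, ← h2, T.opp_opp]
      obtain ⟨s, hs, hs'⟩ := faceFlag_bij (K.side f) (T.iota x) h5
      have key : -Ad (D.g x.face.1 x.face.2) (nil (D.vv x 0)) = -nil (D.vv (T.iota x) 0) := by
        have := D.Ad_g_nil x 0 (by decide)
        rw [show swap (1 : Fin 4) 3 0 = 0 by decide] at this
        rw [← this]
        rfl
      rw [key, Finset.sum_eq_single s]
      · have h3 : K.eps (f, s) = T.iota x := hs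
        have h4 : K.eps (f, s) ≠ x := by
          intro h
          have := congrArg Flag.face h
          rw [eps_face] at this
          exact h1 this
        rw [if_neg h4, if_pos (by rw [h3, T.iota_iota]), h3, zero_sub, neg_smul, one_smul]
      · intro t _ ht
        have h3 : T.iota (K.eps (f, t)) ≠ x := by
          intro h
          apply ht
          apply hs'
          rw [← h, T.iota_iota]
          rfl
        have h4 : K.eps (f, t) ≠ x := by
          intro h
          have := congrArg Flag.face h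
          rw [eps_face] at this
          exact h1 this
        rw [if_neg h4, if_neg h3, sub_zero, zero_smul]
      · intro h
        exact absurd (mem_univ s) h
    · rw [if_neg h2]
      symm
      apply Finset.sum_eq_zero
      intro t _
      have h4 : K.eps (f, t) ≠ x := by
        intro h
        have := congrArg Flag.face h
        rw [eps_face] at this
        exact h1 this
      have h3 : T.iota (K.eps (f, t)) ≠ x := by
        intro h
        have h4 := congrArg Flag.face h
        rw [T.face_iota, eps_face] at h4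
        exact h2 h4
      rw [if_neg h4, if_neg h3, sub_zero, zero_smul]

lemma crossCh_nil1 (x : Flag N) : crossCh K D x.face (nil (D.vv x 1)) = Phi1 K D (K.dch x.kap) := by
  rw [← crossCh_nil0, x.face_kap, vv_kap0]

lemma crossCh_nil3 (x : Flag N) : crossCh K D x.face (nil (D.vv x 3)) = Phi1 K D (K.dch x.kap.kap) := by
  rw [← crossCh_nil0, x.kap.face_kap, x.face_kap, vv_kap0, vv_kap1]

lemma crossCh_H (x : Flag N) : crossCh K D x.face (D.H x) = Phi1 K D (xi K D x) := by
  rw [D.H_eq, xi]
  have h1 := (crossL K D x.face).map_smul (1 / 2 : ℂ) (D.u x • nil (D.vv x 0) +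
    D.u x.kap • nil (D.vv x 1) - D.u x.kap.kap • nil (D.vv x 3))
  rw [crossL_apply] at h1
  rw [h1, map_sub, map_add, map_smul, map_smul, map_smul, crossL_apply, crossL_apply, crossL_apply,
    crossCh_nil0, crossCh_nil1, crossCh_nil3]
  rw [← Phi1L_apply, ← Phi1L_apply, ← Phi1L_apply, ← Phi1L_apply, ← map_smul, ← map_smul, ← map_smul,
    ← map_add, ← map_sub, ← map_smul]

/-! ### transport -/

lemma det_transp (x : Flag N) (k : ℕ) : (transp D x k).det = 1 := by
  induction k with
  | zero => simp [transp]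
  | succ k ih => rw [transp, det_mul, ih, D.det_g, one_mul]

lemma vv_turn0 (x : Flag N) : D.vv (T.turn x) 0 = D.vv (T.iota x) 0 := by
  rw [T.turn_eq]; rfl

lemma vv_turn1 (x : Flag N) : D.vv (T.turn x) 1 = D.vv (T.iota x) 3 := by
  rw [T.turn_eq]; rfl

lemma Ad_one (x : Fin 3 → ℂ) : Ad 1 x = x := by
  funext i
  fin_cases i <;> simp [Ad, coord, toMat]

lemma transp_nil0 (x : Flag N) (k : ℕ) :
    Ad (transp D x k) (nil (D.vv x 0)) = nil (D.vv (T.turn^[k] x) 0) := by
  induction k with
  | zero => rw [transp, Ad_one]; rfl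
  | succ k ih =>
    rw [transp, Ad_mul _ _ (D.det_g _ _) (det_transp D x k), ih, D.Ad_g_nil _ 0 (by decide),
      Function.iterate_succ_apply', vv_turn0]
    rfl

lemma transp_nil1 (x : Flag N) (k : ℕ) :
    Ad (transp D x k) (nil (D.vv x 1)) = nil (D.vv (T.turn^[k] x) 1) := by
  induction k with
  | zero => rw [transp, Ad_one]; rfl
  | succ k ih =>
    rw [transp, Ad_mul _ _ (D.det_g _ _) (det_transp D x k), ih, D.Ad_g_nil _ 1 (by decide),
      Function.iterate_succ_apply', vv_turn1]
    rfl

lemma transp_H (x : Flag N) (k : ℕ) : Ad (transp D x k) (D.H x) = D.H (T.turn^[k] x) := by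
  induction k with
  | zero => rw [transp, Ad_one]; rfl
  | succ k ih =>
    rw [transp, Ad_mul _ _ (D.det_g _ _) (det_transp D x k), ih, D.Ad_g_H,
      Function.iterate_succ_apply']

/-! ### chain maps -/

lemma dch_iota (x : Flag N) : K.dch (T.iota x) = -K.dch x := by
  funext q
  simp only [Cells.dch, Pi.neg_apply]
  have h1 : (K.eps q = T.iota x) ↔ (T.iota (K.eps q) = x) := by
    constructor
    · intro h; rw [h, T.iota_iota]
    · intro h; rw [← h, T.iota_iota]
  have h2 : (T.iota (K.eps q) = T.iota x) ↔ (K.eps q = x) := by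
    constructor
    · intro h
      have := congrArg T.iota h
      rwa [T.iota_iota, T.iota_iota] at this
    · intro h; rw [h]
  simp only [h1, h2]
  ring

lemma del2_eq (s : Fin N × Bool → ℂ) : K.del2 s = ∑ x : Flag N, s (K.cls x) • K.dch x := by
  funext q
  rw [Finset.sum_apply]
  simp only [Cells.del2, Cells.dch, Pi.smul_apply, smul_eq_mul, mul_sub, mul_ite, mul_one, mul_zero,
    sum_sub_distrib]
  rw [Finset.sum_ite_eq, Finset.sum_ite_eq, if_pos (mem_univ _), if_pos (mem_univ _)]

lemma bd2_Phi2 (s : Fin N × Bool → ℂ) : bd2 K D (Phi2 K D s) = Phi1 K D (K.del2 s) := by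
  -- the contribution of one edge
  have h1 : ∀ e : Fin N, ∀ k : ℕ,
      crossCh K D (T.turn^[k] (K.rep e)).face (Ad (transp D (K.rep e) k) (Phi2 K D s e)) =
      Phi1L K D (s (e, false) • K.dch (T.turn^[k] (K.rep e)) +
        s (e, true) • K.dch (T.turn (T.turn^[k] (K.rep e))).rev) := by
    intro e k
    rw [Phi2, ← AdL_apply, map_sub, map_smul, map_smul, AdL_apply, AdL_apply, transp_nil0, transp_nil1,
      ← crossL_apply, map_sub, map_smul, map_smul, crossL_apply, crossL_apply, crossCh_nil0,
      crossCh_nil1, T.rev_turn, dch_iota, map_add, map_smul, map_smul, map_neg, Phi1L_apply,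
      Phi1L_apply, smul_neg, sub_eq_add_neg]
  have h2 : bd2 K D (Phi2 K D s) = ∑ e : Fin N, ∑ x : Flag N with K.cls x = (e, false),
      Phi1L K D (s (e, false) • K.dch x + s (e, true) • K.dch (T.turn x).rev) := by
    rw [bd2]
    refine sum_congr rfl fun e _ => ?_
    rw [← K.sum_orbit e (fun x => Phi1L K D (s (e, false) • K.dch x + s (e, true) • K.dch (T.turn x).rev))]
    exact sum_congr rfl fun k _ => h1 e k
  rw [h2, ← Phi1L_apply, del2_eq]
  simp only [map_add, sum_add_distrib, map_sum]
  -- split the sum over all flags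
  have h3 : ∀ F : Flag N → (Fin (2 * N) → Fin 3 → ℂ), ∑ x : Flag N, F x =
      ∑ e : Fin N, ∑ x : Flag N with K.cls x = (e, false), F x +
      ∑ e : Fin N, ∑ x : Flag N with K.cls x = (e, true), F x := by
    intro F
    rw [← Finset.sum_fiberwise_of_maps_to (s := univ) (t := univ) (g := K.cls) (fun _ _ => mem_univ _),
      Fintype.sum_prod_type]
    rw [← sum_add_distrib]
    refine sum_congr rfl fun e _ => ?_
    rw [Fintype.sum_bool, add_comm]
  rw [h3]
  congr 1
  · refine sum_congr rfl fun e _ => sum_congr rfl fun x hx => ?_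
    rw [mem_filter] at hx
    rw [hx.2]
  · refine sum_congr rfl fun e _ => ?_
    refine sum_bij (fun x _ => (T.turn x).rev) ?_ ?_ ?_ ?_
    · intro x hx
      rw [mem_filter] at hx ⊢
      refine ⟨mem_univ _, ?_⟩
      rw [K.cls_rev, K.cls_turn, hx.2]
      rfl
    · intro x _ y _ h
      have h4 := congrArg Flag.rev h
      rw [Flag.rev_rev, Flag.rev_rev] at h4
      have h5 := congrArg (fun w => T.turn w.rev) h4
      simp only [T.turn_rev_turn] at h5
      have := congrArg Flag.rev h5
      rwa [Flag.rev_rev, Flag.rev_rev] at this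
    · intro y hy
      rw [mem_filter] at hy
      refine ⟨(T.turn y).rev, ?_, ?_⟩
      · rw [mem_filter]
        refine ⟨mem_univ _, ?_⟩
        rw [K.cls_rev, K.cls_turn, hy.2]
        rfl
      · rw [T.turn_rev_turn, Flag.rev_rev]
    · intro x hx
      rw [mem_filter] at hx
      rw [K.cls_rev, K.cls_turn, hx.2]
      rfl

lemma sum_tri (x : Flag N) (j : Fin N) :
    ∑ a, (if x.tri = (j, a) then (1 : ℂ) else 0) • nil (D.v j a) =
      if x.1 = j then nil (D.vv x 0) else 0 := by
  by_cases h : x.1 = j
  · rw [if_pos h, Finset.sum_eq_single (x.vx 0)]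
    · rw [if_pos (by rw [Flag.tri, h]), one_smul, ← h]
      rfl
    · intro a _ ha
      rw [if_neg, zero_smul]
      intro h2
      apply ha
      exact (congrArg Prod.snd h2).symm
    · intro h; exact absurd (mem_univ _) h
  · rw [if_neg h]
    apply Finset.sum_eq_zero
    intro a _
    rw [if_neg, zero_smul]
    intro h2
    exact h (congrArg Prod.fst h2)

lemma bd1_Phi1 (y : EE N → ℂ) : bd1 K D (Phi1 K D y) = Phi0 D (K.del1 y) := by
  funext j
  simp only [bd1, Phi0]
  have h1 : ∀ f : Fin (2 * N), Ad (D.g (K.side f).1 (K.side f).2) (Phi1 K D y f) =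
      ∑ s, y (f, s) • nil (D.vv (T.iota (K.eps (f, s))) 0) := by
    intro f
    rw [Phi1, ← AdL_apply, map_sum]
    refine sum_congr rfl fun s _ => ?_
    rw [map_smul, AdL_apply]
    have h2 := D.Ad_g_nil (K.eps (f, s)) 0 (by decide)
    rw [show swap (1 : Fin 4) 3 0 = 0 by decide] at h2
    have h3 := eps_face K f s
    rw [← h2, ← h3]
    rfl
  have h2 : ∀ f : Fin (2 * N), ((if (T.opp (K.side f)).1 = j then
      Ad (D.g (K.side f).1 (K.side f).2) (Phi1 K D y f) else 0) -
      (if (K.side f).1 = j then Phi1 K D y f else 0)) =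
      ∑ s, y (f, s) • ((if (T.iota (K.eps (f, s))).1 = j then nil (D.vv (T.iota (K.eps (f, s))) 0) else 0)
        - (if (K.eps (f, s)).1 = j then nil (D.vv (K.eps (f, s)) 0) else 0)) := by
    intro f
    have h3 : ∀ s, (T.iota (K.eps (f, s))).1 = (T.opp (K.side f)).1 := by
      intro s
      have := congrArg Prod.fst (T.face_iota (K.eps (f, s)))
      rw [eps_face] at this
      exact this
    have h4 : ∀ s, (K.eps (f, s)).1 = (K.side f).1 := by
      intro s
      exact congrArg Prod.fst (eps_face K f s)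
    simp only [h3, h4, smul_sub, sum_sub_distrib, smul_ite, smul_zero]
    rw [h1]
    congr 1
    · split_ifs
      · rfl
      · simp
    · split_ifs
      · rfl
      · simp
  rw [sum_congr rfl fun f _ => h2 f]
  have h5 : ∀ a, K.del1 y (j, a) • nil (D.v j a) = ∑ q : EE N, y q •
      ((if (T.iota (K.eps q)).tri = (j, a) then (1 : ℂ) else 0) • nil (D.v j a) -
        (if (K.eps q).tri = (j, a) then (1 : ℂ) else 0) • nil (D.v j a)) := by
    intro a
    rw [Cells.del1, sum_smul]
    refine sum_congr rfl fun q _ => ?_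
    rw [mul_smul, sub_smul]
  symm
  rw [sum_congr rfl fun a _ => h5 a, sum_comm, Fintype.sum_prod_type]
  refine sum_congr rfl fun f _ => sum_congr rfl fun s _ => ?_
  rw [← smul_sum, sum_sub_distrib, sum_tri, sum_tri]

lemma bd2_Hm (e : Fin N) : bd2 K D (Hm K D e) = Phi1 K D (Xe K D e) := by
  rw [bd2, Finset.sum_eq_single e]
  · rw [Xe, ← Phi1L_apply, map_sum, ← K.sum_orbit e (fun x => Phi1L K D (xi K D x))]
    refine sum_congr rfl fun k _ => ?_
    rw [Hm, Pi.single_eq_same, transp_H, crossCh_H]
    rfl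
  · intro b _ hb
    apply Finset.sum_eq_zero
    intro k _
    rw [Hm, Pi.single_eq_of_ne hb, ← AdL_apply, map_zero, ← crossL_apply, map_zero]
  · intro h; exact absurd (mem_univ _) h

lemma h1_eq (θ : Curve T) : h1 K D θ = Phi1 K D (θ.ch K) := by
  rw [h1, Curve.ch, ← Phi1L_apply, map_sum]
  exact sum_congr rfl fun i _ => crossCh_nil0 K D (θ.d i)

lemma h2_eq : h2 K D = Phi2 K D (fun _ => 1) := by
  funext e
  simp only [h2, Phi2, one_smul]
  rfl

end

end Pool.Agent.Helper34.OneLoop
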