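import Pool.Agent.Helper34.OneLoop.FL
import Pool.Agent.Helper34.OneLoop.LO

/-! # Module CU: the completeness row -/

namespace Pool.Agent.Helper34.OneLoop

open Equiv Matrix Finset

section

variable {N : ℕ} {T : Triang N} {z : Fin N → ℂ} (K : Cells T) (D : Develop T z)

namespace CU

/-- antisymmetric delta -/
noncomputable def dl (T : Triang N) (x d : Flag N) : ℂ :=
  (if d = x then 1 else 0) - (if d = T.iota x then 1 else 0)

lemma eq_iota_iff (x y : Flag N) : T.iota x = y ↔ x = T.iota y := by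
  constructor
  · rintro rfl
    exact (T.iota_iota x).symm
  · rintro rfl
    exact T.iota_iota y

lemma eps_inj {q q' : EE N} (h : K.eps q = K.eps q') : q = q' := by
  have := K.eps_bij.1 (a₁ := Sum.inl q) (a₂ := Sum.inl q') h
  simpa using this

lemma eps_ne (q q' : EE N) : K.eps q ≠ T.iota (K.eps q') := by
  intro h
  have := K.eps_bij.1 (a₁ := Sum.inl q) (a₂ := Sum.inr q') h
  simp at this

lemma dch_eps (q : EE N) : K.dch (K.eps q) = Pi.single q 1 := by
  funext q'
  unfold Cells.dch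
  by_cases h : q' = q
  · subst h
    rw [if_pos rfl, if_neg (fun h => eps_ne K _ _ h.symm)]
    simp
  · rw [if_neg (fun h' => h (eps_inj K h')), if_neg (fun h => eps_ne K _ _ h.symm)]
    simp [Pi.single_eq_of_ne h]

lemma dch_iota (x : Flag N) : K.dch (T.iota x) = -K.dch x := by
  funext q
  unfold Cells.dch
  simp only [Pi.neg_apply, neg_sub]
  have h1 : (T.iota (K.eps q) = T.iota x) ↔ (K.eps q = x) := by
    rw [eq_iota_iff, T.iota_iota]
  have h2 : (K.eps q = T.iota x) ↔ (T.iota (K.eps q) = x) := by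
    rw [eq_iota_iff]
  simp only [h1, h2]

lemma cases_eps (x : Flag N) : ∃ q, x = K.eps q ∨ x = T.iota (K.eps q) := by
  obtain ⟨q, hq⟩ := K.eps_bij.2 x
  rcases q with q | q
  · exact ⟨q, Or.inl hq.symm⟩
  · exact ⟨q, Or.inr hq.symm⟩

/-- pairing of a chain with an antisymmetric function on darts -/
lemma pair_dch (F : Flag N → ℂ) (hF : ∀ x, F (T.iota x) = -F x) (x : Flag N) :
    ∑ q, F (K.eps q) * K.dch x q = F x := by
  obtain ⟨q, rfl | rfl⟩ := cases_eps K x
  · rw [dch_eps]
    simp [Pi.single_apply]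
  · rw [dch_iota, dch_eps, hF]
    simp [Pi.single_apply]

lemma del1_dch (x : Flag N) (p : Fin N × Fin 4) :
    K.del1 (K.dch x) p = (if (T.iota x).tri = p then 1 else 0) - (if x.tri = p then 1 else 0) := by
  unfold Cells.del1
  have := pair_dch K (fun x => (if (T.iota x).tri = p then 1 else 0) - (if x.tri = p then 1 else 0))
    (fun x => by simp only [T.iota_iota, neg_sub]) x
  rw [← this]
  exact Finset.sum_congr rfl fun q _ => mul_comm _ _

lemma del1_sum {ι : Type*} (s : Finset ι) (y : ι → EE N → ℂ) (p : Fin N × Fin 4) :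
    K.del1 (∑ i ∈ s, y i) p = ∑ i ∈ s, K.del1 (y i) p := by
  unfold Cells.del1
  rw [Finset.sum_comm]
  refine Finset.sum_congr rfl fun q _ => ?_
  rw [Finset.sum_apply, Finset.sum_mul]

end CU

open CU in
lemma del1_ch (θ : Curve T) : K.del1 (θ.ch K) = 0 := by
  funext p
  unfold Curve.ch
  rw [del1_sum]
  have h1 : ∀ i ∈ range θ.len, K.del1 (K.dch (θ.d i)) p =
      (if (θ.d (i + 1)).tri = p then 1 else 0) - (if (θ.d i).tri = p then 1 else 0) := by
    intro i hi
    rw [del1_dch, θ.step i (Finset.mem_range.1 hi)]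
  rw [Finset.sum_congr rfl h1, Finset.sum_range_sub (fun i => if (θ.d i).tri = p then (1 : ℂ) else 0),
    θ.closed, sub_self]
  rfl

namespace CU

/-- `r = u + u ∘ kap - u ∘ kap²` -/
noncomputable def rr (D : Develop T z) (x : Flag N) : ℂ := D.u x + D.u x.kap - D.u x.kap.kap

noncomputable def ww (D : Develop T z) (x : Flag N) : ℂ := D.u x.rho.rho - D.u x.rho

lemma rr_iota (x : Flag N) : rr D x - rr D (T.iota x) = 2 * D.u x := by
  have h1 : (T.iota x).kap = T.iota x.kap.kap := by
    have := Triang.kap_iota_kap (T := T) x.kap.kap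
    rwa [Flag.kap3] at this
  have h2 : (T.iota x).kap.kap = T.iota x.kap := by
    rw [h1]
    exact Triang.kap_iota_kap (T := T) x.kap
  unfold rr
  rw [h2, h1, D.u_iota, D.u_iota, D.u_iota]
  ring

/-- the contribution of a corner -/
noncomputable def con (D : Develop T z) (i : Fin 4) (x : Flag N) : ℂ :=
  ∑ j, (∑ k : Fin 3, ((corner i x k j : ℤ) : ℂ) * zet (z j) k) * (D.m j * D.augk j)

lemma vx_rho2 (x : Flag N) : x.rho.vx 2 = x.vx 3 := by
  have h : (swap 1 2 * swap 2 3 : Perm (Fin 4)) 2 = 3 := by decide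
  show (x.2 : Perm (Fin 4)) ((swap 1 2 * swap 2 3 : Perm (Fin 4)) 2) = (x.2 : Perm (Fin 4)) 3
  rw [h]

lemma vx_rho3 (x : Flag N) : x.rho.vx 3 = x.vx 1 := by
  have h : (swap 1 2 * swap 2 3 : Perm (Fin 4)) 3 = 1 := by decide
  show (x.2 : Perm (Fin 4)) ((swap 1 2 * swap 2 3 : Perm (Fin 4)) 3) = (x.2 : Perm (Fin 4)) 1
  rw [h]

lemma vx_rho1 (x : Flag N) : x.rho.vx 1 = x.vx 2 := by
  have h : (swap 1 2 * swap 2 3 : Perm (Fin 4)) 1 = 2 := by decide
  show (x.2 : Perm (Fin 4)) ((swap 1 2 * swap 2 3 : Perm (Fin 4)) 1) = (x.2 : Perm (Fin 4)) 2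
  rw [h]

lemma vx_rho0 (x : Flag N) : x.rho.vx 0 = x.vx 0 := by
  have h : (swap 1 2 * swap 2 3 : Perm (Fin 4)) 0 = 0 := by decide
  show (x.2 : Perm (Fin 4)) ((swap 1 2 * swap 2 3 : Perm (Fin 4)) 0) = (x.2 : Perm (Fin 4)) 0
  rw [h]

lemma vx_inj (x : Flag N) {i j : Fin 4} (h : x.vx i = x.vx j) : i = j :=
  (x.2 : Perm (Fin 4)).injective h

lemma con_case1 (x : Flag N) : con D (x.rho.vx 2) x = rr D x - rr D (T.iota x.rho) := by
  unfold con
  rw [Finset.sum_eq_single x.1]
  · have h1 : ∀ k : Fin 3, ((corner (x.rho.vx 2) x k x.1 : ℤ) : ℂ) * zet (z x.1) k =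
        if kind (x.vx 0) (x.vx 1) = k then zet (z x.1) k else 0 := by
      intro k
      unfold corner
      rw [if_pos rfl, if_pos (vx_rho2 x)]
      split_ifs <;> simp
    rw [Finset.sum_congr rfl fun k _ => h1 k, Finset.sum_ite_eq, if_pos (Finset.mem_univ _)]
    have h2 := D.cc_eq x
    have h3 := D.cc_augk x
    unfold rr
    rw [← h3, h2]
    ring
  · intro j _ hj
    have h1 : ∀ k : Fin 3, ((corner (x.rho.vx 2) x k j : ℤ) : ℂ) * zet (z j) k = 0 := by
      intro k
      unfold corner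
      rw [if_neg (Ne.symm hj)]
      simp
    rw [Finset.sum_congr rfl fun k _ => h1 k]
    simp
  · intro h
    exact absurd (Finset.mem_univ _) h

lemma con_case2 (x : Flag N) :
    con D (x.rho.rho.vx 2) x = rr D (T.iota x) - rr D x.rho.rho := by
  have hv : x.rho.rho.vx 2 = x.vx 1 := by rw [vx_rho2, vx_rho3]
  have hv3 : x.rho.rho.vx 2 ≠ x.vx 3 := by
    rw [hv]
    intro h
    exact absurd (vx_inj x h) (by decide)
  have hk : kind (x.vx 0) (x.vx 3) = kind (x.rho.rho.vx 0) (x.rho.rho.vx 1) := by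
    rw [vx_rho0, vx_rho0, vx_rho1, vx_rho2]
  unfold con
  rw [Finset.sum_eq_single x.1]
  · have h1 : ∀ k : Fin 3, ((corner (x.rho.rho.vx 2) x k x.1 : ℤ) : ℂ) * zet (z x.1) k =
        if kind (x.vx 0) (x.vx 3) = k then -zet (z x.1) k else 0 := by
      intro k
      unfold corner
      rw [if_pos rfl, if_neg hv3, if_pos hv]
      split_ifs <;> simp
    rw [Finset.sum_congr rfl fun k _ => h1 k, Finset.sum_ite_eq, if_pos (Finset.mem_univ _)]
    have h2 := D.cc_eq x.rho.rho
    have h3 := D.cc_augk x.rho.rho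
    rw [Flag.rho3] at h3
    have h4 : x.rho.rho.1 = x.1 := rfl
    rw [h4] at h2 h3
    unfold rr
    rw [hk]
    linear_combination (D.augk x.1) * h2 - h3
  · intro j _ hj
    have h1 : ∀ k : Fin 3, ((corner (x.rho.rho.vx 2) x k j : ℤ) : ℂ) * zet (z j) k = 0 := by
      intro k
      unfold corner
      rw [if_neg (Ne.symm hj)]
      simp
    rw [Finset.sum_congr rfl fun k _ => h1 k]
    simp
  · intro h
    exact absurd (Finset.mem_univ _) h

/-- the identity at one step of the curve -/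
lemma con_step (x e : Flag N) (he : e.tri = x.tri) (hne : e ≠ x) :
    con D (e.vx 2) x = -(1 / 3) * (ww D x - ww D e) +
      ((rr D x - D.u x) - (rr D (T.iota e) - D.u (T.iota e))) := by
  rcases Flag.tri_fib x e he.symm with h | rfl | rfl
  · exact absurd h hne
  · rw [con_case1, D.u_iota]
    have h1 := D.u_cocycle x
    unfold ww
    simp only [Flag.rho3]
    linear_combination (2 / 3 : ℂ) * h1
  · rw [con_case2, D.u_iota]
    have h1 := D.u_cocycle x
    have h2 := rr_iota D x
    have h3 := rr_iota D x.rho.rho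
    unfold ww
    simp only [Flag.rho3]
    linear_combination (-(2 / 3 : ℂ)) * h1 - h2 - h3

lemma dl_iota (x d : Flag N) : dl T x (T.iota d) = -dl T x d := by
  unfold dl
  have h1 : (T.iota d = T.iota x) ↔ (d = x) := by
    rw [eq_iota_iff, T.iota_iota]
  have h2 : (T.iota d = x) ↔ (d = T.iota x) := by
    rw [eq_iota_iff]
  simp only [h1, h2, neg_sub]

lemma ext_u (hT : T.OneCusp) (d : Flag N) :
    (K.surf hT).ext (fun q => D.u (K.eps q)) d = D.u d :=
  pair_dch K D.u D.u_iota d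

lemma dch_eq_dl (x : Flag N) (q : EE N) : K.dch x q = dl T x (K.eps q) := by
  unfold Cells.dch dl
  have h2 : (T.iota (K.eps q) = x) ↔ (K.eps q = T.iota x) := by
    rw [eq_iota_iff]
  simp only [h2]

lemma ext_dch (hT : T.OneCusp) (x d : Flag N) : (K.surf hT).ext (K.dch x) d = dl T x d := by
  have := pair_dch K (dl T x) (dl_iota x) d
  rw [← this]
  show ∑ q, K.dch x q * K.dch d q = _
  exact Finset.sum_congr rfl fun q _ => by rw [dch_eq_dl K x]

lemma sum_dl (F : Flag N → ℂ) (x : Flag N) : ∑ d, F d * dl T x d = F x - F (T.iota x) := by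
  unfold dl
  simp only [mul_sub, Finset.sum_sub_distrib, mul_ite, mul_one, mul_zero, Finset.sum_ite_eq',
    Finset.mem_univ, if_true]

lemma sum_rho (F : Flag N → ℂ) : ∑ d : Flag N, F d.rho = ∑ d, F d := by
  have hb : Function.Bijective (Flag.rho (N := N)) := by
    constructor
    · intro x y h
      have := congrArg (fun w => Flag.rho (Flag.rho w)) h
      simpa only [Flag.rho3] using this
    · intro y
      exact ⟨y.rho.rho, Flag.rho3 y⟩
  exact hb.sum_comp F

lemma inter_dch (hT : T.OneCusp) (x : Flag N) :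
    (K.surf hT).inter (fun q => D.u (K.eps q)) (K.dch x) = (1 / 6) * (ww D x - ww D (T.iota x)) := by
  unfold Surf.inter
  congr 1
  have h1 : ∀ d : Flag N, (K.surf hT).ext (fun q => D.u (K.eps q)) d *
        (K.surf hT).ext (K.dch x) ((K.surf hT).rho d) -
      (K.surf hT).ext (fun q => D.u (K.eps q)) ((K.surf hT).rho d) *
        (K.surf hT).ext (K.dch x) d = D.u d.rho.rho.rho * dl T x d.rho - D.u d.rho * dl T x d := by
    intro d
    rw [ext_u, ext_u, ext_dch, ext_dch, Flag.rho3]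
    rfl
  rw [Finset.sum_congr rfl fun d _ => h1 d, Finset.sum_sub_distrib,
    sum_rho (fun d => D.u d.rho.rho * dl T x d), sum_dl (fun d => D.u d.rho.rho),
    sum_dl (fun d => D.u d.rho)]
  unfold ww
  ring

lemma ext_sum (hT : T.OneCusp) {ι : Type*} (s : Finset ι) (y : ι → EE N → ℂ) (d : Flag N) :
    (K.surf hT).ext (∑ i ∈ s, y i) d = ∑ i ∈ s, (K.surf hT).ext (y i) d := by
  unfold Surf.ext
  rw [Finset.sum_comm]
  refine Finset.sum_congr rfl fun q _ => ?_
  rw [Finset.sum_apply, Finset.sum_mul]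

lemma inter_sum (hT : T.OneCusp) {ι : Type*} (s : Finset ι) (x : EE N → ℂ) (y : ι → EE N → ℂ) :
    (K.surf hT).inter x (∑ i ∈ s, y i) = ∑ i ∈ s, (K.surf hT).inter x (y i) := by
  unfold Surf.inter
  rw [← Finset.mul_sum, Finset.sum_comm]
  congr 1
  refine Finset.sum_congr rfl fun d _ => ?_
  rw [ext_sum, ext_sum, Finset.mul_sum, Finset.mul_sum, Finset.sum_sub_distrib]

end CU

open CU in
lemma Cm_sum (hT : T.OneCusp) (θ : Curve T) : ∑ j, Cm z θ j * (D.m j * D.augk j) =
    -2 * (K.surf hT).inter (fun q => D.u (K.eps q)) (θ.ch K) := by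
  have hL : ∑ j, Cm z θ j * (D.m j * D.augk j) =
      ∑ i ∈ range θ.len, con D ((T.iota (θ.d i)).vx 2) (θ.d (i + 1)) := by
    unfold con
    rw [Finset.sum_comm]
    refine Finset.sum_congr rfl fun j _ => ?_
    unfold Cm Curve.Co
    rw [← Finset.sum_mul, Finset.sum_comm]
    congr 1
    refine Finset.sum_congr rfl fun k _ => ?_
    push_cast
    rw [Finset.sum_mul]
  have hs : ∀ i ∈ range θ.len, con D ((T.iota (θ.d i)).vx 2) (θ.d (i + 1)) =
      -(1 / 3) * (ww D (θ.d (i + 1)) - ww D (T.iota (θ.d i))) +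
        ((rr D (θ.d (i + 1)) - D.u (θ.d (i + 1))) - (rr D (θ.d i) - D.u (θ.d i))) := by
    intro i hi
    have hi' := Finset.mem_range.1 hi
    have := con_step D (θ.d (i + 1)) (T.iota (θ.d i)) (θ.step i hi') (θ.normal i hi')
    rwa [T.iota_iota] at this
  have ht : ∑ i ∈ range θ.len, ww D (θ.d (i + 1)) = ∑ i ∈ range θ.len, ww D (θ.d i) := by
    have := Finset.sum_range_sub (fun i => ww D (θ.d i)) θ.len
    simp only [θ.closed, sub_self, Finset.sum_sub_distrib] at this
    exact sub_eq_zero.1 this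
  rw [hL, Finset.sum_congr rfl hs, Finset.sum_add_distrib,
    Finset.sum_range_sub (fun i => rr D (θ.d i) - D.u (θ.d i)), θ.closed, sub_self, add_zero,
    ← Finset.mul_sum, Finset.sum_sub_distrib, ht]
  unfold Curve.ch
  rw [inter_sum, Finset.sum_congr rfl fun i _ => inter_dch K D hT (θ.d i), ← Finset.mul_sum,
    Finset.sum_sub_distrib]
  ring

end

end Pool.Agent.Helper34.OneLoop
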