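import Pool.Agent.Helper34.OneLoop.Defs

/-!
Internal objects of the proof.
-/

namespace Pool.Agent.Helper34.OneLoop

open Equiv Matrix Finset

/-! ### A closed oriented surface as a combinatorial map, and its cellular chain complex -/

/-- Darts `D`; `rho` rotates the three darts of a triangle; `iota` is the opposite dart.  `V` triangles,
`E` edges (`eps` chooses one dart of each), `O` vertices (orbits of `rho (rho (iota ·))`).
Euler characteristic `0`, connected. -/
structure Surf (D V O E : Type) [Fintype V] [Fintype O] [Fintype E] where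
  rho : D → D
  iota : D → D
  rho3 : ∀ d, rho (rho (rho d)) = d
  rho_ne : ∀ d, rho d ≠ d
  iota2 : ∀ d, iota (iota d) = d
  t : D → V
  o : D → O
  eps : E → D
  t_rho : ∀ d, t (rho d) = t d
  t_fib : ∀ d d', t d = t d' → d' = d ∨ d' = rho d ∨ d' = rho (rho d)
  t_surj : Function.Surjective t
  o_S : ∀ d, o (rho (rho (iota d))) = o d
  o_fib : ∀ d d', o d = o d' → ∃ k : ℕ, (fun x => rho (rho (iota x)))^[k] d = d'
  o_surj : Function.Surjective o
  eps_bij : Function.Bijective (Sum.elim eps (fun q => iota (eps q)))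
  conn : ∀ p q, Relation.ReflTransGen (fun a b => ∃ d, t d = a ∧ t (iota d) = b) p q
  card : Fintype.card E = Fintype.card V + Fintype.card O

namespace Surf

variable {D V O E : Type} [Fintype V] [Fintype O] [Fintype E] [DecidableEq D] [DecidableEq V]
  (M : Surf D V O E) {R : Type} [CommRing R]

/-- The chain of the dual edge crossed by the dart `d`. -/
def dch (R : Type) [CommRing R] (d : D) : E → R := fun q =>
  (if M.eps q = d then 1 else 0) - (if M.iota (M.eps q) = d then 1 else 0)

/-- The antisymmetric extension to darts of a 1-chain. -/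
def ext (y : E → R) (d : D) : R := ∑ q, y q * M.dch R d q

/-- Boundary of 1-chains. -/
def del1 (y : E → R) : V → R := fun p =>
  ∑ q, y q * ((if M.t (M.iota (M.eps q)) = p then 1 else 0) - (if M.t (M.eps q) = p then 1 else 0))

/-- Boundary of 2-chains. -/
def del2 (s : O → R) : E → R := fun q => s (M.o (M.eps q)) - s (M.o (M.iota (M.eps q)))

/-- The intersection form. -/
noncomputable def inter [Fintype D] (x y : E → ℂ) : ℂ :=
  (1 / 6) * ∑ d : D, (M.ext x d * M.ext y (M.rho d) - M.ext x (M.rho d) * M.ext y d)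

end Surf

/-! ### Darts of the cusp torus -/

section

variable {N : ℕ} {T : Triang N} {z : Fin N → ℂ}

/-- An even permutation with value `i` at `2`. -/
def basePerm : Fin 4 → Perm (Fin 4) :=
  ![swap 0 2 * swap 1 3, swap 1 2 * swap 0 3, 1, swap 0 1 * swap 2 3]

lemma sign_basePerm : ∀ i, Perm.sign (basePerm i) = 1 := by decide

/-- A flag crossing a given face. -/
def baseFlag (p : Fin N × Fin 4) : Flag N :=
  (p.1, ⟨basePerm p.2, Perm.mem_alternatingGroup.2 (sign_basePerm p.2)⟩)

/-- The three flags crossing a given face from a given side. -/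
def faceFlag (p : Fin N × Fin 4) (s : Fin 3) : Flag N := Flag.kap^[s] (baseFlag p)

/-- Index type of the edges of the cusp triangulation: face, corner. -/
abbrev EE (N : ℕ) := Fin (2 * N) × Fin 3

/-- The chosen dart over an edge of the cusp triangulation. -/
def Cells.eps (K : Cells T) (q : EE N) : Flag N := faceFlag (K.side q.1) q.2

/-- The vertices (as vectors of `ℂ²`) of a flag. -/
def Develop.vv (D : Develop T z) (x : Flag N) (i : Fin 4) : Fin 2 → ℂ := D.v x.1 (x.vx i)

/-- `om (v_i) (v_j)` for the vertices `i`, `j` of a flag. -/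
def Develop.c (D : Develop T z) (x : Flag N) (i j : Fin 4) : ℂ := om (D.vv x i) (D.vv x j)

/-- The translation vector of the side of the cusp triangle. -/
noncomputable def Develop.u (D : Develop T z) (x : Flag N) : ℂ :=
  D.c x 1 3 / (D.c x 0 1 * D.c x 0 3)

/-- The square of the Ptolemy coordinate of the edge of a flag. -/
noncomputable def Develop.Csq (D : Develop T z) (x : Flag N) : ℂ := D.c x 0 1 ^ 2

/-- The coefficients of the linear relation between the `nil (v j a)`, `a : Fin 4`. -/
noncomputable def Develop.kk (D : Develop T z) (j : Fin N) (a : Fin 4) : ℂ :=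
  (∏ b ∈ univ.erase a, om (D.v j a) (D.v j b))⁻¹

/-- The sum of the coefficients `kk j a`. -/
noncomputable def Develop.augk (D : Develop T z) (j : Fin N) : ℂ := ∑ a, D.kk j a

/-- `m_j`, with `c_ab c_cd = m_j ζ`. -/
noncomputable def Develop.m (D : Develop T z) (j : Fin N) : ℂ :=
  om (D.v j 0) (D.v j 1) * om (D.v j 2) (D.v j 3) * z j

/-- The symmetric product of two vectors of `ℂ²`, in coordinates of `sl₂(ℂ)`; `sym v v = nil v`. -/
noncomputable def sym (v w : Fin 2 → ℂ) : Fin 3 → ℂ :=
  ![v 0 * w 0, -((v 0 * w 1 + v 1 * w 0) / 2), -(v 1 * w 1)]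

/-- The infinitesimal rotation about the edge of a flag. -/
noncomputable def Develop.H (D : Develop T z) (x : Flag N) : Fin 3 → ℂ :=
  (D.c x 0 1)⁻¹ • sym (D.vv x 0) (D.vv x 1)

/-- The chain of a dart. -/
def Cells.dch (K : Cells T) (x : Flag N) : EE N → ℂ := fun q =>
  (if K.eps q = x then 1 else 0) - (if T.iota (K.eps q) = x then 1 else 0)

/-- Boundary of 1-chains of the cusp torus. -/
def Cells.del1 (K : Cells T) (y : EE N → ℂ) : Fin N × Fin 4 → ℂ := fun p =>
  ∑ q, y q * ((if (T.iota (K.eps q)).tri = p then 1 else 0) - (if (K.eps q).tri = p then 1 else 0))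

/-- Boundary of 2-chains of the cusp torus. -/
def Cells.del2 (K : Cells T) (s : Fin N × Bool → ℂ) : EE N → ℂ := fun q =>
  s (K.cls (K.eps q)) - s (K.cls (T.iota (K.eps q)))

/-- From 0-chains of the cusp torus to 0-chains of the spine. -/
def Phi0 (D : Develop T z) (s : Fin N × Fin 4 → ℂ) : Fin N → Fin 3 → ℂ := fun j =>
  ∑ a, s (j, a) • nil (D.v j a)

/-- From 1-chains of the cusp torus to 1-chains of the spine. -/
def Phi1 (K : Cells T) (D : Develop T z) (y : EE N → ℂ) : Fin (2 * N) → Fin 3 → ℂ := fun f =>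
  ∑ s, y (f, s) • nil (D.vv (K.eps (f, s)) 0)

/-- From 2-chains of the cusp torus to 2-chains of the spine. -/
def Phi2 (K : Cells T) (D : Develop T z) (s : Fin N × Bool → ℂ) : Fin N → Fin 3 → ℂ := fun e =>
  s (e, false) • nil (D.vv (K.rep e) 0) - s (e, true) • nil (D.vv (K.rep e) 1)

/-- The 2-chain `H ⊗ e`. -/
noncomputable def Hm (K : Cells T) (D : Develop T z) (e : Fin N) : Fin N → Fin 3 → ℂ :=
  Pi.single e (D.H (K.rep e))

/-- `Phi1⁻¹` of the contribution of one flag to the boundary of `H ⊗ e`. -/
noncomputable def xi (K : Cells T) (D : Develop T z) (x : Flag N) : EE N → ℂ :=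
  (1 / 2 : ℂ) • (D.u x • K.dch x + D.u x.kap • K.dch x.kap - D.u x.kap.kap • K.dch x.kap.kap)

/-- `Phi1⁻¹ (bd2 (Hm e))`. -/
noncomputable def Xe (K : Cells T) (D : Develop T z) (e : Fin N) : EE N → ℂ :=
  ∑ x : Flag N with K.cls x = (e, false), xi K D x

/-- The Jacobian of the gluing equations, up to normalisations. -/
noncomputable def Jm (K : Cells T) (D : Develop T z) (e j : Fin N) : ℂ :=
  -(1 / 2) * ∑ x : Flag N with x.1 = j ∧ K.cls x = (e, false), D.c x 0 1 * D.c x 2 3

/-- The relation between the `nil (v j a)` as a 0-chain of the cusp torus. -/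
noncomputable def Kv (D : Develop T z) (j : Fin N) : Fin N × Fin 4 → ℂ := fun p =>
  if p.1 = j then D.kk j p.2 else 0

/-- The chain of a curve. -/
def Curve.ch (K : Cells T) (θ : Curve T) : EE N → ℂ := ∑ i ∈ range θ.len, K.dch (θ.d i)

/-- The row of the gluing matrix. -/
noncomputable def Rm (K : Cells T) (z : Fin N → ℂ) (e j : Fin N) : ℂ :=
  ∑ k : Fin 3, (K.Gl k e j : ℂ) * zet (z j) k

/-- The row of completeness coefficients. -/
noncomputable def Cm (z : Fin N → ℂ) (θ : Curve T) (j : Fin N) : ℂ :=
  ∑ k : Fin 3, (θ.Co k j : ℂ) * zet (z j) k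

end

end Pool.Agent.Helper34.OneLoop
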