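import Pool.Agent.Helper34.OneLoop.Core

/-!
Module DEV: existence of the developing data from the completeness equations.
-/

namespace Pool.Agent.Helper34.OneLoop

open Equiv Matrix Finset

namespace DEV

variable {N : ℕ} {T : Triang N}

/-! ### Flags -/

lemma rho_vx (x : Flag N) (i : Fin 4) :
    x.rho.vx i = x.vx ((swap 1 2 * swap 2 3 : Perm (Fin 4)) i) := rfl

lemma rho_vx0 (x : Flag N) : x.rho.vx 0 = x.vx 0 := by
  rw [rho_vx, show (swap 1 2 * swap 2 3 : Perm (Fin 4)) 0 = 0 by decide]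

lemma rho_vx1 (x : Flag N) : x.rho.vx 1 = x.vx 2 := by
  rw [rho_vx, show (swap 1 2 * swap 2 3 : Perm (Fin 4)) 1 = 2 by decide]

lemma rho_vx2 (x : Flag N) : x.rho.vx 2 = x.vx 3 := by
  rw [rho_vx, show (swap 1 2 * swap 2 3 : Perm (Fin 4)) 2 = 3 by decide]

lemma rho_vx3 (x : Flag N) : x.rho.vx 3 = x.vx 1 := by
  rw [rho_vx, show (swap 1 2 * swap 2 3 : Perm (Fin 4)) 3 = 1 by decide]

lemma rho_fst (x : Flag N) : x.rho.1 = x.1 := rfl

lemma flag_ext (x y : Flag N) (h1 : x.1 = y.1) (h : ∀ i, x.vx i = y.vx i) : x = y :=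
  Prod.ext h1 (Subtype.ext (Equiv.ext h))

lemma rho3 (x : Flag N) : x.rho.rho.rho = x := by
  refine flag_ext _ _ rfl ?_
  intro i
  rw [rho_vx, rho_vx, rho_vx]
  congr 1
  revert i
  decide

lemma tri_fib (x y : Flag N) (h : x.tri = y.tri) : y = x ∨ y = x.rho ∨ y = x.rho.rho := by
  have key : ∀ k : alternatingGroup (Fin 4), (k : Perm (Fin 4)) 0 = 0 →
      k = 1 ∨ k = ⟨swap 1 2 * swap 2 3, Perm.mem_alternatingGroup.2 (by decide)⟩ ∨
      k = ⟨swap 1 2 * swap 2 3, Perm.mem_alternatingGroup.2 (by decide)⟩ *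
        ⟨swap 1 2 * swap 2 3, Perm.mem_alternatingGroup.2 (by decide)⟩ := by decide
  obtain ⟨j, g⟩ := x
  obtain ⟨j', g'⟩ := y
  simp only [Flag.tri, Flag.vx, Prod.mk.injEq] at h
  obtain ⟨rfl, h⟩ := h
  have h1 : ((g⁻¹ * g' : alternatingGroup (Fin 4)) : Perm (Fin 4)) 0 = 0 := by
    simp [← h]
  rcases key _ h1 with h2 | h2 | h2
  · left
    rw [inv_mul_eq_one] at h2
    rw [h2]
  · right; left
    rw [inv_mul_eq_iff_eq_mul] at h2
    rw [h2]; rfl
  · right; right
    rw [inv_mul_eq_iff_eq_mul, ← mul_assoc] at h2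
    rw [h2]; rfl

variable (T) in
lemma iota_vx (x : Flag N) (i : Fin 4) :
    (T.iota x).vx i = T.glue x.1 (x.vx 2) (x.vx (swap 1 3 i)) := rfl

variable (T) in
lemma iota_fst (x : Flag N) : (T.iota x).1 = T.nbr x.1 (x.vx 2) := rfl

variable (T) in
lemma iota_vx0 (x : Flag N) : (T.iota x).vx 0 = T.glue x.1 (x.vx 2) (x.vx 0) := by
  rw [iota_vx, show (swap 1 3 : Perm (Fin 4)) 0 = 0 by decide]

variable (T) in
lemma iota_vx1 (x : Flag N) : (T.iota x).vx 1 = T.glue x.1 (x.vx 2) (x.vx 3) := by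
  rw [iota_vx, show (swap 1 3 : Perm (Fin 4)) 1 = 3 by decide]

variable (T) in
lemma iota_vx2 (x : Flag N) : (T.iota x).vx 2 = T.glue x.1 (x.vx 2) (x.vx 2) := by
  rw [iota_vx, show (swap 1 3 : Perm (Fin 4)) 2 = 2 by decide]

variable (T) in
lemma iota_vx3 (x : Flag N) : (T.iota x).vx 3 = T.glue x.1 (x.vx 2) (x.vx 1) := by
  rw [iota_vx, show (swap 1 3 : Perm (Fin 4)) 3 = 1 by decide]

variable (T) in
lemma iota_iota (x : Flag N) : T.iota (T.iota x) = x := by
  have h1 : (T.iota (T.iota x)).1 = x.1 := by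
    rw [iota_fst, iota_vx2, iota_fst, T.nbr_nbr]
  refine Prod.ext h1 (Subtype.ext (Equiv.ext fun i => ?_))
  change (T.iota (T.iota x)).vx i = x.vx i
  have : (swap 1 3 : Perm (Fin 4)) ((swap 1 3) i) = i := by simp
  rw [iota_vx, iota_vx2, iota_vx, iota_fst, T.glue_glue, this]
  simp

variable (T) in
lemma iota_ne (x : Flag N) : T.iota x ≠ x := by
  intro h
  apply T.no_fix x.1 (x.vx 2)
  have h1 := congrArg (fun y : Flag N => (y.1, y.vx 2)) h
  simp only [iota_vx2, iota_fst] at h1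
  exact h1

/-! ### The model -/

/-- model vectors of a tetrahedron of shape `z` -/
def mdl (z : ℂ) : Fin 4 → Fin 2 → ℂ := ![![1, 0], ![0, 1], ![1, 1], ![z, 1]]

/-- `u` for three vectors -/
noncomputable def uu (v1 v2 v3 : Fin 2 → ℂ) : ℂ := om v2 v3 / (om v1 v2 * om v1 v3)

lemma om_smul (a b : ℂ) (v w : Fin 2 → ℂ) : om (a • v) (b • w) = a * b * om v w := by
  simp [om]; ring

lemma om_swap (v w : Fin 2 → ℂ) : om w v = -om v w := by
  simp [om]; ring

lemma uu_swap (v1 v2 v3 : Fin 2 → ℂ) : uu v1 v3 v2 = -uu v1 v2 v3 := by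
  unfold uu
  rw [om_swap v2 v3, mul_comm]
  ring

lemma uu_smul (a b c : ℂ) (ha : a ≠ 0) (hb : b ≠ 0) (hc : c ≠ 0) (v1 v2 v3 : Fin 2 → ℂ) :
    uu (a • v1) (b • v2) (c • v3) = uu v1 v2 v3 / a ^ 2 := by
  unfold uu
  simp only [om_smul]
  by_cases h1 : om v1 v2 = 0
  · simp [h1]
  by_cases h2 : om v1 v3 = 0
  · simp [h2]
  field_simp

lemma om_mdl_ne {z : ℂ} (h0 : z ≠ 0) (h1 : z ≠ 1) : ∀ a b : Fin 4, a ≠ b →
    om (mdl z a) (mdl z b) ≠ 0 := by
  have h2 : 1 - z ≠ 0 := sub_ne_zero.2 (Ne.symm h1)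
  have h3 : z - 1 ≠ 0 := sub_ne_zero.2 h1
  intro a b hab
  fin_cases a <;> fin_cases b <;> simp_all [om, mdl]

/-- `u` of the model -/
noncomputable def u0 (z : Fin N → ℂ) (x : Flag N) : ℂ :=
  uu (mdl (z x.1) (x.vx 0)) (mdl (z x.1) (x.vx 1)) (mdl (z x.1) (x.vx 3))

lemma vx_ne (x : Flag N) {i j : Fin 4} (h : i ≠ j) : x.vx i ≠ x.vx j := fun h' =>
  h ((x.2 : Perm (Fin 4)).injective h')

lemma u0_ne {z : Fin N → ℂ} (hz : ∀ j, z j ≠ 0 ∧ z j ≠ 1) (x : Flag N) : u0 z x ≠ 0 := by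
  unfold u0 uu
  have h := om_mdl_ne (hz x.1).1 (hz x.1).2
  refine div_ne_zero (h _ _ (vx_ne x (by decide))) (mul_ne_zero (h _ _ (vx_ne x (by decide)))
    (h _ _ (vx_ne x (by decide))))

lemma even_cases : ∀ g : alternatingGroup (Fin 4),
    ((g : Perm (Fin 4)) 0, (g : Perm (Fin 4)) 1, (g : Perm (Fin 4)) 2, (g : Perm (Fin 4)) 3) ∈
    ([(0, 1, 2, 3), (0, 2, 3, 1), (0, 3, 1, 2), (1, 0, 3, 2), (1, 3, 2, 0), (1, 2, 0, 3),
      (2, 3, 0, 1), (2, 0, 1, 3), (2, 1, 3, 0), (3, 2, 1, 0), (3, 1, 0, 2), (3, 0, 2, 1)] :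
      List (Fin 4 × Fin 4 × Fin 4 × Fin 4)) := by decide

lemma u0_rho {z : Fin N → ℂ} (hz : ∀ j, z j ≠ 0 ∧ z j ≠ 1) (x : Flag N) :
    -(u0 z x) / u0 z x.rho = shp (z x.1) (kind (x.vx 0) (x.vx 1)) := by
  have h0 := (hz x.1).1
  have h1 : 1 - z x.1 ≠ 0 := sub_ne_zero.2 (Ne.symm (hz x.1).2)
  have h1' : z x.1 - 1 ≠ 0 := sub_ne_zero.2 (hz x.1).2
  unfold u0
  rw [rho_vx0, rho_vx1, rho_vx3, rho_fst]
  have h := even_cases x.2
  have e0 : (x.2 : Perm (Fin 4)) 0 = x.vx 0 := rfl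
  have e1 : (x.2 : Perm (Fin 4)) 1 = x.vx 1 := rfl
  have e2 : (x.2 : Perm (Fin 4)) 2 = x.vx 2 := rfl
  have e3 : (x.2 : Perm (Fin 4)) 3 = x.vx 3 := rfl
  rw [e0, e1, e2, e3] at h
  simp only [List.mem_cons, Prod.mk.injEq, List.not_mem_nil, or_false] at h
  rcases h with h | h | h | h | h | h | h | h | h | h | h | h <;>
  · obtain ⟨a0, a1, a2, a3⟩ := h
    rw [a0, a1, a2, a3]
    simp only [uu, om, mdl, kind, shp]
    simp
    try field_simp
    try ring

/-! ### Walks on the cusp triangulation -/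

/-- `l` is a walk from the cusp triangle `p` to `q` -/
def IsWalk (T : Triang N) : Fin N × Fin 4 → List (Flag N) → Fin N × Fin 4 → Prop
  | p, [], q => p = q
  | p, x :: l, q => x.tri = p ∧ IsWalk T (T.iota x).tri l q

lemma isWalk_append (l1 l2 : List (Flag N)) : ∀ (p q : Fin N × Fin 4),
    IsWalk T p (l1 ++ l2) q ↔ ∃ m, IsWalk T p l1 m ∧ IsWalk T m l2 q := by
  induction l1 with
  | nil => intro p q; simp [IsWalk]
  | cons x l ih =>
    intro p q
    simp only [List.cons_append, IsWalk, ih]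
    constructor
    · rintro ⟨h1, m, h2, h3⟩
      exact ⟨m, ⟨h1, h2⟩, h3⟩
    · rintro ⟨m, ⟨h1, h2⟩, h3⟩
      exact ⟨h1, m, h2, h3⟩

/-- the ratio for crossing a side -/
noncomputable def rr (T : Triang N) (z : Fin N → ℂ) (x : Flag N) : ℂ :=
  -(u0 z x) / u0 z (T.iota x)

lemma rr_ne {z : Fin N → ℂ} (hz : ∀ j, z j ≠ 0 ∧ z j ≠ 1) (x : Flag N) : rr T z x ≠ 0 :=
  div_ne_zero (neg_ne_zero.2 (u0_ne hz x)) (u0_ne hz _)

lemma rr_iota {z : Fin N → ℂ} (hz : ∀ j, z j ≠ 0 ∧ z j ≠ 1) (x : Flag N) :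
    rr T z x * rr T z (T.iota x) = 1 := by
  have h1 := u0_ne hz x
  have h2 := u0_ne hz (T.iota x)
  unfold rr
  rw [iota_iota]
  field_simp

lemma isWalk_rev (l : List (Flag N)) : ∀ (p q : Fin N × Fin 4), IsWalk T p l q →
    IsWalk T q ((l.map T.iota).reverse) p := by
  induction l with
  | nil => intro p q h; exact h.symm
  | cons x l ih =>
    rintro p q ⟨h1, h2⟩
    rw [List.map_cons, List.reverse_cons, isWalk_append]
    exact ⟨(T.iota x).tri, ih _ _ h2, rfl, by rw [iota_iota]; exact h1⟩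

lemma prod_rev {z : Fin N → ℂ} (hz : ∀ j, z j ≠ 0 ∧ z j ≠ 1) (l : List (Flag N)) :
    (l.map (rr T z)).prod * (((l.map T.iota).reverse).map (rr T z)).prod = 1 := by
  induction l with
  | nil => simp
  | cons x l ih =>
    rw [List.map_cons, List.map_cons, List.reverse_cons, List.map_append, List.prod_append,
      List.prod_cons]
    simp only [List.map_cons, List.map_nil, List.prod_cons, List.prod_nil, mul_one]
    have := rr_iota (T := T) hz x
    calc _ = (rr T z x * rr T z (T.iota x)) * ((l.map (rr T z)).prod *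
        (((l.map T.iota).reverse).map (rr T z)).prod) := by ring
      _ = 1 := by rw [this, ih, one_mul]

lemma isWalk_step (l : List (Flag N)) : ∀ (p q : Fin N × Fin 4), IsWalk T p l q →
    (∀ (h : 0 < l.length), (l[0]).tri = p) ∧
    (∀ (h : 0 < l.length), (T.iota (l[l.length - 1]'(by omega))).tri = q) ∧
    ∀ (i : ℕ) (h : i + 1 < l.length), (T.iota (l[i]'(by omega))).tri = (l[i + 1]).tri := by
  induction l with
  | nil => intro p q h; simp
  | cons x l ih =>
    rintro p q ⟨h1, h2⟩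
    obtain ⟨a1, a2, a3⟩ := ih _ _ h2
    refine ⟨fun _ => h1, fun _ => ?_, fun i hi => ?_⟩
    · rcases l with _ | ⟨y, l⟩
      · exact h2
      · have := a2 (by simp)
        simpa using this
    · rcases i with _ | i
      · have := a1 (by simpa using hi)
        simp only [List.getElem_cons_zero, List.getElem_cons_succ]
        rw [this]
      · have := a3 i (by simpa using hi)
        simpa using this

/-! ### The product along a normal closed curve -/

lemma shp_ne {z : ℂ} (h0 : z ≠ 0) (h1 : z ≠ 1) (k : Fin 3) : shp z k ≠ 0 := by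
  have h2 : 1 - z ≠ 0 := sub_ne_zero.2 (Ne.symm h1)
  have h3 : z - 1 ≠ 0 := sub_ne_zero.2 h1
  have h4 : 1 - z⁻¹ ≠ 0 := by
    intro h
    apply h1
    have : z⁻¹ = 1 := (sub_eq_zero.1 h).symm
    rw [inv_eq_one] at this
    exact this
  fin_cases k <;> simp [shp, h0, h2, h4]

/-- product of the shapes with the exponents of a corner -/
lemma prod_corner {z : Fin N → ℂ} (hz : ∀ j, z j ≠ 0 ∧ z j ≠ 1) (e x : Flag N)
    (h : e.tri = x.tri) (hne : e ≠ x) :
    ∏ k : Fin 3, ∏ j, shp (z j) k ^ corner (e.vx 2) x k j = -(u0 z x) / u0 z e := by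
  have key : ∀ (k0 : Fin 3) (s : ℤ), (∀ k j, corner (e.vx 2) x k j =
      if x.1 = j then (if k0 = k then s else 0) else 0) →
      ∏ k : Fin 3, ∏ j, shp (z j) k ^ corner (e.vx 2) x k j = shp (z x.1) k0 ^ s := by
    intro k0 s hc
    rw [Finset.prod_eq_single k0, Finset.prod_eq_single x.1]
    · rw [hc]; simp
    · intro j _ hj
      rw [hc, if_neg (Ne.symm hj), zpow_zero]
    · simp
    · intro k _ hk
      refine Finset.prod_eq_one fun j _ => ?_
      rw [hc, if_neg (Ne.symm hk)]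
      simp
    · simp
  rcases tri_fib x e h.symm with he | he | he
  · exact absurd he hne
  · -- e = rho x
    rw [key (kind (x.vx 0) (x.vx 1)) 1]
    · rw [zpow_one, he, ← u0_rho hz x]
    · intro k j
      unfold corner
      have h1 : e.vx 2 = x.vx 3 := by rw [he, rho_vx2]
      rw [if_pos h1]
  · -- e = rho (rho x)
    have hx : x = e.rho := by rw [he, rho3]
    have h1 : e.vx 2 = x.vx 1 := by rw [he, rho_vx2, rho_vx3]
    rw [key (kind (x.vx 0) (x.vx 3)) (-1)]
    · have h2 : kind (x.vx 0) (x.vx 3) = kind (e.vx 0) (e.vx 1) := by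
        rw [hx, rho_vx0, rho_vx3]
      have h3 : x.1 = e.1 := by rw [hx, rho_fst]
      rw [h2, h3, ← u0_rho hz e, ← hx]
      have a1 := u0_ne hz x
      have a2 := u0_ne hz e
      rw [_root_.zpow_neg_one, inv_div, div_neg, neg_div]
    · intro k j
      unfold corner
      have h2 : e.vx 2 ≠ x.vx 3 := by rw [h1]; exact vx_ne x (by decide)
      rw [if_neg h2, if_pos h1]

lemma prod_curve {z : Fin N → ℂ} (hz : ∀ j, z j ≠ 0 ∧ z j ≠ 1) (θ : Curve T) :
    ∏ k : Fin 3, ∏ j, shp (z j) k ^ θ.Co k j = ∏ i ∈ range θ.len, rr T z (θ.d i) := by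
  have h1 : ∏ k : Fin 3, ∏ j, shp (z j) k ^ θ.Co k j =
      ∏ i ∈ range θ.len, ∏ k : Fin 3, ∏ j,
        shp (z j) k ^ corner ((T.iota (θ.d i)).vx 2) (θ.d (i + 1)) k j := by
    rw [Finset.prod_comm (s := range θ.len)]
    refine Finset.prod_congr rfl fun k _ => ?_
    rw [Finset.prod_comm (s := range θ.len)]
    refine Finset.prod_congr rfl fun j _ => ?_
    unfold Curve.Co
    have hs := shp_ne (hz j).1 (hz j).2 k
    induction θ.len with
    | zero => simp
    | succ n ih => rw [Finset.sum_range_succ, zpow_add₀ hs, ih, Finset.prod_range_succ]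
  rw [h1]
  have h2 : ∀ i ∈ range θ.len, ∏ k : Fin 3, ∏ j,
        shp (z j) k ^ corner ((T.iota (θ.d i)).vx 2) (θ.d (i + 1)) k j =
        -(u0 z (θ.d (i + 1))) / u0 z (T.iota (θ.d i)) := by
    intro i hi
    rw [Finset.mem_range] at hi
    exact prod_corner hz _ _ (θ.step i hi) (θ.normal i hi)
  rw [Finset.prod_congr rfl h2, Finset.prod_div_distrib]
  unfold rr
  rw [Finset.prod_div_distrib]
  congr 1
  have h3 := Finset.prod_range_succ (fun i => -(u0 z (θ.d i))) θ.len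
  have h4 := Finset.prod_range_succ' (fun i => -(u0 z (θ.d i))) θ.len
  rw [h3, θ.closed] at h4
  exact (mul_right_cancel₀ (neg_ne_zero.2 (u0_ne hz (θ.d 0))) h4).symm

/-! ### Closed walks -/

lemma prod_closed {z : Fin N → ℂ} (hz : ∀ j, z j ≠ 0 ∧ z j ≠ 1)
    (hc : ∀ θ : Curve T, ∏ k : Fin 3, ∏ j, shp (z j) k ^ θ.Co k j = 1) (n : ℕ) :
    ∀ (l : List (Flag N)) (p : Fin N × Fin 4), l.length = n → IsWalk T p l p →
      (l.map (rr T z)).prod = 1 := by
  induction n using Nat.strong_induction_on with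
  | _ n ih =>
  intro l p hl hw
  by_cases h0 : l.length = 0
  · rw [List.length_eq_zero_iff] at h0
    simp [h0]
  have hpos : 0 < l.length := Nat.pos_of_ne_zero h0
  by_cases hA : ∃ (i : ℕ) (h : i + 1 < l.length), T.iota (l[i]'(by omega)) = l[i + 1]
  · -- internal backtracking
    obtain ⟨i, hi, hb⟩ := hA
    have hsplit : l = l.take i ++ (l[i]'(by omega) :: l[i + 1] :: l.drop (i + 2)) := by
      conv_lhs => rw [← List.take_append_drop i l, List.drop_eq_getElem_cons (by omega),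
        List.drop_eq_getElem_cons hi]
    have hw' : IsWalk T p (l.take i ++ l.drop (i + 2)) p := by
      rw [hsplit, isWalk_append] at hw
      obtain ⟨m, h1, h2, h3, h4⟩ := hw
      rw [isWalk_append]
      refine ⟨m, h1, ?_⟩
      rw [← hb, iota_iota, h2] at h4
      exact h4
    have := ih (l.take i ++ l.drop (i + 2)).length (by simp; omega) _ p rfl hw'
    rw [hsplit]
    simp only [List.map_append, List.prod_append, List.map_cons, List.prod_cons] at this ⊢
    rw [← hb]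
    calc _ = (rr T z l[i] * rr T z (T.iota l[i])) * ((List.map (rr T z) (List.take i l)).prod *
        (List.map (rr T z) (List.drop (i + 2) l)).prod) := by ring
      _ = 1 := by rw [rr_iota hz, this, one_mul]
  obtain ⟨s1, s2, s3⟩ := isWalk_step l p p hw
  by_cases hB : T.iota (l[l.length - 1]'(by omega)) = l[0]
  · -- cyclic backtracking
    rcases l with _ | ⟨a, l⟩
    · simp at h0
    rcases List.eq_nil_or_concat l with rfl | ⟨l', b, rfl⟩
    · exact absurd (by simpa using hB) (iota_ne T a)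
    · rw [List.concat_eq_append] at *
      have hab : T.iota b = a := by simpa using hB
      obtain ⟨h1, h2⟩ := hw
      rw [isWalk_append] at h2
      obtain ⟨m, h3, h4, h5⟩ := h2
      have hw' : IsWalk T b.tri l' b.tri := by
        rw [h4]
        rw [← hab, iota_iota, h4] at h3
        exact h3
      have := ih l'.length (by rw [← hl]; simp) l' _ rfl hw'
      simp only [List.map_append, List.prod_append, List.map_cons, List.prod_cons, List.map_nil,
        List.prod_nil, mul_one, this, one_mul]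
      rw [← hab, mul_comm]
      exact rr_iota hz b
  · -- a normal closed curve
    push Not at hA
    let d : ℕ → Flag N := fun i => l.getD (i % l.length) l[0]
    have hd : ∀ (i : ℕ) (h : i < l.length), d i = l[i] := by
      intro i h
      simp only [d]
      rw [Nat.mod_eq_of_lt h, List.getD_eq_getElem _ _ h]
    have hdn : d l.length = l[0] := by
      simp only [d]
      rw [Nat.mod_self, List.getD_eq_getElem _ _ hpos]
    let θ : Curve T :=
      { len := l.length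
        d := d
        closed := by rw [hdn, hd 0 hpos]
        step := by
          intro i hi
          rw [hd i hi]
          by_cases h : i + 1 < l.length
          · rw [hd _ h, s3 i h]
          · have h' : i + 1 = l.length := by omega
            rw [h', hdn, s1 hpos]
            have e1 := s2 hpos
            have e3 : i = l.length - 1 := by omega
            subst e3
            exact e1
        normal := by
          intro i hi
          rw [hd i hi]
          by_cases h : i + 1 < l.length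
          · rw [hd _ h]
            exact hA i h
          · have h' : i + 1 = l.length := by omega
            rw [h', hdn]
            have e3 : i = l.length - 1 := by omega
            subst e3
            exact hB }
    have h1 := hc θ
    rw [prod_curve hz θ] at h1
    rw [← h1, Finset.prod_range, ← Fin.prod_univ_fun_getElem]
    refine Finset.prod_congr rfl fun i _ => ?_
    rw [show θ.d i = l[i] from hd i i.2]
    rfl

/-! ### The potential -/

lemma exists_walk (p q : Fin N × Fin 4)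
    (h : Relation.ReflTransGen (fun a b => ∃ x : Flag N, x.tri = a ∧ (T.iota x).tri = b) p q) :
    ∃ l, IsWalk T p l q := by
  induction h with
  | refl => exact ⟨[], rfl⟩
  | tail _ hbc ih =>
    obtain ⟨l, hl⟩ := ih
    obtain ⟨x, h1, h2⟩ := hbc
    exact ⟨l ++ [x], (isWalk_append l [x] _ _).2 ⟨_, hl, h1, h2⟩⟩

lemma exists_potential {z : Fin N → ℂ} (hz : ∀ j, z j ≠ 0 ∧ z j ≠ 1) (hT : T.OneCusp)
    (hc : ∀ θ : Curve T, ∏ k : Fin 3, ∏ j, shp (z j) k ^ θ.Co k j = 1) :
    ∃ lam : Fin N × Fin 4 → ℂ, (∀ p, lam p ≠ 0) ∧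
      ∀ x : Flag N, lam (T.iota x).tri = lam x.tri * rr T z x := by
  rcases isEmpty_or_nonempty (Fin N × Fin 4) with he | ⟨⟨p0⟩⟩
  · exact ⟨fun _ => 1, fun _ => one_ne_zero, fun x => (he.false x.tri).elim⟩
  choose l hl using fun q => exists_walk p0 q (hT p0 q)
  refine ⟨fun q => ((l q).map (rr T z)).prod, ?_, ?_⟩
  · intro q
    refine List.prod_ne_zero ?_
    intro h
    rw [List.mem_map] at h
    obtain ⟨x, _, hx⟩ := h
    exact rr_ne hz x hx
  · intro x
    have h1 := hl x.tri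
    have h2 := isWalk_rev _ _ _ (hl (T.iota x).tri)
    have h3 : IsWalk T p0 (l x.tri ++ x :: ((l (T.iota x).tri).map T.iota).reverse) p0 :=
      (isWalk_append _ _ _ _).2 ⟨_, h1, rfl, h2⟩
    have h4 := prod_closed hz hc _ _ _ rfl h3
    have h5 := prod_rev (T := T) hz (l (T.iota x).tri)
    rw [List.map_append, List.prod_append, List.map_cons, List.prod_cons] at h4
    have h6 : ((((l (T.iota x).tri).map T.iota).reverse).map (rr T z)).prod ≠ 0 := by
      intro h
      rw [h, mul_zero] at h5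
      exact zero_ne_one h5
    apply mul_right_cancel₀ h6
    rw [h5, ← h4]
    ring

/-! ### The isometries -/

lemma om_identity (w1 w2 w3 : Fin 2 → ℂ) (i : Fin 2) :
    om w1 w2 * w3 i + om w2 w3 * w1 i - om w1 w3 * w2 i = 0 := by
  fin_cases i <;> simp [om] <;> ring

lemma exists_sl2' (v1 v2 v3 w1 w2 w3 : Fin 2 → ℂ) (e t : ℂ) (he : e ^ 2 = 1) (ht : t ^ 2 = 1)
    (hp : om v1 v2 ≠ 0) (hP : om w1 w2 = e * om v1 v2) (hR : om w1 w3 = t * om v1 v3)
    (hQ : om w2 w3 = e * t * om v2 v3) :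
    ∃ g : Matrix (Fin 2) (Fin 2) ℂ, g.det = 1 ∧ g *ᵥ v1 = w1 ∧ g *ᵥ v2 = e • w2 ∧
      g *ᵥ v3 = t • w3 := by
  have hE := om_identity w1 w2 w3
  rw [hP, hR, hQ] at hE
  set p := om v1 v2 with hpdef
  have hg : ∀ (y : Fin 2 → ℂ) (i : Fin 2),
      ((!![(w1 0 * v2 1 - e * w2 0 * v1 1) / p, (-(w1 0) * v2 0 + e * w2 0 * v1 0) / p;
        (w1 1 * v2 1 - e * w2 1 * v1 1) / p, (-(w1 1) * v2 0 + e * w2 1 * v1 0) / p] :
        Matrix (Fin 2) (Fin 2) ℂ) *ᵥ y) i = (om y v2 * w1 i + e * om v1 y * w2 i) / p := by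
    intro y i
    fin_cases i <;> simp [Matrix.mulVec, dotProduct, Fin.sum_univ_two, om] <;> ring
  refine ⟨_, ?_, funext fun i => (hg v1 i).trans ?_, funext fun i => (hg v2 i).trans ?_,
    funext fun i => (hg v3 i).trans ?_⟩
  · rw [Matrix.det_fin_two_of]
    have h1 : w1 0 * w2 1 - w1 1 * w2 0 = e * p := hP
    have h2 : v1 0 * v2 1 - v1 1 * v2 0 = p := rfl
    have h3 : (w1 0 * v2 1 - e * w2 0 * v1 1) / p * ((-(w1 1) * v2 0 + e * w2 1 * v1 0) / p) -
        (-(w1 0) * v2 0 + e * w2 0 * v1 0) / p * ((w1 1 * v2 1 - e * w2 1 * v1 1) / p) =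
        e * (w1 0 * w2 1 - w1 1 * w2 0) * (v1 0 * v2 1 - v1 1 * v2 0) / p ^ 2 := by
      field_simp
      ring
    rw [h3, h1, h2]
    field_simp
    exact he
  · have : om v1 v1 = 0 := by simp [om]; ring
    rw [this, ← hpdef]
    field_simp
    ring
  · have : om v2 v2 = 0 := by simp [om]; ring
    rw [this, ← hpdef]
    simp only [Pi.smul_apply, smul_eq_mul]
    field_simp
    ring
  · simp only [Pi.smul_apply, smul_eq_mul]
    rw [div_eq_iff hp, om_swap v2 v3]
    linear_combination (-(e * t)) * hE i + (t * p * w3 i + om v2 v3 * w1 i * t ^ 2) * he +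
      (om v2 v3 * w1 i - e * om v1 v3 * w2 i) * ht

lemma sq_eq_one_cases {a : ℂ} (h : a ^ 2 = 1) : a = 1 ∨ a = -1 := by
  have h1 : (a - 1) * (a + 1) = 0 := by linear_combination h
  rcases mul_eq_zero.1 h1 with h2 | h2
  · left; exact sub_eq_zero.1 h2
  · right; exact eq_neg_of_add_eq_zero_left h2

lemma exists_sl2 (v1 v2 v3 w1 w2 w3 : Fin 2 → ℂ) (hp : om v1 v2 ≠ 0) (hq : om v2 v3 ≠ 0)
    (hr : om v1 v3 ≠ 0) (hp' : om w1 w2 ≠ 0) (hq' : om w2 w3 ≠ 0) (hr' : om w1 w3 ≠ 0)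
    (h1 : uu v1 v2 v3 = uu w1 w2 w3) (h2 : uu v2 v3 v1 = uu w2 w3 w1)
    (h3 : uu v3 v1 v2 = uu w3 w1 w2) :
    ∃ g : Matrix (Fin 2) (Fin 2) ℂ, g.det = 1 ∧ (g *ᵥ v1 = w1 ∨ g *ᵥ v1 = -w1) ∧
      (g *ᵥ v2 = w2 ∨ g *ᵥ v2 = -w2) ∧ (g *ᵥ v3 = w3 ∨ g *ᵥ v3 = -w3) := by
  unfold uu at h1 h2 h3
  rw [om_swap v1 v3, om_swap v1 v2, om_swap w1 w3, om_swap w1 w2] at h2
  rw [om_swap v1 v3, om_swap v2 v3, om_swap w1 w3, om_swap w2 w3] at h3
  generalize hpe : om v1 v2 = p at *
  generalize hqe : om v2 v3 = q at *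
  generalize hre : om v1 v3 = r at *
  generalize hpe' : om w1 w2 = p' at *
  generalize hqe' : om w2 w3 = q' at *
  generalize hre' : om w1 w3 = r' at *
  have e1 : q * (p' * r') = q' * (p * r) := by
    field_simp at h1
    linear_combination h1
  have e2 : r * (q' * p') = r' * (q * p) := by
    field_simp at h2
    linear_combination h2
  have e3 : p * (r' * q') = p' * (r * q) := by
    field_simp at h3
    linear_combination h3
  have f1 : p' ^ 2 = p ^ 2 := by
    have : (q * q' * (r * r')) ≠ 0 := mul_ne_zero (mul_ne_zero hq hq') (mul_ne_zero hr hr')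
    apply mul_left_cancel₀ this
    linear_combination (r * (q' * p')) * e1 + (q' * (p * r)) * e2
  have f2 : r' ^ 2 = r ^ 2 := by
    have : (q * q' * (p * p')) ≠ 0 := mul_ne_zero (mul_ne_zero hq hq') (mul_ne_zero hp hp')
    apply mul_left_cancel₀ this
    linear_combination (p * (r' * q')) * e1 + (q' * (p * r)) * e3
  have g1 : (p' / p) ^ 2 = 1 := by
    rw [div_pow, f1, div_self (pow_ne_zero 2 hp)]
  have g2 : (r' / r) ^ 2 = 1 := by
    rw [div_pow, f2, div_self (pow_ne_zero 2 hr)]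
  obtain ⟨g, hg, a1, a2, a3⟩ := exists_sl2' v1 v2 v3 w1 w2 w3 (p' / p) (r' / r) g1 g2
    (by rw [hpe]; exact hp) (by rw [hpe, hpe']; field_simp) (by rw [hre, hre']; field_simp)
    (by rw [hqe, hqe']; field_simp; linear_combination -e1)
  refine ⟨g, hg, Or.inl a1, ?_, ?_⟩
  · rcases sq_eq_one_cases g1 with h | h
    · left; rw [a2, h, one_smul]
    · right; rw [a2, h, neg_one_smul]
  · rcases sq_eq_one_cases g2 with h | h
    · left; rw [a3, h, one_smul]
    · right; rw [a3, h, neg_one_smul]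

end DEV

variable {N : ℕ} {T : Triang N} {z : Fin N → ℂ} (K : Cells T)

theorem exists_develop (hT : T.OneCusp) (hz : IsGeometric K z) : Nonempty (Develop T z) := by
  have hz' : ∀ j, z j ≠ 0 ∧ z j ≠ 1 := by
    intro j
    have h := hz.im_pos j
    constructor
    · intro h0; rw [h0] at h; simp at h
    · intro h0; rw [h0] at h; simp at h
  obtain ⟨lam, hlam, hpot⟩ := DEV.exists_potential hz' hT hz.complete
  choose μ hμ using fun p => IsAlgClosed.exists_pow_nat_eq (lam p)⁻¹ (n := 2) (by norm_num)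
  have hμ0 : ∀ p, μ p ≠ 0 := by
    intro p h
    have := hμ p
    rw [h] at this
    exact inv_ne_zero (hlam p) (by rw [← this]; ring)
  let v : Fin N → Fin 4 → Fin 2 → ℂ := fun j a => μ (j, a) • DEV.mdl (z j) a
  have hom : ∀ j a b, a ≠ b → om (v j a) (v j b) ≠ 0 := by
    intro j a b hab
    simp only [v]
    rw [DEV.om_smul]
    exact mul_ne_zero (mul_ne_zero (hμ0 _) (hμ0 _)) (DEV.om_mdl_ne (hz' j).1 (hz' j).2 a b hab)
  have hu : ∀ x : Flag N, DEV.uu (v x.1 (x.vx 0)) (v x.1 (x.vx 1)) (v x.1 (x.vx 3)) =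
      lam x.tri * DEV.u0 z x := by
    intro x
    simp only [v]
    rw [DEV.uu_smul _ _ _ (hμ0 _) (hμ0 _) (hμ0 _)]
    have : μ (x.1, x.vx 0) ^ 2 = (lam x.tri)⁻¹ := hμ x.tri
    rw [this]
    unfold DEV.u0
    rw [div_inv_eq_mul, mul_comm]
  have hui : ∀ x : Flag N,
      DEV.uu (v x.1 (x.vx 0)) (v x.1 (x.vx 1)) (v x.1 (x.vx 3)) =
      DEV.uu (v (T.nbr x.1 (x.vx 2)) (T.glue x.1 (x.vx 2) (x.vx 0)))
        (v (T.nbr x.1 (x.vx 2)) (T.glue x.1 (x.vx 2) (x.vx 1)))
        (v (T.nbr x.1 (x.vx 2)) (T.glue x.1 (x.vx 2) (x.vx 3))) := by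
    intro x
    have h1 := hu (T.iota x)
    rw [DEV.iota_vx0, DEV.iota_vx1, DEV.iota_vx3, DEV.iota_fst, DEV.uu_swap, hpot x] at h1
    have h2 : DEV.rr T z x * DEV.u0 z (T.iota x) = -(DEV.u0 z x) := by
      unfold DEV.rr
      rw [div_mul_cancel₀ _ (DEV.u0_ne hz' _)]
    rw [hu x]
    linear_combination h1 + lam x.tri * h2
  have hg : ∀ j i, ∃ g : Matrix (Fin 2) (Fin 2) ℂ, g.det = 1 ∧ ∀ a, a ≠ i →
      (g *ᵥ v j a = v (T.nbr j i) (T.glue j i a) ∨ g *ᵥ v j a = -v (T.nbr j i) (T.glue j i a)) := by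
    intro j i
    let x : Flag N := baseFlag (j, i)
    have hx1 : x.1 = j := rfl
    have hx2 : x.vx 2 = i := by
      have : ∀ i : Fin 4, basePerm i 2 = i := by decide
      exact this i
    have k0 : x.kap.vx 0 = x.vx 1 := by
      change (x.2 : Perm (Fin 4)) ((swap 0 1 * swap 1 3 : Perm (Fin 4)) 0) = _
      rw [show (swap 0 1 * swap 1 3 : Perm (Fin 4)) 0 = 1 by decide]; rfl
    have k1 : x.kap.vx 1 = x.vx 3 := by
      change (x.2 : Perm (Fin 4)) ((swap 0 1 * swap 1 3 : Perm (Fin 4)) 1) = _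
      rw [show (swap 0 1 * swap 1 3 : Perm (Fin 4)) 1 = 3 by decide]; rfl
    have k2 : x.kap.vx 2 = x.vx 2 := by
      change (x.2 : Perm (Fin 4)) ((swap 0 1 * swap 1 3 : Perm (Fin 4)) 2) = _
      rw [show (swap 0 1 * swap 1 3 : Perm (Fin 4)) 2 = 2 by decide]; rfl
    have k3 : x.kap.vx 3 = x.vx 0 := by
      change (x.2 : Perm (Fin 4)) ((swap 0 1 * swap 1 3 : Perm (Fin 4)) 3) = _
      rw [show (swap 0 1 * swap 1 3 : Perm (Fin 4)) 3 = 0 by decide]; rfl
    have l0 : x.kap.kap.vx 0 = x.kap.vx 1 := by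
      change (x.kap.2 : Perm (Fin 4)) ((swap 0 1 * swap 1 3 : Perm (Fin 4)) 0) = _
      rw [show (swap 0 1 * swap 1 3 : Perm (Fin 4)) 0 = 1 by decide]; rfl
    have l1 : x.kap.kap.vx 1 = x.kap.vx 3 := by
      change (x.kap.2 : Perm (Fin 4)) ((swap 0 1 * swap 1 3 : Perm (Fin 4)) 1) = _
      rw [show (swap 0 1 * swap 1 3 : Perm (Fin 4)) 1 = 3 by decide]; rfl
    have l2 : x.kap.kap.vx 2 = x.kap.vx 2 := by
      change (x.kap.2 : Perm (Fin 4)) ((swap 0 1 * swap 1 3 : Perm (Fin 4)) 2) = _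
      rw [show (swap 0 1 * swap 1 3 : Perm (Fin 4)) 2 = 2 by decide]; rfl
    have l3 : x.kap.kap.vx 3 = x.kap.vx 0 := by
      change (x.kap.2 : Perm (Fin 4)) ((swap 0 1 * swap 1 3 : Perm (Fin 4)) 3) = _
      rw [show (swap 0 1 * swap 1 3 : Perm (Fin 4)) 3 = 0 by decide]; rfl
    have u1 := hui x
    have u2 := hui x.kap
    have u3 := hui x.kap.kap
    have m1 : x.kap.1 = j := rfl
    have m2 : x.kap.kap.1 = j := rfl
    rw [hx1, hx2] at u1
    rw [m1, k0, k1, k2, k3, hx2] at u2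
    rw [m2, l0, l1, l2, l3, k0, k1, k2, k3, hx2] at u3
    have ne01 : x.vx 0 ≠ x.vx 1 := DEV.vx_ne x (by decide)
    have ne13 : x.vx 1 ≠ x.vx 3 := DEV.vx_ne x (by decide)
    have ne03 : x.vx 0 ≠ x.vx 3 := DEV.vx_ne x (by decide)
    have inj := (T.glue j i).injective
    obtain ⟨g, hg, g1, g2, g3⟩ := DEV.exists_sl2 (v j (x.vx 0)) (v j (x.vx 1)) (v j (x.vx 3))
      (v (T.nbr j i) (T.glue j i (x.vx 0))) (v (T.nbr j i) (T.glue j i (x.vx 1)))
      (v (T.nbr j i) (T.glue j i (x.vx 3))) (hom _ _ _ ne01) (hom _ _ _ ne13) (hom _ _ _ ne03)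
      (hom _ _ _ fun h => ne01 (inj h)) (hom _ _ _ fun h => ne13 (inj h))
      (hom _ _ _ fun h => ne03 (inj h)) u1 u2 u3
    refine ⟨g, hg, ?_⟩
    intro a ha
    obtain ⟨k, hk⟩ := (x.2 : Perm (Fin 4)).surjective a
    have hk' : x.vx k = a := hk
    rw [← hk']
    have hk2 : k ≠ 2 := by
      rintro rfl
      exact ha (by rw [← hk', hx2])
    fin_cases k
    · exact g1
    · exact g2
    · exact absurd rfl hk2
    · exact g3
  choose g hg1 hg2 using hg
  exact ⟨{
    v := v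
    g := g
    det_g := hg1
    indep := hom
    cross_ratio := by
      intro j
      simp only [v, DEV.om_smul]
      simp only [om, DEV.mdl]
      simp
      ring
    parallel := fun j i a ha => hg2 j i a ha }⟩

end Pool.Agent.Helper34.OneLoop
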