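import Mathlib

/-!
# The 1-loop conjecture for one-cusped hyperbolic 3-manifolds: definitions

Problem `MP_2c5f89_gt`.  All objects are finite and explicit.

* `Triang N` : an oriented face pairing of `N` tetrahedra (an oriented ideal triangulation).
* `Flag N` : a tetrahedron `j` with an even ordering `(a, b, c, d)` of its four vertices.  It stands for
  the oriented edge `a → b` of tetrahedron `j`, and also for the oriented side, opposite to the vertex
  `c`, of the triangle cut off at the ideal vertex `a` of tetrahedron `j` (a triangle of the cusp torus).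
* `Triang.turn` : rotation about the edge `a → b` into the next tetrahedron (through the face opposite
  to `c`); its orbits are the oriented edges of the triangulation.
-/

namespace Pool.Agent.Helper34.OneLoop

open Equiv Matrix Finset

/-- A flag: a tetrahedron together with an even ordering of its four vertices. -/
abbrev Flag (N : ℕ) := Fin N × alternatingGroup (Fin 4)

/-- The `i`-th vertex of a flag. -/
def Flag.vx {N : ℕ} (x : Flag N) (i : Fin 4) : Fin 4 := (x.2 : Perm (Fin 4)) i

/-- The triangle of the cusp cross-section (tetrahedron, ideal vertex) to which the flag belongs. -/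
def Flag.tri {N : ℕ} (x : Flag N) : Fin N × Fin 4 := (x.1, x.vx 0)

/-- The side (tetrahedron, face) crossed by the flag: the face opposite to the third vertex. -/
def Flag.face {N : ℕ} (x : Flag N) : Fin N × Fin 4 := (x.1, x.vx 2)

/-- Right multiplication of a flag by an even permutation. -/
def Flag.rmul {N : ℕ} (x : Flag N) (g : Perm (Fin 4)) (hg : Perm.sign g = 1) : Flag N :=
  (x.1, x.2 * ⟨g, Perm.mem_alternatingGroup.2 hg⟩)

/-- `(a, b, c, d) ↦ (a, c, d, b)`: the next side of the same cusp triangle. -/
def Flag.rho {N : ℕ} (x : Flag N) : Flag N := x.rmul (swap 1 2 * swap 2 3) (by decide)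

/-- `(a, b, c, d) ↦ (b, a, d, c)`: the same edge of the tetrahedron with reversed orientation. -/
def Flag.rev {N : ℕ} (x : Flag N) : Flag N := x.rmul (swap 0 1 * swap 2 3) (by decide)

/-- `(a, b, c, d) ↦ (b, d, c, a)`: rotation of the face opposite to `c`. -/
def Flag.kap {N : ℕ} (x : Flag N) : Flag N := x.rmul (swap 0 1 * swap 1 3) (by decide)

/-- An oriented ideal triangulation with `N` tetrahedra (vertices of each tetrahedron: `Fin 4`, face `i`
is opposite to the vertex `i`).  Face `i` of tetrahedron `j` is glued to a face of tetrahedron `nbr j i`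
by the restriction of the odd permutation `glue j i`, which sends `i` to the number of that face. -/
structure Triang (N : ℕ) where
  nbr : Fin N → Fin 4 → Fin N
  glue : Fin N → Fin 4 → Perm (Fin 4)
  sign_glue : ∀ j i, Perm.sign (glue j i) = -1
  nbr_nbr : ∀ j i, nbr (nbr j i) (glue j i i) = j
  glue_glue : ∀ j i, glue (nbr j i) (glue j i i) = (glue j i)⁻¹
  no_fix : ∀ j i, (nbr j i, glue j i i) ≠ (j, i)

namespace Triang

variable {N : ℕ} (T : Triang N)

/-- The other side of the face with side `p = (j, i)`. -/
def opp (p : Fin N × Fin 4) : Fin N × Fin 4 := (T.nbr p.1 p.2, T.glue p.1 p.2 p.2)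

/-- Crossing the face opposite to the vertex `c` of the flag `(a, b, c, d)`, followed by the odd
permutation `s` of positions. -/
def cross (x : Flag N) (s : Perm (Fin 4)) (hs : Perm.sign s = -1) : Flag N :=
  (T.nbr x.1 (x.vx 2), ⟨T.glue x.1 (x.vx 2) * (x.2 : Perm (Fin 4)) * s, by
    rw [Perm.mem_alternatingGroup, Perm.sign_mul, Perm.sign_mul, T.sign_glue,
      Perm.mem_alternatingGroup.1 x.2.2, hs]; decide⟩)

/-- Rotation about the edge `a → b`: `(a, b, c, d) ↦ (σ a, σ b, σ d, σ c)`, where `σ` is the gluing of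
the face opposite to `c`. -/
def turn (x : Flag N) : Flag N := T.cross x (swap 2 3) (by decide)

/-- The same side of the cusp triangulation seen from the neighbouring cusp triangle:
`(a, b, c, d) ↦ (σ a, σ d, σ c, σ b)`. -/
def iota (x : Flag N) : Flag N := T.cross x (swap 1 3) (by decide)

/-- There is exactly one cusp: any two cusp triangles are joined by a chain of adjacent ones. -/
def OneCusp : Prop :=
  ∀ p q : Fin N × Fin 4,
    Relation.ReflTransGen (fun a b => ∃ x : Flag N, x.tri = a ∧ (T.iota x).tri = b) p q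

end Triang

/-- The type of the edge `{a, b}` of a tetrahedron: `0` if it carries `z`, `1` if it carries `z'`,
`2` if it carries `z''`. -/
def kind (a b : Fin 4) : Fin 3 :=
  (![![0, 0, 1, 2], ![0, 0, 2, 1], ![1, 2, 0, 0], ![2, 1, 0, 0]] : Fin 4 → Fin 4 → Fin 3) a b

/-- `(z, z', z'')`. -/
noncomputable def shp (z : ℂ) : Fin 3 → ℂ := ![z, 1 / (1 - z), 1 - 1 / z]

/-- `(ζ, ζ', ζ'')`. -/
noncomputable def zet (z : ℂ) : Fin 3 → ℂ := ![1 / z, 1 / (1 - z), 1 / (z * (z - 1))]

/-- Choices of cells and of their orientations: one side of each of the `2 N` faces; the labelling of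
the oriented edges, which says in particular that there are exactly `N` edges (equivalently, that the
cusp cross-section, which is connected by `OneCusp`, is a torus), and one flag over each edge. -/
structure Cells {N : ℕ} (T : Triang N) where
  side : Fin (2 * N) → Fin N × Fin 4
  side_bij : Function.Bijective (Sum.elim side (fun f => T.opp (side f)))
  /-- `cls x = (e, false)` (resp. `(e, true)`): the oriented edge `a → b` of the flag `x` is
  identified with edge `e`, with the chosen (resp. opposite) orientation -/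
  cls : Flag N → Fin N × Bool
  cls_surj : Function.Surjective cls
  cls_iff : ∀ x y, cls x = cls y ↔ ∃ k : ℕ, T.turn^[k] x = y
  cls_rev : ∀ x, cls x.rev = ((cls x).1, !(cls x).2)
  rep : Fin N → Flag N
  rep_cls : ∀ e, cls (rep e) = (e, false)

/-- The gluing matrices `G = Gl 0`, `G' = Gl 1`, `G'' = Gl 2`: the number of edges of tetrahedron `j`
carrying the shape of type `k` which are identified with edge `e`. -/
def Cells.Gl {N : ℕ} {T : Triang N} (K : Cells T) (k : Fin 3) (e j : Fin N) : ℤ :=
  ((univ.filter (fun x : Flag N => x.1 = j ∧ kind (x.vx 0) (x.vx 1) = k ∧ K.cls x = (e, false))).card : ℤ)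

/-- An oriented closed peripheral curve in normal position: a cyclic sequence `d 0, d 1, …, d len = d 0`
of sides of cusp triangles; it leaves the cusp triangle of `d i` through the side `d i`, thereby enters
the cusp triangle of `d (i + 1)`, and leaves that triangle through the other side `d (i + 1)`. -/
structure Curve {N : ℕ} (T : Triang N) where
  len : ℕ
  d : ℕ → Flag N
  closed : d len = d 0
  step : ∀ i < len, (T.iota (d i)).tri = (d (i + 1)).tri
  normal : ∀ i < len, T.iota (d i) ≠ d (i + 1)

/-- The corner cut off by a curve which enters a cusp triangle through the side opposite to the vertex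
`i` and leaves it through the side of the flag `x = (a, b, c, d)`: if `i = d`, the corner is the one at
the edge `a b`, counted with sign `1`; if `i = b`, it is the one at the edge `a d`, counted with sign
`-1`. (`corner i x k j` is the contribution to the coefficient of type `k` of tetrahedron `j`.) -/
def corner {N : ℕ} (i : Fin 4) (x : Flag N) (k : Fin 3) (j : Fin N) : ℤ :=
  if x.1 = j then
    if i = x.vx 3 then (if kind (x.vx 0) (x.vx 1) = k then 1 else 0)
    else if i = x.vx 1 then (if kind (x.vx 0) (x.vx 3) = k then -1 else 0)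
    else 0
  else 0

/-- The completeness coefficients `C = Co 0`, `C' = Co 1`, `C'' = Co 2` along a peripheral curve. -/
def Curve.Co {N : ℕ} {T : Triang N} (θ : Curve T) (k : Fin 3) (j : Fin N) : ℤ :=
  ∑ i ∈ range θ.len, corner ((T.iota (θ.d i)).vx 2) (θ.d (i + 1)) k j

/-- How many times a curve crosses the side of the flag `x` of the cusp triangulation, counted with
signs. -/
def Curve.cross {N : ℕ} {T : Triang N} (θ : Curve T) (x : Flag N) : ℤ :=
  ((range θ.len).filter (fun i => θ.d i = x)).card -
    ((range θ.len).filter (fun i => θ.d i = T.iota x)).card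

/-- `θ` is homotopically nontrivial in the cusp torus, that is, it is not the boundary of an integral
2-chain `s` (a linear combination of the vertices of the cusp triangulation, which are the dual
2-cells, and are the oriented edges of `T`). -/
def Curve.Essential {N : ℕ} {T : Triang N} (K : Cells T) (θ : Curve T) : Prop :=
  ¬ ∃ s : Fin N × Bool → ℤ, ∀ x, θ.cross x = s (K.cls x) - s (K.cls (T.iota x))

/-- The matrix `Ĝ diag ζ + Ĝ' diag ζ' + Ĝ'' diag ζ''`; the row `r` of the gluing matrices is replaced
by the completeness coefficients along `θ`. -/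
noncomputable def hatM {N : ℕ} {T : Triang N} (K : Cells T) (z : Fin N → ℂ) (θ : Curve T) (r : Fin N) :
    Matrix (Fin N) (Fin N) ℂ :=
  Matrix.of fun e j => ∑ k : Fin 3, ((if e = r then θ.Co k j else K.Gl k e j : ℤ) : ℂ) * zet (z j) k

/-- Combinatorial flattenings, `f k j` being the integers `f_j, f'_j, f''_j`.  (Strong combinatorial
flattenings satisfy in addition the conditions `C f + C' f' + C'' f'' = 0` along the cusp, which are not
needed.) -/
structure IsFlattening {N : ℕ} {T : Triang N} (K : Cells T) (f : Fin 3 → Fin N → ℤ) : Prop where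
  edge : ∀ e, ∑ k : Fin 3, ∑ j, K.Gl k e j * f k j = 2
  tet : ∀ j, ∑ k : Fin 3, f k j = 1

/-- The 1-loop invariant: the right-hand side of the conjecture. -/
noncomputable def oneLoop {N : ℕ} {T : Triang N} (K : Cells T) (z : Fin N → ℂ) (θ : Curve T) (r : Fin N)
    (f : Fin 3 → Fin N → ℤ) : ℂ :=
  (hatM K z θ r).det / (2 * ∏ k : Fin 3, ∏ j, zet (z j) k ^ f k j)

/-- `z` gives the complete hyperbolic structure and `T` is geometric: positive imaginary parts, the
gluing equations around the edges (with sum of the dihedral angles `2 π`), and the completeness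
equations along all peripheral curves. -/
structure IsGeometric {N : ℕ} {T : Triang N} (K : Cells T) (z : Fin N → ℂ) : Prop where
  im_pos : ∀ j, 0 < (z j).im
  edge_arg : ∀ e, ∑ x : Flag N with K.cls x = (e, false),
    Complex.arg (shp (z x.1) (kind (x.vx 0) (x.vx 1))) = 2 * Real.pi
  edge_prod : ∀ e, ∏ x : Flag N with K.cls x = (e, false), shp (z x.1) (kind (x.vx 0) (x.vx 1)) = 1
  complete : ∀ θ : Curve T, ∏ k : Fin 3, ∏ j, shp (z j) k ^ θ.Co k j = 1

/-! ### Geometry -/

/-- The area form on `ℂ²`. -/
def om (v w : Fin 2 → ℂ) : ℂ := v 0 * w 1 - v 1 * w 0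

/-- The traceless matrix with coordinates `x`. -/
def toMat (x : Fin 3 → ℂ) : Matrix (Fin 2) (Fin 2) ℂ := !![x 1, x 0; x 2, -x 1]

/-- Coordinates of a traceless matrix: our basis of `sl₂(ℂ)`. -/
def coord (M : Matrix (Fin 2) (Fin 2) ℂ) : Fin 3 → ℂ := ![M 0 1, M 0 0, M 1 0]

/-- The adjoint action of `g ∈ SL₂(ℂ)` on `sl₂(ℂ)`. -/
noncomputable def Ad (g : Matrix (Fin 2) (Fin 2) ℂ) (x : Fin 3 → ℂ) : Fin 3 → ℂ :=
  coord (g * toMat x * g⁻¹)

/-- The nilpotent element `w ↦ om v w • v` of `sl₂(ℂ)`, whose kernel and image are the line of `v`. -/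
def nil (v : Fin 2 → ℂ) : Fin 3 → ℂ := ![v 0 * v 0, -(v 0 * v 1), -(v 1 * v 1)]

/-- The complete hyperbolic structure with shapes `z`, developed: each tetrahedron `j` is placed in
`ℍ³` with ideal vertices the points `[v j a]` of `ℂP¹`, of cross-ratio `z j`; `g j i ∈ SL₂(ℂ)` is
(a lift of) the isometry which realises the gluing of face `i` of tetrahedron `j`; completeness
(parabolicity of the peripheral holonomy) is the fact that the vectors `v j a` can be chosen
parallel, up to sign, along the cusp. -/
structure Develop {N : ℕ} (T : Triang N) (z : Fin N → ℂ) where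
  v : Fin N → Fin 4 → Fin 2 → ℂ
  g : Fin N → Fin 4 → Matrix (Fin 2) (Fin 2) ℂ
  det_g : ∀ j i, (g j i).det = 1
  indep : ∀ j a b, a ≠ b → om (v j a) (v j b) ≠ 0
  cross_ratio : ∀ j, om (v j 0) (v j 1) * om (v j 2) (v j 3) * z j =
    om (v j 0) (v j 2) * om (v j 3) (v j 1) * (1 - z j)
  parallel : ∀ j i a, a ≠ i →
    g j i *ᵥ v j a = v (T.nbr j i) (T.glue j i a) ∨ g j i *ᵥ v j a = -v (T.nbr j i) (T.glue j i a)

/-! ### The chain complex `C₂ → C₁ → C₀` of the dual spine with coefficients in `sl₂(ℂ)` -/

section complex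

variable {N : ℕ} {T : Triang N} {z : Fin N → ℂ} (K : Cells T) (D : Develop T z)

/-- The 1-chain obtained by crossing the face `p = (j, i)` from `j` carrying the element `y` of the
fibre over tetrahedron `j`. -/
noncomputable def crossCh (p : Fin N × Fin 4) (y : Fin 3 → ℂ) : Fin (2 * N) → Fin 3 → ℂ := fun f =>
  if K.side f = p then y else if T.opp (K.side f) = p then -Ad (D.g p.1 p.2) y else 0

/-- `∂₁ : C₁ → C₀` (one 0-cell for each tetrahedron, one 1-cell for each face). -/
noncomputable def bd1 (y : Fin (2 * N) → Fin 3 → ℂ) : Fin N → Fin 3 → ℂ := fun j =>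
  ∑ f, ((if (T.opp (K.side f)).1 = j then Ad (D.g (K.side f).1 (K.side f).2) (y f) else 0)
    - (if (K.side f).1 = j then y f else 0))

/-- The holonomy of the path which turns `k` times about the edge of `x`. -/
noncomputable def transp (D : Develop T z) (x : Flag N) : ℕ → Matrix (Fin 2) (Fin 2) ℂ
  | 0 => 1
  | k + 1 => D.g (T.turn^[k] x).1 ((T.turn^[k] x).vx 2) * transp D x k

/-- `∂₂ : C₂ → C₁` (one 2-cell for each edge, with fibre over the tetrahedron of `K.rep e`). -/
noncomputable def bd2 (s : Fin N → Fin 3 → ℂ) : Fin (2 * N) → Fin 3 → ℂ :=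
  ∑ e, ∑ k ∈ range (Function.minimalPeriod T.turn (K.rep e)),
    crossCh K D (T.turn^[k] (K.rep e)).face (Ad (transp D (K.rep e) k) (s e))

/-- The cycle `P ⊗ [∂M]`, where `P = nil v` is the parallel section of `sl₂(ℂ)` over the cusp. -/
noncomputable def h2 : Fin N → Fin 3 → ℂ := fun e =>
  nil (D.v (K.rep e).1 ((K.rep e).vx 0)) - nil (D.v (K.rep e).1 ((K.rep e).vx 1))

/-- The cycle `P ⊗ θ`. -/
noncomputable def h1 (θ : Curve T) : Fin (2 * N) → Fin 3 → ℂ :=
  ∑ i ∈ range θ.len, crossCh K D (θ.d i).face (nil (D.v (θ.d i).1 ((θ.d i).vx 0)))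

end complex

/-- The determinant of a family of vectors of `ι → ℂ`, in the ordering given by `e`. -/
noncomputable def rdet {ι κ : Type*} [Fintype ι] [DecidableEq ι] (e : ι ≃ κ) (w : κ → ι → ℂ) : ℂ :=
  Matrix.det (Matrix.of fun i i' => w (e i) i')

/-- `τ` is the Reidemeister torsion of `M` with coefficients in `sl₂(ℂ)` twisted by the adjoint of the
holonomy, computed in the dual spine, with respect to the bases `P ⊗ θ` of `H₁` and `P ⊗ [∂M]` of `H₂`
(`H₀ = 0`): `τ = [∂b₂, h₁, b₁ | c₁] / ([h₂, b₂ | c₂] [∂b₁ | c₀])`, where the three families are bases. -/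
def IsATor {N : ℕ} {T : Triang N} {z : Fin N → ℂ} (K : Cells T) (D : Develop T z) (θ : Curve T)
    (τ : ℂ) : Prop :=
  ∃ (b₂ : Fin (3 * N - 1) → Fin N → Fin 3 → ℂ) (b₁ : Fin (3 * N) → Fin (2 * N) → Fin 3 → ℂ)
    (e₂ : Fin N × Fin 3 ≃ Unit ⊕ Fin (3 * N - 1))
    (e₁ : Fin (2 * N) × Fin 3 ≃ Fin (3 * N - 1) ⊕ Unit ⊕ Fin (3 * N))
    (e₀ : Fin N × Fin 3 ≃ Fin (3 * N)),
    let A₂ := rdet e₂ (Sum.elim (fun _ => Function.uncurry (h2 K D)) fun i => Function.uncurry (b₂ i))
    let A₁ := rdet e₁ (Sum.elim (fun i => Function.uncurry (bd2 K D (b₂ i)))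
      (Sum.elim (fun _ => Function.uncurry (h1 K D θ)) fun i => Function.uncurry (b₁ i)))
    let A₀ := rdet e₀ (fun i => Function.uncurry (bd1 K D (b₁ i)))
    A₂ ≠ 0 ∧ A₁ ≠ 0 ∧ A₀ ≠ 0 ∧ τ = A₁ / (A₂ * A₀)

end Pool.Agent.Helper34.OneLoop
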