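import Pool.Agent.Helper34.OneLoop.Core

/-!
Module FL: combinatorics of flags, and the cusp torus as a combinatorial surface.
-/

namespace Pool.Agent.Helper34.OneLoop

open Equiv Matrix Finset

section

variable {N : ℕ} {T : Triang N}

/-! ### Generalities -/

lemma Flag.ext' {x y : Flag N} (h1 : x.1 = y.1) (h2 : (x.2 : Perm (Fin 4)) = y.2) : x = y :=
  Prod.ext h1 (Subtype.ext h2)

lemma Flag.rmul_snd (x : Flag N) (g : Perm (Fin 4)) (hg : Perm.sign g = 1) :
    ((x.rmul g hg).2 : Perm (Fin 4)) = (x.2 : Perm (Fin 4)) * g := rfl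

lemma Flag.rho_snd (x : Flag N) :
    (x.rho.2 : Perm (Fin 4)) = (x.2 : Perm (Fin 4)) * (swap 1 2 * swap 2 3) := rfl

lemma Flag.kap_snd (x : Flag N) :
    (x.kap.2 : Perm (Fin 4)) = (x.2 : Perm (Fin 4)) * (swap 0 1 * swap 1 3) := rfl

lemma Flag.rev_snd (x : Flag N) :
    (x.rev.2 : Perm (Fin 4)) = (x.2 : Perm (Fin 4)) * (swap 0 1 * swap 2 3) := rfl

lemma Flag.rho_fst (x : Flag N) : x.rho.1 = x.1 := rfl
lemma Flag.kap_fst (x : Flag N) : x.kap.1 = x.1 := rfl
lemma Flag.rev_fst (x : Flag N) : x.rev.1 = x.1 := rfl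

lemma Triang.iota_fst (x : Flag N) : (T.iota x).1 = T.nbr x.1 (x.vx 2) := rfl
lemma Triang.turn_fst (x : Flag N) : (T.turn x).1 = T.nbr x.1 (x.vx 2) := rfl

lemma Triang.iota_snd (x : Flag N) : ((T.iota x).2 : Perm (Fin 4)) =
    T.glue x.1 (x.vx 2) * (x.2 : Perm (Fin 4)) * swap 1 3 := rfl

lemma Triang.turn_snd (x : Flag N) : ((T.turn x).2 : Perm (Fin 4)) =
    T.glue x.1 (x.vx 2) * (x.2 : Perm (Fin 4)) * swap 2 3 := rfl

/-! ### The statements -/

lemma Flag.rho3 (x : Flag N) : x.rho.rho.rho = x := by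
  refine Flag.ext' rfl ?_
  rw [Flag.rho_snd, Flag.rho_snd, Flag.rho_snd, mul_assoc, mul_assoc,
    show (swap 1 2 * swap 2 3 : Perm (Fin 4)) * (swap 1 2 * swap 2 3 * (swap 1 2 * swap 2 3)) = 1 by
      decide, mul_one]

lemma Flag.kap3 (x : Flag N) : x.kap.kap.kap = x := by
  refine Flag.ext' rfl ?_
  rw [Flag.kap_snd, Flag.kap_snd, Flag.kap_snd, mul_assoc, mul_assoc,
    show (swap 0 1 * swap 1 3 : Perm (Fin 4)) * (swap 0 1 * swap 1 3 * (swap 0 1 * swap 1 3)) = 1 by
      decide, mul_one]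

lemma Flag.rev_rev (x : Flag N) : x.rev.rev = x := by
  refine Flag.ext' rfl ?_
  rw [Flag.rev_snd, Flag.rev_snd, mul_assoc,
    show (swap 0 1 * swap 2 3 : Perm (Fin 4)) * (swap 0 1 * swap 2 3) = 1 by decide, mul_one]

lemma Flag.rho_ne (x : Flag N) : x.rho ≠ x := by
  intro h
  have h2 : (x.rho.2 : Perm (Fin 4)) = x.2 := by rw [h]
  rw [Flag.rho_snd, mul_eq_left] at h2
  revert h2
  decide

lemma Flag.kap_ne (x : Flag N) : x.kap ≠ x := by
  intro h
  have h2 : (x.kap.2 : Perm (Fin 4)) = x.2 := by rw [h]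
  rw [Flag.kap_snd, mul_eq_left] at h2
  revert h2
  decide

lemma Flag.kap_kap_ne (x : Flag N) : x.kap.kap ≠ x := by
  intro h
  have h2 : (x.kap.kap.2 : Perm (Fin 4)) = x.2 := by rw [h]
  rw [Flag.kap_snd, Flag.kap_snd, mul_assoc, mul_eq_left] at h2
  revert h2
  decide

lemma Flag.tri_rho (x : Flag N) : x.rho.tri = x.tri := by
  refine Prod.ext rfl ?_
  show (x.2 : Perm (Fin 4)) ((swap 1 2 * swap 2 3 : Perm (Fin 4)) 0) = (x.2 : Perm (Fin 4)) 0
  rw [show (swap 1 2 * swap 2 3 : Perm (Fin 4)) 0 = 0 by decide]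

/-- every flag of the same tetrahedron is obtained by right multiplication with an even permutation -/
lemma Flag.exists_mul (x y : Flag N) : ∃ g : Perm (Fin 4), Perm.sign g = 1 ∧
    (y.2 : Perm (Fin 4)) = (x.2 : Perm (Fin 4)) * g ∧ ∀ i, y.vx i = x.vx (g i) := by
  refine ⟨(x.2 : Perm (Fin 4))⁻¹ * (y.2 : Perm (Fin 4)), ?_, ?_, ?_⟩
  · rw [Perm.sign_mul, Perm.sign_inv, Perm.mem_alternatingGroup.1 x.2.2,
      Perm.mem_alternatingGroup.1 y.2.2, mul_one]
  · rw [mul_inv_cancel_left]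
  · intro i
    show (y.2 : Perm (Fin 4)) i = (x.2 : Perm (Fin 4)) (((x.2 : Perm (Fin 4))⁻¹ * (y.2 : Perm (Fin 4))) i)
    rw [← Perm.mul_apply, mul_inv_cancel_left]

lemma Flag.vx_inj (x : Flag N) {i j : Fin 4} (h : x.vx i = x.vx j) : i = j :=
  (x.2 : Perm (Fin 4)).injective h

lemma fib_rho : ∀ g : Perm (Fin 4), Perm.sign g = 1 → g 0 = 0 →
    g = 1 ∨ g = swap 1 2 * swap 2 3 ∨ g = (swap 1 2 * swap 2 3) * (swap 1 2 * swap 2 3) := by
  decide

lemma fib_kap : ∀ g : Perm (Fin 4), Perm.sign g = 1 → g 2 = 2 →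
    g = 1 ∨ g = swap 0 1 * swap 1 3 ∨ g = (swap 0 1 * swap 1 3) * (swap 0 1 * swap 1 3) := by
  decide

lemma fib_two : ∀ g : Perm (Fin 4), Perm.sign g = 1 → g 0 = 0 → g 1 = 1 → g = 1 := by
  decide

lemma Flag.tri_fib (x y : Flag N) (h : x.tri = y.tri) : y = x ∨ y = x.rho ∨ y = x.rho.rho := by
  obtain ⟨g, hg, hy, hv⟩ := Flag.exists_mul x y
  have h1 : x.1 = y.1 := (Prod.ext_iff.1 h).1
  have h0 : x.vx 0 = y.vx 0 := (Prod.ext_iff.1 h).2
  have hg0 : g 0 = 0 := by
    rw [hv 0] at h0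
    exact (x.vx_inj h0).symm
  rcases fib_rho g hg hg0 with h | h | h
  · left
    exact Flag.ext' h1.symm (by rw [hy, h, mul_one])
  · right; left
    exact Flag.ext' h1.symm (by rw [hy, h, Flag.rho_snd])
  · right; right
    exact Flag.ext' h1.symm (by rw [hy, h, Flag.rho_snd, Flag.rho_snd, ← mul_assoc])

lemma Flag.tri_surj : Function.Surjective (Flag.tri (N := N)) := by
  rintro ⟨j, a⟩
  obtain ⟨g, hg, h0⟩ : ∃ g : Perm (Fin 4), Perm.sign g = 1 ∧ g 0 = a := by
    revert a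
    decide
  exact ⟨(j, ⟨g, Perm.mem_alternatingGroup.2 hg⟩), Prod.ext rfl h0⟩

lemma Flag.face_kap (x : Flag N) : x.kap.face = x.face := by
  refine Prod.ext rfl ?_
  show (x.2 : Perm (Fin 4)) ((swap 0 1 * swap 1 3 : Perm (Fin 4)) 2) = (x.2 : Perm (Fin 4)) 2
  rw [show (swap 0 1 * swap 1 3 : Perm (Fin 4)) 2 = 2 by decide]

lemma Flag.face_fib (x y : Flag N) (h : x.face = y.face) : y = x ∨ y = x.kap ∨ y = x.kap.kap := by
  obtain ⟨g, hg, hy, hv⟩ := Flag.exists_mul x y
  have h1 : x.1 = y.1 := (Prod.ext_iff.1 h).1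
  have h0 : x.vx 2 = y.vx 2 := (Prod.ext_iff.1 h).2
  have hg0 : g 2 = 2 := by
    rw [hv 2] at h0
    exact (x.vx_inj h0).symm
  rcases fib_kap g hg hg0 with h | h | h
  · left
    exact Flag.ext' h1.symm (by rw [hy, h, mul_one])
  · right; left
    exact Flag.ext' h1.symm (by rw [hy, h, Flag.kap_snd])
  · right; right
    exact Flag.ext' h1.symm (by rw [hy, h, Flag.kap_snd, Flag.kap_snd, ← mul_assoc])

/-- a flag is determined by its tetrahedron and its first two vertices -/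
lemma Flag.ext2 (x y : Flag N) (h1 : x.1 = y.1) (h2 : x.vx 0 = y.vx 0) (h3 : x.vx 1 = y.vx 1) :
    x = y := by
  obtain ⟨g, hg, hy, hv⟩ := Flag.exists_mul x y
  rw [hv 0] at h2
  rw [hv 1] at h3
  have := fib_two g hg (x.vx_inj h2).symm (x.vx_inj h3).symm
  exact Flag.ext' h1 (by rw [hy, this, mul_one])

lemma face_baseFlag (p : Fin N × Fin 4) : (baseFlag p).face = p := by
  obtain ⟨j, i⟩ := p
  refine Prod.ext rfl ?_
  show basePerm i 2 = i
  revert i
  decide

lemma face_faceFlag (p : Fin N × Fin 4) (s : Fin 3) : (faceFlag p s).face = p := by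
  fin_cases s
  · exact face_baseFlag p
  · show ((baseFlag p).kap).face = p
    rw [Flag.face_kap, face_baseFlag]
  · show ((baseFlag p).kap.kap).face = p
    rw [Flag.face_kap, Flag.face_kap, face_baseFlag]

lemma faceFlag_zero (p : Fin N × Fin 4) : faceFlag p 0 = baseFlag p := rfl
lemma faceFlag_one (p : Fin N × Fin 4) : faceFlag p 1 = (baseFlag p).kap := rfl
lemma faceFlag_two (p : Fin N × Fin 4) : faceFlag p 2 = (baseFlag p).kap.kap := rfl

lemma faceFlag_kap (p : Fin N × Fin 4) (s : Fin 3) : (faceFlag p s).kap = faceFlag p (s + 1) := by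
  fin_cases s
  · rfl
  · rfl
  · exact Flag.kap3 _

lemma faceFlag_inj (p : Fin N × Fin 4) {s t : Fin 3} (h : faceFlag p s = faceFlag p t) : s = t := by
  fin_cases s <;> fin_cases t
  · rfl
  · exact absurd h.symm (Flag.kap_ne _)
  · exact absurd h.symm (Flag.kap_kap_ne _)
  · exact absurd h (Flag.kap_ne _)
  · rfl
  · exact absurd h.symm (Flag.kap_ne _)
  · exact absurd h (Flag.kap_kap_ne _)
  · exact absurd h (Flag.kap_ne _)
  · rfl

lemma faceFlag_bij (p : Fin N × Fin 4) (x : Flag N) (h : x.face = p) : ∃! s : Fin 3, faceFlag p s = x := by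
  have h' : (baseFlag p).face = x.face := by rw [face_baseFlag, h]
  have hex : ∃ s : Fin 3, faceFlag p s = x := by
    rcases Flag.face_fib _ _ h' with hx | hx | hx
    · exact ⟨0, hx.symm⟩
    · exact ⟨1, hx.symm⟩
    · exact ⟨2, hx.symm⟩
  obtain ⟨s, hs⟩ := hex
  exact ⟨s, hs, fun t ht => faceFlag_inj p (ht.trans hs.symm)⟩

lemma Triang.opp_opp (p : Fin N × Fin 4) : T.opp (T.opp p) = p := by
  obtain ⟨j, i⟩ := p
  refine Prod.ext (T.nbr_nbr j i) ?_
  show T.glue (T.nbr j i) (T.glue j i i) (T.glue j i i) = i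
  rw [T.glue_glue, ← Perm.mul_apply, inv_mul_cancel, Perm.one_apply]

lemma Triang.opp_ne (p : Fin N × Fin 4) : T.opp p ≠ p := T.no_fix p.1 p.2

lemma Triang.face_iota (x : Flag N) : (T.iota x).face = T.opp x.face := by
  refine Prod.ext rfl ?_
  show T.glue x.1 (x.vx 2) (x.vx ((swap 1 3 : Perm (Fin 4)) 2)) = T.glue x.1 (x.vx 2) (x.vx 2)
  rw [show (swap 1 3 : Perm (Fin 4)) 2 = 2 by decide]

lemma Triang.vx_iota (x : Flag N) (i : Fin 4) :
    (T.iota x).vx i = T.glue x.1 (x.vx 2) (x.vx (swap 1 3 i)) := rfl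

lemma Triang.vx_turn (x : Flag N) (i : Fin 4) :
    (T.turn x).vx i = T.glue x.1 (x.vx 2) (x.vx (swap 2 3 i)) := rfl

lemma Triang.iota_iota (x : Flag N) : T.iota (T.iota x) = x := by
  have h2 : (T.iota x).vx 2 = T.glue x.1 (x.vx 2) (x.vx 2) := by
    rw [Triang.vx_iota, show (swap 1 3 : Perm (Fin 4)) 2 = 2 by decide]
  refine Flag.ext' ?_ ?_
  · rw [Triang.iota_fst, Triang.iota_fst, h2, T.nbr_nbr]
  · rw [Triang.iota_snd, Triang.iota_snd, Triang.iota_fst, h2, T.glue_glue, mul_assoc,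
      mul_assoc, mul_assoc, Equiv.swap_mul_self, mul_one, inv_mul_cancel_left]

lemma Triang.iota_ne (x : Flag N) : T.iota x ≠ x := by
  intro h
  have := T.face_iota x
  rw [h] at this
  exact T.opp_ne _ this.symm

lemma Triang.turn_eq (x : Flag N) : T.turn x = (T.iota x).rho.rho := by
  refine Flag.ext' rfl ?_
  rw [Triang.turn_snd, Flag.rho_snd, Flag.rho_snd, Triang.iota_snd, mul_assoc, mul_assoc, mul_assoc,
    mul_assoc]
  congr 2
  decide

lemma Triang.turn_iota_rho (x : Flag N) : T.turn (T.iota x.rho) = x := by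
  rw [Triang.turn_eq, Triang.iota_iota, Flag.rho3]

lemma Triang.iota_rho_turn (x : Flag N) : T.iota (T.turn x).rho = x := by
  rw [Triang.turn_eq, Flag.rho3, Triang.iota_iota]

lemma Flag.kap_vx_two (x : Flag N) : x.kap.vx 2 = x.vx 2 := congrArg Prod.snd x.face_kap

lemma Triang.rev_turn (x : Flag N) : (T.turn x).rev = T.iota x.kap := by
  refine Flag.ext' ?_ ?_
  · rw [Flag.rev_fst, Triang.turn_fst, Triang.iota_fst, Flag.kap_vx_two, Flag.kap_fst]
  · rw [Flag.rev_snd, Triang.turn_snd, Triang.iota_snd, Flag.kap_vx_two, Flag.kap_fst, Flag.kap_snd]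
    simp only [mul_assoc]
    congr 2
    decide

lemma Triang.kap_iota_kap (x : Flag N) : (T.iota x.kap).kap = T.iota x := by
  refine Flag.ext' ?_ ?_
  · rw [Flag.kap_fst, Triang.iota_fst, Triang.iota_fst, Flag.kap_vx_two, Flag.kap_fst]
  · rw [Flag.kap_snd, Triang.iota_snd, Triang.iota_snd, Flag.kap_vx_two, Flag.kap_fst, Flag.kap_snd]
    simp only [mul_assoc]
    congr 2
    decide

lemma Triang.turn_rev_turn (x : Flag N) : T.turn (T.turn x).rev = x.rev := by
  rw [Triang.rev_turn, Triang.turn_eq, Triang.iota_iota]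
  refine Flag.ext' rfl ?_
  rw [Flag.rho_snd, Flag.rho_snd, Flag.kap_snd, Flag.rev_snd, mul_assoc, mul_assoc]
  congr 1
  decide

lemma Triang.turn_injective : Function.Injective T.turn := by
  intro x y h
  rw [← T.iota_rho_turn x, ← T.iota_rho_turn y, h]

lemma Cells.eps_face (K : Cells T) (q : EE N) : (K.eps q).face = K.side q.1 := face_faceFlag _ _

lemma Cells.eps_kap (K : Cells T) (q : EE N) : (K.eps q).kap = K.eps (q.1, q.2 + 1) :=
  faceFlag_kap _ _

lemma Cells.eps_injective (K : Cells T) : Function.Injective K.eps := by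
  intro q q' h
  have hf : K.side q.1 = K.side q'.1 := by
    rw [← K.eps_face, ← K.eps_face, h]
  have h1 : q.1 = q'.1 := by
    have := K.side_bij.1 (a₁ := Sum.inl q.1) (a₂ := Sum.inl q'.1) hf
    exact Sum.inl_injective this
  have h2 : faceFlag (K.side q.1) q.2 = faceFlag (K.side q'.1) q'.2 := h
  rw [← h1] at h2
  exact Prod.ext h1 (faceFlag_inj _ h2)

lemma Cells.eps_ne_iota_eps (K : Cells T) (q q' : EE N) : K.eps q ≠ T.iota (K.eps q') := by
  intro h
  have hf : K.side q.1 = T.opp (K.side q'.1) := by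
    rw [← K.eps_face, ← K.eps_face, h, T.face_iota]
  have := K.side_bij.1 (a₁ := Sum.inl q.1) (a₂ := Sum.inr q'.1) hf
  exact absurd this (by simp)

lemma Cells.exists_eps (K : Cells T) (x : Flag N) : (∃ q, K.eps q = x) ∨ ∃ q, T.iota (K.eps q) = x := by
  obtain ⟨f, hf⟩ := K.side_bij.2 x.face
  rcases f with f | f
  · left
    obtain ⟨s, hs, -⟩ := faceFlag_bij (K.side f) x hf.symm
    exact ⟨(f, s), hs⟩
  · right
    have hf' : T.opp (K.side f) = x.face := hf
    have h' : (T.iota x).face = K.side f := by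
      rw [T.face_iota, ← hf', T.opp_opp]
    obtain ⟨s, hs, -⟩ := faceFlag_bij (K.side f) (T.iota x) h'
    refine ⟨(f, s), ?_⟩
    show T.iota (faceFlag (K.side f) s) = x
    rw [hs, T.iota_iota]

lemma Triang.iota_injective : Function.Injective T.iota := by
  intro x y h
  rw [← T.iota_iota x, ← T.iota_iota y, h]

lemma Cells.eps_bij (K : Cells T) :
    Function.Bijective (Sum.elim K.eps (fun q => T.iota (K.eps q))) := by
  constructor
  · rintro (q | q) (q' | q') h
    · exact congrArg Sum.inl (K.eps_injective h)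
    · exact absurd h (K.eps_ne_iota_eps q q')
    · exact absurd h.symm (K.eps_ne_iota_eps q' q)
    · exact congrArg Sum.inr (K.eps_injective (T.iota_injective h))
  · intro x
    rcases K.exists_eps x with ⟨q, hq⟩ | ⟨q, hq⟩
    · exact ⟨Sum.inl q, hq⟩
    · exact ⟨Sum.inr q, hq⟩

lemma Cells.cls_turn (K : Cells T) (x : Flag N) : K.cls (T.turn x) = K.cls x :=
  ((K.cls_iff x (T.turn x)).2 ⟨1, rfl⟩).symm

lemma Cells.cls_iota (K : Cells T) (x : Flag N) : K.cls (T.iota x) = K.cls x.rho.rho := by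
  rw [← K.cls_turn (T.iota x), Triang.turn_eq, Triang.iota_iota]

/-- The sum over the turns about an edge is the sum over the flags of this edge. -/
lemma Cells.sum_orbit (K : Cells T) (e : Fin N) {A : Type} [AddCommMonoid A] (F : Flag N → A) :
    ∑ k ∈ range (Function.minimalPeriod T.turn (K.rep e)), F (T.turn^[k] (K.rep e)) =
      ∑ x : Flag N with K.cls x = (e, false), F x := by
  have hper : 0 < Function.minimalPeriod T.turn (K.rep e) :=
    Function.minimalPeriod_pos_of_mem_periodicPts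
      (Function.Injective.mem_periodicPts T.turn_injective _)
  refine Finset.sum_bij (fun k _ => T.turn^[k] (K.rep e)) ?_ ?_ ?_ ?_
  · intro k _
    rw [Finset.mem_filter]
    refine ⟨Finset.mem_univ _, ?_⟩
    rw [← K.rep_cls e]
    exact ((K.cls_iff _ _).2 ⟨k, rfl⟩).symm
  · intro k hk l hl h
    rw [Finset.mem_range] at hk hl
    exact Function.iterate_injOn_Iio_minimalPeriod (Set.mem_Iio.2 hk) (Set.mem_Iio.2 hl) h
  · intro x hx
    rw [Finset.mem_filter] at hx
    have hx' : K.cls (K.rep e) = K.cls x := by rw [K.rep_cls, hx.2]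
    obtain ⟨k, hk⟩ := (K.cls_iff _ _).1 hx'
    refine ⟨k % Function.minimalPeriod T.turn (K.rep e), Finset.mem_range.2 (Nat.mod_lt _ hper), ?_⟩
    rw [Function.iterate_mod_minimalPeriod_eq, hk]
  · intro k _
    rfl

lemma prod_transversal {α A : Type} [Fintype α] [CommMonoid A] (ν : α → α) (hν : ∀ x, ν (ν x) = x)
    (F : α → A) (hF : ∀ x, F (ν x) = F x) (P Q : α → Prop) [DecidablePred P] [DecidablePred Q]
    (hP : ∀ x, P (ν x) ↔ ¬ P x) (hQ : ∀ x, Q (ν x) ↔ ¬ Q x) :
    ∏ x : α with P x, F x = ∏ x : α with Q x, F x := by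
  refine Finset.prod_bij (fun x _ => if Q x then x else ν x) ?_ ?_ ?_ ?_
  · intro x _
    rw [Finset.mem_filter]
    refine ⟨Finset.mem_univ _, ?_⟩
    by_cases h : Q x
    · rw [if_pos h]
      exact h
    · rw [if_neg h]
      exact (hQ x).2 h
  · intro x hx y hy h
    rw [Finset.mem_filter] at hx hy
    by_cases h1 : Q x <;> by_cases h2 : Q y
    · rwa [if_pos h1, if_pos h2] at h
    · rw [if_pos h1, if_neg h2] at h
      exact absurd hy.2 ((hP y).1 (h ▸ hx.2))
    · rw [if_neg h1, if_pos h2] at h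
      exact absurd hx.2 ((hP x).1 (h.symm ▸ hy.2))
    · rw [if_neg h1, if_neg h2] at h
      rw [← hν x, h, hν]
  · intro y hy
    rw [Finset.mem_filter] at hy
    by_cases h : P y
    · exact ⟨y, Finset.mem_filter.2 ⟨Finset.mem_univ _, h⟩, if_pos hy.2⟩
    · refine ⟨ν y, Finset.mem_filter.2 ⟨Finset.mem_univ _, (hP y).2 h⟩, ?_⟩
      rw [if_neg (fun h' => (hQ y).1 h' hy.2), hν]
  · intro x _
    by_cases h : Q x
    · rw [if_pos h]
    · rw [if_neg h, hF]

/-- `rev ∘ turn` exchanges the chosen darts with the other ones -/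
lemma Cells.eps_flip (K : Cells T) (x : Flag N) :
    (∃ q, K.eps q = (T.turn x).rev) ↔ ¬ ∃ q, K.eps q = x := by
  constructor
  · rintro ⟨q, hq⟩ ⟨q', rfl⟩
    rw [Triang.rev_turn, K.eps_kap] at hq
    exact K.eps_ne_iota_eps _ _ hq
  · intro h
    rcases K.exists_eps x with h' | ⟨q, rfl⟩
    · exact absurd h' h
    · refine ⟨(q.1, q.2 - 1), ?_⟩
      rw [Triang.rev_turn]
      have h1 : K.eps q = (K.eps (q.1, q.2 - 1)).kap := by
        rw [K.eps_kap]
        simp
      rw [h1]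
      have h2 := T.kap_iota_kap (T.iota (K.eps (q.1, q.2 - 1)).kap)
      have h3 := T.kap_iota_kap (K.eps (q.1, q.2 - 1))
      rw [h3, Triang.iota_iota]

lemma Cells.prod_eps_eq (K : Cells T) {A : Type} [CommMonoid A] (F : Flag N → A)
    (hF : ∀ x, F (T.turn x).rev = F x) :
    ∏ q, F (K.eps q) = ∏ x : Flag N with (K.cls x).2 = false, F x := by
  classical
  have h1 : ∏ q, F (K.eps q) = ∏ x : Flag N with ∃ q, K.eps q = x, F x := by
    refine Finset.prod_bij (fun q _ => K.eps q) ?_ ?_ ?_ ?_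
    · intro q _
      exact Finset.mem_filter.2 ⟨Finset.mem_univ _, q, rfl⟩
    · intro q _ q' _ h
      exact K.eps_injective h
    · intro x hx
      obtain ⟨q, hq⟩ := (Finset.mem_filter.1 hx).2
      exact ⟨q, Finset.mem_univ _, hq⟩
    · intro q _
      rfl
  rw [h1]
  refine prod_transversal (fun x => (T.turn x).rev) ?_ F hF _ _ K.eps_flip ?_
  · intro x
    show (T.turn (T.turn x).rev).rev = x
    rw [Triang.turn_rev_turn, Flag.rev_rev]
  · intro x
    show (K.cls (T.turn x).rev).2 = false ↔ ¬ (K.cls x).2 = false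
    rw [K.cls_rev, K.cls_turn]
    cases (K.cls x).2 <;> simp

lemma Cells.sum_eps_eq (K : Cells T) {A : Type} [AddCommMonoid A] (F : Flag N → A)
    (hF : ∀ x, F (T.turn x).rev = F x) :
    ∑ q, F (K.eps q) = ∑ x : Flag N with (K.cls x).2 = false, F x :=
  K.prod_eps_eq (A := Multiplicative A) (fun x => Multiplicative.ofAdd (F x)) hF

/-- The cusp torus. -/
def Cells.surf (K : Cells T) (hT : T.OneCusp) : Surf (Flag N) (Fin N × Fin 4) (Fin N × Bool) (EE N) where
  rho := Flag.rho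
  iota := T.iota
  rho3 := Flag.rho3
  rho_ne := Flag.rho_ne
  iota2 := T.iota_iota
  t := Flag.tri
  o := K.cls
  eps := K.eps
  t_rho := Flag.tri_rho
  t_fib := Flag.tri_fib
  t_surj := Flag.tri_surj
  o_S := fun d => by rw [← Triang.turn_eq, K.cls_turn]
  o_fib := fun d d' h => by
    obtain ⟨k, hk⟩ := (K.cls_iff d d').1 h
    refine ⟨k, ?_⟩
    rw [← hk]
    congr 1
    funext x
    exact (Triang.turn_eq x).symm
  o_surj := K.cls_surj
  eps_bij := K.eps_bij
  conn := hT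
  card := by simp; ring

end

end Pool.Agent.Helper34.OneLoop
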