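import Pool.Agent.Helper34.OneLoop.LO

/-! # Module FLAT: the product over a flattening -/

namespace Pool.Agent.Helper34.OneLoop

open Equiv Matrix Finset

section

variable {N : ℕ} {T : Triang N} {z : Fin N → ℂ} (K : Cells T) (D : Develop T z)

namespace FLAT

lemma zpow_sum' {ι : Type*} (s : Finset ι) (a : ℂ) (ha : a ≠ 0) (n : ι → ℤ) :
    a ^ (∑ i ∈ s, n i) = ∏ i ∈ s, a ^ n i := by
  classical
  induction s using Finset.induction_on with
  | empty => simp
  | insert i s hi ih => rw [Finset.sum_insert hi, Finset.prod_insert hi, zpow_add₀ ha, ih]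

/-- the pair of opposite edges `(a, b, c, d) ↦ (c, d, a, b)` -/
def opE : alternatingGroup (Fin 4) := ⟨swap 0 2 * swap 1 3, Perm.mem_alternatingGroup.2 (by decide)⟩

def rvE : alternatingGroup (Fin 4) := ⟨swap 0 1 * swap 2 3, Perm.mem_alternatingGroup.2 (by decide)⟩

def rhE : alternatingGroup (Fin 4) := ⟨swap 1 2 * swap 2 3, Perm.mem_alternatingGroup.2 (by decide)⟩

def gB : Fin 3 → alternatingGroup (Fin 4) := ![1, rhE, rhE * rhE]

set_option maxRecDepth 100000 in
lemma filt : ∀ k : Fin 3, (univ.filter fun g : alternatingGroup (Fin 4) =>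
    kind ((g : Perm (Fin 4)) 0) ((g : Perm (Fin 4)) 1) = k) =
      {gB k, gB k * rvE, gB k * opE, gB k * opE * rvE} := by
  decide

set_option maxRecDepth 100000 in
lemma distinct : ∀ k : Fin 3, gB k ∉ ({gB k * rvE, gB k * opE, gB k * opE * rvE} : Finset _) ∧
    gB k * rvE ∉ ({gB k * opE, gB k * opE * rvE} : Finset _) ∧
    gB k * opE ∉ ({gB k * opE * rvE} : Finset _) := by
  decide

lemma prod_kind {A : Type*} [CommMonoid A] (F : Flag N → A) (j : Fin N) (k : Fin 3) :
    ∏ x : Flag N with x.1 = j ∧ kind (x.vx 0) (x.vx 1) = k, F x =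
      F (j, gB k) * (F (j, gB k * rvE) * (F (j, gB k * opE) * F (j, gB k * opE * rvE))) := by
  have h1 : (univ.filter fun x : Flag N => x.1 = j ∧ kind (x.vx 0) (x.vx 1) = k) =
      (univ.filter fun g : alternatingGroup (Fin 4) =>
        kind ((g : Perm (Fin 4)) 0) ((g : Perm (Fin 4)) 1) = k).map
        ⟨fun g => ((j, g) : Flag N), fun g g' h => (Prod.mk.inj h).2⟩ := by
    ext ⟨i, g⟩
    simp only [Finset.mem_filter, Finset.mem_univ, true_and, Finset.mem_map]
    constructor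
    · rintro ⟨rfl, h⟩
      exact ⟨g, h, rfl⟩
    · rintro ⟨g', h, he⟩
      obtain ⟨rfl, rfl⟩ := Prod.mk.inj he
      exact ⟨rfl, h⟩
  rw [h1, Finset.prod_map, filt]
  obtain ⟨d1, d2, d3⟩ := distinct k
  rw [Finset.prod_insert d1, Finset.prod_insert d2, Finset.prod_insert d3, Finset.prod_singleton]
  rfl

lemma Csq_iter (k : ℕ) (x : Flag N) : D.Csq (T.turn^[k] x) = D.Csq x := by
  induction k with
  | zero => rfl
  | succ k ih => rw [Function.iterate_succ_apply', D.Csq_turn, ih]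

lemma Csq_cls (x y : Flag N) (h : K.cls x = K.cls y) : D.Csq x = D.Csq y := by
  obtain ⟨k, hk⟩ := (K.cls_iff x y).1 h
  rw [← hk, Csq_iter]

lemma Csq_ne (x : Flag N) : D.Csq x ≠ 0 := pow_ne_zero 2 (D.c_ne x 0 1 (by decide))

/-- one flag of each pair -/
lemma pair (x : Flag N) : (if (K.cls x).2 = false then D.Csq x else 1) *
    (if (K.cls x.rev).2 = false then D.Csq x.rev else 1) = D.Csq x := by
  rw [K.cls_rev, D.Csq_rev]
  cases (K.cls x).2 <;> simp

lemma kind_gB : ∀ k : Fin 3, kind ((gB k : Perm (Fin 4)) 0) ((gB k : Perm (Fin 4)) 1) = k := by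
  decide

lemma prod_jk (j : Fin N) (k : Fin 3) :
    ∏ x : Flag N with x.1 = j ∧ kind (x.vx 0) (x.vx 1) = k ∧ (K.cls x).2 = false, D.Csq x =
      (D.m j * zet (z j) k) ^ 2 := by
  have h1 : ∏ x : Flag N with x.1 = j ∧ kind (x.vx 0) (x.vx 1) = k ∧ (K.cls x).2 = false, D.Csq x =
      ∏ x : Flag N with x.1 = j ∧ kind (x.vx 0) (x.vx 1) = k,
        (if (K.cls x).2 = false then D.Csq x else 1) := by
    rw [← Finset.prod_filter, Finset.filter_filter]
    refine Finset.prod_congr ?_ fun _ _ => rfl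
    ext x
    simp only [Finset.mem_filter, and_assoc]
  rw [h1, prod_kind, ← mul_assoc]
  have h2 := pair K D ((j, gB k) : Flag N)
  have h3 := pair K D ((j, gB k * opE) : Flag N)
  have e2 : Flag.rev ((j, gB k) : Flag N) = (j, gB k * rvE) := rfl
  have e3 : Flag.rev ((j, gB k * opE) : Flag N) = (j, gB k * opE * rvE) := rfl
  rw [e2] at h2
  rw [e3] at h3
  rw [h2, h3]
  have h4 := D.cc_eq ((j, gB k) : Flag N)
  have h5 : kind (Flag.vx ((j, gB k) : Flag N) 0) (Flag.vx ((j, gB k) : Flag N) 1) = k := kind_gB k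
  rw [h5] at h4
  have h6 : D.Csq ((j, gB k * opE) : Flag N) = D.c ((j, gB k) : Flag N) 2 3 ^ 2 := rfl
  rw [h6, Develop.Csq, ← mul_pow, h4]

end FLAT

open FLAT in
lemma flat (f : Fin 3 → Fin N → ℤ) (hf : IsFlattening K f) :
    (∏ e, D.Csq (K.rep e)) ^ 2 = (∏ j, D.m j) ^ 2 * (∏ k : Fin 3, ∏ j, zet (z j) k ^ f k j) ^ 2 := by
  have h1 : ∀ e, D.Csq (K.rep e) ^ 2 = ∏ k : Fin 3, ∏ j,
      (∏ x : Flag N with x.1 = j ∧ kind (x.vx 0) (x.vx 1) = k ∧ K.cls x = (e, false),
        D.Csq x) ^ f k j := by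
    intro e
    have h2 : D.Csq (K.rep e) ^ 2 = D.Csq (K.rep e) ^ (∑ k : Fin 3, ∑ j, K.Gl k e j * f k j) := by
      rw [hf.edge e]
      rfl
    rw [h2, zpow_sum' _ _ (Csq_ne D _)]
    refine Finset.prod_congr rfl fun k _ => ?_
    rw [zpow_sum' _ _ (Csq_ne D _)]
    refine Finset.prod_congr rfl fun j _ => ?_
    rw [_root_.zpow_mul]
    congr 1
    unfold Cells.Gl
    rw [zpow_natCast, ← Finset.prod_const]
    refine Finset.prod_congr rfl fun x hx => ?_
    rw [Finset.mem_filter] at hx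
    exact Csq_cls K D _ _ ((K.rep_cls e).trans hx.2.2.2.symm)
  rw [← Finset.prod_pow, Finset.prod_congr rfl fun e _ => h1 e, Finset.prod_comm]
  have h3 : ∀ k : Fin 3, ∏ e, ∏ j,
      (∏ x : Flag N with x.1 = j ∧ kind (x.vx 0) (x.vx 1) = k ∧ K.cls x = (e, false),
        D.Csq x) ^ f k j = ∏ j, ((D.m j * zet (z j) k) ^ 2) ^ f k j := by
    intro k
    rw [Finset.prod_comm]
    refine Finset.prod_congr rfl fun j _ => ?_
    rw [Finset.prod_zpow]
    congr 1
    rw [← prod_jk K D j k, ← Finset.prod_fiberwise _ (fun x => (K.cls x).1)]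
    refine Finset.prod_congr rfl fun e _ => ?_
    rw [Finset.filter_filter]
    refine Finset.prod_congr ?_ fun _ _ => rfl
    ext x
    simp only [Finset.mem_filter, Finset.mem_univ, true_and, Prod.ext_iff]
    tauto
  rw [Finset.prod_congr rfl fun k _ => h3 k]
  have h4 : ∀ k : Fin 3, ∏ j, ((D.m j * zet (z j) k) ^ 2) ^ f k j =
      (∏ j, D.m j ^ f k j) ^ 2 * (∏ j, zet (z j) k ^ f k j) ^ 2 := by
    intro k
    rw [← Finset.prod_pow, ← Finset.prod_pow, ← Finset.prod_mul_distrib]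
    refine Finset.prod_congr rfl fun j _ => ?_
    rw [mul_pow, mul_zpow]
    have h5 : ∀ a : ℂ, (a ^ 2) ^ f k j = (a ^ f k j) ^ 2 := fun a => by
      rw [← zpow_natCast, ← zpow_natCast, ← _root_.zpow_mul, ← _root_.zpow_mul, mul_comm]
    rw [h5, h5]
  rw [Finset.prod_congr rfl fun k _ => h4 k, Finset.prod_mul_distrib, Finset.prod_pow,
    Finset.prod_pow, Finset.prod_comm]
  congr 2
  refine Finset.prod_congr rfl fun j _ => ?_
  rw [← zpow_sum' _ _ (D.m_ne j), hf.tet j, zpow_one]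

end

end Pool.Agent.Helper34.OneLoop
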