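import Pool.Agent.Helper34.OneLoop.FL
import Pool.Agent.Helper34.OneLoop.LO

/-!
# Module JA: the Jacobian of the gluing equations
-/

namespace Pool.Agent.Helper34.OneLoop

open Equiv Matrix Finset

section JA

/-! Auxiliary lemmas have names `JA.*`. -/

namespace JA end JA
open JA

variable {N : ℕ} {T : Triang N} {z : Fin N → ℂ} (K : Cells T) (D : Develop T z)

/-! ### `Jm_eq` -/

lemma Jm_eq (e j : Fin N) : Jm K D e j = -(1 / 2) * Rm K z e j * D.m j := by
  classical
  unfold Jm Rm
  have h1 : ∑ x : Flag N with x.1 = j ∧ K.cls x = (e, false), D.c x 0 1 * D.c x 2 3 =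
      ∑ x : Flag N with x.1 = j ∧ K.cls x = (e, false),
        D.m j * zet (z j) (kind (x.vx 0) (x.vx 1)) := by
    refine Finset.sum_congr rfl fun x hx => ?_
    have hx1 : x.1 = j := (Finset.mem_filter.1 hx).2.1
    rw [D.cc_eq, hx1]
  have h2 : ∑ x : Flag N with x.1 = j ∧ K.cls x = (e, false),
        D.m j * zet (z j) (kind (x.vx 0) (x.vx 1)) =
      ∑ k : Fin 3, ((K.Gl k e j : ℤ) : ℂ) * zet (z j) k * D.m j := by
    rw [← Finset.sum_fiberwise (s := univ.filter fun x : Flag N => x.1 = j ∧ K.cls x = (e, false))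
      (g := fun x : Flag N => kind (x.vx 0) (x.vx 1))]
    refine Finset.sum_congr rfl fun k _ => ?_
    have h3 : ∀ x ∈ (univ.filter fun x : Flag N => x.1 = j ∧ K.cls x = (e, false)).filter
        (fun x : Flag N => kind (x.vx 0) (x.vx 1) = k),
        D.m j * zet (z j) (kind (x.vx 0) (x.vx 1)) = D.m j * zet (z j) k := by
      intro x hx
      rw [(Finset.mem_filter.1 hx).2]
    rw [Finset.sum_congr rfl h3, Finset.sum_const, nsmul_eq_mul]
    have h4 : ((univ.filter fun x : Flag N => x.1 = j ∧ K.cls x = (e, false)).filter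
        (fun x : Flag N => kind (x.vx 0) (x.vx 1) = k)) =
        (univ.filter (fun x : Flag N => x.1 = j ∧ kind (x.vx 0) (x.vx 1) = k ∧
          K.cls x = (e, false))) := by
      ext x
      simp only [Finset.mem_filter, Finset.mem_univ, true_and]
      tauto
    rw [h4]
    unfold Cells.Gl
    push_cast
    ring
  rw [h1, h2, ← Finset.sum_mul]
  ring

/-! ### `Phi0_Kv` -/

lemma JA.nil_relation (a b c d : Fin 2 → ℂ) (hab : om a b ≠ 0) (hac : om a c ≠ 0) (had : om a d ≠ 0)
    (hbc : om b c ≠ 0) (hbd : om b d ≠ 0) (hcd : om c d ≠ 0) :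
    (om a b * (om a c * om a d))⁻¹ • nil a + (om b a * (om b c * om b d))⁻¹ • nil b +
      (om c a * (om c b * om c d))⁻¹ • nil c + (om d a * (om d b * om d c))⁻¹ • nil d = 0 := by
  have e1 : om b a = -om a b := by unfold om; ring
  have e2 : om c a = -om a c := by unfold om; ring
  have e3 : om d a = -om a d := by unfold om; ring
  have e4 : om c b = -om b c := by unfold om; ring
  have e5 : om d b = -om b d := by unfold om; ring
  have e6 : om d c = -om c d := by unfold om; ring
  rw [e1, e2, e3, e4, e5, e6]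
  have key : ∀ A B C E : ℂ,
      A * (om b c * om b d * om c d) - B * (om a c * om a d * om c d) +
        C * (om a b * om a d * om b d) - E * (om a b * om a c * om b c) = 0 →
      (om a b * (om a c * om a d))⁻¹ * A + (-om a b * (om b c * om b d))⁻¹ * B +
      (-om a c * (-om b c * om c d))⁻¹ * C + (-om a d * (-om b d * -om c d))⁻¹ * E = 0 := by
    intro A B C E h
    have h2 : (om a b * (om a c * om a d))⁻¹ * A + (-om a b * (om b c * om b d))⁻¹ * B +
      (-om a c * (-om b c * om c d))⁻¹ * C + (-om a d * (-om b d * -om c d))⁻¹ * E =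
      (A * (om b c * om b d * om c d) - B * (om a c * om a d * om c d) +
        C * (om a b * om a d * om b d) - E * (om a b * om a c * om b c)) /
        (om a b * om a c * om a d * om b c * om b d * om c d) := by
      field_simp
      ring
    rw [h2, h, zero_div]
  funext i
  fin_cases i
  · simp only [nil, Fin.zero_eta, Pi.add_apply, Pi.smul_apply, smul_eq_mul, Matrix.cons_val_zero,
      Pi.zero_apply]
    apply key
    unfold om
    ring
  · simp only [nil, Fin.mk_one, Pi.add_apply, Pi.smul_apply, smul_eq_mul, Matrix.cons_val_one,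
      Pi.zero_apply]
    apply key
    unfold om
    simp
    ring
  · simp only [nil, Fin.reduceFinMk, Pi.add_apply, Pi.smul_apply, smul_eq_mul, Matrix.cons_val,
      Pi.zero_apply]
    apply key
    unfold om
    ring

lemma Phi0_Kv (j : Fin N) : Phi0 D (Kv D j) = 0 := by
  funext j'
  unfold Phi0
  by_cases h : j' = j
  · subst h
    have h1 : ∀ a : Fin 4, Kv D j' (j', a) = D.kk j' a := fun a => by simp [Kv]
    simp only [h1]
    rw [Fin.sum_univ_four]
    have k0 : D.kk j' 0 = (om (D.v j' 0) (D.v j' 1) * (om (D.v j' 0) (D.v j' 2) *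
        om (D.v j' 0) (D.v j' 3)))⁻¹ := by
      unfold Develop.kk
      rw [show (univ.erase (0 : Fin 4)) = {1, 2, 3} by decide]
      simp
    have k1 : D.kk j' 1 = (om (D.v j' 1) (D.v j' 0) * (om (D.v j' 1) (D.v j' 2) *
        om (D.v j' 1) (D.v j' 3)))⁻¹ := by
      unfold Develop.kk
      rw [show (univ.erase (1 : Fin 4)) = {0, 2, 3} by decide]
      simp
    have k2 : D.kk j' 2 = (om (D.v j' 2) (D.v j' 0) * (om (D.v j' 2) (D.v j' 1) *
        om (D.v j' 2) (D.v j' 3)))⁻¹ := by
      unfold Develop.kk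
      rw [show (univ.erase (2 : Fin 4)) = {0, 1, 3} by decide]
      simp
    have k3 : D.kk j' 3 = (om (D.v j' 3) (D.v j' 0) * (om (D.v j' 3) (D.v j' 1) *
        om (D.v j' 3) (D.v j' 2)))⁻¹ := by
      unfold Develop.kk
      rw [show (univ.erase (3 : Fin 4)) = {0, 1, 2} by decide]
      simp
    rw [k0, k1, k2, k3]
    exact nil_relation _ _ _ _ (D.indep _ _ _ (by decide)) (D.indep _ _ _ (by decide))
      (D.indep _ _ _ (by decide)) (D.indep _ _ _ (by decide)) (D.indep _ _ _ (by decide))
      (D.indep _ _ _ (by decide))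
  · simp [Kv, h]

/-! ### Preliminaries -/

lemma JA.u_eq (x : Flag N) : D.u x = D.c x 1 3 / (D.c x 0 1 * D.c x 0 3) := rfl

lemma JA.c_kap (x : Flag N) (i j : Fin 4) :
    D.c x.kap i j = D.c x ((swap 0 1 * swap 1 3 : Perm (Fin 4)) i)
      ((swap 0 1 * swap 1 3 : Perm (Fin 4)) j) := rfl

lemma JA.c_rho (x : Flag N) (i j : Fin 4) :
    D.c x.rho i j = D.c x ((swap 1 2 * swap 2 3 : Perm (Fin 4)) i)
      ((swap 1 2 * swap 2 3 : Perm (Fin 4)) j) := rfl

lemma JA.kap_iota (x : Flag N) : (T.iota x).kap = T.iota x.kap.kap := by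
  have h := T.kap_iota_kap x.kap.kap
  rw [x.kap3] at h
  exact h

lemma JA.kap_kap_iota (x : Flag N) : (T.iota x).kap.kap = T.iota x.kap := by
  rw [kap_iota, kap_iota, x.kap3]

lemma JA.dch_iota (x : Flag N) : K.dch (T.iota x) = -K.dch x := by
  funext q
  simp only [Cells.dch, Pi.neg_apply]
  have h1 : (T.iota (K.eps q) = T.iota x) ↔ K.eps q = x := by
    constructor
    · intro h
      rw [← T.iota_iota (K.eps q), h, T.iota_iota]
    · intro h; rw [h]
  have h2 : (K.eps q = T.iota x) ↔ T.iota (K.eps q) = x := by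
    constructor
    · intro h
      rw [h, T.iota_iota]
    · intro h; rw [← h, T.iota_iota]
  simp only [h1, h2]
  ring

lemma JA.eps_inj (q q' : EE N) (h : K.eps q = K.eps q') : q = q' := by
  have := K.eps_bij.1 (a₁ := Sum.inl q) (a₂ := Sum.inl q') h
  exact Sum.inl.inj this

lemma JA.iota_eps_ne (q q' : EE N) : T.iota (K.eps q) ≠ K.eps q' := by
  intro h
  have := K.eps_bij.1 (a₁ := Sum.inr q) (a₂ := Sum.inl q') h
  cases this

lemma JA.dch_eps (q' : EE N) : K.dch (K.eps q') = Pi.single q' 1 := by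
  funext q
  simp only [Cells.dch, Pi.single_apply]
  rw [if_neg (iota_eps_ne K q q'), sub_zero]
  by_cases h : q = q'
  · simp [h]
  · rw [if_neg h, if_neg]
    exact fun h' => h (eps_inj K q q' h')

/-! ### `sum_Xe` -/

lemma JA.xi_inv (x : Flag N) : xi K D (T.turn x).rev = xi K D x := by
  rw [T.rev_turn]
  unfold xi
  rw [T.kap_iota_kap, kap_iota, D.u_iota, D.u_iota, D.u_iota, dch_iota, dch_iota, dch_iota]
  congr 1
  funext q
  simp only [Pi.add_apply, Pi.sub_apply, Pi.smul_apply, Pi.neg_apply, smul_eq_mul]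
  ring

lemma JA.kap_eps (q : EE N) : (K.eps q).kap = K.eps (q.1, q.2 + 1) := by
  obtain ⟨f, s⟩ := q
  unfold Cells.eps faceFlag
  fin_cases s
  · rfl
  · rfl
  · show (Flag.kap^[2] (baseFlag (K.side f))).kap = baseFlag (K.side f)
    exact Flag.kap3 _

lemma sum_Xe (q : EE N) : ∑ e, Xe K D e q = (1 / 2) * D.u (K.eps q) := by
  classical
  have h1 : ∑ e, Xe K D e q = ∑ x : Flag N with (K.cls x).2 = false, xi K D x q := by
    rw [← Finset.sum_fiberwise (s := univ.filter fun x : Flag N => (K.cls x).2 = false)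
      (g := fun x : Flag N => (K.cls x).1)]
    refine Finset.sum_congr rfl fun e _ => ?_
    unfold Xe
    rw [Finset.sum_apply]
    refine Finset.sum_congr ?_ fun _ _ => rfl
    ext x
    simp only [Finset.mem_filter, Finset.mem_univ, true_and, Prod.ext_iff]
    tauto
  rw [h1, ← K.sum_eps_eq (fun x => xi K D x q) (fun x => by rw [xi_inv])]
  have h2 : ∀ q', xi K D (K.eps q') q = (1 / 2) * (D.u (K.eps q') * (if q = q' then 1 else 0) +
      D.u (K.eps (q'.1, q'.2 + 1)) * (if q = (q'.1, q'.2 + 1) then 1 else 0) -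
      D.u (K.eps (q'.1, q'.2 + 1 + 1)) * (if q = (q'.1, q'.2 + 1 + 1) then 1 else 0)) := by
    intro q'
    unfold xi
    rw [kap_eps, kap_eps, dch_eps, dch_eps, dch_eps]
    simp only [Pi.add_apply, Pi.sub_apply, Pi.smul_apply, smul_eq_mul, Pi.single_apply]
  simp only [h2]
  rw [← Finset.mul_sum, Finset.sum_sub_distrib, Finset.sum_add_distrib]
  let σ : EE N ≃ EE N :=
    { toFun := fun q => (q.1, q.2 + 1)
      invFun := fun q => (q.1, q.2 - 1)
      left_inv := fun q => by simp
      right_inv := fun q => by simp }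
  have h3 : ∀ G : EE N → ℂ, ∑ q' : EE N, G (q'.1, q'.2 + 1) = ∑ q', G q' := fun G =>
    Equiv.sum_comp σ G
  rw [h3 (fun q' => D.u (K.eps q') * (if q = q' then 1 else 0)),
    h3 (fun q' => D.u (K.eps (q'.1, q'.2 + 1)) * (if q = (q'.1, q'.2 + 1) then 1 else 0)),
    h3 (fun q' => D.u (K.eps q') * (if q = q' then 1 else 0))]
  simp

/-! ### `del1_Xe` -/

lemma JA.del1_add (y y' : EE N → ℂ) : K.del1 (y + y') = K.del1 y + K.del1 y' := by
  funext p
  simp only [Cells.del1, Pi.add_apply, add_mul, Finset.sum_add_distrib]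

lemma JA.del1_smul (a : ℂ) (y : EE N → ℂ) : K.del1 (a • y) = a • K.del1 y := by
  funext p
  simp only [Cells.del1, Pi.smul_apply, smul_eq_mul, Finset.mul_sum, mul_assoc]

lemma JA.del1_zero : K.del1 0 = 0 := by
  funext p
  simp [Cells.del1]

lemma JA.del1_sum {ι : Type*} (s : Finset ι) (F : ι → EE N → ℂ) :
    K.del1 (∑ i ∈ s, F i) = ∑ i ∈ s, K.del1 (F i) := by
  classical
  induction s using Finset.induction_on with
  | empty => simp [del1_zero]
  | insert a s ha ih => rw [Finset.sum_insert ha, Finset.sum_insert ha, del1_add, ih]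

lemma JA.del1_dch (x : Flag N) (p : Fin N × Fin 4) : K.del1 (K.dch x) p =
    (if (T.iota x).tri = p then 1 else 0) - (if x.tri = p then 1 else 0) := by
  obtain ⟨w, hw⟩ := K.eps_bij.2 x
  rcases w with q | q
  · simp only [Sum.elim_inl] at hw
    rw [← hw, dch_eps]
    simp [Cells.del1, Pi.single_apply]
  · simp only [Sum.elim_inr] at hw
    rw [← hw, dch_iota, dch_eps, T.iota_iota]
    simp [Cells.del1, Pi.single_apply]

/-- The contribution of `x` arriving. -/
noncomputable def JA.Aout (x : Flag N) (p : Fin N × Fin 4) : ℂ :=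
  (1 / 2) * (D.u x * (if (T.iota x).tri = p then 1 else 0) +
    D.u x.kap * (if (T.iota x.kap).tri = p then 1 else 0) -
    D.u x.kap.kap * (if (T.iota x.kap.kap).tri = p then 1 else 0))

/-- The contribution of `x` leaving. -/
noncomputable def JA.Bout (x : Flag N) (p : Fin N × Fin 4) : ℂ :=
  (1 / 2) * (D.u x * (if x.tri = p then 1 else 0) +
    D.u x.kap * (if x.kap.tri = p then 1 else 0) -
    D.u x.kap.kap * (if x.kap.kap.tri = p then 1 else 0))

lemma JA.del1_xi (x : Flag N) (p : Fin N × Fin 4) : K.del1 (xi K D x) p =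
    Aout D x p - Bout D x p := by
  unfold xi
  rw [sub_eq_add_neg, ← neg_one_smul ℂ (D.u x.kap.kap • _), del1_smul, del1_add, del1_add,
    del1_smul, del1_smul, del1_smul, del1_smul]
  simp only [Pi.add_apply, Pi.smul_apply, smul_eq_mul, del1_dch]
  unfold Aout Bout
  ring

lemma JA.Aout_prev (y : Flag N) (p : Fin N × Fin 4) : Aout D (T.iota y.rho) p =
    (1 / 2) * (-(D.u y.rho) * (if y.tri = p then 1 else 0)
      - D.u y.rho.kap.kap * (if y.rho.kap.kap.tri = p then 1 else 0)
      + D.u y.rho.kap * (if y.rho.kap.tri = p then 1 else 0)) := by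
  unfold Aout
  rw [kap_iota, kap_iota, y.rho.kap.kap3, T.iota_iota, T.iota_iota, T.iota_iota, D.u_iota,
    D.u_iota, D.u_iota, Flag.tri_rho]
  ring

lemma JA.flag_identity (y : Flag N) (p : Fin N × Fin 4) :
    Aout D (T.iota y.rho) p - Bout D y p =
      -(1 / 2) * (D.c y 0 1 * D.c y 2 3) * Kv D y.1 p := by
  rw [Aout_prev]
  unfold Bout
  by_cases hp : p.1 = y.1
  · obtain ⟨j, a⟩ := p
    simp only at hp
    subst hp
    obtain ⟨i, hi⟩ : ∃ i : Fin 4, y.vx i = a := ⟨(y.2 : Perm (Fin 4)).symm a, by simp [Flag.vx]⟩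
    subst hi
    have hv : ∀ k : Fin 4, ((if (y.1, y.vx k) = (y.1, y.vx i) then (1 : ℂ) else 0)) =
        if k = i then 1 else 0 := by
      intro k
      have : ((y.1, y.vx k) = (y.1, y.vx i)) ↔ k = i := by
        constructor
        · intro h
          exact (y.2 : Perm (Fin 4)).injective (Prod.ext_iff.1 h).2
        · intro h; rw [h]
      simp only [this]
    have t0 : y.tri = (y.1, y.vx 0) := rfl
    have t1 : y.rho.kap.kap.tri = (y.1, y.vx 1) := rfl
    have t2 : y.rho.kap.tri = (y.1, y.vx 2) := rfl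
    have t3 : y.kap.tri = (y.1, y.vx 1) := rfl
    have t4 : y.kap.kap.tri = (y.1, y.vx 3) := rfl
    rw [t0, t1, t2, t3, t4, hv, hv, hv, hv]
    have k0 : Kv D y.1 (y.1, y.vx i) = (∏ l ∈ univ.erase i, D.c y i l)⁻¹ := by
      unfold Kv
      rw [if_pos rfl, D.kk_eq]
    rw [k0]
    have u1 : D.u y = D.c y 1 3 / (D.c y 0 1 * D.c y 0 3) := rfl
    have u2 : D.u y.rho = D.c y 2 1 / (D.c y 0 2 * D.c y 0 1) := rfl
    have u3 : D.u y.rho.kap.kap = D.c y 0 2 / (D.c y 1 0 * D.c y 1 2) := rfl
    have u4 : D.u y.rho.kap = D.c y 1 0 / (D.c y 2 1 * D.c y 2 0) := rfl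
    have u5 : D.u y.kap = D.c y 3 0 / (D.c y 1 3 * D.c y 1 0) := rfl
    have u6 : D.u y.kap.kap = D.c y 0 1 / (D.c y 3 0 * D.c y 3 1) := rfl
    have hpl := D.plucker y
    have n01 := D.c_ne y 0 1 (by decide)
    have n02 := D.c_ne y 0 2 (by decide)
    have n03 := D.c_ne y 0 3 (by decide)
    have n12 := D.c_ne y 1 2 (by decide)
    have n13 := D.c_ne y 1 3 (by decide)
    have n23 := D.c_ne y 2 3 (by decide)
    have s10 := D.c_swap y 0 1
    have s20 := D.c_swap y 0 2
    have s30 := D.c_swap y 0 3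
    have s21 := D.c_swap y 1 2
    have s31 := D.c_swap y 1 3
    have s32 := D.c_swap y 2 3
    rw [u1, u2, u3, u4, u5, u6]
    fin_cases i
    · simp only [Fin.zero_eta, ite_true]
      rw [show (univ.erase (0 : Fin 4)) = {1, 2, 3} by decide]
      rw [Finset.prod_insert (by decide), Finset.prod_insert (by decide), Finset.prod_singleton,
        if_neg (by decide), if_neg (by decide), if_neg (by decide), s21]
      simp only [mul_zero, mul_one, sub_zero, add_zero, zero_sub, zero_add, sub_self]
      field_simp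
      linear_combination hpl
    · simp only [Fin.mk_one, ite_true]
      rw [show (univ.erase (1 : Fin 4)) = {0, 2, 3} by decide]
      rw [Finset.prod_insert (by decide), Finset.prod_insert (by decide), Finset.prod_singleton,
        if_neg (by decide), if_neg (by decide), if_neg (by decide), s10, s30]
      simp only [mul_zero, mul_one, sub_zero, add_zero, zero_sub, zero_add, sub_self]
      field_simp
      linear_combination -hpl
    · simp only [Fin.reduceFinMk, ite_true]
      rw [show (univ.erase (2 : Fin 4)) = {0, 1, 3} by decide]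
      rw [Finset.prod_insert (by decide), Finset.prod_insert (by decide), Finset.prod_singleton,
        if_neg (by decide), if_neg (by decide), if_neg (by decide), s10, s20, s21]
      simp only [mul_zero, mul_one, sub_zero, add_zero, zero_sub, zero_add, sub_self]
      field_simp
    · simp only [Fin.reduceFinMk, ite_true]
      rw [show (univ.erase (3 : Fin 4)) = {0, 1, 2} by decide]
      rw [Finset.prod_insert (by decide), Finset.prod_insert (by decide), Finset.prod_singleton,
        if_neg (by decide), if_neg (by decide), if_neg (by decide), s30, s31, s32]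
      simp only [mul_zero, mul_one, sub_zero, add_zero, zero_sub, zero_add, sub_self]
      field_simp
  · have h1 : ∀ x : Flag N, x.1 = y.1 → x.tri ≠ p := by
      intro x hx h
      apply hp
      rw [← h, ← hx]
      rfl
    have h2 : ∀ x : Flag N, x.1 = y.1 → (if x.tri = p then (1 : ℂ) else 0) = 0 := fun x hx =>
      if_neg (h1 x hx)
    rw [h2 y rfl, h2 y.rho.kap.kap rfl, h2 y.rho.kap rfl, h2 y.kap rfl, h2 y.kap.kap rfl]
    unfold Kv
    rw [if_neg hp]
    ring

lemma del1_Xe (e : Fin N) : K.del1 (Xe K D e) = ∑ j, Jm K D e j • Kv D j := by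
  classical
  funext p
  unfold Xe
  rw [del1_sum, Finset.sum_apply]
  simp only [del1_xi]
  rw [Finset.sum_sub_distrib]
  have h1 : ∑ x : Flag N with K.cls x = (e, false), Aout D x p =
      ∑ y : Flag N with K.cls y = (e, false), Aout D (T.iota y.rho) p := by
    symm
    refine Finset.sum_bij' (fun y _ => T.iota y.rho) (fun x _ => T.turn x) ?_ ?_ ?_ ?_ ?_
    · intro y hy
      simp only [Finset.mem_filter, Finset.mem_univ, true_and] at hy ⊢
      rw [← hy, ← K.cls_turn, T.turn_iota_rho]
    · intro x hx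
      simp only [Finset.mem_filter, Finset.mem_univ, true_and] at hx ⊢
      rw [K.cls_turn, hx]
    · intro y _
      exact T.turn_iota_rho y
    · intro x _
      exact T.iota_rho_turn x
    · intro y _
      rfl
  rw [h1, ← Finset.sum_sub_distrib]
  simp only [flag_identity]
  rw [Finset.sum_apply]
  rw [← Finset.sum_fiberwise (s := univ.filter fun x : Flag N => K.cls x = (e, false))
      (g := fun x : Flag N => x.1)]
  refine Finset.sum_congr rfl fun j _ => ?_
  simp only [Pi.smul_apply, smul_eq_mul]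
  unfold Jm
  rw [Finset.mul_sum, Finset.sum_mul]
  refine Finset.sum_congr ?_ fun x hx => ?_
  · ext x
    simp only [Finset.mem_filter, Finset.mem_univ, true_and]
    tauto
  · simp only [Finset.mem_filter, Finset.mem_univ, true_and] at hx
    rw [hx.1]

end JA

end Pool.Agent.Helper34.OneLoop
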