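import Pool.Agent.Helper34.OneLoop.Core

/-!
The torus lemma: the cellular chain complex of a closed oriented surface of Euler characteristic `0` is
unimodular with respect to the intersection form.
-/

namespace Pool.Agent.Helper34.OneLoop

open Equiv Matrix Finset

namespace Surf

variable {D V O E : Type} [Fintype D] [Fintype V] [Fintype O] [Fintype E]
  [DecidableEq D] [DecidableEq V] (M : Surf D V O E) {R : Type} [CommRing R]

/-! ### Darts -/

omit [Fintype D] [DecidableEq D] [DecidableEq V] in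
lemma eps_inj {q q' : E} (h : M.eps q = M.eps q') : q = q' := by
  have := M.eps_bij.injective (a₁ := Sum.inl q) (a₂ := Sum.inl q') (by simpa using h)
  simpa using this

omit [Fintype D] [DecidableEq D] [DecidableEq V] in
lemma iota_eps_ne (q q' : E) : M.iota (M.eps q) ≠ M.eps q' := by
  intro h
  have := M.eps_bij.injective (a₁ := Sum.inr q) (a₂ := Sum.inl q') (by simpa using h)
  simp at this

omit [Fintype D] [DecidableEq D] [DecidableEq V] in
lemma iota_inj {d d' : D} (h : M.iota d = M.iota d') : d = d' := by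
  rw [← M.iota2 d, h, M.iota2]

omit [Fintype D] [DecidableEq D] [DecidableEq V] in
lemma rho_inj {d d' : D} (h : M.rho d = M.rho d') : d = d' := by
  rw [← M.rho3 d, h, M.rho3]

omit [Fintype D] [DecidableEq D] [DecidableEq V] in
lemma rho2_ne (d : D) : M.rho (M.rho d) ≠ d := by
  intro h
  have h1 := M.rho3 d
  rw [h] at h1
  exact M.rho_ne d h1

/-- `iota` as an equivalence. -/
def iotaE : D ≃ D where
  toFun := M.iota
  invFun := M.iota
  left_inv := M.iota2
  right_inv := M.iota2

/-- `rho` as an equivalence. -/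
def rhoE : D ≃ D where
  toFun := M.rho
  invFun := fun d => M.rho (M.rho d)
  left_inv := M.rho3
  right_inv := M.rho3

omit [DecidableEq D] [DecidableEq V] in
lemma sum_iota {A : Type} [AddCommMonoid A] (F : D → A) : ∑ d, F (M.iota d) = ∑ d, F d :=
  M.iotaE.sum_comp F

omit [DecidableEq D] [DecidableEq V] in
lemma sum_rho {A : Type} [AddCommMonoid A] (F : D → A) : ∑ d, F (M.rho d) = ∑ d, F d :=
  M.rhoE.sum_comp F

omit [DecidableEq D] [DecidableEq V] in
lemma sum_darts {A : Type} [AddCommMonoid A] (F : D → A) :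
    ∑ d, F d = ∑ q, (F (M.eps q) + F (M.iota (M.eps q))) := by
  rw [← (Equiv.ofBijective _ M.eps_bij).sum_comp F, Fintype.sum_sum_type, Finset.sum_add_distrib]
  rfl

omit [Fintype D] [DecidableEq D] [DecidableEq V] in
lemma dart_cases (d : D) : (∃ q, d = M.eps q) ∨ ∃ q, d = M.iota (M.eps q) := by
  obtain ⟨x, hx⟩ := M.eps_bij.surjective d
  rcases x with q | q
  · exact Or.inl ⟨q, by simpa using hx.symm⟩
  · exact Or.inr ⟨q, by simpa using hx.symm⟩

omit [Fintype D] [DecidableEq D] [DecidableEq V] in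
lemma o_iota (d : D) : M.o (M.iota d) = M.o (M.rho (M.rho d)) := by
  have := M.o_S (M.iota d)
  rw [M.iota2] at this
  exact this.symm

omit [Fintype D] [DecidableEq V] in
lemma dch_iota (d : D) (q : E) : M.dch R (M.iota d) q = -M.dch R d q := by
  have h1 : (M.eps q = M.iota d) ↔ (M.iota (M.eps q) = d) :=
    ⟨fun h => by rw [h, M.iota2], fun h => by rw [← h, M.iota2]⟩
  have h2 : (M.iota (M.eps q) = M.iota d) ↔ (M.eps q = d) :=
    ⟨fun h => M.iota_inj h, fun h => by rw [h]⟩
  unfold dch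
  simp only [h1, h2]
  ring

omit [Fintype D] [DecidableEq V] in
lemma ext_iota (y : E → R) (d : D) : M.ext y (M.iota d) = -M.ext y d := by
  unfold ext
  rw [← Finset.sum_neg_distrib]
  refine Finset.sum_congr rfl fun q _ => ?_
  rw [dch_iota]
  ring

omit [Fintype D] [DecidableEq V] in
/-- A function antisymmetric under `iota` is recovered from its values on the chosen darts. -/
lemma sum_dch (F : D → R) (hF : ∀ d, F (M.iota d) = -F d) (d : D) :
    ∑ q, M.dch R d q * F (M.eps q) = F d := by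
  classical
  have key : ∀ q₀ : E, ∑ q, M.dch R (M.eps q₀) q * F (M.eps q) = F (M.eps q₀) := by
    intro q₀
    rw [Finset.sum_eq_single q₀]
    · unfold dch
      rw [if_pos rfl, if_neg (M.iota_eps_ne _ _)]
      ring
    · intro q _ hq
      unfold dch
      rw [if_neg (fun h => hq (M.eps_inj h)), if_neg (M.iota_eps_ne _ _)]
      ring
    · intro h
      exact absurd (Finset.mem_univ _) h
  rcases M.dart_cases d with ⟨q₀, rfl⟩ | ⟨q₀, rfl⟩
  · exact key q₀
  · rw [hF, ← key q₀, ← Finset.sum_neg_distrib]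
    refine Finset.sum_congr rfl fun q _ => ?_
    rw [dch_iota]
    ring

omit [Fintype D] [DecidableEq V] in
lemma ext_eps (y : E → R) (q₀ : E) : M.ext y (M.eps q₀) = y q₀ := by
  classical
  unfold ext
  rw [Finset.sum_eq_single q₀]
  · unfold dch
    rw [if_pos rfl, if_neg (M.iota_eps_ne _ _)]
    ring
  · intro q _ hq
    unfold dch
    rw [if_neg (fun h => hq (M.eps_inj h)), if_neg (M.iota_eps_ne _ _)]
    ring
  · intro h
    exact absurd (Finset.mem_univ _) h

lemma sum_fib (F : D → R) (d : D) :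
    ∑ d', (if M.t d' = M.t d then F d' else 0) = F d + F (M.rho d) + F (M.rho (M.rho d)) := by
  have h : (univ.filter fun d' => M.t d' = M.t d) = {d, M.rho d, M.rho (M.rho d)} := by
    ext d'
    simp only [mem_filter, mem_univ, true_and, mem_insert, mem_singleton]
    constructor
    · intro h
      exact M.t_fib d d' h.symm
    · rintro (h | h | h) <;> simp [h, M.t_rho]
  rw [← Finset.sum_filter, h, Finset.sum_insert, Finset.sum_insert, Finset.sum_singleton]
  · ring
  · simp only [mem_singleton]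
    exact fun h => M.rho_ne _ h.symm
  · simp only [mem_insert, mem_singleton, not_or]
    exact ⟨fun h => M.rho_ne _ h.symm, fun h => M.rho2_ne _ h.symm⟩

lemma del1_t (y : E → R) (d : D) :
    M.del1 y (M.t d) = -(M.ext y d + M.ext y (M.rho d) + M.ext y (M.rho (M.rho d))) := by
  rw [← M.sum_fib (M.ext y) d, M.sum_darts, ← Finset.sum_neg_distrib]
  unfold del1
  refine Finset.sum_congr rfl fun q _ => ?_
  rw [M.ext_iota, M.ext_eps]
  split_ifs <;> ring

lemma cyc (y : E → R) (hy : M.del1 y = 0) (d : D) :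
    M.ext y d + M.ext y (M.rho d) + M.ext y (M.rho (M.rho d)) = 0 := by
  have h := M.del1_t y d
  rw [hy, Pi.zero_apply] at h
  linear_combination h

omit [Fintype D] [DecidableEq D] in
lemma del1_add (y y' : E → R) : M.del1 (y + y') = M.del1 y + M.del1 y' := by
  funext p
  simp only [del1, Pi.add_apply, ← Finset.sum_add_distrib]
  exact Finset.sum_congr rfl fun q _ => by ring

omit [Fintype D] [DecidableEq D] in
lemma del1_smul (c : R) (y : E → R) : M.del1 (c • y) = c • M.del1 y := by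
  funext p
  simp only [del1, Pi.smul_apply, smul_eq_mul, Finset.mul_sum]
  exact Finset.sum_congr rfl fun q _ => by ring

/-- `del1` as a linear map. -/
def del1L (R : Type) [CommRing R] : (E → R) →ₗ[R] (V → R) where
  toFun := M.del1
  map_add' := M.del1_add
  map_smul' := M.del1_smul

omit [Fintype D] [DecidableEq D] [DecidableEq V] in
lemma del2_add (s s' : O → R) : M.del2 (s + s') = M.del2 s + M.del2 s' := by
  funext q
  simp only [del2, Pi.add_apply]
  ring

omit [Fintype D] [DecidableEq D] [DecidableEq V] in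
lemma del2_smul (c : R) (s : O → R) : M.del2 (c • s) = c • M.del2 s := by
  funext q
  simp only [del2, Pi.smul_apply, smul_eq_mul]
  ring

/-- `del2` as a linear map. -/
def del2L (R : Type) [CommRing R] : (O → R) →ₗ[R] (E → R) where
  toFun := M.del2
  map_add' := M.del2_add
  map_smul' := M.del2_smul

omit [Fintype D] [DecidableEq V] in
lemma ext_del2 (s : O → R) (d : D) :
    M.ext (M.del2 s) d = s (M.o d) - s (M.o (M.rho (M.rho d))) := by
  have h := M.sum_dch (F := fun d => s (M.o d) - s (M.o (M.iota d)))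
    (fun d => by simp only [M.iota2]; ring) d
  rw [← M.o_iota, ← h]
  unfold ext del2
  exact Finset.sum_congr rfl fun q _ => by ring

lemma del1_del2 (s : O → R) : M.del1 (M.del2 s) = 0 := by
  funext p
  obtain ⟨d, rfl⟩ := M.t_surj p
  rw [M.del1_t, M.ext_del2, M.ext_del2, M.ext_del2]
  simp only [M.rho3, Pi.zero_apply]
  ring

omit [Fintype D] in
lemma del1_dch (d : D) : M.del1 (M.dch R d) = Pi.single (M.t (M.iota d)) 1 - Pi.single (M.t d) 1 := by
  have key : ∀ q₀ : E, M.del1 (M.dch R (M.eps q₀)) =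
      Pi.single (M.t (M.iota (M.eps q₀))) 1 - Pi.single (M.t (M.eps q₀)) 1 := by
    intro q₀
    funext p
    unfold del1
    rw [Finset.sum_eq_single q₀]
    · unfold dch
      rw [if_pos rfl, if_neg (M.iota_eps_ne _ _)]
      simp only [Pi.sub_apply, Pi.single_apply, eq_comm]
      ring
    · intro q _ hq
      unfold dch
      rw [if_neg (fun h => hq (M.eps_inj h)), if_neg (M.iota_eps_ne _ _)]
      ring
    · intro h
      exact absurd (Finset.mem_univ _) h
  rcases M.dart_cases d with ⟨q₀, rfl⟩ | ⟨q₀, rfl⟩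
  · exact key q₀
  · have h : M.dch R (M.iota (M.eps q₀)) = (-1 : R) • M.dch R (M.eps q₀) := by
      funext q
      rw [dch_iota]
      simp
    rw [h, M.del1_smul, key q₀, M.iota2]
    simp

/-! ### Position functions and the intersection form -/

/-- A chosen dart of a triangle. -/
noncomputable def base (p : V) : D := Function.surjInv M.t_surj p

omit [Fintype D] [DecidableEq D] [DecidableEq V] in
lemma t_base (p : V) : M.t (M.base p) = p := Function.surjInv_eq M.t_surj p

/-- The position function of a cycle. -/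
noncomputable def pos (x : E → R) (d : D) : R :=
  if d = M.base (M.t d) then 0
  else if d = M.rho (M.base (M.t d)) then M.ext x (M.rho (M.base (M.t d)))
  else -M.ext x (M.base (M.t d))

lemma pos_rho (x : E → R) (hx : M.del1 x = 0) (d : D) :
    M.pos x (M.rho d) = M.pos x d + M.ext x (M.rho d) := by
  have ht : M.t (M.rho d) = M.t d := M.t_rho d
  have hb := M.t_base (M.t d)
  have hc := M.cyc x hx (M.base (M.t d))
  unfold pos
  rw [ht]
  set b := M.base (M.t d) with hbdef
  have n1 : M.rho b ≠ b := M.rho_ne b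
  have n2 : M.rho (M.rho b) ≠ b := M.rho2_ne b
  have n3 : M.rho (M.rho b) ≠ M.rho b := fun h => n1 (M.rho_inj h)
  rcases M.t_fib b d hb with h | h | h
  · rw [h, if_neg n1, if_pos rfl, if_pos rfl]
    ring
  · rw [h, if_neg n2, if_neg n3, if_neg n1, if_pos rfl]
    linear_combination -hc
  · rw [h, M.rho3, if_pos rfl, if_neg n2, if_neg n3]
    ring

lemma pos_rho2 (x : E → R) (hx : M.del1 x = 0) (d : D) :
    M.pos x d = M.pos x (M.rho (M.rho d)) + M.ext x d := by
  have := M.pos_rho x hx (M.rho (M.rho d))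
  rwa [M.rho3] at this

/-- The chain dual to a cycle with respect to the intersection form. -/
noncomputable def hat (x : E → R) (d : D) : R := M.pos x d - M.pos x (M.rho (M.rho (M.iota d)))

lemma hat_iota (x : E → R) (hx : M.del1 x = 0) (d : D) : M.hat x (M.iota d) = -M.hat x d := by
  unfold hat
  rw [M.iota2]
  have h1 := M.pos_rho2 x hx d
  have h2 := M.pos_rho2 x hx (M.iota d)
  rw [M.ext_iota] at h2
  linear_combination h1 + h2

omit [DecidableEq D] [DecidableEq V] in
lemma sum_sym_zero (Y σ : D → ℂ) (hY : ∀ d, Y d + Y (M.rho d) + Y (M.rho (M.rho d)) = 0)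
    (hσ : ∀ d, σ (M.rho d) = σ d) : ∑ d, Y d * σ d = 0 := by
  have h1 : ∑ d, Y (M.rho d) * σ d = ∑ d, Y d * σ d := by
    rw [← M.sum_rho (fun d => Y d * σ d)]
    exact Finset.sum_congr rfl fun d _ => by rw [hσ]
  have h2 : ∑ d, Y (M.rho (M.rho d)) * σ d = ∑ d, Y d * σ d := by
    rw [← h1, ← M.sum_rho (fun d => Y (M.rho d) * σ d)]
    exact Finset.sum_congr rfl fun d _ => by rw [hσ]
  have h3 : ∑ d, (Y d + Y (M.rho d) + Y (M.rho (M.rho d))) * σ d = 0 := by
    simp [hY]
  simp only [add_mul, Finset.sum_add_distrib] at h3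
  rw [h1, h2] at h3
  linear_combination (1 / 3) * h3

/-- The intersection form as a pairing with the dual chain. -/
lemma inter_eq (x y : E → ℂ) (hx : M.del1 x = 0) (hy : M.del1 y = 0) :
    M.inter x y = ∑ q, y q * M.hat x (M.eps q) := by
  have e1 : ∑ d, M.ext y d * M.hat x d = 2 * ∑ q, y q * M.hat x (M.eps q) := by
    rw [M.sum_darts, Finset.mul_sum]
    refine Finset.sum_congr rfl fun q _ => ?_
    rw [M.ext_iota, M.hat_iota x hx, M.ext_eps]
    ring
  have e2 : ∑ d, M.ext y d * M.pos x (M.rho (M.rho (M.iota d))) =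
      -∑ d, M.ext y d * M.pos x (M.rho (M.rho d)) := by
    rw [← M.sum_iota (fun d => M.ext y d * M.pos x (M.rho (M.rho (M.iota d)))),
      ← Finset.sum_neg_distrib]
    refine Finset.sum_congr rfl fun d _ => ?_
    rw [M.iota2, M.ext_iota]
    ring
  have e3 : ∑ d, M.ext y d * M.hat x d =
      ∑ d, M.ext y d * (M.pos x d + M.pos x (M.rho (M.rho d))) := by
    unfold hat
    simp only [mul_sub, mul_add, Finset.sum_sub_distrib, Finset.sum_add_distrib]
    rw [e2]
    ring
  have e4 : ∑ d, M.ext y d * (M.pos x d + M.pos x (M.rho d) + M.pos x (M.rho (M.rho d))) = 0 := by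
    apply M.sum_sym_zero (M.ext y)
      (fun d => M.pos x d + M.pos x (M.rho d) + M.pos x (M.rho (M.rho d))) (M.cyc y hy)
    intro d
    rw [M.rho3]
    ring
  have e5 : ∑ d, M.ext x d * M.ext y (M.rho d) =
      ∑ d, M.ext x (M.rho (M.rho d)) * M.ext y d := by
    rw [← M.sum_rho (fun d => M.ext x d * M.ext y (M.rho d)),
      ← M.sum_rho (fun d => M.ext x (M.rho d) * M.ext y (M.rho (M.rho d)))]
    refine Finset.sum_congr rfl fun d _ => ?_
    rw [M.rho3]
  unfold inter
  rw [Finset.sum_sub_distrib, e5, ← Finset.sum_sub_distrib]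
  have e6 : ∑ d, (M.ext x (M.rho (M.rho d)) * M.ext y d - M.ext x (M.rho d) * M.ext y d) =
      ∑ d, M.ext y d * (M.pos x d + M.pos x (M.rho d) + M.pos x (M.rho (M.rho d))) -
      3 * ∑ d, M.ext y d * M.pos x (M.rho d) := by
    rw [Finset.mul_sum, ← Finset.sum_sub_distrib]
    refine Finset.sum_congr rfl fun d _ => ?_
    have h1 := M.pos_rho x hx d
    have h2 := M.pos_rho x hx (M.rho d)
    linear_combination M.ext y d * h1 - M.ext y d * h2
  have e7 : ∑ d, M.ext y d * (M.pos x d + M.pos x (M.rho d) + M.pos x (M.rho (M.rho d))) =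
      ∑ d, M.ext y d * (M.pos x d + M.pos x (M.rho (M.rho d))) +
      ∑ d, M.ext y d * M.pos x (M.rho d) := by
    rw [← Finset.sum_add_distrib]
    exact Finset.sum_congr rfl fun d _ => by ring
  rw [e6, e4]
  rw [e4] at e7
  rw [e3] at e1
  linear_combination (1 / 2) * e1 + (1 / 2) * e7

/-- the intersection of a cycle with a boundary vanishes -/
theorem inter_del2 (x : E → ℂ) (hx : M.del1 x = 0) (s : O → ℂ) : M.inter x (M.del2 s) = 0 := by
  rw [M.inter_eq x _ hx (M.del1_del2 s)]
  have e1 : ∑ q, M.del2 s q * M.hat x (M.eps q) = ∑ d, s (M.o d) * M.hat x d := by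
    rw [M.sum_darts]
    refine Finset.sum_congr rfl fun q _ => ?_
    rw [M.hat_iota x hx]
    unfold del2
    ring
  have e2 : ∑ d, s (M.o d) * M.pos x (M.rho (M.rho (M.iota d))) = ∑ d, s (M.o d) * M.pos x d := by
    rw [← M.sum_rho (fun d => s (M.o d) * M.pos x d),
      ← M.sum_rho (fun d => s (M.o (M.rho d)) * M.pos x (M.rho d)),
      ← M.sum_iota (fun d => s (M.o (M.rho (M.rho d))) * M.pos x (M.rho (M.rho d)))]
    refine Finset.sum_congr rfl fun d _ => ?_
    rw [M.o_S]
  rw [e1]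
  unfold hat
  simp only [mul_sub, Finset.sum_sub_distrib]
  rw [e2, sub_self]

omit [Fintype D] [DecidableEq V] in
lemma ext_add (x y : E → R) (d : D) : M.ext (x + y) d = M.ext x d + M.ext y d := by
  simp only [ext, Pi.add_apply, ← Finset.sum_add_distrib]
  exact Finset.sum_congr rfl fun q _ => by ring

omit [Fintype D] [DecidableEq V] in
lemma ext_smul (c : R) (x : E → R) (d : D) : M.ext (c • x) d = c * M.ext x d := by
  simp only [ext, Pi.smul_apply, smul_eq_mul, Finset.mul_sum]
  exact Finset.sum_congr rfl fun q _ => by ring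

omit [DecidableEq V] in
lemma inter_anti (x y : E → ℂ) : M.inter x y = -M.inter y x := by
  unfold inter
  rw [← mul_neg, ← Finset.sum_neg_distrib]
  congr 1
  exact Finset.sum_congr rfl fun d _ => by ring

omit [DecidableEq V] in
lemma inter_self (x : E → ℂ) : M.inter x x = 0 := by
  have := M.inter_anti x x
  linear_combination (1 / 2) * this

omit [DecidableEq V] in
lemma inter_add_left (x x' y : E → ℂ) : M.inter (x + x') y = M.inter x y + M.inter x' y := by
  unfold inter
  rw [← mul_add, ← Finset.sum_add_distrib]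
  congr 1
  exact Finset.sum_congr rfl fun d _ => by rw [M.ext_add, M.ext_add]; ring

omit [DecidableEq V] in
lemma inter_smul_left (c : ℂ) (x y : E → ℂ) : M.inter (c • x) y = c * M.inter x y := by
  unfold inter
  rw [mul_left_comm]
  congr 1
  rw [Finset.mul_sum]
  exact Finset.sum_congr rfl fun d _ => by rw [M.ext_smul, M.ext_smul]; ring

omit [DecidableEq V] in
lemma inter_add_right (x y y' : E → ℂ) : M.inter x (y + y') = M.inter x y + M.inter x y' := by
  rw [M.inter_anti, M.inter_add_left, M.inter_anti x y, M.inter_anti x y']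
  ring

omit [DecidableEq V] in
lemma inter_smul_right (c : ℂ) (x y : E → ℂ) : M.inter x (c • y) = c * M.inter x y := by
  rw [M.inter_anti, M.inter_smul_left, M.inter_anti x y]
  ring

lemma inter_del2_left (y : E → ℂ) (hy : M.del1 y = 0) (s : O → ℂ) : M.inter (M.del2 s) y = 0 := by
  rw [M.inter_anti, M.inter_del2 y hy, neg_zero]

/-! ### Chains with values in a subgroup -/

/-- An integral chain as a complex chain. -/
def cst (x : E → ℤ) : E → ℂ := fun q => (x q : ℂ)

omit [Fintype D] [DecidableEq V] in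
lemma ext_mem (A : AddSubgroup ℂ) (x : E → ℂ) (h : ∀ q, x q ∈ A) (d : D) : M.ext x d ∈ A := by
  rcases M.dart_cases d with ⟨q, rfl⟩ | ⟨q, rfl⟩
  · rw [M.ext_eps]; exact h q
  · rw [M.ext_iota, M.ext_eps]; exact A.neg_mem (h q)

omit [Fintype D] [DecidableEq V] in
lemma pos_mem (A : AddSubgroup ℂ) (x : E → ℂ) (h : ∀ q, x q ∈ A) (d : D) : M.pos x d ∈ A := by
  unfold pos
  split_ifs
  · exact A.zero_mem
  · exact M.ext_mem A x h _
  · exact A.neg_mem (M.ext_mem A x h _)

omit [Fintype D] [DecidableEq V] in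
lemma hat_mem (A : AddSubgroup ℂ) (x : E → ℂ) (h : ∀ q, x q ∈ A) (d : D) : M.hat x d ∈ A :=
  A.sub_mem (M.pos_mem A x h _) (M.pos_mem A x h _)

lemma int_mul_mem (A : AddSubgroup ℂ) (n : ℤ) {a : ℂ} (h : a ∈ A) : (n : ℂ) * a ∈ A := by
  rw [← zsmul_eq_mul]
  exact A.zsmul_mem h n

lemma inter_mem (A : AddSubgroup ℂ) (x : E → ℂ) (y : E → ℤ) (hx : M.del1 x = 0)
    (hy : M.del1 (cst y) = 0) (h : ∀ q, x q ∈ A) : M.inter x (cst y) ∈ A := by
  rw [M.inter_eq x _ hx hy]
  exact A.sum_mem fun q _ => int_mul_mem A _ (M.hat_mem A x h _)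

/-! ### Integral chains -/

omit [Fintype D] [DecidableEq V] in
lemma ext_cst (x : E → ℤ) (d : D) : M.ext (cst x) d = ((M.ext x d : ℤ) : ℂ) := by
  unfold ext dch cst
  push_cast
  rfl

omit [Fintype D] [DecidableEq D] in
lemma del1_cst (x : E → ℤ) : M.del1 (cst x) = fun p => ((M.del1 x p : ℤ) : ℂ) := by
  funext p
  unfold del1 cst
  push_cast
  rfl

omit [Fintype D] [DecidableEq D] in
lemma del1_cst_zero (x : E → ℤ) (hx : M.del1 x = 0) : M.del1 (cst x) = 0 := by
  rw [M.del1_cst, hx]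
  funext p
  simp

omit [Fintype D] [DecidableEq V] in
lemma pos_cst (x : E → ℤ) (d : D) : M.pos (cst x) d = ((M.pos x d : ℤ) : ℂ) := by
  unfold pos
  rw [M.ext_cst, M.ext_cst]
  split_ifs <;> push_cast <;> rfl

omit [Fintype D] [DecidableEq V] in
lemma hat_cst (x : E → ℤ) (d : D) : M.hat (cst x) d = ((M.hat x d : ℤ) : ℂ) := by
  unfold hat
  rw [M.pos_cst, M.pos_cst]
  push_cast
  rfl

/-- The intersection number of integral chains. -/
noncomputable def Iz (x y : E → ℤ) : ℤ := ∑ q, y q * M.hat x (M.eps q)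

lemma inter_cst (x y : E → ℤ) (hx : M.del1 x = 0) (hy : M.del1 y = 0) :
    M.inter (cst x) (cst y) = ((M.Iz x y : ℤ) : ℂ) := by
  rw [M.inter_eq _ _ (M.del1_cst_zero x hx) (M.del1_cst_zero y hy)]
  unfold Iz
  push_cast
  exact Finset.sum_congr rfl fun q _ => by rw [M.hat_cst]; rfl

omit [Fintype D] in
/-- Integral chains with prescribed boundary. -/
lemma exists_path (p₀ : V) : ∃ w : V → E → ℤ, ∀ p, M.del1 (w p) = Pi.single p 1 - Pi.single p₀ 1 := by
  have h : ∀ p, ∃ w : E → ℤ, M.del1 w = Pi.single p 1 - Pi.single p₀ 1 := by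
    intro p
    have := M.conn p₀ p
    induction this with
    | refl => exact ⟨0, by rw [sub_self]; funext p; simp [del1]⟩
    | tail _ hbc ih =>
      obtain ⟨w, hw⟩ := ih
      obtain ⟨d, h1, h2⟩ := hbc
      refine ⟨w + M.dch ℤ d, ?_⟩
      rw [M.del1_add, hw, M.del1_dch, h1, h2]
      abel
  choose w hw using h
  exact ⟨w, hw⟩

omit [Fintype D] [DecidableEq D] [DecidableEq V] in
/-- Transitivity on the darts. -/
lemma conn_dart (Q : D → Prop) (h1 : ∀ d, Q d → Q (M.iota d)) (h2 : ∀ d, Q d → Q (M.rho d)) (d₀ : D)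
    (h0 : Q d₀) (d : D) : Q d := by
  have key : ∀ p, ∀ d, M.t d = p → Q d := by
    intro p
    have := M.conn (M.t d₀) p
    induction this with
    | refl =>
      intro d hd
      rcases M.t_fib d₀ d hd.symm with h | h | h
      · rw [h]; exact h0
      · rw [h]; exact h2 _ h0
      · rw [h]; exact h2 _ (h2 _ h0)
    | tail _ hbc ih =>
      obtain ⟨d', e1, e2⟩ := hbc
      intro d hd
      have h3 := h1 _ (ih d' e1)
      rcases M.t_fib (M.iota d') d (by rw [e2, hd]) with h | h | h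
      · rw [h]; exact h3
      · rw [h]; exact h2 _ h3
      · rw [h]; exact h2 _ (h2 _ h3)
  exact key _ d rfl

/-- A cycle whose intersection numbers are divisible by `g` is a boundary modulo `g`. -/
lemma potential (p₀ : V) (x : E → ℤ) (hx : M.del1 x = 0) (g : ℤ)
    (hg : ∀ y, M.del1 y = 0 → g ∣ M.Iz x y) : ∃ s : O → ℤ, ∀ q, g ∣ x q - M.del2 s q := by
  obtain ⟨w, hw⟩ := M.exists_path p₀
  let q' : V → ℤ := fun p => ∑ q, w p q * M.hat x (M.eps q)
  let h : D → ℤ := fun d => M.pos x d + q' (M.t d)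
  have hS : ∀ d, g ∣ h d - h (M.rho (M.rho (M.iota d))) := by
    intro d
    have hcyc : M.del1 (M.dch ℤ d + w (M.t d) + (-1 : ℤ) • w (M.t (M.iota d))) = 0 := by
      rw [M.del1_add, M.del1_add, M.del1_smul, M.del1_dch, hw, hw]
      module
    have h1 := hg _ hcyc
    have h2 : M.Iz x (M.dch ℤ d + w (M.t d) + (-1 : ℤ) • w (M.t (M.iota d))) =
        h d - h (M.rho (M.rho (M.iota d))) := by
      have h3 := M.sum_dch (R := ℤ) (F := M.hat x) (M.hat_iota x hx) d
      have h4 : h d - h (M.rho (M.rho (M.iota d))) =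
          M.hat x d + q' (M.t d) - q' (M.t (M.iota d)) := by
        simp only [h, M.t_rho, hat]
        ring
      rw [h4, ← h3]
      simp only [Iz, q', Pi.add_apply, Pi.smul_apply, smul_eq_mul, ← Finset.sum_add_distrib,
        ← Finset.sum_sub_distrib]
      exact Finset.sum_congr rfl fun q _ => by ring
    rwa [h2] at h1
  have hSk : ∀ (k : ℕ) (d : D), g ∣ h d - h ((fun x => M.rho (M.rho (M.iota x)))^[k] d) := by
    intro k
    induction k with
    | zero => intro d; simp
    | succ k ih =>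
      intro d
      rw [Function.iterate_succ_apply]
      have := dvd_add (hS d) (ih (M.rho (M.rho (M.iota d))))
      simpa using this
  let r : O → D := Function.surjInv M.o_surj
  have hr : ∀ v, M.o (r v) = v := Function.surjInv_eq M.o_surj
  have hO : ∀ d, g ∣ h (r (M.o d)) - h d := by
    intro d
    obtain ⟨k, hk⟩ := M.o_fib (r (M.o d)) d (hr _)
    rw [← hk]
    have := hSk k (r (M.o d))
    rwa [hk] at this ⊢
  refine ⟨fun v => h (r v), fun q => ?_⟩
  have e1 : x q = h (M.eps q) - h (M.rho (M.rho (M.eps q))) := by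
    have := M.pos_rho2 x hx (M.eps q)
    rw [M.ext_eps] at this
    simp only [h, M.t_rho]
    rw [this]
    ring
  have e2 := hO (M.eps q)
  have e3 := hO (M.rho (M.rho (M.eps q)))
  unfold del2
  rw [M.o_iota, e1]
  have e4 := dvd_sub e3 e2
  have e5 : h (M.eps q) - h (M.rho (M.rho (M.eps q))) -
      (h (r (M.o (M.eps q))) - h (r (M.o (M.rho (M.rho (M.eps q)))))) =
      h (r (M.o (M.rho (M.rho (M.eps q))))) - h (M.rho (M.rho (M.eps q))) -
      (h (r (M.o (M.eps q))) - h (M.eps q)) := by ring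
  rw [← e5] at e4
  exact e4

/-- The intersection form does not vanish. -/
lemma exists_inter_ne (d₀ : D) :
    ∃ x y : E → ℤ, M.del1 x = 0 ∧ M.del1 y = 0 ∧ M.Iz x y ≠ 0 := by
  classical
  by_contra hcon
  push Not at hcon
  obtain ⟨w, hw⟩ := M.exists_path (M.t d₀)
  have hex : ∀ x : E → ℤ, M.del1 x = 0 → ∃ s : O → ℤ, x = M.del2 s := by
    intro x hx
    obtain ⟨s, hs⟩ := M.potential (M.t d₀) x hx 0 (fun y hy => by rw [hcon x y hx hy])
    refine ⟨s, funext fun q => ?_⟩
    have := hs q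
    rw [zero_dvd_iff] at this
    linarith
  let Φ : ((O → ℂ) × (V → ℂ)) →ₗ[ℂ] (E → ℂ) :=
    LinearMap.coprod (M.del2L ℂ) (Fintype.linearCombination ℂ (fun p => cst (w p)))
  have hΦ : ∀ s c, Φ (s, c) = M.del2 s + ∑ p, c p • cst (w p) := fun s c => rfl
  have hsurj : Function.Surjective Φ := by
    rw [← LinearMap.range_eq_top, eq_top_iff]
    intro z _
    have hz : z = ∑ q, z q • (Pi.single q (1 : ℂ) : E → ℂ) := by
      funext q'
      simp [Finset.sum_apply, Pi.single_apply]
    rw [hz]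
    refine Submodule.sum_mem _ fun q _ => Submodule.smul_mem _ _ ?_
    have hcyc : M.del1 (M.dch ℤ (M.eps q) + w (M.t (M.eps q)) +
        (-1 : ℤ) • w (M.t (M.iota (M.eps q)))) = 0 := by
      rw [M.del1_add, M.del1_add, M.del1_smul, M.del1_dch, hw, hw]
      module
    obtain ⟨s, hs⟩ := hex _ hcyc
    refine ⟨(fun v => (s v : ℂ), Pi.single (M.t (M.iota (M.eps q))) 1 -
      Pi.single (M.t (M.eps q)) 1), ?_⟩
    rw [hΦ]
    funext q'
    have h1 := congrFun hs q'
    have h2 : M.dch ℤ (M.eps q) q' = (Pi.single q (1 : ℤ) : E → ℤ) q' := by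
      unfold dch
      rw [if_neg (M.iota_eps_ne _ _), Pi.single_apply]
      by_cases h : q' = q
      · rw [h]; simp
      · rw [if_neg h, if_neg (fun h' => h (M.eps_inj h'))]; simp
    simp only [Pi.add_apply, Pi.smul_apply, smul_eq_mul, h2] at h1
    have h3 : (((Pi.single q (1 : ℤ) : E → ℤ) q' : ℤ) : ℂ) = (Pi.single q (1 : ℂ) : E → ℂ) q' := by
      rw [Pi.single_apply, Pi.single_apply]
      split_ifs <;> simp
    have h4 : ((M.del2 s q' : ℤ) : ℂ) = M.del2 (fun v => (s v : ℂ)) q' := by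
      unfold del2
      push_cast
      rfl
    rw [Pi.add_apply, Finset.sum_apply]
    simp only [Pi.sub_apply, Pi.smul_apply, smul_eq_mul, sub_mul, Finset.sum_sub_distrib,
      Pi.single_apply, ite_mul, one_mul, zero_mul, Finset.sum_ite_eq', Finset.mem_univ, if_true]
    rw [← h4, ← h1, ← Pi.single_apply, ← h3]
    unfold cst
    push_cast
    ring
  have hinj : Function.Injective Φ := by
    rw [LinearMap.injective_iff_surjective_of_finrank_eq_finrank]
    · exact hsurj
    · rw [Module.finrank_prod]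
      simp only [Module.finrank_fintype_fun_eq_card]
      rw [M.card]
      ring
  have h0 : Φ (fun _ => 1, 0) = Φ 0 := by
    rw [hΦ, map_zero]
    funext q
    simp [del2]
  have h1 := congrArg (fun z => z.1 (M.o d₀)) (hinj h0)
  simp at h1

/-- Integral cycles with intersection number `1`. -/
lemma exists_symp (d₀ : D) :
    ∃ x y : E → ℤ, M.del1 x = 0 ∧ M.del1 y = 0 ∧ M.inter (cst x) (cst y) = 1 := by
  obtain ⟨x, y, hx, hy, hxy⟩ := M.exists_inter_ne d₀
  let L : (E → ℤ) →ₗ[ℤ] ℤ := Fintype.linearCombination ℤ (fun q => M.hat x (M.eps q))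
  have hL : ∀ z, L z = M.Iz x z := fun z => rfl
  let I : Submodule ℤ ℤ := Submodule.map L (LinearMap.ker (M.del1L ℤ))
  obtain ⟨g, hg⟩ := (IsPrincipalIdealRing.principal (I : Ideal ℤ)).principal
  have hIz : ∀ z, M.del1 z = 0 → g ∣ M.Iz x z := by
    intro z hz
    have : M.Iz x z ∈ I := ⟨z, hz, hL z⟩
    rw [hg] at this
    exact Ideal.mem_span_singleton.mp this
  have hgI : g ∈ I := by
    rw [hg]
    exact Submodule.mem_span_singleton_self g
  obtain ⟨y₀, hy₀, hy₀'⟩ := hgI
  have hy₀c : M.del1 y₀ = 0 := hy₀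
  rw [hL] at hy₀'
  have hg0 : g ≠ 0 := by
    rintro rfl
    exact hxy (by simpa using hIz y hy)
  obtain ⟨s, hs⟩ := M.potential (M.t d₀) x hx g hIz
  choose x' hx' using hs
  have e1 : x = M.del2 s + g • x' := by
    funext q
    have := hx' q
    simp only [Pi.add_apply, Pi.smul_apply, smul_eq_mul]
    linarith
  have hx'c : M.del1 x' = 0 := by
    have h := hx
    rw [e1, M.del1_add, M.del1_del2, zero_add, M.del1_smul] at h
    funext p
    have h2 := congrFun h p
    simp only [Pi.smul_apply, smul_eq_mul, Pi.zero_apply] at h2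
    rcases mul_eq_zero.mp h2 with h3 | h3
    · exact absurd h3 hg0
    · exact h3
  refine ⟨x', y₀, hx'c, hy₀c, ?_⟩
  have e2 : (cst x : E → ℂ) = M.del2 (fun v => (s v : ℂ)) + (g : ℂ) • cst x' := by
    funext q
    have := congrFun e1 q
    unfold cst
    rw [this]
    simp [del2]
  have e3 := M.inter_cst x y₀ hx hy₀c
  rw [hy₀', e2, M.inter_add_left, M.inter_smul_left,
    M.inter_del2_left _ (M.del1_cst_zero _ hy₀c), zero_add] at e3
  have hgc : (g : ℂ) ≠ 0 := by exact_mod_cast hg0
  exact mul_left_cancel₀ hgc (by rw [e3, mul_one])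

/-- The coefficients of a chain with values in `A` in the standard basis lie in `A`. -/
lemma coeff_mem (o₀ : O) (p₀ : V) (w : V → E → ℤ)
    (hw : ∀ p, M.del1 (w p) = Pi.single p 1 - Pi.single p₀ 1) (x y : E → ℤ) (hx : M.del1 x = 0)
    (hy : M.del1 y = 0) (hxy : M.inter (cst x) (cst y) = 1) (A : AddSubgroup ℂ) (z : E → ℂ)
    (hz : ∀ q, z q ∈ A) (a : O → ℂ) (ha : a o₀ = 0) (α β : ℂ) (c : V → ℂ) (hc : c p₀ = 0)
    (h : z = M.del2 a + α • cst x + β • cst y + ∑ p, c p • cst (w p)) :
    (∀ p, c p = if p = p₀ then 0 else M.del1 z p) ∧ (∀ o, a o ∈ A) ∧ α ∈ A ∧ β ∈ A ∧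
      ∀ p, c p ∈ A := by
  have hx' := M.del1_cst_zero x hx
  have hy' := M.del1_cst_zero y hy
  have hw' : ∀ p, M.del1 (cst (w p)) = Pi.single p (1 : ℂ) - Pi.single p₀ 1 := by
    intro p
    rw [M.del1_cst, hw]
    funext p'
    simp only [Pi.sub_apply, Pi.single_apply]
    push_cast
    rfl
  have h1 : ∀ p, c p = if p = p₀ then 0 else M.del1 z p := by
    intro p
    split_ifs with hp
    · rw [hp, hc]
    · have e1 : M.del1 z = ∑ p, c p • M.del1 (cst (w p)) := by
        have e2 : M.del1 (∑ p, c p • cst (w p)) = ∑ p, c p • M.del1 (cst (w p)) := by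
          have := map_sum (M.del1L ℂ) (fun p => c p • cst (w p)) univ
          simp only [map_smul] at this
          exact this
        rw [h, M.del1_add, M.del1_add, M.del1_add, M.del1_del2, M.del1_smul, M.del1_smul, hx', hy',
          e2]
        simp
      rw [e1, Finset.sum_apply]
      simp only [hw', Pi.smul_apply, Pi.sub_apply, smul_eq_mul, Pi.single_apply, hp, if_false,
        sub_zero, mul_ite, mul_one, mul_zero, Finset.sum_ite_eq, Finset.mem_univ, if_true]
  have h2 : ∀ p, c p ∈ A := by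
    intro p
    rw [h1]
    split_ifs
    · exact A.zero_mem
    · obtain ⟨d, rfl⟩ := M.t_surj p
      rw [M.del1_t]
      exact A.neg_mem (A.add_mem (A.add_mem (M.ext_mem A z hz _) (M.ext_mem A z hz _))
        (M.ext_mem A z hz _))
  let z₁ : E → ℂ := M.del2 a + α • cst x + β • cst y
  have hz₁ : ∀ q, z₁ q ∈ A := by
    intro q
    have e : z₁ q = z q - ∑ p, (w p q : ℂ) * c p := by
      rw [h, Pi.add_apply, Finset.sum_apply]
      simp only [Pi.smul_apply, smul_eq_mul, cst, z₁, mul_comm]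
      ring
    rw [e]
    exact A.sub_mem (hz q) (A.sum_mem fun p _ => int_mul_mem A _ (h2 p))
  have hz₁c : M.del1 z₁ = 0 := by
    simp only [z₁, M.del1_add, M.del1_del2, M.del1_smul, hx', hy', smul_zero, add_zero]
  have h3 : α ∈ A := by
    have e := M.inter_mem A z₁ y hz₁c hy' hz₁
    simp only [z₁, M.inter_add_left, M.inter_smul_left, M.inter_del2_left _ hy', M.inter_self,
      hxy, mul_one, mul_zero, zero_add, add_zero] at e
    exact e
  have h4 : β ∈ A := by
    have e := M.inter_mem A z₁ x hz₁c hx' hz₁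
    simp only [z₁, M.inter_add_left, M.inter_smul_left, M.inter_del2_left _ hx', M.inter_self,
      M.inter_anti (cst y) (cst x), hxy, mul_neg, mul_one, mul_zero, zero_add, add_zero] at e
    exact neg_mem_iff.mp e
  have h5 : ∀ q, M.del2 a q ∈ A := by
    intro q
    have e : M.del2 a q = z₁ q - (x q : ℂ) * α - (y q : ℂ) * β := by
      simp only [z₁, Pi.add_apply, Pi.smul_apply, smul_eq_mul, cst]
      ring
    rw [e]
    exact A.sub_mem (A.sub_mem (hz₁ q) (int_mul_mem A _ h3)) (int_mul_mem A _ h4)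
  have h6 : ∀ d, a (M.o d) - a (M.o (M.iota d)) ∈ A := by
    intro d
    rcases M.dart_cases d with ⟨q, rfl⟩ | ⟨q, rfl⟩
    · exact h5 q
    · rw [M.iota2, ← neg_sub]
      exact A.neg_mem (h5 q)
  have h7 : ∀ d, a (M.o d) ∈ A → a (M.o (M.iota d)) ∈ A := by
    intro d hd
    have := A.sub_mem hd (h6 d)
    rwa [sub_sub_cancel] at this
  have h8 : ∀ d, a (M.o d) ∈ A → a (M.o (M.rho (M.rho d))) ∈ A := by
    intro d hd
    rw [← M.o_iota]
    exact h7 d hd
  refine ⟨h1, fun o => ?_, h3, h4, h2⟩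
  obtain ⟨d, rfl⟩ := M.o_surj o
  obtain ⟨d₀, hd₀⟩ := M.o_surj o₀
  refine M.conn_dart (fun d => a (M.o d) ∈ A) h7 (fun d hd => ?_) d₀ (by
    show a (M.o d₀) ∈ A
    rw [hd₀, ha]; exact A.zero_mem) d
  have := h8 _ (h8 _ hd)
  rwa [M.rho3] at this

/-- Every complex chain is a combination of the standard basis. -/
lemma exists_coeff (o₀ : O) (p₀ : V) (w : V → E → ℤ)
    (hw : ∀ p, M.del1 (w p) = Pi.single p 1 - Pi.single p₀ 1) (x y : E → ℤ) (hx : M.del1 x = 0)
    (hy : M.del1 y = 0) (hxy : M.inter (cst x) (cst y) = 1) (z : E → ℂ) :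
    ∃ (a : O → ℂ) (α β : ℂ) (c : V → ℂ), a o₀ = 0 ∧ c p₀ = 0 ∧
      z = M.del2 a + α • cst x + β • cst y + ∑ p, c p • cst (w p) := by
  let Ψ : ((O → ℂ) × (V → ℂ)) × (ℂ × ℂ) →ₗ[ℂ] (E → ℂ) × (ℂ × ℂ) :=
    { toFun := fun v => (M.del2 v.1.1 + v.2.1 • cst x + v.2.2 • cst y + ∑ p, v.1.2 p • cst (w p),
        (v.1.1 o₀, v.1.2 p₀))
      map_add' := by
        intro v v'
        refine Prod.ext ?_ rfl
        simp only [Prod.fst_add, Prod.snd_add, M.del2_add, Pi.add_apply, add_smul,
          Finset.sum_add_distrib]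
        abel
      map_smul' := by
        intro r v
        refine Prod.ext ?_ rfl
        simp only [Prod.smul_fst, Prod.smul_snd, M.del2_smul, Pi.smul_apply, smul_eq_mul,
          RingHom.id_apply, smul_add, Finset.smul_sum, smul_smul] }
  have hinj : Function.Injective Ψ := by
    rw [← LinearMap.ker_eq_bot, LinearMap.ker_eq_bot']
    rintro ⟨⟨a, c⟩, ⟨α, β⟩⟩ hv
    have e1 : M.del2 a + α • cst x + β • cst y + ∑ p, c p • cst (w p) = 0 := congrArg (·.1) hv
    have e2 : a o₀ = 0 := congrArg (·.2.1) hv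
    have e3 : c p₀ = 0 := congrArg (·.2.2) hv
    obtain ⟨_, h1, h2, h3, h4⟩ := M.coeff_mem o₀ p₀ w hw x y hx hy hxy ⊥ 0
      (fun q => AddSubgroup.mem_bot.mpr rfl) a e2 α β c e3 e1.symm
    simp only [AddSubgroup.mem_bot] at h1 h2 h3 h4
    rw [show a = 0 from funext h1, show c = 0 from funext h4, h2, h3]
    rfl
  have hsurj : Function.Surjective Ψ := by
    rw [← LinearMap.injective_iff_surjective_of_finrank_eq_finrank]
    · exact hinj
    · simp only [Module.finrank_prod, Module.finrank_fintype_fun_eq_card, Module.finrank_self]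
      rw [M.card]
      ring
  obtain ⟨⟨⟨a, c⟩, ⟨α, β⟩⟩, hv⟩ := hsurj (z, (0, 0))
  exact ⟨a, α, β, c, congrArg (·.2.1) hv, congrArg (·.2.2) hv, (congrArg (·.1) hv).symm⟩

end Surf

/-! ### Determinants -/

section rdet

variable {ι κ : Type} [Fintype ι] [DecidableEq ι] [Fintype κ]

lemma rdet_sq_one (e : ι ≃ κ) (b : κ → ι → ℤ)
    (h : ∀ i, ∃ c : κ → ℤ, ∀ i', (Pi.single i (1 : ℤ) : ι → ℤ) i' = ∑ k, c k * b k i') :
    rdet e (fun k i => (b k i : ℂ)) ^ 2 = 1 := by
  choose c hc using h
  let B : Matrix ι ι ℤ := Matrix.of fun i i' => b (e i) i'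
  let C : Matrix ι ι ℤ := Matrix.of fun i i' => c i (e i')
  have h1 : C * B = 1 := by
    ext i i'
    rw [Matrix.mul_apply, Matrix.one_apply]
    have := hc i i'
    rw [← e.sum_comp (fun k => c i k * b k i'), Pi.single_apply] at this
    simp only [B, C, Matrix.of_apply]
    rw [← this]
    simp only [eq_comm]
  have h2 : C.det * B.det = 1 := by rw [← Matrix.det_mul, h1, Matrix.det_one]
  have h3 : rdet e (fun k i => (b k i : ℂ)) = ((B.det : ℤ) : ℂ) := by
    have := (Int.castRingHom ℂ).map_det B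
    rw [eq_intCast] at this
    rw [this]
    rfl
  have h4 : IsUnit B.det := isUnit_iff_exists_inv'.mpr ⟨C.det, h2⟩
  rw [h3]
  rcases Int.isUnit_iff.mp h4 with h5 | h5 <;> rw [h5] <;> norm_num

lemma rdet_lin [DecidableEq κ] (e : ι ≃ κ) (T : Matrix κ κ ℂ) (f b : κ → ι → ℂ)
    (h : ∀ k i, f k i = ∑ k', T k k' * b k' i) : rdet e f = T.det * rdet e b := by
  unfold rdet
  rw [← Matrix.det_submatrix_equiv_self e T, ← Matrix.det_mul]
  congr 1
  ext i i'
  rw [Matrix.mul_apply, Matrix.of_apply, h, ← e.sum_comp (fun k' => T (e i) k' * b k' i')]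
  rfl

lemma det_unit_sum (P : Matrix (Unit ⊕ Unit) (Unit ⊕ Unit) ℂ) :
    P.det = P (Sum.inl ()) (Sum.inl ()) * P (Sum.inr ()) (Sum.inr ()) -
      P (Sum.inl ()) (Sum.inr ()) * P (Sum.inr ()) (Sum.inl ()) := by
  let e : Unit ⊕ Unit ≃ Fin 2 :=
    { toFun := Sum.elim (fun _ => 0) (fun _ => 1)
      invFun := ![Sum.inl (), Sum.inr ()]
      left_inv := by rintro (⟨⟩ | ⟨⟩) <;> rfl
      right_inv := by intro i; fin_cases i <;> rfl }
  rw [← Matrix.det_reindex_self e P, Matrix.det_fin_two]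
  rfl

end rdet

theorem Surf.torus_lemma {D V O E : Type} [Fintype D] [Fintype V] [Fintype O] [Fintype E]
    [DecidableEq D] [DecidableEq V] [DecidableEq O] [DecidableEq E] (M : Surf D V O E) (o₀ : O)
    (x y : E → ℂ) (hx : M.del1 x = 0) (hy : M.del1 y = 0) {κ : Type} (W : κ → E → ℂ) (u : V → ℂ)
    (e₁ : E ≃ {o : O // o ≠ o₀} ⊕ (Unit ⊕ Unit) ⊕ κ) (e₂ : V ≃ κ ⊕ Unit) :
    rdet e₁ (Sum.elim (fun o => M.del2 (Pi.single o.1 1))
      (Sum.elim (Sum.elim (fun _ => x) (fun _ => y)) W)) ^ 2 * (∑ p, u p) ^ 2 =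
    M.inter x y ^ 2 * rdet e₂ (Sum.elim (fun k => M.del1 (W k)) (fun _ => u)) ^ 2 := by
  classical
  have : Fintype κ := Fintype.ofInjective (fun k => e₂.symm (Sum.inl k)) (fun k k' h => by
    simpa using h)
  let p₀ : V := e₂.symm (Sum.inr ())
  let v : κ → V := fun k => e₂.symm (Sum.inl k)
  have hv : ∀ k, v k ≠ p₀ := fun k h => by simp [v, p₀] at h
  have hvinj : Function.Injective v := fun k k' h => by simpa [v] using h
  have hsumV : ∀ {A : Type} [AddCommMonoid A] (F : V → A), ∑ p, F p = ∑ k, F (v k) + F p₀ := by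
    intro A _ F
    rw [← e₂.symm.sum_comp F, Fintype.sum_sum_type]
    simp [v, p₀]
  have hsumO : ∀ {A : Type} [AddCommMonoid A] (F : O → A), F o₀ = 0 →
      ∑ o, F o = ∑ o : {o : O // o ≠ o₀}, F o := by
    intro A _ F hF
    rw [Fintype.sum_eq_add_sum_subtype_ne F o₀, hF, zero_add]
  obtain ⟨d₀, _⟩ := M.o_surj o₀
  obtain ⟨w, hw⟩ := M.exists_path p₀
  obtain ⟨x', y', hx', hy', hxy'⟩ := M.exists_symp d₀
  have hx'' := M.del1_cst_zero x' hx'
  have hy'' := M.del1_cst_zero y' hy'
  have hdel2 : ∀ (R : Type) [CommRing R] (a : O → R), a o₀ = 0 → ∀ q,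
      M.del2 a q = ∑ o : {o : O // o ≠ o₀}, a o * M.del2 (Pi.single o.1 (1 : R)) q := by
    intro R _ a ha q
    rw [← hsumO (fun o => a o * M.del2 (Pi.single o (1 : R)) q) (by rw [ha, zero_mul])]
    have e : a = ∑ o, a o • (Pi.single o (1 : R) : O → R) := by
      funext o'
      simp [Finset.sum_apply, Pi.single_apply]
    have e2 := congrFun (congrArg (M.del2L R) e) q
    rw [map_sum] at e2
    simp only [map_smul, Finset.sum_apply, Pi.smul_apply, smul_eq_mul] at e2
    exact e2
  -- the standard basis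
  let b : {o : O // o ≠ o₀} ⊕ (Unit ⊕ Unit) ⊕ κ → E → ℤ :=
    Sum.elim (fun o => M.del2 (Pi.single o.1 1))
      (Sum.elim (Sum.elim (fun _ => x') (fun _ => y')) (fun k => w (v k)))
  have hcomb : ∀ z : E → ℂ, ∃ (a : O → ℂ) (α β : ℂ) (c : V → ℂ), a o₀ = 0 ∧ c p₀ = 0 ∧
      (∀ p, c p = if p = p₀ then 0 else M.del1 z p) ∧
      z = M.del2 a + α • cst x' + β • cst y' + ∑ p, c p • cst (w p) ∧
      ∀ q, z q = ∑ o : {o : O // o ≠ o₀}, a o * (M.del2 (Pi.single o.1 (1 : ℂ)) q) +
        (α * (x' q : ℂ) + β * (y' q : ℂ) + ∑ k, c (v k) * (w (v k) q : ℂ)) := by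
    intro z
    obtain ⟨a, α, β, c, h1, h2, h3⟩ := M.exists_coeff o₀ p₀ w hw x' y' hx' hy' hxy' z
    obtain ⟨h4, _⟩ := M.coeff_mem o₀ p₀ w hw x' y' hx' hy' hxy' ⊤ z
      (fun _ => AddSubgroup.mem_top _) a h1 α β c h2 h3
    refine ⟨a, α, β, c, h1, h2, h4, h3, fun q => ?_⟩
    rw [← hdel2 ℂ a h1 q]
    have := congrFun h3 q
    rw [Pi.add_apply, Finset.sum_apply, hsumV] at this
    rw [this, h2]
    simp only [Pi.add_apply, Pi.smul_apply, smul_eq_mul, cst]
    ring
  have hb1 : rdet e₁ (fun j q => (b j q : ℂ)) ^ 2 = 1 := by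
    apply rdet_sq_one
    intro q
    obtain ⟨a, α, β, c, h1, h2, h4, h3, h5⟩ := hcomb (Pi.single q 1)
    obtain ⟨_, g1, g2, g3, g4⟩ := M.coeff_mem o₀ p₀ w hw x' y' hx' hy' hxy'
      (AddMonoidHom.range (Int.castAddHom ℂ)) (Pi.single q 1) (fun q' => by
        rw [Pi.single_apply]
        split_ifs
        · exact ⟨1, by simp⟩
        · exact ⟨0, by simp⟩) a h1 α β c h2 h3
    choose a' ha' using g1
    obtain ⟨α', hα'⟩ := g2
    obtain ⟨β', hβ'⟩ := g3
    choose c' hc' using g4
    simp only [Int.coe_castAddHom] at ha' hα' hβ' hc'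
    refine ⟨Sum.elim (fun o => a' o.1) (Sum.elim (Sum.elim (fun _ => α') (fun _ => β'))
      (fun k => c' (v k))), fun q' => ?_⟩
    have h6 := h5 q'
    have h7 : ∀ o : O, M.del2 (Pi.single o (1 : ℂ)) q' = ((M.del2 (Pi.single o (1 : ℤ)) q' : ℤ) : ℂ) := by
      intro o
      unfold del2
      simp only [Pi.single_apply]
      push_cast
      rfl
    have h8 : (Pi.single q (1 : ℂ) : E → ℂ) q' = (((Pi.single q (1 : ℤ) : E → ℤ) q' : ℤ) : ℂ) := by
      rw [Pi.single_apply, Pi.single_apply]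
      split_ifs <;> simp
    simp only [h7, h8, ← ha', ← hα', ← hβ', ← hc'] at h6
    rw [Fintype.sum_sum_type, Fintype.sum_sum_type, Fintype.sum_sum_type]
    simp only [b, Sum.elim_inl, Sum.elim_inr, Finset.univ_unique, Finset.sum_singleton]
    exact_mod_cast h6
  -- coordinates of x, y, W
  obtain ⟨ax, αx, βx, cx, x1, x2, x3, x4, x5⟩ := hcomb x
  obtain ⟨ay, αy, βy, cy, y1, y2, y3, y4, y5⟩ := hcomb y
  have hcx : cx = 0 := by
    funext p
    rw [x3, hx]
    simp
  have hcy : cy = 0 := by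
    funext p
    rw [y3, hy]
    simp
  choose aW αW βW cW W1 W2 W3 W4 W5 using fun k => hcomb (W k)
  let P : Matrix (Unit ⊕ Unit) (Unit ⊕ Unit) ℂ :=
    Matrix.of (Sum.elim (fun _ => Sum.elim (fun _ => αx) (fun _ => βx))
      (fun _ => Sum.elim (fun _ => αy) (fun _ => βy)))
  let Q : Matrix κ κ ℂ := Matrix.of fun k k' => M.del1 (W k) (v k')
  let C' : Matrix κ (Unit ⊕ Unit) ℂ := Matrix.of fun k => Sum.elim (fun _ => αW k) (fun _ => βW k)
  let C : Matrix ((Unit ⊕ Unit) ⊕ κ) {o : O // o ≠ o₀} ℂ :=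
    Matrix.of (Sum.elim (Sum.elim (fun _ o => ax o) (fun _ o => ay o)) (fun k o => aW k o))
  let T : Matrix ({o : O // o ≠ o₀} ⊕ ((Unit ⊕ Unit) ⊕ κ)) ({o : O // o ≠ o₀} ⊕ ((Unit ⊕ Unit) ⊕ κ)) ℂ :=
    Matrix.fromBlocks 1 0 C (Matrix.fromBlocks P 0 C' Q)
  have hT : T.det = P.det * Q.det := by
    simp only [T]
    rw [Matrix.det_fromBlocks_zero₁₂, Matrix.det_fromBlocks_zero₁₂, Matrix.det_one, one_mul]
  have hdet1 : rdet e₁ (Sum.elim (fun o => M.del2 (Pi.single o.1 1))
      (Sum.elim (Sum.elim (fun _ => x) (fun _ => y)) W)) = T.det * rdet e₁ (fun j q => (b j q : ℂ)) := by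
    apply rdet_lin
    have h7 : ∀ (o : O) (q : E), M.del2 (Pi.single o (1 : ℂ)) q =
        ((M.del2 (Pi.single o (1 : ℤ)) q : ℤ) : ℂ) := by
      intro o q
      unfold del2
      simp only [Pi.single_apply]
      push_cast
      rfl
    intro j q
    rw [Fintype.sum_sum_type, Fintype.sum_sum_type, Fintype.sum_sum_type]
    rcases j with o | (⟨⟩ | ⟨⟩) | k
    · simp only [T, b, Matrix.fromBlocks_apply₁₁, Matrix.fromBlocks_apply₁₂, Matrix.one_apply,
        Matrix.zero_apply, Sum.elim_inl, Sum.elim_inr, Finset.univ_unique, Finset.sum_singleton,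
        zero_mul, Finset.sum_const_zero, add_zero, ite_mul, one_mul, Finset.sum_ite_eq,
        Finset.mem_univ, if_true, h7]
    · simp only [T, b, C, P, C', Matrix.fromBlocks_apply₁₁, Matrix.fromBlocks_apply₁₂,
        Matrix.fromBlocks_apply₂₁, Matrix.fromBlocks_apply₂₂, Matrix.of_apply,
        Matrix.zero_apply, Sum.elim_inl, Sum.elim_inr, Finset.univ_unique, Finset.sum_singleton,
        zero_mul, Finset.sum_const_zero, add_zero]
      rw [x5 q, hcx]
      simp [h7]
    · simp only [T, b, C, P, C', Matrix.fromBlocks_apply₁₁, Matrix.fromBlocks_apply₁₂,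
        Matrix.fromBlocks_apply₂₁, Matrix.fromBlocks_apply₂₂, Matrix.of_apply,
        Matrix.zero_apply, Sum.elim_inl, Sum.elim_inr, Finset.univ_unique, Finset.sum_singleton,
        zero_mul, Finset.sum_const_zero, add_zero]
      rw [y5 q, hcy]
      simp [h7]
    · simp only [T, b, C, P, C', Q, Matrix.fromBlocks_apply₁₁, Matrix.fromBlocks_apply₁₂,
        Matrix.fromBlocks_apply₂₁, Matrix.fromBlocks_apply₂₂, Matrix.of_apply,
        Sum.elim_inl, Sum.elim_inr, Finset.univ_unique, Finset.sum_singleton]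
      rw [W5 k q]
      have e : ∀ k', cW k (v k') = M.del1 (W k) (v k') := fun k' => by
        rw [W3, if_neg (hv k')]
      simp [h7, e]
  have hinter : M.inter x y = P.det := by
    rw [det_unit_sum]
    simp only [P, Matrix.of_apply, Sum.elim_inl, Sum.elim_inr]
    have ex : x = M.del2 ax + αx • cst x' + βx • cst y' := by rw [x4, hcx]; simp
    have ey : y = M.del2 ay + αy • cst x' + βy • cst y' := by rw [y4, hcy]; simp
    have hyc := hy
    rw [ex, M.inter_add_left, M.inter_add_left, M.inter_del2_left y hy, M.inter_smul_left,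
      M.inter_smul_left, ey]
    simp only [M.inter_add_right, M.inter_smul_right, M.inter_del2 _ hx'', M.inter_del2 _ hy'',
      M.inter_self, M.inter_anti (cst y') (cst x'), hxy']
    ring
  -- the side of V
  let b₂ : κ ⊕ Unit → V → ℤ :=
    Sum.elim (fun k => Pi.single (v k) 1 - Pi.single p₀ 1) (fun _ => Pi.single p₀ 1)
  have hb2 : rdet e₂ (fun j p => (b₂ j p : ℂ)) ^ 2 = 1 := by
    apply rdet_sq_one
    intro p
    rcases hp : e₂ p with k | ⟨⟩
    · have hpk : p = v k := by simp [v, ← hp]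
      refine ⟨Sum.elim (Pi.single k 1) (fun _ => 1), fun p' => ?_⟩
      rw [Fintype.sum_sum_type, hpk]
      simp only [b₂, Sum.elim_inl, Sum.elim_inr, Finset.univ_unique, Finset.sum_singleton,
        Pi.single_apply, Pi.sub_apply, ite_mul, one_mul, zero_mul, Finset.sum_ite_eq',
        Finset.mem_univ, if_true]
      ring
    · have hpk : p = p₀ := by simp [p₀, ← hp]
      refine ⟨Sum.elim 0 (fun _ => 1), fun p' => ?_⟩
      rw [Fintype.sum_sum_type, hpk]
      simp [b₂]
  let T₂ : Matrix (κ ⊕ Unit) (κ ⊕ Unit) ℂ :=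
    Matrix.fromBlocks Q 0 (Matrix.of fun _ k => u (v k)) (Matrix.of fun _ _ => ∑ p, u p)
  have hT2 : T₂.det = Q.det * ∑ p, u p := by
    simp only [T₂]
    rw [Matrix.det_fromBlocks_zero₁₂]
    congr 1
    rw [Matrix.det_unique]
    rfl
  have hgen : ∀ (f : V → ℂ) (p : V), f p = ∑ k, f (v k) * ((Pi.single (v k) (1 : ℤ) -
      Pi.single p₀ 1 : V → ℤ) p : ℂ) + (∑ p, f p) * ((Pi.single p₀ (1 : ℤ) : V → ℤ) p : ℂ) := by
    intro f p
    simp only [Pi.sub_apply, Int.cast_sub, mul_sub, Finset.sum_sub_distrib]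
    rw [← Finset.sum_mul, hsumV f]
    have e := hsumV (fun p' => f p' * ((Pi.single p' (1 : ℤ) : V → ℤ) p : ℂ))
    have e2 : ∑ p', f p' * ((Pi.single p' (1 : ℤ) : V → ℤ) p : ℂ) = f p := by
      simp [Pi.single_apply]
    rw [e2] at e
    linear_combination e
  have hdet2 : rdet e₂ (Sum.elim (fun k => M.del1 (W k)) (fun _ => u)) =
      T₂.det * rdet e₂ (fun j p => (b₂ j p : ℂ)) := by
    apply rdet_lin
    intro j p
    rw [Fintype.sum_sum_type]
    rcases j with k | ⟨⟩
    · have hs : ∑ p, M.del1 (W k) p = 0 := by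
        unfold del1
        rw [Finset.sum_comm]
        refine Finset.sum_eq_zero fun q _ => ?_
        rw [← Finset.mul_sum, Finset.sum_sub_distrib]
        simp
      simp only [T₂, b₂, Q, Matrix.fromBlocks_apply₁₁, Matrix.fromBlocks_apply₁₂, Matrix.of_apply,
        Matrix.zero_apply, Sum.elim_inl, Sum.elim_inr, Finset.univ_unique, Finset.sum_singleton,
        zero_mul, add_zero]
      have := hgen (M.del1 (W k)) p
      rw [hs, zero_mul, add_zero] at this
      exact this
    · simp only [T₂, b₂, Matrix.fromBlocks_apply₂₁, Matrix.fromBlocks_apply₂₂, Matrix.of_apply,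
        Sum.elim_inl, Sum.elim_inr, Finset.univ_unique, Finset.sum_singleton]
      exact hgen u p
  rw [hdet1, hdet2, hT, hT2, hinter, mul_pow, mul_pow, mul_pow, mul_pow, hb1, hb2]
  ring

end Pool.Agent.Helper34.OneLoop
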