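import Pool.Agent.Helper34.OneLoop.CU
import Pool.Agent.Helper34.OneLoop.TL

/-! # Module H1: homology of the cusp torus, essential curves -/

namespace Pool.Agent.Helper34.OneLoop

open Equiv Matrix Finset

section

variable {N : ℕ} {T : Triang N} {z : Fin N → ℂ}

namespace H1

lemma kinds : ∀ σ : alternatingGroup (Fin 4),
    (kind ((σ : Perm (Fin 4)) 0) ((σ : Perm (Fin 4)) 2) = 1 ∧
      kind ((σ : Perm (Fin 4)) 0) ((σ : Perm (Fin 4)) 3) = 2) ∨
    (kind ((σ : Perm (Fin 4)) 0) ((σ : Perm (Fin 4)) 2) = 2 ∧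
      kind ((σ : Perm (Fin 4)) 0) ((σ : Perm (Fin 4)) 3) = 0) ∨
    (kind ((σ : Perm (Fin 4)) 0) ((σ : Perm (Fin 4)) 2) = 0 ∧
      kind ((σ : Perm (Fin 4)) 0) ((σ : Perm (Fin 4)) 3) = 1) := by
  decide

lemma ratio_im (w : ℂ) (hw : 0 < w.im) (x : Flag N) :
    0 < (zet w (kind (x.vx 0) (x.vx 3)) / zet w (kind (x.vx 0) (x.vx 2))).im := by
  have hw0 : w ≠ 0 := by rintro rfl; simp at hw
  have hw1 : 1 - w ≠ 0 := by
    intro h
    have := congrArg Complex.im h
    simp at this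
    linarith
  have hw2 : w - 1 ≠ 0 := by
    intro h
    exact hw1 (by linear_combination -h)
  rcases kinds x.2 with ⟨h1, h2⟩ | ⟨h1, h2⟩ | ⟨h1, h2⟩
  · have e1 : kind (x.vx 0) (x.vx 2) = 1 := h1
    have e2 : kind (x.vx 0) (x.vx 3) = 2 := h2
    rw [e1, e2]
    have e : zet w 2 / zet w 1 = -w⁻¹ := by
      show 1 / (w * (w - 1)) / (1 / (1 - w)) = -w⁻¹
      field_simp
      ring
    rw [e, Complex.neg_im, Complex.inv_im, neg_div, neg_neg]
    exact div_pos hw (Complex.normSq_pos.2 hw0)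
  · have e1 : kind (x.vx 0) (x.vx 2) = 2 := h1
    have e2 : kind (x.vx 0) (x.vx 3) = 0 := h2
    rw [e1, e2]
    have e : zet w 0 / zet w 2 = w - 1 := by
      show 1 / w / (1 / (w * (w - 1))) = w - 1
      field_simp
    rw [e]
    simpa using hw
  · have e1 : kind (x.vx 0) (x.vx 2) = 0 := h1
    have e2 : kind (x.vx 0) (x.vx 3) = 1 := h2
    rw [e1, e2]
    have e : zet w 1 / zet w 0 = (1 - w)⁻¹ - 1 := by
      show 1 / (1 - w) / (1 / w) = (1 - w)⁻¹ - 1
      field_simp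
      ring
    rw [e, Complex.sub_im, Complex.one_im, sub_zero, Complex.inv_im]
    refine div_pos ?_ (Complex.normSq_pos.2 hw1)
    simpa using hw

lemma u_ne (D : Develop T z) (x : Flag N) : D.u x ≠ 0 :=
  div_ne_zero (D.c_ne x 1 3 (by decide)) (mul_ne_zero (D.c_ne x 0 1 (by decide))
    (D.c_ne x 0 3 (by decide)))

lemma u_rho (D : Develop T z) (x : Flag N) : D.u x.rho =
    zet (z x.1) (kind (x.vx 0) (x.vx 3)) / zet (z x.1) (kind (x.vx 0) (x.vx 2)) * D.u x := by
  have h1 : D.c x 0 2 * D.c x 3 1 = D.m x.1 * zet (z x.1) (kind (x.vx 0) (x.vx 2)) := D.cc_eq x.rho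
  have h2 : D.c x 0 3 * D.c x 1 2 = D.m x.1 * zet (z x.1) (kind (x.vx 0) (x.vx 3)) :=
    D.cc_eq x.rho.rho
  have hm := D.m_ne x.1
  have hz1 := D.zet_ne x.1 (kind (x.vx 0) (x.vx 2))
  have e1 : D.u x.rho = D.c x 2 1 / (D.c x 0 2 * D.c x 0 1) := rfl
  have e2 : D.u x = D.c x 1 3 / (D.c x 0 1 * D.c x 0 3) := rfl
  have e3 : zet (z x.1) (kind (x.vx 0) (x.vx 3)) / zet (z x.1) (kind (x.vx 0) (x.vx 2)) =
      (D.c x 0 3 * D.c x 1 2) / (D.c x 0 2 * D.c x 3 1) := by
    rw [h1, h2]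
    field_simp
  have n1 := D.c_ne x 0 1 (by decide)
  have n2 := D.c_ne x 0 2 (by decide)
  have n3 := D.c_ne x 0 3 (by decide)
  have n4 := D.c_ne x 3 1 (by decide)
  rw [e1, e2, e3, D.c_swap x 1 2, D.c_swap x 3 1]
  field_simp

lemma u_pos (D : Develop T z) (hz : ∀ j, 0 < (z j).im) (x : Flag N) :
    0 < ((starRingEnd ℂ) (D.u x) * D.u x.rho).im := by
  rw [u_rho D x]
  set r := zet (z x.1) (kind (x.vx 0) (x.vx 3)) / zet (z x.1) (kind (x.vx 0) (x.vx 2)) with hr
  have h1 : (starRingEnd ℂ) (D.u x) * (r * D.u x) = ((Complex.normSq (D.u x) : ℝ) : ℂ) * r := by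
    rw [Complex.normSq_eq_conj_mul_self]
    ring
  rw [h1, Complex.im_ofReal_mul]
  exact mul_pos (Complex.normSq_pos.2 (u_ne D x)) (ratio_im _ (hz x.1) x)

/-- the translation cocycle -/
noncomputable def U (K : Cells T) (D : Develop T z) : EE N → ℂ := fun q => D.u (K.eps q)

/-- its conjugate -/
noncomputable def Ub (K : Cells T) (D : Develop T z) : EE N → ℂ :=
  fun q => (starRingEnd ℂ) (D.u (K.eps q))

variable (K : Cells T) (D : Develop T z) (hT : T.OneCusp)

lemma ext_U (d : Flag N) : (K.surf hT).ext (U K D) d = D.u d := CU.ext_u K D hT d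

lemma ext_Ub (d : Flag N) : (K.surf hT).ext (Ub K D) d = (starRingEnd ℂ) (D.u d) :=
  CU.pair_dch K (fun x => (starRingEnd ℂ) (D.u x)) (fun x => by
    simp only [D.u_iota, map_neg]) d

lemma del1_U : (K.surf hT).del1 (U K D) = 0 := by
  funext p
  obtain ⟨d, rfl⟩ := (K.surf hT).t_surj p
  rw [Surf.del1_t]
  simp only [ext_U]
  have := D.u_cocycle d
  show -(D.u d + D.u d.rho + D.u d.rho.rho) = 0
  rw [this, neg_zero]

lemma del1_Ub : (K.surf hT).del1 (Ub K D) = 0 := by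
  funext p
  obtain ⟨d, rfl⟩ := (K.surf hT).t_surj p
  rw [Surf.del1_t]
  simp only [ext_Ub]
  have := congrArg (starRingEnd ℂ) (D.u_cocycle d)
  simp only [map_add, map_zero] at this
  show -((starRingEnd ℂ) (D.u d) + (starRingEnd ℂ) (D.u d.rho) + (starRingEnd ℂ) (D.u d.rho.rho)) = 0
  rw [this, neg_zero]

lemma inter_UbU (hz : ∀ j, 0 < (z j).im) (hN : 0 < N) : (K.surf hT).inter (Ub K D) (U K D) ≠ 0 := by
  have h1 : ∀ d : Flag N, (K.surf hT).ext (Ub K D) d * (K.surf hT).ext (U K D) ((K.surf hT).rho d) -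
      (K.surf hT).ext (Ub K D) ((K.surf hT).rho d) * (K.surf hT).ext (U K D) d =
      ((2 * ((starRingEnd ℂ) (D.u d) * D.u d.rho).im : ℝ) : ℂ) * Complex.I := by
    intro d
    rw [ext_U, ext_U, ext_Ub, ext_Ub]
    have h2 : (starRingEnd ℂ) (D.u ((K.surf hT).rho d)) * D.u d =
        (starRingEnd ℂ) ((starRingEnd ℂ) (D.u d) * D.u d.rho) := by
      rw [map_mul, Complex.conj_conj, mul_comm]
      rfl
    rw [h2]
    have h3 := Complex.sub_conj ((starRingEnd ℂ) (D.u d) * D.u d.rho)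
    exact h3
  unfold Surf.inter
  rw [Finset.sum_congr rfl fun d _ => h1 d, ← Finset.sum_mul, ← Complex.ofReal_sum]
  have hpos : 0 < ∑ d : Flag N, 2 * ((starRingEnd ℂ) (D.u d) * D.u d.rho).im := by
    have : Nonempty (Flag N) := ⟨(⟨0, hN⟩, 1)⟩
    exact Finset.sum_pos (fun d _ => mul_pos two_pos (u_pos D hz d)) Finset.univ_nonempty
  refine mul_ne_zero (by norm_num) (mul_ne_zero ?_ Complex.I_ne_zero)
  exact_mod_cast hpos.ne'

/-- decomposition in an integral basis -/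
lemma basis (hN : 0 < N) : ∃ x y : EE N → ℤ, (K.surf hT).del1 x = 0 ∧ (K.surf hT).del1 y = 0 ∧
    (K.surf hT).inter (Surf.cst x) (Surf.cst y) = 1 ∧
    ∀ w : EE N → ℂ, (K.surf hT).del1 w = 0 → ∃ (a : Fin N × Bool → ℂ) (α β : ℂ),
      w = (K.surf hT).del2 a + α • Surf.cst x + β • Surf.cst y ∧
      ∀ A : AddSubgroup ℂ, (∀ q, w q ∈ A) → ∀ o, a o ∈ A := by
  have d₀ : Flag N := (⟨0, hN⟩, 1)
  obtain ⟨x, y, hx, hy, hxy⟩ := (K.surf hT).exists_symp d₀
  refine ⟨x, y, hx, hy, hxy, ?_⟩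
  intro w hw
  obtain ⟨v, hv⟩ := (K.surf hT).exists_path d₀.tri
  obtain ⟨a, α, β, c, h1, h2, h3⟩ := (K.surf hT).exists_coeff (K.cls d₀) d₀.tri v hv x y hx hy hxy w
  have h4 : ∀ p, c p = 0 := by
    intro p
    obtain ⟨h4, _⟩ := (K.surf hT).coeff_mem (K.cls d₀) d₀.tri v hv x y hx hy hxy ⊤ w
      (fun _ => AddSubgroup.mem_top _) a h1 α β c h2 h3
    rw [h4, hw]
    simp
  refine ⟨a, α, β, ?_, ?_⟩
  · rw [h3]
    simp [h4]
  · intro A hA
    exact ((K.surf hT).coeff_mem (K.cls d₀) d₀.tri v hv x y hx hy hxy A w hA a h1 α β c h2 h3).2.1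

lemma ch_eq (θ : Curve T) (q : EE N) : θ.ch K q = ((θ.cross (K.eps q) : ℤ) : ℂ) := by
  unfold Curve.ch Curve.cross
  rw [Finset.sum_apply]
  unfold Cells.dch
  rw [Finset.sum_sub_distrib, Finset.card_filter, Finset.card_filter]
  push_cast
  congr 1
  · exact Finset.sum_congr rfl fun i _ => by simp only [eq_comm]
  · refine Finset.sum_congr rfl fun i _ => ?_
    simp only [eq_comm]

lemma cross_iota (θ : Curve T) (x : Flag N) : θ.cross (T.iota x) = -θ.cross x := by
  unfold Curve.cross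
  rw [T.iota_iota, neg_sub]

end H1

open H1 in
/-- the intersection number of the translation cocycle with its conjugate does not vanish (area > 0) -/
lemma inter_conj_ne (K : Cells T) (D : Develop T z) (hT : T.OneCusp) (hz : ∀ j, 0 < (z j).im)
    (hN : 0 < N) : (K.surf hT).inter (fun q => (starRingEnd ℂ) (D.u (K.eps q)))
      (fun q => D.u (K.eps q)) ≠ 0 := inter_UbU K D hT hz hN

open H1 in
/-- `H₁` of the cusp torus is spanned by the translation cocycle and its conjugate. -/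
lemma H1_decomp (K : Cells T) (D : Develop T z) (hT : T.OneCusp) (hz : ∀ j, 0 < (z j).im)
    (hN : 0 < N) (y : EE N → ℂ) (hy : K.del1 y = 0) :
    ∃ (s : Fin N × Bool → ℂ) (α β : ℂ), y = K.del2 s + α • (fun q => D.u (K.eps q)) +
      β • (fun q => (starRingEnd ℂ) (D.u (K.eps q))) := by
  obtain ⟨x', y', hx', hy', hxy, hdec⟩ := basis K hT hN
  have hx'' := (K.surf hT).del1_cst_zero x' hx'
  have hy'' := (K.surf hT).del1_cst_zero y' hy'
  obtain ⟨a1, α1, β1, h1, -⟩ := hdec (U K D) (del1_U K D hT)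
  obtain ⟨a2, α2, β2, h2, -⟩ := hdec (Ub K D) (del1_Ub K D hT)
  obtain ⟨a, α, β, h, -⟩ := hdec y hy
  have hΔ : α2 * β1 - β2 * α1 ≠ 0 := by
    have := inter_UbU K D hT hz hN
    rw [h1, h2] at this
    simp only [Surf.inter_add_left, Surf.inter_add_right, Surf.inter_smul_left,
      Surf.inter_smul_right, Surf.inter_del2_left _ _ hx'', Surf.inter_del2_left _ _ hy'',
      Surf.inter_self, hxy, (K.surf hT).inter_anti (Surf.cst y') (Surf.cst x'),
      Surf.inter_del2 _ _ hx'', Surf.inter_del2 _ _ hy'',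
      Surf.inter_del2 _ _ ((K.surf hT).del1_del2 a2)] at this
    intro h0
    apply this
    linear_combination h0
  have hΔ' : α1 * β2 - α2 * β1 ≠ 0 := fun h0 => hΔ (by linear_combination -h0)
  obtain ⟨A, hA⟩ : ∃ A, A = (β2 * α - α2 * β) / (α1 * β2 - α2 * β1) := ⟨_, rfl⟩
  obtain ⟨B, hB⟩ : ∃ B, B = (α1 * β - β1 * α) / (α1 * β2 - α2 * β1) := ⟨_, rfl⟩
  have s1 : A * α1 + B * α2 = α := by
    rw [hA, hB, div_mul_eq_mul_div, div_mul_eq_mul_div, ← add_div, div_eq_iff hΔ']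
    ring
  have s2 : A * β1 + B * β2 = β := by
    rw [hA, hB, div_mul_eq_mul_div, div_mul_eq_mul_div, ← add_div, div_eq_iff hΔ']
    ring
  refine ⟨a - A • a1 - B • a2, A, B, ?_⟩
  funext q
  have e1 := congrFun h1 q
  have e2 := congrFun h2 q
  have e := congrFun h q
  simp only [U, Ub, Pi.add_apply, Pi.smul_apply, smul_eq_mul] at e1 e2 e ⊢
  rw [e, e2, e1]
  have d1 : K.del2 (a - A • a1 - B • a2) q = (K.surf hT).del2 a q -
      A * (K.surf hT).del2 a1 q - B * (K.surf hT).del2 a2 q := by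
    show (a - A • a1 - B • a2) (K.cls (K.eps q)) - (a - A • a1 - B • a2) (K.cls (T.iota (K.eps q))) =
      (a (K.cls (K.eps q)) - a (K.cls (T.iota (K.eps q)))) -
      A * (a1 (K.cls (K.eps q)) - a1 (K.cls (T.iota (K.eps q)))) -
      B * (a2 (K.cls (K.eps q)) - a2 (K.cls (T.iota (K.eps q))))
    simp only [Pi.sub_apply, Pi.smul_apply, smul_eq_mul]
    ring
  rw [d1]
  linear_combination (-Surf.cst x' q) * s1 - Surf.cst y' q * s2

open H1 in
/-- the translation along an essential curve does not vanish -/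
theorem inter_ch_ne (K : Cells T) (D : Develop T z) (hT : T.OneCusp) (hz : ∀ j, 0 < (z j).im)
    (hN : 0 < N) (θ : Curve T) (hθ : θ.Essential K) :
    (K.surf hT).inter (fun q => D.u (K.eps q)) (θ.ch K) ≠ 0 := by
  intro h0
  apply hθ
  obtain ⟨x', y', hx', hy', hxy, hdec⟩ := basis K hT hN
  have hx'' := (K.surf hT).del1_cst_zero x' hx'
  have hy'' := (K.surf hT).del1_cst_zero y' hy'
  obtain ⟨a1, α1, β1, h1, -⟩ := hdec (U K D) (del1_U K D hT)
  obtain ⟨a2, α2, β2, h2, -⟩ := hdec (Ub K D) (del1_Ub K D hT)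
  have hch : (K.surf hT).del1 (θ.ch K) = 0 := del1_ch K θ
  obtain ⟨a, α, β, h, hint⟩ := hdec (θ.ch K) hch
  have hΔ : α2 * β1 - β2 * α1 ≠ 0 := by
    have := inter_UbU K D hT hz hN
    rw [h1, h2] at this
    simp only [Surf.inter_add_left, Surf.inter_add_right, Surf.inter_smul_left,
      Surf.inter_smul_right, Surf.inter_del2_left _ _ hx'', Surf.inter_del2_left _ _ hy'',
      Surf.inter_self, hxy, (K.surf hT).inter_anti (Surf.cst y') (Surf.cst x'),
      Surf.inter_del2 _ _ hx'', Surf.inter_del2 _ _ hy'',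
      Surf.inter_del2 _ _ ((K.surf hT).del1_del2 a2)] at this
    intro h0
    apply this
    linear_combination h0
  -- the conjugate intersection number
  have hreal : ∀ d, (starRingEnd ℂ) ((K.surf hT).ext (θ.ch K) d) = (K.surf hT).ext (θ.ch K) d := by
    intro d
    unfold Surf.ext
    rw [map_sum]
    refine Finset.sum_congr rfl fun q _ => ?_
    rw [map_mul, ch_eq, map_intCast]
    congr 1
    unfold Surf.dch
    rw [map_sub]
    congr 1 <;> split_ifs <;> simp
  have h0' : (K.surf hT).inter (Ub K D) (θ.ch K) = 0 := by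
    have e : (K.surf hT).inter (Ub K D) (θ.ch K) =
        (starRingEnd ℂ) ((K.surf hT).inter (U K D) (θ.ch K)) := by
      unfold Surf.inter
      rw [map_mul, map_sum]
      congr 1
      · rw [map_div₀, map_one, map_ofNat]
      · refine Finset.sum_congr rfl fun d _ => ?_
        rw [map_sub, map_mul, map_mul, hreal, hreal, ext_U, ext_U, ext_Ub, ext_Ub]
    have h0'' : (K.surf hT).inter (U K D) (θ.ch K) = 0 := h0
    rw [e, h0'', map_zero]
  have k1 : α1 * β - β1 * α = 0 := by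
    have h0'' : (K.surf hT).inter (U K D) (θ.ch K) = 0 := h0
    rw [h1, h] at h0''
    simp only [Surf.inter_add_left, Surf.inter_add_right, Surf.inter_smul_left,
      Surf.inter_smul_right, Surf.inter_del2_left _ _ hx'', Surf.inter_del2_left _ _ hy'',
      Surf.inter_self, hxy, (K.surf hT).inter_anti (Surf.cst y') (Surf.cst x'),
      Surf.inter_del2 _ _ hx'', Surf.inter_del2 _ _ hy'',
      Surf.inter_del2 _ _ ((K.surf hT).del1_del2 a1)] at h0''
    linear_combination h0''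
  have k2 : α2 * β - β2 * α = 0 := by
    have h0'' := h0'
    rw [h2, h] at h0''
    simp only [Surf.inter_add_left, Surf.inter_add_right, Surf.inter_smul_left,
      Surf.inter_smul_right, Surf.inter_del2_left _ _ hx'', Surf.inter_del2_left _ _ hy'',
      Surf.inter_self, hxy, (K.surf hT).inter_anti (Surf.cst y') (Surf.cst x'),
      Surf.inter_del2 _ _ hx'', Surf.inter_del2 _ _ hy'',
      Surf.inter_del2 _ _ ((K.surf hT).del1_del2 a2)] at h0''
    linear_combination h0''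
  have hα : α = 0 := by
    have : (α2 * β1 - β2 * α1) * α = 0 := by linear_combination α1 * k2 - α2 * k1
    exact (mul_eq_zero.1 this).resolve_left hΔ
  have hβ : β = 0 := by
    have : (α2 * β1 - β2 * α1) * β = 0 := by linear_combination β1 * k2 - β2 * k1
    exact (mul_eq_zero.1 this).resolve_left hΔ
  have hi := hint (AddMonoidHom.range (Int.castAddHom ℂ)) (fun q => ⟨θ.cross (K.eps q), by
    rw [ch_eq]; rfl⟩)
  choose s hs using hi
  have hs' : ∀ o, ((s o : ℤ) : ℂ) = a o := hs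
  have hq : ∀ q, θ.cross (K.eps q) = s (K.cls (K.eps q)) - s (K.cls (T.iota (K.eps q))) := by
    intro q
    have e := congrFun h q
    rw [hα, hβ, ch_eq] at e
    simp only [Pi.add_apply, Pi.smul_apply, smul_eq_mul, zero_mul, add_zero] at e
    have e2 : (K.surf hT).del2 a q = a (K.cls (K.eps q)) - a (K.cls (T.iota (K.eps q))) := rfl
    rw [e2, ← hs', ← hs'] at e
    exact_mod_cast e
  refine ⟨s, fun x => ?_⟩
  obtain ⟨q, rfl | rfl⟩ := CU.cases_eps K x
  · exact hq q
  · rw [cross_iota, hq, T.iota_iota, neg_sub]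

end

end Pool.Agent.Helper34.OneLoop
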