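import Pool.Agent.Helper34.OneLoop.NV
import Pool.Agent.Helper34.OneLoop.H1
import Pool.Agent.Helper34.OneLoop.JA

/-! # Module NV: non-vanishing of the 1-loop invariant -/

namespace Pool.Agent.Helper34.OneLoop

open Equiv Matrix Finset

namespace NV

variable {N : ℕ} {T : Triang N} {z : Fin N → ℂ} (K : Cells T) (D : Develop T z)

/-- The variation of the log-shapes. -/
noncomputable def xiz (zd : Fin N → ℂ) (x : Flag N) : ℂ :=
  D.c x 0 1 * D.c x 2 3 * (zd x.1 / D.m x.1)

lemma xiz_eq (zd : Fin N → ℂ) (x : Flag N) :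
    xiz D zd x = zet (z x.1) (kind (x.vx 0) (x.vx 1)) * zd x.1 := by
  unfold xiz
  rw [D.cc_eq]
  have := D.m_ne x.1
  field_simp

/-- the contribution of a corner -/
noncomputable def conz (z zd : Fin N → ℂ) (i : Fin 4) (x : Flag N) : ℂ :=
  ∑ j, (∑ k : Fin 3, ((corner i x k j : ℤ) : ℂ) * zet (z j) k) * zd j

lemma conz_case1 (zd : Fin N → ℂ) (x : Flag N) : conz z zd (x.rho.vx 2) x = xiz D zd x := by
  unfold conz
  rw [Finset.sum_eq_single x.1]
  · have h1 : ∀ k : Fin 3, ((corner (x.rho.vx 2) x k x.1 : ℤ) : ℂ) * zet (z x.1) k =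
        if kind (x.vx 0) (x.vx 1) = k then zet (z x.1) k else 0 := by
      intro k
      unfold corner
      rw [if_pos rfl, if_pos (CU.vx_rho2 x)]
      split_ifs <;> simp
    rw [Finset.sum_congr rfl fun k _ => h1 k, Finset.sum_ite_eq, if_pos (Finset.mem_univ _), xiz_eq]
  · intro j _ hj
    have h1 : ∀ k : Fin 3, ((corner (x.rho.vx 2) x k j : ℤ) : ℂ) * zet (z j) k = 0 := by
      intro k
      unfold corner
      rw [if_neg (Ne.symm hj)]
      simp
    rw [Finset.sum_congr rfl fun k _ => h1 k]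
    simp
  · intro h
    exact absurd (Finset.mem_univ _) h

lemma conz_case2 (zd : Fin N → ℂ) (x : Flag N) :
    conz z zd (x.rho.rho.vx 2) x = -xiz D zd x.rho.rho := by
  have hv : x.rho.rho.vx 2 = x.vx 1 := by rw [CU.vx_rho2, CU.vx_rho3]
  have hv3 : x.rho.rho.vx 2 ≠ x.vx 3 := by
    rw [hv]
    intro h
    exact absurd (CU.vx_inj x h) (by decide)
  have hk : kind (x.vx 0) (x.vx 3) = kind (x.rho.rho.vx 0) (x.rho.rho.vx 1) := by
    rw [CU.vx_rho0, CU.vx_rho0, CU.vx_rho1, CU.vx_rho2]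
  unfold conz
  rw [Finset.sum_eq_single x.1]
  · have h1 : ∀ k : Fin 3, ((corner (x.rho.rho.vx 2) x k x.1 : ℤ) : ℂ) * zet (z x.1) k =
        if kind (x.vx 0) (x.vx 3) = k then -zet (z x.1) k else 0 := by
      intro k
      unfold corner
      rw [if_pos rfl, if_neg hv3, if_pos hv]
      split_ifs <;> simp
    rw [Finset.sum_congr rfl fun k _ => h1 k, Finset.sum_ite_eq, if_pos (Finset.mem_univ _), xiz_eq,
      ← hk]
    have h4 : x.rho.rho.1 = x.1 := rfl
    rw [h4]
    ring
  · intro j _ hj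
    have h1 : ∀ k : Fin 3, ((corner (x.rho.rho.vx 2) x k j : ℤ) : ℂ) * zet (z j) k = 0 := by
      intro k
      unfold corner
      rw [if_neg (Ne.symm hj)]
      simp
    rw [Finset.sum_congr rfl fun k _ => h1 k]
    simp
  · intro h
    exact absurd (Finset.mem_univ _) h

/-- difference of the two other sides -/
def WW (V : Var T) (x : Flag N) : ℂ := V.p x.rho.rho - V.p x.rho

lemma conz_step (zd : Fin N → ℂ) (V : Var T) (hV : V.xi = xiz D zd) (x e : Flag N)
    (he : e.tri = x.tri) (hne : e ≠ x) :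
    conz z zd (e.vx 2) x = -(1 / 6) * (WW V x - WW V e) +
      ((V.w x - (1 / 2) * V.p x) - (V.w (T.iota e) - (1 / 2) * V.p (T.iota e))) := by
  rcases Flag.tri_fib x e he.symm with h | rfl | rfl
  · exact absurd h hne
  · rw [conz_case1 D, ← hV, V.p_iota, ← V.prim]
    have h1 := V.p_cocycle x
    unfold WW
    simp only [Flag.rho3]
    linear_combination (1 / 3 : ℂ) * h1
  · rw [conz_case2 D, ← hV, V.p_iota, ← V.prim]
    have h1 := V.p_cocycle x
    have h2 : V.p x = V.w x - V.w (T.iota x) := rfl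
    have h3 : V.p x.rho.rho = V.w x.rho.rho - V.w (T.iota x.rho.rho) := rfl
    unfold WW
    simp only [Flag.rho3]
    linear_combination (-(1 / 3) : ℂ) * h1 + h2 + h3

lemma inter_dch (hT : T.OneCusp) (V : Var T) (x : Flag N) :
    (K.surf hT).inter (fun q => V.p (K.eps q)) (K.dch x) = (1 / 6) * (WW V x - WW V (T.iota x)) := by
  have eF : ∀ d, (K.surf hT).ext (fun q => V.p (K.eps q)) d = V.p d := CU.pair_dch K V.p V.p_iota
  unfold Surf.inter
  congr 1
  have h1 : ∀ d : Flag N, (K.surf hT).ext (fun q => V.p (K.eps q)) d *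
        (K.surf hT).ext (K.dch x) ((K.surf hT).rho d) -
      (K.surf hT).ext (fun q => V.p (K.eps q)) ((K.surf hT).rho d) *
        (K.surf hT).ext (K.dch x) d = V.p d.rho.rho.rho * CU.dl T x d.rho - V.p d.rho * CU.dl T x d := by
    intro d
    rw [eF, eF, CU.ext_dch, CU.ext_dch, Flag.rho3]
    rfl
  rw [Finset.sum_congr rfl fun d _ => h1 d, Finset.sum_sub_distrib,
    CU.sum_rho (fun d => V.p d.rho.rho * CU.dl T x d), CU.sum_dl (fun d => V.p d.rho.rho),
    CU.sum_dl (fun d => V.p d.rho)]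
  unfold WW
  ring

/-- The variation of the completeness equation. -/
lemma Cm_var (hT : T.OneCusp) (zd : Fin N → ℂ) (V : Var T) (hV : V.xi = xiz D zd) (θ : Curve T) :
    ∑ j, Cm z θ j * zd j = -(K.surf hT).inter (fun q => V.p (K.eps q)) (θ.ch K) := by
  have hL : ∑ j, Cm z θ j * zd j =
      ∑ i ∈ range θ.len, conz z zd ((T.iota (θ.d i)).vx 2) (θ.d (i + 1)) := by
    unfold conz
    rw [Finset.sum_comm]
    refine Finset.sum_congr rfl fun j _ => ?_
    unfold Cm Curve.Co
    rw [← Finset.sum_mul, Finset.sum_comm]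
    congr 1
    refine Finset.sum_congr rfl fun k _ => ?_
    push_cast
    rw [Finset.sum_mul]
  have hs : ∀ i ∈ range θ.len, conz z zd ((T.iota (θ.d i)).vx 2) (θ.d (i + 1)) =
      -(1 / 6) * (WW V (θ.d (i + 1)) - WW V (T.iota (θ.d i))) +
        ((V.w (θ.d (i + 1)) - (1 / 2) * V.p (θ.d (i + 1))) -
          (V.w (θ.d i) - (1 / 2) * V.p (θ.d i))) := by
    intro i hi
    have hi' := Finset.mem_range.1 hi
    have := conz_step D zd V hV (θ.d (i + 1)) (T.iota (θ.d i)) (θ.step i hi') (θ.normal i hi')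
    rwa [T.iota_iota] at this
  have ht : ∑ i ∈ range θ.len, WW V (θ.d (i + 1)) = ∑ i ∈ range θ.len, WW V (θ.d i) := by
    have := Finset.sum_range_sub (fun i => WW V (θ.d i)) θ.len
    simp only [θ.closed, sub_self, Finset.sum_sub_distrib] at this
    exact sub_eq_zero.1 this
  rw [hL, Finset.sum_congr rfl hs, Finset.sum_add_distrib,
    Finset.sum_range_sub (fun i => V.w (θ.d i) - (1 / 2) * V.p (θ.d i)), θ.closed, sub_self, add_zero,
    ← Finset.mul_sum, Finset.sum_sub_distrib, ht]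
  unfold Curve.ch
  rw [CU.inter_sum, Finset.sum_congr rfl fun i _ => inter_dch K hT V (θ.d i), ← Finset.mul_sum,
    Finset.sum_sub_distrib]
  ring

lemma kk_ne (j : Fin N) (a : Fin 4) : D.kk j a ≠ 0 :=
  inv_ne_zero (Finset.prod_ne_zero_iff.2 fun _ hb => D.indep j a _ (Finset.ne_of_mem_erase hb).symm)

include D in
/-- The sum of the rows of the gluing Jacobian vanishes. -/
lemma sum_Rm (hT : T.OneCusp) (j : Fin N) : ∑ e, Rm K z e j = 0 := by
  have h1 : K.del1 (∑ e, Xe K D e) = 0 := by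
    have : (∑ e, Xe K D e) = (1 / 2 : ℂ) • H1.U K D := by
      funext q
      rw [Finset.sum_apply, sum_Xe]
      rfl
    rw [this]
    have h2 := Surf.del1_smul (K.surf hT) (1 / 2 : ℂ) (H1.U K D)
    have h3 := H1.del1_U K D hT
    rw [h3, smul_zero] at h2
    exact h2
  have h2 : K.del1 (∑ e, Xe K D e) = ∑ e, K.del1 (Xe K D e) := by
    funext p
    rw [CU.del1_sum, Finset.sum_apply]
  rw [h2] at h1
  have h3 := congrFun h1 (j, 0)
  simp only [del1_Xe, Finset.sum_apply, Pi.smul_apply, smul_eq_mul, Kv, Pi.zero_apply] at h3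
  simp only [mul_ite, mul_zero, Finset.sum_ite_eq, Finset.mem_univ, if_true] at h3
  rw [← Finset.sum_mul] at h3
  have h4 := (mul_eq_zero.1 h3).resolve_right (kk_ne D j 0)
  simp only [Jm_eq] at h4
  rw [← Finset.sum_mul, ← Finset.mul_sum] at h4
  have h5 := (mul_eq_zero.1 h4).resolve_right (D.m_ne j)
  exact (mul_eq_zero.1 h5).resolve_left (by norm_num)

lemma sum_xiz (zd : Fin N → ℂ) (e : Fin N) :
    ∑ x : Flag N with K.cls x = (e, false), xiz D zd x = ∑ j, Rm K z e j * zd j := by
  have h1 : ∀ j, Rm K z e j * zd j =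
      ∑ x : Flag N with K.cls x = (e, false), if x.1 = j then xiz D zd x else 0 := by
    intro j
    have h2 := Jm_eq K D e j
    unfold Jm at h2
    have h3 : Rm K z e j * D.m j =
        ∑ x : Flag N with x.1 = j ∧ K.cls x = (e, false), D.c x 0 1 * D.c x 2 3 := by
      linear_combination 2 * h2
    rw [← Finset.sum_filter, Finset.filter_filter]
    have h4 : Rm K z e j * zd j = (Rm K z e j * D.m j) * (zd j / D.m j) := by
      have := D.m_ne j
      field_simp
    rw [h4, h3, Finset.sum_mul]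
    refine Finset.sum_congr ?_ fun x hx => ?_
    · ext x
      simp [and_comm]
    · rw [Finset.mem_filter] at hx
      unfold xiz
      rw [hx.2.2]
  rw [Finset.sum_congr rfl fun j _ => h1 j, Finset.sum_comm]
  refine Finset.sum_congr rfl fun x _ => ?_
  simp

lemma xiz_rev (zd : Fin N → ℂ) (x : Flag N) : xiz D zd x.rev = xiz D zd x := by
  have h1 : D.c x.rev 0 1 = D.c x 1 0 := rfl
  have h2 : D.c x.rev 2 3 = D.c x 3 2 := rfl
  have h3 : x.rev.1 = x.1 := rfl
  unfold xiz
  rw [h1, h2, h3, D.c_swap x 0 1, D.c_swap x 2 3]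
  ring

lemma xiz_op (zd : Fin N → ℂ) (x : Flag N) : xiz D zd (op x) = xiz D zd x := by
  have h1 : D.c (op x) 0 1 = D.c x 2 3 := rfl
  have h2 : D.c (op x) 2 3 = D.c x 0 1 := rfl
  have h3 : (op x).1 = x.1 := rfl
  unfold xiz
  rw [h1, h2, h3]
  ring

lemma xiz_tri (zd : Fin N → ℂ) (x : Flag N) :
    xiz D zd x + xiz D zd x.rho + xiz D zd x.rho.rho = 0 := by
  have h1 : D.c x.rho 0 1 = D.c x 0 2 := rfl
  have h2 : D.c x.rho 2 3 = D.c x 3 1 := rfl
  have h3 : D.c x.rho.rho 0 1 = D.c x 0 3 := rfl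
  have h4 : D.c x.rho.rho 2 3 = D.c x 1 2 := rfl
  have h5 : x.rho.1 = x.1 := rfl
  have h6 : x.rho.rho.1 = x.1 := rfl
  have h7 := D.plucker x
  have h8 := D.c_swap x 1 3
  unfold xiz
  rw [h1, h2, h3, h4, h5, h6, h8]
  linear_combination (zd x.1 / D.m x.1) * h7

lemma exists_varz (zd : Fin N → ℂ) (h : ∀ e, ∑ j, Rm K z e j * zd j = 0) :
    ∃ V : Var T, V.xi = xiz D zd := by
  refine exists_var K (xiz D zd) ?_ (xiz_rev D zd) (xiz_op D zd) (xiz_tri D zd)
  rintro ⟨e, b⟩
  cases b
  · rw [sum_xiz, h]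
  · have h1 : ∑ x : Flag N with K.cls x = (e, true), xiz D zd x =
        ∑ x : Flag N with K.cls x = (e, false), xiz D zd x := by
      rw [Finset.sum_filter, Finset.sum_filter,
        ← sum_bij Flag.rev rev_inj (fun x => if K.cls x = (e, true) then xiz D zd x else 0)]
      refine Finset.sum_congr rfl fun x _ => ?_
      rw [K.cls_rev, xiz_rev]
      have : (((K.cls x).1, !(K.cls x).2) = (e, true)) ↔ (K.cls x = (e, false)) := by
        rcases K.cls x with ⟨e', b'⟩
        cases b' <;> simp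
      simp only [this]
    rw [h1, sum_xiz, h]

end NV

variable {N : ℕ} {T : Triang N} {z : Fin N → ℂ}

open NV in
/-- **The 1-loop invariant does not vanish.** -/
theorem hatM_det_ne (K : Cells T) (D : Develop T z) (hT : T.OneCusp) (hz : ∀ j, 0 < (z j).im)
    (θ : Curve T) (r : Fin N)
    (hθ : (K.surf hT).inter (fun q => D.u (K.eps q)) (θ.ch K) ≠ 0) : (hatM K z θ r).det ≠ 0 := by
  intro hdet
  obtain ⟨zd, hzd0, hzd⟩ := Matrix.exists_mulVec_eq_zero_iff.2 hdet
  have hN : 0 < N := Fin.pos r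
  have hrow : ∀ e, e ≠ r → ∑ j, Rm K z e j * zd j = 0 := by
    intro e he
    have := congrFun hzd e
    simp only [Matrix.mulVec, dotProduct, hatM, Matrix.of_apply, if_neg he, Pi.zero_apply] at this
    exact this
  have hC : ∑ j, Cm z θ j * zd j = 0 := by
    have := congrFun hzd r
    simp only [Matrix.mulVec, dotProduct, hatM, Matrix.of_apply, if_true, Pi.zero_apply] at this
    exact this
  have hall : ∀ e, ∑ j, Rm K z e j * zd j = 0 := by
    intro e
    by_cases he : e = r
    · subst he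
      have h1 : ∑ e', ∑ j, Rm K z e' j * zd j = 0 := by
        rw [Finset.sum_comm]
        apply Finset.sum_eq_zero
        intro j _
        rw [← Finset.sum_mul, sum_Rm K D hT, zero_mul]
      rw [← Finset.add_sum_erase univ _ (Finset.mem_univ e)] at h1
      rw [Finset.sum_eq_zero fun e' he' => hrow e' (Finset.ne_of_mem_erase he'), add_zero] at h1
      exact h1
    · exact hrow e he
  obtain ⟨V, hV⟩ := exists_varz K D zd hall
  set P : EE N → ℂ := fun q => V.p (K.eps q) with hP
  set S := K.surf hT with hS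
  have hPθ : S.inter P (θ.ch K) = 0 := by
    have := Cm_var K D hT zd V hV θ
    rw [hC] at this
    exact neg_eq_zero.1 this.symm
  have hPc : K.del1 P = 0 := by
    funext p
    obtain ⟨x, rfl⟩ := Flag.tri_surj p
    have h1 := Surf.del1_t S P x
    have e : ∀ d, S.ext P d = V.p d := CU.pair_dch K V.p V.p_iota
    rw [e] at h1
    have h2 : S.ext P (S.rho x) = V.p x.rho := e x.rho
    have h3 : S.ext P (S.rho (S.rho x)) = V.p x.rho.rho := e x.rho.rho
    rw [h2, h3] at h1
    have h4 := V.p_cocycle x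
    have h5 : K.del1 P x.tri = S.del1 P (S.t x) := rfl
    rw [h5, h1, h4]
    simp
  have hPU : S.inter P (H1.U K D) = 0 := by
    have h1 := nz V (baseVar D)
    have h2 : ∑ x, V.xi x * ((baseVar D).xi x.rho - (baseVar D).xi x.rho.rho) = 0 := by
      simp only [mul_sub, Finset.sum_sub_distrib]
      have h3 := NV.sum_bij Flag.rho NV.rho_inj (fun x : Flag N => V.xi x * (baseVar D).xi x.rho.rho)
      rw [← h3, sub_eq_zero]
      refine Finset.sum_congr rfl fun x _ => ?_
      rw [Flag.rho3, hV]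
      show D.c x 0 1 * D.c x 2 3 * (zd x.1 / D.m x.1) *
        (D.c x.rho 0 1 * D.c x.rho 2 3 * D.augk x.rho.1) =
        D.c x.rho 0 1 * D.c x.rho 2 3 * (zd x.rho.1 / D.m x.rho.1) *
        (D.c x 0 1 * D.c x 2 3 * D.augk x.1)
      have h5 : x.rho.1 = x.1 := rfl
      rw [h5]
      ring
    rw [h2] at h1
    have h3 := inter_anti K hT V.p D.u V.p_iota D.u_iota
    have h4 : ∑ x, V.p x * (D.u x.rho - D.u x.rho.rho) = 0 := by
      have h5 : ∀ x, V.p x * ((baseVar D).p x.rho - (baseVar D).p x.rho.rho) =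
          2 * (V.p x * (D.u x.rho - D.u x.rho.rho)) := by
        intro x
        rw [baseVar_p, baseVar_p]
        ring
      rw [Finset.sum_congr rfl fun x _ => h5 x, ← Finset.mul_sum] at h1
      exact (mul_eq_zero.1 h1).resolve_left two_ne_zero
    rw [h4, mul_zero] at h3
    exact h3
  obtain ⟨s, α, β, hdec⟩ := H1_decomp K D hT hz hN P hPc
  have hUU : S.inter (H1.Ub K D) (H1.U K D) ≠ 0 := inter_conj_ne K D hT hz hN
  have hU0 : S.del1 (H1.U K D) = 0 := H1.del1_U K D hT
  have hβ : β = 0 := by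
    have h1 : P = S.del2 s + α • (H1.U K D) + β • (H1.Ub K D) := hdec
    rw [h1, Surf.inter_add_left, Surf.inter_add_left, Surf.inter_smul_left, Surf.inter_smul_left,
      Surf.inter_self, Surf.inter_del2_left S _ hU0, mul_zero, zero_add, zero_add] at hPU
    exact (mul_eq_zero.1 hPU).resolve_right hUU
  have hα : α = 0 := by
    have h1 : P = S.del2 s + α • (H1.U K D) + β • (H1.Ub K D) := hdec
    have h2 : S.del1 (θ.ch K) = 0 := del1_ch K θ
    rw [h1, hβ, zero_smul, add_zero, Surf.inter_add_left, Surf.inter_smul_left,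
      Surf.inter_del2_left S _ h2, zero_add] at hPθ
    exact (mul_eq_zero.1 hPθ).resolve_right hθ
  have hPs : P = S.del2 s := by
    have h1 : P = S.del2 s + α • (H1.U K D) + β • (H1.Ub K D) := hdec
    rw [h1, hα, hβ, zero_smul, zero_smul, add_zero, add_zero]
  -- positivity
  have hfin : ∑ x, V.p x * ((conjVar V).p x.rho - (conjVar V).p x.rho.rho) = 0 := by
    have h1 := inter_anti K hT V.p (conjVar V).p V.p_iota (conjVar V).p_iota
    have h2 : (fun q => V.p (K.eps q)) = S.del2 s := hPs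
    have h3 : S.del1 (fun q => (conjVar V).p (K.eps q)) = 0 := by
      funext p
      obtain ⟨x, rfl⟩ := Flag.tri_surj p
      have h1 := Surf.del1_t S (fun q => (conjVar V).p (K.eps q)) x
      have e : ∀ d, S.ext (fun q => (conjVar V).p (K.eps q)) d = (conjVar V).p d :=
        CU.pair_dch K (conjVar V).p (conjVar V).p_iota
      rw [e] at h1
      have h2 : S.ext (fun q => (conjVar V).p (K.eps q)) (S.rho x) = (conjVar V).p x.rho := e x.rho
      have h3 : S.ext (fun q => (conjVar V).p (K.eps q)) (S.rho (S.rho x)) =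
        (conjVar V).p x.rho.rho := e x.rho.rho
      rw [h2, h3] at h1
      have h4 := (conjVar V).p_cocycle x
      have h5 : S.del1 (fun q => (conjVar V).p (K.eps q)) x.tri =
        S.del1 (fun q => (conjVar V).p (K.eps q)) (S.t x) := rfl
      rw [h5, h1, h4]
      simp
    rw [h2] at h1
    have h4 := Surf.inter_del2_left S _ h3 s
    rw [h1] at h4
    exact (mul_eq_zero.1 h4).resolve_left (by norm_num)
  rw [nz V (conjVar V)] at hfin
  have hfin2 : ∑ x, (V.xi x * (starRingEnd ℂ) (V.xi x.rho) -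
      V.xi x.rho * (starRingEnd ℂ) (V.xi x)) = 0 := by
    rw [Finset.sum_sub_distrib]
    simp only [mul_sub, Finset.sum_sub_distrib] at hfin
    have h3 := NV.sum_bij Flag.rho NV.rho_inj (fun x : Flag N => V.xi x * (conjVar V).xi x.rho.rho)
    rw [← h3] at hfin
    rw [← hfin]
    congr 1
    refine Finset.sum_congr rfl fun x _ => ?_
    rw [Flag.rho3]
    rfl
  have him : ∀ x : Flag N, 0 ≤ -(V.xi x * (starRingEnd ℂ) (V.xi x.rho)).im ∧
      (zd x.1 ≠ 0 → 0 < -(V.xi x * (starRingEnd ℂ) (V.xi x.rho)).im) := by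
    intro x
    have hx : V.xi x.rho.rho * (starRingEnd ℂ) (V.xi x) = V.xi x.rho.rho * (starRingEnd ℂ) (V.xi x) :=
      rfl
    have ht := V.tri x
    have h1 : V.xi x * (starRingEnd ℂ) (V.xi x.rho) =
        ((Complex.normSq (zd x.1) : ℝ) : ℂ) * (zet (z x.1) (kind (x.vx 0) (x.vx 1)) *
          (starRingEnd ℂ) (zet (z x.1) (kind (x.vx 0) (x.vx 2)))) := by
      rw [hV, xiz_eq, xiz_eq, map_mul, Complex.normSq_eq_conj_mul_self]
      have e1 : x.rho.1 = x.1 := rfl
      have e2 : x.rho.vx 0 = x.vx 0 := rfl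
      have e3 : x.rho.vx 1 = x.vx 2 := rfl
      rw [e1, e2, e3]
      ring
    have h2 : 0 < -(zet (z x.1) (kind (x.vx 0) (x.vx 1)) *
          (starRingEnd ℂ) (zet (z x.1) (kind (x.vx 0) (x.vx 2)))).im := by
      have h3 := H1.ratio_im (z x.1) (hz x.1) x.rho.rho
      have e2 : x.rho.rho.vx 0 = x.vx 0 := rfl
      have e3 : x.rho.rho.vx 2 = x.vx 1 := rfl
      have e4 : x.rho.rho.vx 3 = x.vx 2 := rfl
      rw [e2, e3, e4] at h3
      have hne := D.zet_ne x.1 (kind (x.vx 0) (x.vx 1))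
      set a := zet (z x.1) (kind (x.vx 0) (x.vx 1))
      set b := zet (z x.1) (kind (x.vx 0) (x.vx 2))
      have h4 : a * (starRingEnd ℂ) b = ((Complex.normSq a : ℝ) : ℂ) * (starRingEnd ℂ) (b / a) := by
        rw [map_div₀, Complex.normSq_eq_conj_mul_self]
        have : (starRingEnd ℂ) a ≠ 0 := (map_ne_zero _).2 hne
        field_simp
      rw [h4, Complex.im_ofReal_mul, Complex.conj_im]
      have := mul_pos (Complex.normSq_pos.2 hne) h3
      linarith
    rw [h1, Complex.im_ofReal_mul]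
    constructor
    · have := mul_nonneg (Complex.normSq_nonneg (zd x.1)) h2.le
      linarith
    · intro hne
      have := mul_pos (Complex.normSq_pos.2 hne) h2
      linarith
  have hsum : ∑ x : Flag N, -(V.xi x * (starRingEnd ℂ) (V.xi x.rho)).im = 0 := by
    have h1 := congrArg Complex.im hfin2
    rw [Complex.im_sum, Complex.zero_im] at h1
    have h2 : ∀ x : Flag N, (V.xi x * (starRingEnd ℂ) (V.xi x.rho) -
      V.xi x.rho * (starRingEnd ℂ) (V.xi x)).im = -2 * -(V.xi x * (starRingEnd ℂ) (V.xi x.rho)).im := by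
      intro x
      simp only [Complex.sub_im, Complex.mul_im, Complex.conj_re, Complex.conj_im]
      ring
    rw [Finset.sum_congr rfl fun x _ => h2 x, ← Finset.mul_sum] at h1
    exact (mul_eq_zero.1 h1).resolve_left (by norm_num)
  have hz0 := (Finset.sum_eq_zero_iff_of_nonneg (fun x _ => (him x).1)).1 hsum
  apply hzd0
  funext j
  by_contra hne
  have h1 := (him (baseFlag (j, 0))).2 hne
  rw [hz0 _ (Finset.mem_univ _)] at h1
  exact lt_irrefl _ h1

end Pool.Agent.Helper34.OneLoop
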