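import Pool.Agent.Helper34.OneLoop.H1
/-! # Positivity: some `augk j` does not vanish -/

namespace Pool.Agent.Helper34.OneLoop
open Equiv Matrix Finset
variable {N : ℕ} {T : Triang N} {z : Fin N → ℂ} (K : Cells T) (D : Develop T z)

lemma rr_cls (h : ∀ j, D.augk j = 0) (x y : Flag N) (hxy : K.cls x = K.cls y) :
    CU.rr D x = CU.rr D y := by
  have h1 : ∀ x, CU.rr D (T.turn x) = CU.rr D x := by
    intro x
    have h2 := D.cc_augk (T.turn x)
    rw [h, mul_zero, T.iota_rho_turn] at h2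
    exact (sub_eq_zero.1 h2.symm)
  obtain ⟨k, rfl⟩ := (K.cls_iff x y).1 hxy
  clear hxy
  induction k with
  | zero => rfl
  | succ k ih => rw [Function.iterate_succ_apply', h1, ih]

include K in
lemma exists_augk_ne' (hT : T.OneCusp) (hz : ∀ j, 0 < (z j).im) (hN : 0 < N) :
    ∃ j, D.augk j ≠ 0 := by
  by_contra hcon
  push Not at hcon
  obtain ⟨g, hg⟩ := K.cls_surj.hasRightInverse
  have h1 : (fun q => D.u (K.eps q)) =
      (1 / 2 : ℂ) • (K.surf hT).del2 (fun o => CU.rr D (g o)) := by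
    funext q
    show D.u (K.eps q) = (1 / 2 : ℂ) * (CU.rr D (g (K.cls (K.eps q))) -
      CU.rr D (g (K.cls (T.iota (K.eps q)))))
    rw [rr_cls K D hcon _ _ (hg _), rr_cls K D hcon _ _ (hg _), CU.rr_iota]
    ring
  have h2 := inter_conj_ne K D hT hz hN
  rw [h1, Surf.inter_smul_right] at h2
  have h3 : (K.surf hT).inter (fun q => (starRingEnd ℂ) (D.u (K.eps q)))
      ((K.surf hT).del2 (fun o => CU.rr D (g o))) = 0 :=
    Surf.inter_del2 _ _ (H1.del1_Ub K D hT) _
  rw [h3, mul_zero] at h2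
  exact h2 rfl
end Pool.Agent.Helper34.OneLoop
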