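import Pool.Agent.Helper34.OneLoop.FL
import Pool.Agent.Helper34.OneLoop.LO

/-! Module VO (volumes). -/

namespace Pool.Agent.Helper34.OneLoop

open Equiv Matrix Finset

/-- The square of the determinant of a block diagonal family. -/
lemma rdet_block {A B κ : Type} [Fintype A] [DecidableEq A] [Fintype B] [DecidableEq B]
    (e : A × B ≃ κ) (τ : A × B ≃ κ) (w : κ → A × B → ℂ) (W : A → Matrix B B ℂ)
    (hw : ∀ a b a' b', w (τ (a, b)) (a', b') = if a = a' then W a b b' else 0) :
    rdet e w ^ 2 = ∏ a, (W a).det ^ 2 := by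
  let σ : Equiv.Perm (A × B) := e.trans τ.symm
  have h1 : (Matrix.of fun i i' => w (e i) i') =
      ((Matrix.blockDiagonal W).submatrix (Equiv.prodComm A B) (Equiv.prodComm A B)).submatrix
        σ id := by
    ext i i'
    have h2 := hw (σ i).1 (σ i).2 i'.1 i'.2
    have h3 : τ ((σ i).1, (σ i).2) = e i := by
      simp [σ]
    rw [h3] at h2
    simp only [Matrix.of_apply, Matrix.submatrix_apply, Matrix.blockDiagonal_apply, id,
      Equiv.prodComm_apply, Prod.snd_swap, Prod.fst_swap]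
    exact h2
  unfold rdet
  rw [h1, Matrix.det_permute, mul_pow, Matrix.det_submatrix_equiv_self, Matrix.det_blockDiagonal,
    Finset.prod_pow]
  rcases Int.units_eq_one_or (Perm.sign σ) with h | h <;> simp [h]

lemma det_nil3 (u v w : Fin 2 → ℂ) :
    (Matrix.of ![nil u, nil v, nil w]).det = om u v * om u w * om v w := by
  rw [Matrix.det_fin_three]
  simp [nil, om]
  ring

lemma det_sym3 (v w : Fin 2 → ℂ) (c : ℂ) :
    (Matrix.of ![nil v, -nil w, c • sym v w]).det = c * (om v w) ^ 3 / 2 := by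
  rw [Matrix.det_fin_three]
  simp [nil, om, sym]
  ring

section

variable {N : ℕ} {T : Triang N} {z : Fin N → ℂ} (K : Cells T) (D : Develop T z)

/-- The index equivalence for the 2-chains. -/
def tau2 (N : ℕ) : Fin N × Fin 3 ≃ (Fin N × Bool) ⊕ Fin N where
  toFun p := (![Sum.inl (p.1, false), Sum.inl (p.1, true), Sum.inr p.1] : Fin 3 → _) p.2
  invFun s := Sum.elim (fun q => (q.1, if q.2 then 1 else 0)) (fun j => (j, 2)) s
  left_inv := by
    rintro ⟨j, s⟩
    fin_cases s <;> rfl
  right_inv := by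
    rintro (⟨j, b⟩ | j)
    · cases b <;> rfl
    · rfl

lemma vol2 (e₂ : Fin N × Fin 3 ≃ (Fin N × Bool) ⊕ Fin N) :
    rdet e₂ (Sum.elim (fun o => Function.uncurry (Phi2 K D (Pi.single o 1)))
      (fun e => Function.uncurry (Hm K D e))) ^ 2 = ∏ e, (D.Csq (K.rep e) / 2) ^ 2 := by
  rw [rdet_block e₂ (tau2 N) _ (fun e => Matrix.of ![nil (D.vv (K.rep e) 0),
    -nil (D.vv (K.rep e) 1), (D.c (K.rep e) 0 1)⁻¹ • sym (D.vv (K.rep e) 0) (D.vv (K.rep e) 1)])]
  · apply Finset.prod_congr rfl
    intro e _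
    rw [det_sym3]
    have hc := D.c_ne (K.rep e) 0 1 (by decide)
    have : om (D.vv (K.rep e) 0) (D.vv (K.rep e) 1) = D.c (K.rep e) 0 1 := rfl
    rw [this]
    unfold Develop.Csq
    field_simp
  · intro a b a' b'
    fin_cases b
    · by_cases h : a = a'
      · subst h
        simp [tau2, Phi2, Function.uncurry]
      · simp [tau2, Phi2, Function.uncurry, h, Ne.symm h]
    · by_cases h : a = a'
      · subst h
        simp [tau2, Phi2, Function.uncurry]
      · simp [tau2, Phi2, Function.uncurry, h, Ne.symm h]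
    · by_cases h : a = a'
      · subst h
        simp [tau2, Hm, Develop.H, Function.uncurry]
      · simp [tau2, Hm, Develop.H, Function.uncurry, h, Ne.symm h]

lemma vol1 : rdet (Equiv.refl (EE N)) (fun q => Function.uncurry (Phi1 K D (Pi.single q 1))) ^ 2 =
    ∏ j, ∏ x : Flag N with x.1 = j ∧ (K.cls x).2 = false, D.Csq x := by
  rw [rdet_block (Equiv.refl (EE N)) (Equiv.refl (EE N)) _ (fun f => Matrix.of
    ![nil (D.vv (K.eps (f, 0)) 0), nil (D.vv (K.eps (f, 1)) 0), nil (D.vv (K.eps (f, 2)) 0)])]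
  · have h1 : ∀ f : Fin (2 * N), (Matrix.of
        ![nil (D.vv (K.eps (f, 0)) 0), nil (D.vv (K.eps (f, 1)) 0),
          nil (D.vv (K.eps (f, 2)) 0)]).det ^ 2 = ∏ s : Fin 3, D.Csq (K.eps (f, s)) := by
      intro f
      rw [det_nil3, Fin.prod_univ_three]
      have e1 : D.vv (K.eps (f, 1)) 0 = D.vv (K.eps (f, 0)) 1 := by
        simp [Cells.eps, faceFlag, Develop.vv, Flag.kap, Flag.rmul, Flag.vx, baseFlag]
        congr 2
      have e2 : D.vv (K.eps (f, 2)) 0 = D.vv (K.eps (f, 1)) 1 := by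
        simp [Cells.eps, faceFlag, Develop.vv, Flag.kap, Flag.rmul, Flag.vx, baseFlag]
        congr 2
      have e3 : D.vv (K.eps (f, 0)) 0 = D.vv (K.eps (f, 2)) 1 := by
        simp [Cells.eps, faceFlag, Develop.vv, Flag.kap, Flag.rmul, Flag.vx, baseFlag]
        congr 2
      unfold Develop.Csq Develop.c
      rw [← e1, ← e2, ← e3]
      have : om (D.vv (K.eps (f, 2)) 0) (D.vv (K.eps (f, 0)) 0) =
        - om (D.vv (K.eps (f, 0)) 0) (D.vv (K.eps (f, 2)) 0) := by unfold om; ring
      rw [this]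
      ring
    rw [Finset.prod_congr rfl fun f _ => h1 f]
    have h2 : (∏ f : Fin (2 * N), ∏ s : Fin 3, D.Csq (K.eps (f, s))) = ∏ q : EE N,
        D.Csq (K.eps q) := by
      rw [Fintype.prod_prod_type]
    rw [h2, K.prod_eps_eq D.Csq (fun x => by rw [D.Csq_rev, D.Csq_turn])]
    have h3 : ∀ j : Fin N, (univ.filter fun x : Flag N => x.1 = j ∧ (K.cls x).2 = false) =
        (univ.filter fun x : Flag N => (K.cls x).2 = false).filter (fun x => x.1 = j) := by
      intro j
      ext x
      simp [and_comm]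
    simp_rw [h3]
    rw [Finset.prod_fiberwise]
  · intro a b a' b'
    by_cases h : a = a'
    · subst h
      fin_cases b <;> simp [Phi1, Function.uncurry, Fin.sum_univ_three, Pi.single_apply]
    · fin_cases b <;> simp [Phi1, Function.uncurry, h, Ne.symm h]

/-- The index equivalence for the 0-chains. -/
def tau0 (N : ℕ) : Fin N × Fin 4 ≃ Fin N ⊕ (Fin N × Fin 3) where
  toFun p := (![Sum.inr (p.1, 0), Sum.inr (p.1, 1), Sum.inr (p.1, 2), Sum.inl p.1] : Fin 4 → _) p.2
  invFun s := Sum.elim (fun j => (j, 3)) (fun q => (q.1, q.2.castSucc)) s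
  left_inv := by
    rintro ⟨j, s⟩
    fin_cases s <;> rfl
  right_inv := by
    rintro (j | ⟨j, s⟩)
    · rfl
    · fin_cases s <;> rfl

lemma vol0a (e : Fin N × Fin 4 ≃ Fin N ⊕ (Fin N × Fin 3)) :
    rdet e (Sum.elim (Kv D) (fun p => Pi.single (p.1, p.2.castSucc) 1)) ^ 2 =
      ∏ j, D.kk j 3 ^ 2 := by
  rw [rdet_block e (tau0 N) _ (fun j => Matrix.of
    ![Pi.single 0 1, Pi.single 1 1, Pi.single 2 1, D.kk j])]
  · apply Finset.prod_congr rfl
    intro j _
    congr 1
    rw [Matrix.det_of_isLowerTriangular]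
    · rw [Fin.prod_univ_four]
      simp
    · intro a b h
      fin_cases a <;> fin_cases b <;>
        first
          | exact absurd h (by decide)
          | simp
  · intro a b a' b'
    by_cases h : a = a'
    · subst h
      fin_cases b <;> simp [tau0, Kv, Pi.single_apply, Prod.ext_iff]
    · fin_cases b <;> simp [tau0, Kv, Prod.ext_iff, h, Ne.symm h]

lemma vol0b : rdet (Equiv.refl (Fin N × Fin 3))
      (fun p => Function.uncurry (Phi0 D (Pi.single (p.1, p.2.castSucc) 1))) ^ 2 =
    ∏ j, (om (D.v j 0) (D.v j 1) * om (D.v j 1) (D.v j 2) * om (D.v j 0) (D.v j 2)) ^ 2 := by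
  rw [rdet_block (Equiv.refl (Fin N × Fin 3)) (Equiv.refl (Fin N × Fin 3)) _ (fun j => Matrix.of
    ![nil (D.v j 0), nil (D.v j 1), nil (D.v j 2)])]
  · apply Finset.prod_congr rfl
    intro j _
    rw [det_nil3]
    ring
  · intro a b a' b'
    by_cases h : a = a'
    · subst h
      fin_cases b <;> simp [Phi0, Function.uncurry, Fin.sum_univ_four, Pi.single_apply, Prod.ext_iff]
    · fin_cases b <;> simp [Phi0, Function.uncurry, Prod.ext_iff, h, Ne.symm h]

/-- The reversal of a flag inside a fixed tetrahedron. -/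
def revA : alternatingGroup (Fin 4) :=
  ⟨swap 0 1 * swap 2 3, Perm.mem_alternatingGroup.2 (by decide)⟩

/-- The flags of a tetrahedron whose first two vertices are in increasing order. -/
def incr : Finset (alternatingGroup (Fin 4)) :=
  Finset.univ.filter fun g => (g : Perm (Fin 4)) 0 < (g : Perm (Fin 4)) 1

/-- Pairs of distinct vertices, in increasing order. -/
def prs : Finset (Fin 4 × Fin 4) := {(0, 1), (0, 2), (0, 3), (1, 2), (1, 3), (2, 3)}

lemma prod_small (F : Fin 4 × Fin 4 → ℂ) :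
    ∏ g ∈ incr, F ((g : Perm (Fin 4)) 0, (g : Perm (Fin 4)) 1) = ∏ q ∈ prs, F q := by
  refine Finset.prod_bij (fun g _ => ((g : Perm (Fin 4)) 0, (g : Perm (Fin 4)) 1)) ?_ ?_ ?_ ?_
  · decide
  · decide
  · decide
  · intro a _; rfl

lemma prod_pairs (G : alternatingGroup (Fin 4) → ℂ) :
    ∏ g, G g = ∏ g ∈ incr, (G g * G (g * revA)) := by
  unfold incr
  rw [Finset.prod_mul_distrib,
    ← Finset.prod_filter_mul_prod_filter_not univ
      (fun g : alternatingGroup (Fin 4) => (g : Perm (Fin 4)) 0 < (g : Perm (Fin 4)) 1) G]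
  congr 1
  symm
  refine Finset.prod_bij (fun g _ => g * revA) ?_ ?_ ?_ ?_
  · decide
  · intro a _ b _ h
    exact mul_right_cancel h
  · decide
  · intro a _; rfl

lemma vol_rel (j : Fin N) :
    D.kk j 3 ^ 2 * ∏ x : Flag N with x.1 = j ∧ (K.cls x).2 = false, D.Csq x =
      (om (D.v j 0) (D.v j 1) * om (D.v j 1) (D.v j 2) * om (D.v j 0) (D.v j 2)) ^ 2 := by
  have h1 : (∏ x : Flag N with x.1 = j ∧ (K.cls x).2 = false, D.Csq x) =
      ∏ g : alternatingGroup (Fin 4), (if (K.cls (j, g)).2 = false then D.Csq (j, g) else 1) := by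
    rw [Finset.prod_filter, Fintype.prod_prod_type, Finset.prod_eq_single j]
    · apply Finset.prod_congr rfl
      intro g _
      simp
    · intro j' _ hj'
      apply Finset.prod_eq_one
      intro g _
      simp [hj']
    · intro h; exact absurd (Finset.mem_univ j) h
  rw [h1, prod_pairs]
  have h2 : ∀ g : alternatingGroup (Fin 4),
      ((if (K.cls (j, g)).2 = false then D.Csq (j, g) else 1) *
        (if (K.cls (j, g * revA)).2 = false then D.Csq (j, g * revA) else 1)) =
      (om (D.v j ((g : Perm (Fin 4)) 0)) (D.v j ((g : Perm (Fin 4)) 1))) ^ 2 := by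
    intro g
    have e1 : ((j, g * revA) : Flag N) = Flag.rev (j, g) := rfl
    rw [e1, K.cls_rev, D.Csq_rev]
    have e2 : D.Csq (j, g) = (om (D.v j ((g : Perm (Fin 4)) 0)) (D.v j ((g : Perm (Fin 4)) 1))) ^ 2 :=
      rfl
    rw [e2]
    cases (K.cls (j, g)).2 <;> simp
  rw [Finset.prod_congr rfl fun g _ => h2 g,
    prod_small (fun q => (om (D.v j q.1) (D.v j q.2)) ^ 2)]
  have h3 : (∏ q ∈ prs, (om (D.v j q.1) (D.v j q.2)) ^ 2) =
      (om (D.v j 0) (D.v j 1)) ^ 2 * (om (D.v j 0) (D.v j 2)) ^ 2 * (om (D.v j 0) (D.v j 3)) ^ 2 *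
      (om (D.v j 1) (D.v j 2)) ^ 2 * (om (D.v j 1) (D.v j 3)) ^ 2 * (om (D.v j 2) (D.v j 3)) ^ 2 := by
    unfold prs
    rw [Finset.prod_insert (by decide), Finset.prod_insert (by decide),
      Finset.prod_insert (by decide), Finset.prod_insert (by decide),
      Finset.prod_insert (by decide), Finset.prod_singleton]
    ring
  rw [h3]
  have h4 : D.kk j 3 = (om (D.v j 3) (D.v j 0) * om (D.v j 3) (D.v j 1) *
      om (D.v j 3) (D.v j 2))⁻¹ := by
    unfold Develop.kk
    congr 1
    have : (univ.erase (3 : Fin 4)) = {0, 1, 2} := by decide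
    rw [this, Finset.prod_insert (by decide), Finset.prod_insert (by decide),
      Finset.prod_singleton]
    ring
  rw [h4]
  have a0 := D.indep j 3 0 (by decide)
  have a1 := D.indep j 3 1 (by decide)
  have a2 := D.indep j 3 2 (by decide)
  have b0 : om (D.v j 0) (D.v j 3) = - om (D.v j 3) (D.v j 0) := by unfold om; ring
  have b1 : om (D.v j 1) (D.v j 3) = - om (D.v j 3) (D.v j 1) := by unfold om; ring
  have b2 : om (D.v j 2) (D.v j 3) = - om (D.v j 3) (D.v j 2) := by unfold om; ring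
  rw [b0, b1, b2]
  field_simp

end

end Pool.Agent.Helper34.OneLoop
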