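import Pool.Agent.Helper34.OneLoop.LA
import Pool.Agent.Helper34.OneLoop.TL
import Pool.Agent.Helper34.OneLoop.CH
import Pool.Agent.Helper34.OneLoop.JA
import Pool.Agent.Helper34.OneLoop.CU
import Pool.Agent.Helper34.OneLoop.VO
import Pool.Agent.Helper34.OneLoop.FLAT
import Pool.Agent.Helper34.OneLoop.POS2
import Pool.Agent.Helper34.OneLoop.NV2

/-! Final assembly. -/

namespace Pool.Agent.Helper34.OneLoop

open Equiv Matrix Finset

section LA2

variable {ι κ κ' : Type} [Fintype ι] [DecidableEq ι]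

theorem rdet_sq_of_inj (e : ι ≃ κ) (e' : ι ≃ κ') (τ : κ' → κ) (hτ : Function.Injective τ)
    (w : κ → ι → ℂ) : rdet e' (fun i => w (τ i)) ^ 2 = rdet e w ^ 2 := by
  classical
  have : Finite κ := Finite.of_equiv ι e
  have : Finite κ' := Finite.of_equiv ι e'
  have : Fintype κ := Fintype.ofFinite κ
  have : Fintype κ' := Fintype.ofFinite κ'
  have hb : Function.Bijective τ := by
    rw [Fintype.bijective_iff_injective_and_card]
    exact ⟨hτ, by rw [← Fintype.card_congr e, ← Fintype.card_congr e']⟩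
  exact rdet_sq_reindex e e' (Equiv.ofBijective τ hb) w

theorem surj_of_rdet (L : (ι → ℂ) →ₗ[ℂ] (ι → ℂ))
    (h : rdet (Equiv.refl ι) (fun i => L (Pi.single i 1)) ≠ 0) : Function.Surjective L := by
  intro y
  set W : Matrix ι ι ℂ := Matrix.of fun i i' => L (Pi.single i 1) i' with hW
  have hu : IsUnit W.det := by
    rw [isUnit_iff_ne_zero]; exact h
  refine ⟨y ᵥ* W⁻¹, ?_⟩
  have h1 : (y ᵥ* W⁻¹) ᵥ* W = y := by
    rw [Matrix.vecMul_vecMul, Matrix.nonsing_inv_mul _ hu, Matrix.vecMul_one]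
  conv_rhs => rw [← h1]
  set c := y ᵥ* W⁻¹
  have h2 : c = ∑ j, c j • (Pi.single j (1 : ℂ) : ι → ℂ) := by
    ext l
    simp [Finset.sum_apply, Pi.single_apply]
  conv_lhs => rw [h2]
  rw [map_sum]
  ext l
  simp [Matrix.vecMul, dotProduct, hW]

end LA2

section

variable {N : ℕ} {T : Triang N} {z : Fin N → ℂ} (K : Cells T) (D : Develop T z)

/-- `bd2` as a linear map. -/
noncomputable def L2 : (Fin N × Fin 3 → ℂ) →ₗ[ℂ] (Fin (2 * N) × Fin 3 → ℂ) where
  toFun x := Function.uncurry (bd2 K D (Function.curry x))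
  map_add' x y := by
    have : Function.curry (x + y) = Function.curry x + Function.curry y := rfl
    rw [this, bd2_add]
    rfl
  map_smul' a x := by
    have : Function.curry (a • x) = a • Function.curry x := rfl
    rw [this, bd2_smul]
    rfl

/-- `bd1` as a linear map. -/
noncomputable def L1 : (Fin (2 * N) × Fin 3 → ℂ) →ₗ[ℂ] (Fin N × Fin 3 → ℂ) where
  toFun x := Function.uncurry (bd1 K D (Function.curry x))
  map_add' x y := by
    have : Function.curry (x + y) = Function.curry x + Function.curry y := rfl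
    rw [this, bd1_add]
    rfl
  map_smul' a x := by
    have : Function.curry (a • x) = a • Function.curry x := rfl
    rw [this, bd1_smul]
    rfl

/-- `Phi1` as a linear map. -/
noncomputable def P1 : (EE N → ℂ) →ₗ[ℂ] (EE N → ℂ) where
  toFun y := Function.uncurry (Phi1 K D y)
  map_add' x y := by
    ext ⟨f, i⟩
    simp [Function.uncurry, Phi1, add_smul, Finset.sum_add_distrib, add_mul]
  map_smul' a x := by
    ext ⟨f, i⟩
    simp [Function.uncurry, Phi1, Finset.mul_sum, mul_assoc]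

/-- `Phi2` as a linear map. -/
noncomputable def P2 : (Fin N × Bool → ℂ) →ₗ[ℂ] (Fin N × Fin 3 → ℂ) where
  toFun y := Function.uncurry (Phi2 K D y)
  map_add' x y := by
    ext ⟨f, i⟩
    simp [Function.uncurry, Phi2]
    ring
  map_smul' a x := by
    ext ⟨f, i⟩
    simp [Function.uncurry, Phi2]
    ring

/-- `Phi0` as a linear map. -/
noncomputable def P0 : (Fin N × Fin 4 → ℂ) →ₗ[ℂ] (Fin N × Fin 3 → ℂ) where
  toFun y := Function.uncurry (Phi0 D y)
  map_add' x y := by
    ext ⟨f, i⟩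
    simp [Function.uncurry, Phi0, add_smul, Finset.sum_add_distrib, add_mul]
  map_smul' a x := by
    ext ⟨f, i⟩
    simp [Function.uncurry, Phi0, Finset.mul_sum, mul_assoc]

lemma del2_one : K.del2 (fun _ => 1) = 0 := by
  funext q
  simp [Cells.del2]

lemma Phi1_zero : Phi1 K D 0 = 0 := by
  funext f
  simp [Phi1]

lemma L2_h2 : L2 K D (Function.uncurry (h2 K D)) = 0 := by
  change Function.uncurry (bd2 K D (h2 K D)) = 0
  rw [h2_eq, bd2_Phi2, del2_one, Phi1_zero]
  rfl

/-- `del1` is linear. -/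
lemma del1_smul (a : ℂ) (y : EE N → ℂ) : K.del1 (a • y) = a • K.del1 y := by
  funext p
  simp [Cells.del1, Finset.mul_sum, mul_assoc]

lemma del1_sum {α : Type} (S : Finset α) (y : α → EE N → ℂ) :
    K.del1 (∑ i ∈ S, y i) = ∑ i ∈ S, K.del1 (y i) := by
  funext p
  simp only [Cells.del1, Finset.sum_apply, Finset.sum_mul]
  rw [Finset.sum_comm]

lemma sum_del1 (y : EE N → ℂ) : ∑ p, K.del1 y p = 0 := by
  simp only [Cells.del1]
  rw [Finset.sum_comm]
  apply Finset.sum_eq_zero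
  intro q _
  rw [← Finset.mul_sum, Finset.sum_sub_distrib]
  simp

lemma sum_Kv (j : Fin N) : ∑ p, Kv D j p = D.augk j := by
  simp only [Kv, Develop.augk, Fintype.sum_prod_type]
  rw [Finset.sum_eq_single j]
  · simp
  · intro i _ hi
    simp [hi]
  · simp

/-- The vector `m · augk` is in the kernel of the gluing Jacobian. -/
lemma Rm_sum (e : Fin N) : ∑ j, Rm K z e j * (D.m j * D.augk j) = 0 := by
  have h1 := sum_del1 K (Xe K D e)
  rw [del1_Xe] at h1
  have h2 : ∑ p, (∑ j, Jm K D e j • Kv D j) p = ∑ j, Jm K D e j * D.augk j := by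
    simp only [Finset.sum_apply, Pi.smul_apply, smul_eq_mul]
    rw [Finset.sum_comm]
    refine Finset.sum_congr rfl fun j _ => ?_
    rw [← Finset.mul_sum, sum_Kv]
  rw [h2] at h1
  have h3 : ∑ j, Jm K D e j * D.augk j = -(1 / 2) * ∑ j, Rm K z e j * (D.m j * D.augk j) := by
    rw [Finset.mul_sum]
    refine Finset.sum_congr rfl fun j _ => ?_
    rw [Jm_eq]
    ring
  rw [h3] at h1
  have h4 : (-(1 / 2) : ℂ) ≠ 0 := by norm_num
  exact (mul_eq_zero.1 h1).resolve_left h4

lemma hatM_eq (θ : Curve T) (r : Fin N) :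
    hatM K z θ r = (Matrix.of (Rm K z)).updateRow r (Cm z θ) := by
  ext e j
  by_cases h : e = r
  · subst h
    simp [hatM, Cm]
  · simp [hatM, Rm, h]

lemma Cm_dot (hT : T.OneCusp) (θ : Curve T) (r : Fin N) (j₀ : Fin N) :
    (((Matrix.of (Rm K z)).updateRow r (Pi.single j₀ (D.m j₀)⁻¹)).det) *
      (-2 * (K.surf hT).inter (fun q => D.u (K.eps q)) (θ.ch K)) =
    (hatM K z θ r).det * D.augk j₀ := by
  have h := det_row_exchange (Matrix.of (Rm K z)) r (Pi.single j₀ (D.m j₀)⁻¹) (Cm z θ)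
    (fun j => D.m j * D.augk j) (fun i _ => Rm_sum K D i)
  rw [← hatM_eq] at h
  have h1 : Cm z θ ⬝ᵥ (fun j => D.m j * D.augk j) =
      -2 * (K.surf hT).inter (fun q => D.u (K.eps q)) (θ.ch K) := Cm_sum K D hT θ
  have h2 : (Pi.single j₀ (D.m j₀)⁻¹ : Fin N → ℂ) ⬝ᵥ (fun j => D.m j * D.augk j) = D.augk j₀ := by
    rw [single_dotProduct, ← mul_assoc, inv_mul_cancel₀ (D.m_ne j₀), one_mul]
  rw [h1, h2] at h
  exact h


lemma Csq_ne (x : Flag N) : D.Csq x ≠ 0 := pow_ne_zero 2 (D.c_ne x 0 1 (by decide))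

lemma exists_lift (y : Fin (2 * N) → Fin 3 → ℂ) : ∃ w, Phi1 K D w = y := by
  have h := vol1 K D
  have h0 : rdet (Equiv.refl (EE N)) (fun q => P1 K D (Pi.single q 1)) ≠ 0 := by
    intro h0
    have h0' : rdet (Equiv.refl (EE N)) (fun q => Function.uncurry (Phi1 K D (Pi.single q 1))) = 0 := h0
    rw [h0', zero_pow two_ne_zero] at h
    exact (Finset.prod_ne_zero_iff.2 fun j _ => Finset.prod_ne_zero_iff.2 fun x _ => Csq_ne D x) h.symm
  obtain ⟨w, hw⟩ := surj_of_rdet (P1 K D) h0 (Function.uncurry y)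
  exact ⟨w, Function.uncurry_injective hw⟩

lemma stepA {κ₂ : Type} (o₀ : Fin N × Bool) (e₂ : Fin N × Fin 3 ≃ Unit ⊕ κ₂)
    (σ : κ₂ ≃ {o : Fin N × Bool // o ≠ o₀} ⊕ Fin N) :
    rdet e₂ (Sum.elim (fun _ => Function.uncurry (h2 K D)) (fun i => Function.uncurry
      ((Sum.elim (fun o => Phi2 K D (Pi.single o.1 1)) (Hm K D) :
        {o : Fin N × Bool // o ≠ o₀} ⊕ Fin N → Fin N → Fin 3 → ℂ) (σ i)))) ^ 2 =
    ∏ e, (D.Csq (K.rep e) / 2) ^ 2 := by
  classical
  have e₃ : Fin N × Fin 3 ≃ (Fin N × Bool) ⊕ Fin N :=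
    Fintype.equivOfCardEq (by simp; ring)
  rw [← vol2 K D e₃]
  set w : (Fin N × Bool) ⊕ Fin N → Fin N × Fin 3 → ℂ := Sum.elim
    (fun o => Function.uncurry (Phi2 K D (Pi.single o 1))) (fun e => Function.uncurry (Hm K D e)) with hw
  have h1 := rdet_update_sum e₃ w (Sum.inl o₀) (univ.map ⟨Sum.inl, Sum.inl_injective⟩) (by simp)
  rw [← h1]
  rw [← rdet_sq_of_inj e₃ e₂ (Sum.elim (fun _ => Sum.inl o₀) (fun i => Sum.map Subtype.val id (σ i)))
    ?_ (Function.update w (Sum.inl o₀) (∑ i ∈ univ.map ⟨Sum.inl, Sum.inl_injective⟩, w i))]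
  · congr 2
    funext i
    rcases i with i | i
    · simp only [Sum.elim_inl, Function.update_self, Finset.sum_map, Function.Embedding.coeFn_mk, hw]
      rw [h2_eq]
      have h3 : (fun _ => 1 : Fin N × Bool → ℂ) = ∑ o, Pi.single o 1 := by
        funext o
        simp [Finset.sum_apply, Pi.single_apply]
      rw [h3]
      exact map_sum (P2 K D) _ _
    · simp only [Sum.elim_inr]
      rcases h : σ i with o | e
      · have : (Sum.inl o.1 : (Fin N × Bool) ⊕ Fin N) ≠ Sum.inl o₀ := by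
          intro h'
          exact o.2 (Sum.inl_injective h')
        simp [Function.update_of_ne this, hw]
      · simp [hw]
  · intro i j hij
    rcases i with i | i <;> rcases j with j | j
    · rfl
    · exfalso
      rcases h : σ j with o | e
      · simp only [Sum.elim_inl, Sum.elim_inr, h, Sum.map_inl] at hij
        exact o.2 (Sum.inl_injective hij).symm
      · simp [h] at hij
    · exfalso
      rcases h : σ i with o | e
      · simp only [Sum.elim_inl, Sum.elim_inr, h, Sum.map_inl] at hij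
        exact o.2 (Sum.inl_injective hij)
      · simp [h] at hij
    · congr 1
      apply σ.injective
      simp only [Sum.elim_inr] at hij
      exact Sum.map_injective.2 ⟨Subtype.val_injective, Function.injective_id⟩ hij

lemma del1_Xtot (hu : K.del1 (fun q => D.u (K.eps q)) = 0) :
    K.del1 (∑ e, Xe K D e) = 0 := by
  have : (∑ e, Xe K D e) = (1 / 2 : ℂ) • fun q => D.u (K.eps q) := by
    funext q
    rw [Finset.sum_apply, sum_Xe]
    rfl
  rw [this, del1_smul, hu, smul_zero]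

/-- Relation between the relations `Kv` and the boundary of the 0-chains. -/
lemma stepK {κ₁ : Type} (w : κ₁ → EE N → ℂ) (e₀ : Fin N × Fin 3 ≃ κ₁) (r j₀ : Fin N)
    (e₂ : Fin N × Fin 4 ≃ ({e : Fin N // e ≠ r} ⊕ κ₁) ⊕ Unit) :
    rdet e₂ (Sum.elim (fun k => K.del1 (Sum.elim (fun e : {e : Fin N // e ≠ r} => Xe K D e.1) w k))
      (fun _ => Kv D j₀)) ^ 2 *
      (∏ j, ∏ x : Flag N with x.1 = j ∧ (K.cls x).2 = false, D.Csq x) =
    (((Matrix.of (Jm K D)).updateRow r (Pi.single j₀ 1)).det) ^ 2 *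
      rdet e₀ (fun i => Function.uncurry (bd1 K D (Phi1 K D (w i)))) ^ 2 := by
  classical
  have : Fintype κ₁ := Fintype.ofEquiv _ e₀
  have e₃ : Fin N × Fin 4 ≃ Fin N ⊕ κ₁ :=
    Fintype.equivOfCardEq (by simp [← Fintype.card_congr e₀]; ring)
  set B := (Matrix.of (Jm K D)).updateRow r (Pi.single j₀ 1) with hB
  have h1 : rdet e₂ (Sum.elim (fun k => K.del1
      (Sum.elim (fun e : {e : Fin N // e ≠ r} => Xe K D e.1) w k)) (fun _ => Kv D j₀)) ^ 2 =
      rdet e₃ (Sum.elim (fun i => ∑ j, B i j • Kv D j) (fun i => K.del1 (w i))) ^ 2 := by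
    rw [← rdet_sq_of_inj e₃ e₂ (Sum.elim (Sum.map Subtype.val id) (fun _ => Sum.inl r)) ?_
      (Sum.elim (fun i => ∑ j, B i j • Kv D j) (fun i => K.del1 (w i)))]
    · congr 2
      funext i
      rcases i with (i | i) | i
      · simp only [Sum.elim_inl, Sum.map_inl]
        rw [del1_Xe]
        refine Finset.sum_congr rfl fun j _ => ?_
        rw [hB, Matrix.updateRow_ne i.2]
        rfl
      · simp
      · simp only [Sum.elim_inr, Sum.elim_inl]
        rw [hB, Matrix.updateRow_self, Finset.sum_eq_single j₀]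
        · simp
        · intro j _ hj
          simp [Pi.single_eq_of_ne hj]
        · simp
    · intro i j hij
      rcases i with (i | i) | i <;> rcases j with (j | j) | j
      · simp only [Sum.elim_inl, Sum.map_inl, Sum.inl.injEq] at hij
        congr 2
        exact Subtype.ext hij
      · simp at hij
      · simp only [Sum.elim_inl, Sum.elim_inr, Sum.map_inl, Sum.inl.injEq] at hij
        exact absurd hij i.2
      · simp at hij
      · simp only [Sum.elim_inl, Sum.map_inr, Sum.inr.injEq, id] at hij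
        rw [hij]
      · simp at hij
      · simp only [Sum.elim_inl, Sum.elim_inr, Sum.map_inl, Sum.inl.injEq] at hij
        exact absurd hij.symm j.2
      · simp at hij
      · rfl
  rw [h1, rdet_comb, mul_pow]
  -- exchange
  have e₄ : Fin N × Fin 3 ≃ κ₁ ⊕ Empty := e₀.trans (Equiv.sumEmpty κ₁ Empty).symm
  have h2 := rdet_exchange (P0 D) (Kv D) (fun j => by
      change Function.uncurry (Phi0 D (Kv D j)) = 0
      rw [Phi0_Kv]; rfl) (fun i => K.del1 (w i))
      (fun i => Pi.single ((e₀.symm i).1, (e₀.symm i).2.castSucc) (1 : ℂ)) (fun i : Empty => i.elim)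
      e₃ e₄
  have h3 : rdet e₄ (Sum.elim (fun i => P0 D (K.del1 (w i))) (fun i : Empty => i.elim)) ^ 2 =
      rdet e₀ (fun i => Function.uncurry (bd1 K D (Phi1 K D (w i)))) ^ 2 := by
    rw [← rdet_sq_of_inj e₄ e₀ Sum.inl Sum.inl_injective]
    congr 2
    funext i
    rw [Sum.elim_inl, bd1_Phi1]
    rfl
  have h4 : rdet e₄ (Sum.elim (fun i => P0 D (Pi.single ((e₀.symm i).1, (e₀.symm i).2.castSucc) (1 : ℂ)))
      (fun i : Empty => i.elim)) ^ 2 =
      ∏ j, (om (D.v j 0) (D.v j 1) * om (D.v j 1) (D.v j 2) * om (D.v j 0) (D.v j 2)) ^ 2 := by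
    rw [← vol0b D, ← rdet_sq_of_inj e₄ (Equiv.refl _) (fun p => Sum.inl (e₀ p))
      (fun p q h => e₀.injective (Sum.inl_injective h))]
    congr 2
    funext p
    rw [Sum.elim_inl, e₀.symm_apply_apply]
    rfl
  have h5 : rdet e₃ (Sum.elim (Kv D)
      (fun i => Pi.single ((e₀.symm i).1, (e₀.symm i).2.castSucc) (1 : ℂ))) ^ 2 =
      ∏ j, D.kk j 3 ^ 2 := by
    have e₅ : Fin N × Fin 4 ≃ Fin N ⊕ (Fin N × Fin 3) := e₃.trans (Equiv.sumCongr (Equiv.refl _) e₀.symm)
    rw [← vol0a D e₅, ← rdet_sq_of_inj e₃ e₅ (Sum.map id e₀)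
      (Sum.map_injective.2 ⟨Function.injective_id, e₀.injective⟩)]
    congr 2
    funext i
    rcases i with i | i
    · simp
    · simp
  have h6 : (∏ j, D.kk j 3 ^ 2) * (∏ j, ∏ x : Flag N with x.1 = j ∧ (K.cls x).2 = false, D.Csq x) =
      ∏ j, (om (D.v j 0) (D.v j 1) * om (D.v j 1) (D.v j 2) * om (D.v j 0) (D.v j 2)) ^ 2 := by
    rw [← Finset.prod_mul_distrib]
    exact Finset.prod_congr rfl fun j _ => vol_rel K D j
  have h7 : (∏ j, D.kk j 3 ^ 2) ≠ 0 := by
    refine Finset.prod_ne_zero_iff.2 fun j _ => pow_ne_zero 2 (inv_ne_zero ?_)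
    exact Finset.prod_ne_zero_iff.2 fun b hb => D.indep j 3 b (Finset.ne_of_mem_erase hb).symm
  have h8 := congrArg (· ^ 2) h2
  simp only [mul_pow] at h8
  rw [h3, h4, h5, ← h6] at h8
  have h9 : rdet e₃ (Sum.elim (Kv D) (fun i => K.del1 (w i))) ^ 2 *
      (∏ j, ∏ x : Flag N with x.1 = j ∧ (K.cls x).2 = false, D.Csq x) =
      rdet e₀ (fun i => Function.uncurry (bd1 K D (Phi1 K D (w i)))) ^ 2 := by
    apply mul_left_cancel₀ h7
    rw [← h8]
    ring
  rw [mul_assoc, h9]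


lemma surf_del1 (hT : T.OneCusp) (y : EE N → ℂ) : (K.surf hT).del1 y = K.del1 y := rfl

lemma surf_del2 (hT : T.OneCusp) (y : Fin N × Bool → ℂ) : (K.surf hT).del2 y = K.del2 y := rfl

lemma surf_dch (hT : T.OneCusp) (x : Flag N) : (K.surf hT).dch ℂ x = K.dch x := rfl

lemma Cells.dch_eps (q q' : EE N) : K.dch (K.eps q) q' = if q' = q then 1 else 0 := by
  have h1 : T.iota (K.eps q') ≠ K.eps q := by
    intro h
    have := @K.eps_bij.1 (Sum.inr q') (Sum.inl q) h
    simp at this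
  have h2 : K.eps q' = K.eps q ↔ q' = q := by
    constructor
    · intro h
      have := @K.eps_bij.1 (Sum.inl q') (Sum.inl q) h
      simpa using this
    · rintro rfl; rfl
  simp [Cells.dch, h1, h2]

lemma Cells.dch_iota (x : Flag N) : K.dch (T.iota x) = -K.dch x := by
  funext q
  have h1 : K.eps q = T.iota x ↔ T.iota (K.eps q) = x := by
    constructor
    · intro h; rw [h, T.iota_iota]
    · intro h; rw [← h, T.iota_iota]
  have h2 : T.iota (K.eps q) = T.iota x ↔ K.eps q = x := by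
    constructor
    · intro h; rw [← T.iota_iota (K.eps q), h, T.iota_iota]
    · intro h; rw [h]
  simp only [Cells.dch, h1, h2, Pi.neg_apply]
  ring

/-- The extension of an antisymmetric function on darts. -/
lemma ext_antisymm (hT : T.OneCusp) (F : Flag N → ℂ) (hF : ∀ x, F (T.iota x) = -F x) (x : Flag N) :
    (K.surf hT).ext (fun q => F (K.eps q)) x = F x := by
  unfold Surf.ext
  rw [surf_dch]
  obtain ⟨q | q, hq⟩ := K.eps_bij.2 x
  · simp only [Sum.elim_inl] at hq
    subst hq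
    simp [Cells.dch_eps]
  · simp only [Sum.elim_inr] at hq
    subst hq
    simp [Cells.dch_iota, Cells.dch_eps, hF]

/-- cycles of the cusp torus in terms of the antisymmetric extension -/
lemma surf_del1_eq (hT : T.OneCusp) (y : EE N → ℂ) (p : Fin N × Fin 4) :
    K.del1 y p = -∑ x : Flag N with x.tri = p, (K.surf hT).ext y x := by
  classical
  have h1 : ∀ q, ∑ x : Flag N with x.tri = p, K.dch x q =
      (if (K.eps q).tri = p then 1 else 0) - (if (T.iota (K.eps q)).tri = p then 1 else 0) := by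
    intro q
    simp only [Cells.dch, Finset.sum_sub_distrib, Finset.sum_ite_eq, Finset.mem_filter,
      Finset.mem_univ, true_and]
  unfold Surf.ext
  rw [Finset.sum_comm]
  simp only [surf_dch, ← Finset.mul_sum, h1, Cells.del1]
  rw [← Finset.sum_neg_distrib]
  refine Finset.sum_congr rfl fun q _ => ?_
  ring

lemma filter_tri (x : Flag N) :
    (univ.filter fun y : Flag N => y.tri = x.tri) = {x, x.rho, x.rho.rho} := by
  ext y
  simp only [Finset.mem_filter, Finset.mem_univ, true_and, Finset.mem_insert, Finset.mem_singleton]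
  constructor
  · intro h
    exact Flag.tri_fib x y h.symm
  · rintro (h | h | h)
    · rw [h]
    · rw [h, Flag.tri_rho]
    · rw [h, Flag.tri_rho, Flag.tri_rho]

lemma sum_triF (F : Flag N → ℂ) (x : Flag N) :
    ∑ y : Flag N with y.tri = x.tri, F y = F x + F x.rho + F x.rho.rho := by
  rw [filter_tri]
  have h1 : x ≠ x.rho := (Flag.rho_ne x).symm
  have h2 : x.rho ≠ x.rho.rho := (Flag.rho_ne x.rho).symm
  have h3 : x ≠ x.rho.rho := by
    intro h
    apply Flag.rho_ne x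
    conv_lhs => rw [h]
    exact Flag.rho3 x
  rw [Finset.sum_insert (by simp [h1, h3]), Finset.sum_insert (by simp [h2]), Finset.sum_singleton]
  ring

lemma del1_u (hT : T.OneCusp) : K.del1 (fun q => D.u (K.eps q)) = 0 := by
  funext p
  rw [surf_del1_eq K hT]
  obtain ⟨x, rfl⟩ := Flag.tri_surj p
  simp only [ext_antisymm K hT D.u (D.u_iota)]
  rw [sum_triF, D.u_cocycle]
  simp

lemma inter_smul (hT : T.OneCusp) (a : ℂ) (x y : EE N → ℂ) :
    (K.surf hT).inter (a • x) y = a * (K.surf hT).inter x y := by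
  have h : ∀ d, (K.surf hT).ext (a • x) d = a * (K.surf hT).ext x d := by
    intro d
    simp only [Surf.ext, Pi.smul_apply, smul_eq_mul, Finset.mul_sum, mul_assoc]
  unfold Surf.inter
  simp only [h]
  rw [Finset.mul_sum, Finset.mul_sum, Finset.mul_sum]
  refine Finset.sum_congr rfl fun d _ => ?_
  ring

lemma core_alg {A₁ A₂ A₂' A₀ P W Pc C Cd I Y B R H m a q : ℂ} (hex : A₂ * (P * W) = A₂' * A₁)
    (hA : A₂' ^ 2 = Cd) (hP : P ^ 2 = Pc) (hTL : W ^ 2 * a ^ 2 = (1 / 2 * I) ^ 2 * Y ^ 2)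
    (hK : Y ^ 2 * Pc = B ^ 2 * A₀ ^ 2) (hJ : B ^ 2 * q = m ^ 2 * R ^ 2) (hC : R * (-2 * I) = H * a)
    (hA4 : Cd * (4 * q) = C ^ 2) (ha : a ≠ 0) :
    A₁ ^ 2 * C ^ 2 * 4 = H ^ 2 * m ^ 2 * A₂ ^ 2 * A₀ ^ 2 := by
  have h1 : A₂ ^ 2 * (Pc * W ^ 2) = Cd * A₁ ^ 2 := by
    rw [← hA, ← hP]
    linear_combination (A₂ * (P * W) + A₂' * A₁) * hex
  have h2 : R ^ 2 * (4 * I ^ 2) = H ^ 2 * a ^ 2 := by
    linear_combination (R * (-2 * I) + H * a) * hC
  apply mul_right_cancel₀ (pow_ne_zero 2 ha)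
  calc A₁ ^ 2 * C ^ 2 * 4 * a ^ 2 = (Cd * A₁ ^ 2) * (16 * q * a ^ 2) := by rw [← hA4]; ring
    _ = A₂ ^ 2 * Pc * (W ^ 2 * a ^ 2) * (16 * q) := by rw [← h1]; ring
    _ = A₂ ^ 2 * (Y ^ 2 * Pc) * (4 * I ^ 2) * q := by rw [hTL]; ring
    _ = A₂ ^ 2 * A₀ ^ 2 * (4 * I ^ 2) * (B ^ 2 * q) := by rw [hK]; ring
    _ = A₂ ^ 2 * A₀ ^ 2 * m ^ 2 * (R ^ 2 * (4 * I ^ 2)) := by rw [hJ]; ring
    _ = H ^ 2 * m ^ 2 * A₂ ^ 2 * A₀ ^ 2 * a ^ 2 := by rw [h2]; ring

theorem core_sq {κ₂ κ₁ : Type} (hT : T.OneCusp) (r j₀ : Fin N) (hj : D.augk j₀ ≠ 0) (θ : Curve T)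
    (b₂ : κ₂ → Fin N → Fin 3 → ℂ) (b₁ : κ₁ → Fin (2 * N) → Fin 3 → ℂ)
    (e₂ : Fin N × Fin 3 ≃ Unit ⊕ κ₂) (e₁ : Fin (2 * N) × Fin 3 ≃ κ₂ ⊕ Unit ⊕ κ₁)
    (e₀ : Fin N × Fin 3 ≃ κ₁) :
    rdet e₁ (Sum.elim (fun i => Function.uncurry (bd2 K D (b₂ i)))
      (Sum.elim (fun _ => Function.uncurry (h1 K D θ)) fun i => Function.uncurry (b₁ i))) ^ 2 *
      (∏ e, D.Csq (K.rep e)) ^ 2 * 4 =
    (hatM K z θ r).det ^ 2 * (∏ j, D.m j) ^ 2 *
      rdet e₂ (Sum.elim (fun _ => Function.uncurry (h2 K D)) fun i => Function.uncurry (b₂ i)) ^ 2 *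
      rdet e₀ (fun i => Function.uncurry (bd1 K D (b₁ i))) ^ 2 := by
  classical
  have : Finite (Unit ⊕ κ₂) := Finite.of_equiv _ e₂
  have : Finite κ₂ := Finite.sum_right Unit
  have : Fintype κ₂ := Fintype.ofFinite κ₂
  have : Fintype κ₁ := Fintype.ofEquiv _ e₀
  have hN : 0 < N := Fin.pos r
  have hc2 : 3 * N = 1 + Fintype.card κ₂ := by
    have := Fintype.card_congr e₂
    simp at this
    omega
  have hc1 : Fintype.card κ₁ = 3 * N := by
    have := Fintype.card_congr e₀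
    simp at this
    omega
  set o₀ : Fin N × Bool := (r, false) with ho₀
  have hcO : Fintype.card {o : Fin N × Bool // o ≠ o₀} = 2 * N - 1 := by
    rw [Fintype.card_subtype_compl]
    simp
    omega
  have hcr : Fintype.card {e : Fin N // e ≠ r} = N - 1 := by
    rw [Fintype.card_subtype_compl]
    simp
  have σ : κ₂ ≃ {o : Fin N × Bool // o ≠ o₀} ⊕ Fin N := Fintype.equivOfCardEq (by
    rw [Fintype.card_sum, hcO, Fintype.card_fin]
    omega)
  choose w hw using fun i => exists_lift K D (b₁ i)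
  set b₂' : κ₂ → Fin N → Fin 3 → ℂ := fun i => (Sum.elim (fun o => Phi2 K D (Pi.single o.1 1)) (Hm K D) :
        {o : Fin N × Bool // o ≠ o₀} ⊕ Fin N → Fin N → Fin 3 → ℂ) (σ i) with hb₂'
  set rest : Unit ⊕ κ₁ → EE N → ℂ :=
    Sum.elim (fun _ => Function.uncurry (h1 K D θ)) (fun i => Function.uncurry (b₁ i)) with hrest
  -- exchange of `b₂`
  have hex := rdet_exchange (L2 K D) (fun _ : Unit => Function.uncurry (h2 K D)) (fun _ => L2_h2 K D)
    (fun i => Function.uncurry (b₂ i)) (fun i => Function.uncurry (b₂' i)) rest e₂ e₁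
  have hA := stepA K D o₀ e₂ σ
  -- the family `w₁`
  set w₁ : κ₂ ⊕ Unit ⊕ κ₁ → EE N → ℂ := Sum.elim
    (fun i => (Sum.elim (fun o => K.del2 (Pi.single o.1 1)) (Xe K D) :
        {o : Fin N × Bool // o ≠ o₀} ⊕ Fin N → EE N → ℂ) (σ i))
    (Sum.elim (fun _ => θ.ch K) w) with hw₁
  have hL' : rdet e₁ (Sum.elim (fun i => L2 K D (Function.uncurry (b₂' i))) rest) =
      rdet (Equiv.refl (EE N)) (fun q => Function.uncurry (Phi1 K D (Pi.single q 1))) *
        rdet e₁ w₁ := by
    have h1 := rdet_map (P1 K D) e₁ w₁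
    have h2 : (fun i => P1 K D (w₁ i)) =
        Sum.elim (fun i => L2 K D (Function.uncurry (b₂' i))) rest := by
      funext i
      rcases i with i | i | i
      · simp only [hw₁, Sum.elim_inl, hb₂']
        change Function.uncurry (Phi1 K D _) = Function.uncurry (bd2 K D _)
        rcases h : σ i with o | e
        · simp only [Sum.elim_inl, Function.curry_uncurry]
          rw [bd2_Phi2]
        · simp only [Sum.elim_inr, Function.curry_uncurry]
          rw [bd2_Hm]
      · simp only [hw₁, hrest, Sum.elim_inl, Sum.elim_inr]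
        change Function.uncurry (Phi1 K D _) = _
        rw [h1_eq]
      · simp only [hw₁, hrest, Sum.elim_inr]
        change Function.uncurry (Phi1 K D _) = _
        rw [hw]
    rw [h2] at h1
    exact h1
  -- the torus lemma
  have e₁' : EE N ≃ {o : Fin N × Bool // o ≠ o₀} ⊕ (Unit ⊕ Unit) ⊕ ({e : Fin N // e ≠ r} ⊕ κ₁) :=
    Fintype.equivOfCardEq (by
      simp only [Fintype.card_sum, hcO, hcr, hc1, Fintype.card_prod, Fintype.card_fin,
        Fintype.card_unit]
      omega)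
  have e₂' : Fin N × Fin 4 ≃ ({e : Fin N // e ≠ r} ⊕ κ₁) ⊕ Unit :=
    Fintype.equivOfCardEq (by
      simp only [Fintype.card_sum, hcr, hc1, Fintype.card_prod, Fintype.card_fin,
        Fintype.card_unit]
      omega)
  set W : {e : Fin N // e ≠ r} ⊕ κ₁ → EE N → ℂ := Sum.elim (fun e => Xe K D e.1) w with hW
  have hTL := (K.surf hT).torus_lemma o₀ (∑ e, Xe K D e) (θ.ch K)
    (del1_Xtot K D (del1_u K D hT)) (del1_ch K θ) W (Kv D j₀) e₁' e₂'
  rw [sum_Kv] at hTL
  have hxt : (∑ e, Xe K D e) = (1 / 2 : ℂ) • fun q => D.u (K.eps q) := by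
    funext q
    rw [Finset.sum_apply, sum_Xe]
    rfl
  have hw₁' : rdet e₁ w₁ ^ 2 = rdet e₁' (Sum.elim (fun o => (K.surf hT).del2 (Pi.single o.1 1))
      (Sum.elim (Sum.elim (fun _ => ∑ e, Xe K D e) (fun _ => θ.ch K)) W)) ^ 2 := by
    have h1 := rdet_update_sum e₁ w₁ (Sum.inl (σ.symm (Sum.inr r)))
      (univ.map ⟨fun e => Sum.inl (σ.symm (Sum.inr e)), by
        intro a b hab
        exact Sum.inr_injective (σ.symm.injective (Sum.inl_injective hab))⟩) (by simp)
    rw [← h1]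
    have hsum : ∑ i ∈ (univ.map ⟨fun e : Fin N => (Sum.inl (σ.symm (Sum.inr e)) : κ₂ ⊕ Unit ⊕ κ₁), by
        intro a b hab
        exact Sum.inr_injective (σ.symm.injective (Sum.inl_injective hab))⟩), w₁ i =
        ∑ e, Xe K D e := by
      rw [Finset.sum_map]
      refine Finset.sum_congr rfl fun e _ => ?_
      simp [hw₁]
    rw [hsum]
    rw [← rdet_sq_of_inj e₁ e₁' (Sum.elim (fun o => Sum.inl (σ.symm (Sum.inl o)))
      (Sum.elim (Sum.elim (fun _ => Sum.inl (σ.symm (Sum.inr r))) (fun _ => Sum.inr (Sum.inl ())))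
        (Sum.elim (fun e => Sum.inl (σ.symm (Sum.inr e.1))) (fun i => Sum.inr (Sum.inr i))))) ?_
      (Function.update w₁ (Sum.inl (σ.symm (Sum.inr r))) (∑ e, Xe K D e))]
    · congr 2
      funext i
      rcases i with o | (u | u) | e | i
      · simp only [Sum.elim_inl]
        rw [Function.update_of_ne (by
          intro h
          simpa using σ.symm.injective (Sum.inl_injective h))]
        simp only [hw₁, Sum.elim_inl, Equiv.apply_symm_apply]
        rfl
      · simp only [Sum.elim_inl, Sum.elim_inr, Function.update_self]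
      · simp only [Sum.elim_inl, Sum.elim_inr]
        rw [Function.update_of_ne (by simp)]
        simp [hw₁]
      · simp only [Sum.elim_inl, Sum.elim_inr, hW]
        rw [Function.update_of_ne (by
          intro h
          exact e.2 (Sum.inr_injective (σ.symm.injective (Sum.inl_injective h))))]
        simp [hw₁]
      · simp only [Sum.elim_inr, hW]
        rw [Function.update_of_ne (by simp)]
        simp [hw₁]
    · intro i j hij
      rcases i with o | (u | u) | e | i <;> rcases j with o' | (u' | u') | e' | i' <;>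
        simp only [Sum.elim_inl, Sum.elim_inr, Sum.inl.injEq, Sum.inr.injEq, EmbeddingLike.apply_eq_iff_eq,
          reduceCtorEq] at hij
      · rw [hij]
      · rfl
      · exact absurd hij.symm e'.2
      · rfl
      · exact absurd hij e.2
      · congr 3
        exact Subtype.ext hij
      · rw [hij]
  have hK := stepK K D w e₀ r j₀ e₂'
  -- the Jacobian
  have hJ : ((Matrix.of (Jm K D)).updateRow r (Pi.single j₀ 1)).det ^ 2 * 4 ^ (N - 1) =
      (∏ j, D.m j) ^ 2 * ((Matrix.of (Rm K z)).updateRow r (Pi.single j₀ (D.m j₀)⁻¹)).det ^ 2 := by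
    have h1 : (Matrix.of (Jm K D)).updateRow r (Pi.single j₀ 1) =
        Matrix.diagonal (fun e => if e = r then (1 : ℂ) else -(1 / 2)) *
          ((Matrix.of (Rm K z)).updateRow r (Pi.single j₀ (D.m j₀)⁻¹)) *
          Matrix.diagonal D.m := by
      ext e j
      rw [Matrix.mul_diagonal, Matrix.diagonal_mul]
      by_cases he : e = r
      · subst he
        simp only [Matrix.updateRow_self, if_true, one_mul]
        by_cases hjj : j = j₀
        · subst hjj
          simp [D.m_ne]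
        · simp [Pi.single_eq_of_ne hjj]
      · simp only [Matrix.updateRow_ne he, if_neg he, Matrix.of_apply]
        rw [Jm_eq]
    rw [h1, Matrix.det_mul, Matrix.det_mul, Matrix.det_diagonal, Matrix.det_diagonal]
    have h2 : (∏ e : Fin N, (if e = r then (1 : ℂ) else -(1 / 2))) ^ 2 * 4 ^ (N - 1) = 1 := by
      have h3 : (∏ e : Fin N, (if e = r then (1 : ℂ) else -(1 / 2))) = (-(1 / 2)) ^ (N - 1) := by
        rw [← Finset.mul_prod_erase univ _ (Finset.mem_univ r), if_pos rfl, one_mul]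
        rw [Finset.prod_congr rfl (g := fun _ => (-(1 / 2) : ℂ))]
        · rw [Finset.prod_const, Finset.card_erase_of_mem (Finset.mem_univ r), Finset.card_univ,
            Fintype.card_fin]
        · intro e he
          rw [if_neg (Finset.ne_of_mem_erase he)]
      rw [h3, ← pow_mul, mul_comm (N - 1) 2, pow_mul, ← mul_pow]
      norm_num
    calc _ = ((∏ e : Fin N, (if e = r then (1 : ℂ) else -(1 / 2))) ^ 2 * 4 ^ (N - 1)) *
          ((∏ j, D.m j) ^ 2 *
            ((Matrix.of (Rm K z)).updateRow r (Pi.single j₀ (D.m j₀)⁻¹)).det ^ 2) := by ring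
      _ = _ := by rw [h2, one_mul]
  have hC := Cm_dot K D hT θ r j₀
  -- notation
  have hP := vol1 K D
  have hPne : (∏ j, ∏ x : Flag N with x.1 = j ∧ (K.cls x).2 = false, D.Csq x) ≠ 0 :=
    Finset.prod_ne_zero_iff.2 fun j _ => Finset.prod_ne_zero_iff.2 fun x _ => Csq_ne D x
  have hA4 : (∏ e, (D.Csq (K.rep e) / 2) ^ 2) * (4 * 4 ^ (N - 1)) = (∏ e, D.Csq (K.rep e)) ^ 2 := by
    have h4 : (4 : ℂ) * 4 ^ (N - 1) = (2 ^ N) ^ 2 := by
      rw [← pow_succ', Nat.sub_add_cancel hN, ← pow_mul, mul_comm N 2, pow_mul]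
      norm_num
    rw [Finset.prod_pow, Finset.prod_div_distrib, Finset.prod_const, Finset.card_univ,
      Fintype.card_fin, h4, div_pow, div_mul_cancel₀]
    exact pow_ne_zero 2 (pow_ne_zero N two_ne_zero)
  rw [hxt, inter_smul] at hTL
  rw [← hxt, ← hw₁'] at hTL
  -- abbreviations
  have hb₁ : (fun i => Function.uncurry (bd1 K D (Phi1 K D (w i)))) =
      fun i => Function.uncurry (bd1 K D (b₁ i)) := by
    funext i
    rw [hw]
  rw [hb₁] at hK
  change rdet e₂ _ * rdet e₁ _ = rdet e₂ _ * rdet e₁ (Sum.elim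
    (fun i => Function.uncurry (bd2 K D (b₂ i))) rest) at hex
  rw [hL'] at hex
  set A₁ := rdet e₁ (Sum.elim (fun i => Function.uncurry (bd2 K D (b₂ i))) rest)
  set A₂ := rdet e₂ (Sum.elim (fun _ => Function.uncurry (h2 K D)) fun i => Function.uncurry (b₂ i))
  set A₀ := rdet e₀ (fun i => Function.uncurry (bd1 K D (b₁ i)))
  exact core_alg hex hA hP hTL hK hJ hC hA4 hj


/-- **The value of the torsion.** -/
theorem ator_value (hT : T.OneCusp) (hz : ∀ j, 0 < (z j).im) (θ : Curve T) (r : Fin N)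
    (f : Fin 3 → Fin N → ℤ) (hf : IsFlattening K f) (τ : ℂ) (hτ : IsATor K D θ τ) :
    τ = oneLoop K z θ r f ∨ τ = -oneLoop K z θ r f := by
  obtain ⟨j₀, hj⟩ := exists_augk_ne' K D hT hz (Fin.pos r)
  obtain ⟨b₂, b₁, e₂, e₁, e₀, h2, -, h0, hτ⟩ := hτ
  have hc := core_sq K D hT r j₀ hj θ b₂ b₁ e₂ e₁ e₀
  rw [flat K D f hf] at hc
  rw [← sq_eq_sq_iff_eq_or_eq_neg, hτ, oneLoop]
  have hm : (∏ j, D.m j) ≠ 0 := Finset.prod_ne_zero_iff.2 fun j _ => D.m_ne j
  have hZ : (∏ k : Fin 3, ∏ j, zet (z j) k ^ f k j) ≠ 0 :=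
    Finset.prod_ne_zero_iff.2 fun k _ => Finset.prod_ne_zero_iff.2 fun j _ => zpow_ne_zero _ (D.zet_ne j k)
  set Z := ∏ k : Fin 3, ∏ j, zet (z j) k ^ f k j
  set A₁ := rdet e₁ _
  set A₂ := rdet e₂ _
  set A₀ := rdet e₀ _
  set M := ∏ j, D.m j
  set H := (hatM K z θ r).det
  have h1 : A₁ ^ 2 * (2 * Z) ^ 2 = H ^ 2 * (A₂ * A₀) ^ 2 := by
    apply mul_right_cancel₀ (pow_ne_zero 2 hm)
    linear_combination hc
  rw [div_pow, div_pow, div_eq_div_iff (pow_ne_zero 2 (mul_ne_zero h2 h0))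
    (pow_ne_zero 2 (mul_ne_zero two_ne_zero hZ))]
  exact h1

lemma del1_dch (x : Flag N) :
    K.del1 (K.dch x) = Pi.single (T.iota x).tri 1 - Pi.single x.tri 1 := by
  have key : ∀ q, K.del1 (K.dch (K.eps q)) =
      Pi.single (T.iota (K.eps q)).tri 1 - Pi.single (K.eps q).tri 1 := by
    intro q
    funext p
    simp only [Cells.del1, Cells.dch_eps, ite_mul, one_mul, zero_mul, Finset.sum_ite_eq',
      Finset.mem_univ, if_true, Pi.sub_apply, Pi.single_apply, eq_comm (a := p)]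
  obtain ⟨q | q, hq⟩ := K.eps_bij.2 x
  · simp only [Sum.elim_inl] at hq
    subst hq
    exact key q
  · simp only [Sum.elim_inr] at hq
    subst hq
    have : K.dch (T.iota (K.eps q)) = (-1 : ℂ) • K.dch (K.eps q) := by
      rw [Cells.dch_iota]; simp
    rw [this, del1_smul, key, T.iota_iota]
    simp

lemma del1_add (y y' : EE N → ℂ) : K.del1 (y + y') = K.del1 y + K.del1 y' := by
  funext p
  simp [Cells.del1, add_mul, Finset.sum_add_distrib]

lemma exists_path (hT : T.OneCusp) (p q : Fin N × Fin 4) :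
    ∃ w, K.del1 w = Pi.single q 1 - Pi.single p 1 := by
  have h := hT p q
  induction h with
  | refl => exact ⟨0, by funext a; simp [Cells.del1]⟩
  | tail _ hbc ih =>
    obtain ⟨w, hw⟩ := ih
    obtain ⟨x, hx1, hx2⟩ := hbc
    refine ⟨w + K.dch x, ?_⟩
    rw [del1_add, hw, del1_dch, hx1, hx2]
    abel

lemma exists_del1 (hT : T.OneCusp) (s : Fin N × Fin 4 → ℂ) (hs : ∑ p, s p = 0) (p₀ : Fin N × Fin 4) :
    ∃ w, K.del1 w = s := by
  choose w hw using fun q => exists_path K hT p₀ q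
  refine ⟨∑ q, s q • w q, ?_⟩
  rw [del1_sum]
  simp only [del1_smul, hw, smul_sub, Finset.sum_sub_distrib]
  rw [← Finset.sum_smul, hs, zero_smul, sub_zero]
  funext p
  simp [Finset.sum_apply, Pi.single_apply]

lemma Phi0_surj (y : Fin N → Fin 3 → ℂ) : ∃ s, Phi0 D s = y := by
  have h := vol0b D
  set E : (Fin N × Fin 3 → ℂ) →ₗ[ℂ] (Fin N × Fin 4 → ℂ) :=
    Fintype.linearCombination ℂ (fun p : Fin N × Fin 3 => (Pi.single (p.1, p.2.castSucc) 1 :
      Fin N × Fin 4 → ℂ)) with hE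
  have h0 : rdet (Equiv.refl (Fin N × Fin 3)) (fun q => (P0 D ∘ₗ E) (Pi.single q 1)) ≠ 0 := by
    have : (fun q => (P0 D ∘ₗ E) (Pi.single q 1)) =
        fun p => Function.uncurry (Phi0 D (Pi.single (p.1, p.2.castSucc) 1)) := by
      funext q
      rw [LinearMap.comp_apply, hE, Fintype.linearCombination_apply_single, one_smul]
      rfl
    rw [this]
    intro h0
    rw [h0, zero_pow two_ne_zero] at h
    refine Finset.prod_ne_zero_iff.2 (fun j _ => pow_ne_zero 2 ?_) h.symm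
    exact mul_ne_zero (mul_ne_zero (D.indep j 0 1 (by decide)) (D.indep j 1 2 (by decide)))
      (D.indep j 0 2 (by decide))
  obtain ⟨s, hs⟩ := surj_of_rdet (P0 D ∘ₗ E) h0 (Function.uncurry y)
  exact ⟨E s, Function.uncurry_injective hs⟩

lemma bd1_surj (hT : T.OneCusp) (j₀ : Fin N) (hj : D.augk j₀ ≠ 0) (y : Fin N → Fin 3 → ℂ) :
    ∃ b, bd1 K D b = y := by
  obtain ⟨s, hs⟩ := Phi0_surj D y
  set s' := s - ((∑ p, s p) / D.augk j₀) • Kv D j₀ with hs'
  have h1 : ∑ p, s' p = 0 := by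
    simp only [hs', Pi.sub_apply, Pi.smul_apply, smul_eq_mul, Finset.sum_sub_distrib]
    rw [← Finset.mul_sum, sum_Kv, div_mul_cancel₀ _ hj, sub_self]
  obtain ⟨w, hw⟩ := exists_del1 K hT s' h1 (j₀, 0)
  refine ⟨Phi1 K D w, ?_⟩
  rw [bd1_Phi1, hw]
  have h2 : P0 D s' = P0 D s := by
    rw [hs', map_sub, map_smul]
    have : P0 D (Kv D j₀) = 0 := by
      change Function.uncurry (Phi0 D (Kv D j₀)) = 0
      rw [Phi0_Kv]; rfl
    rw [this, smul_zero, sub_zero]
  have h3 : Phi0 D s' = Phi0 D s := Function.uncurry_injective h2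
  rw [h3, hs]

/-- **The torsion is defined**, for an essential curve: the three families can be chosen to be bases. -/
theorem ator_exists (hT : T.OneCusp) (hz : ∀ j, 0 < (z j).im) (θ : Curve T) (hθ : θ.Essential K)
    (r : Fin N) : ∃ τ, IsATor K D θ τ := by
  classical
  obtain ⟨j₀, hj⟩ := exists_augk_ne' K D hT hz (Fin.pos r)
  have hN : 0 < N := Fin.pos r
  set o₀ : Fin N × Bool := (r, false) with ho₀
  have hcO : Fintype.card {o : Fin N × Bool // o ≠ o₀} = 2 * N - 1 := by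
    rw [Fintype.card_subtype_compl]
    simp
    omega
  have σ : Fin (3 * N - 1) ≃ {o : Fin N × Bool // o ≠ o₀} ⊕ Fin N := Fintype.equivOfCardEq (by
    rw [Fintype.card_sum, hcO, Fintype.card_fin, Fintype.card_fin]
    omega)
  have e₂ : Fin N × Fin 3 ≃ Unit ⊕ Fin (3 * N - 1) := Fintype.equivOfCardEq (by
    simp
    omega)
  have e₁ : Fin (2 * N) × Fin 3 ≃ Fin (3 * N - 1) ⊕ Unit ⊕ Fin (3 * N) := Fintype.equivOfCardEq (by
    simp
    omega)
  have e₀ : Fin N × Fin 3 ≃ Fin (3 * N) := Fintype.equivOfCardEq (by simp; omega)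
  choose b₁ hb₁ using fun i : Fin (3 * N) => bd1_surj K D hT j₀ hj
    (Function.curry (Pi.single (e₀.symm i) (1 : ℂ)))
  set b₂ : Fin (3 * N - 1) → Fin N → Fin 3 → ℂ := fun i =>
    (Sum.elim (fun o => Phi2 K D (Pi.single o.1 1)) (Hm K D) :
        {o : Fin N × Bool // o ≠ o₀} ⊕ Fin N → Fin N → Fin 3 → ℂ) (σ i) with hb₂
  have hA₂ : rdet e₂ (Sum.elim (fun _ => Function.uncurry (h2 K D))
      fun i => Function.uncurry (b₂ i)) ≠ 0 := by
    intro h
    have h1 := stepA K D o₀ e₂ σ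
    rw [h, zero_pow two_ne_zero] at h1
    exact (Finset.prod_ne_zero_iff.2 fun e _ => pow_ne_zero 2
      (div_ne_zero (Csq_ne D _) two_ne_zero)) h1.symm
  have hA₀ : rdet e₀ (fun i => Function.uncurry (bd1 K D (b₁ i))) ≠ 0 := by
    have : (Matrix.of fun i i' => (fun i => Function.uncurry (bd1 K D (b₁ i))) (e₀ i) i') =
        (1 : Matrix (Fin N × Fin 3) (Fin N × Fin 3) ℂ) := by
      ext i i'
      simp only [Matrix.of_apply, hb₁, Function.uncurry_curry, Equiv.symm_apply_apply]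
      rw [Matrix.one_apply, Pi.single_apply]
      simp [eq_comm]
    unfold rdet
    rw [this, Matrix.det_one]
    exact one_ne_zero
  refine ⟨_, b₂, b₁, e₂, e₁, e₀, hA₂, ?_, hA₀, rfl⟩
  intro hA₁
  have hc := core_sq K D hT r j₀ hj θ b₂ b₁ e₂ e₁ e₀
  rw [hA₁] at hc
  have hH := hatM_det_ne K D hT hz θ r (inter_ch_ne K D hT hz hN θ hθ)
  have hm : (∏ j, D.m j) ≠ 0 := Finset.prod_ne_zero_iff.2 fun j _ => D.m_ne j
  rw [zero_pow two_ne_zero, zero_mul, zero_mul] at hc
  exact (mul_ne_zero (mul_ne_zero (mul_ne_zero (pow_ne_zero 2 hH) (pow_ne_zero 2 hm))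
    (pow_ne_zero 2 hA₂)) (pow_ne_zero 2 hA₀)) hc.symm

end

end Pool.Agent.Helper34.OneLoop
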