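import Pool.Agent.Helper34.OneLoop.Core

/-! Linear algebra of `rdet`. -/

namespace Pool.Agent.Helper34.OneLoop

open Equiv Matrix Finset

section LA

variable {ι ι' κ κ' κ₀ κ₁ : Type} [Fintype ι] [DecidableEq ι] [Fintype ι'] [DecidableEq ι']

theorem rdet_sq_reindex (e : ι ≃ κ) (e' : ι ≃ κ') (τ : κ' ≃ κ) (w : κ → ι → ℂ) :
    rdet e' (fun i => w (τ i)) ^ 2 = rdet e w ^ 2 := by
  let σ : Perm ι := (e'.trans τ).trans e.symm
  have h : (Matrix.of fun i i' => w (τ (e' i)) i') =
      (Matrix.of fun i i' => w (e i) i').submatrix σ id := by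
    ext i i'
    simp [σ]
  unfold rdet
  rw [h, Matrix.det_permute, mul_pow]
  rcases Int.units_eq_one_or (Perm.sign σ) with h1 | h1 <;> rw [h1] <;> simp

theorem rdet_map (L : (ι → ℂ) →ₗ[ℂ] (ι → ℂ)) (e : ι ≃ κ) (w : κ → ι → ℂ) :
    rdet e (fun i => L (w i)) = rdet (Equiv.refl ι) (fun i => L (Pi.single i 1)) * rdet e w := by
  unfold rdet
  rw [mul_comm, ← Matrix.det_mul]
  congr 1
  ext i i'
  simp only [Matrix.of_apply, Matrix.mul_apply, Equiv.refl_apply]
  have h1 : w (e i) = ∑ j, w (e i) j • (Pi.single j (1 : ℂ) : ι → ℂ) := by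
    ext l
    simp [Finset.sum_apply, Pi.single_apply]
  conv_lhs => rw [h1]
  rw [map_sum, Finset.sum_apply]
  refine Finset.sum_congr rfl fun j _ => ?_
  rw [map_smul]
  rfl

/-- Left multiplication of a family by a square matrix. -/
theorem rdet_lmul [Fintype κ] [DecidableEq κ] (e : ι ≃ κ) (C : Matrix κ κ ℂ) (w : κ → ι → ℂ) :
    rdet e (fun i => ∑ j, C i j • w j) = C.det * rdet e w := by
  unfold rdet
  rw [← Matrix.det_submatrix_equiv_self e C, ← Matrix.det_mul]
  congr 1
  ext i i'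
  simp only [Matrix.of_apply, Matrix.mul_apply, Matrix.submatrix_apply, Finset.sum_apply,
    Pi.smul_apply, smul_eq_mul]
  exact (Equiv.sum_comp e fun j => C (e i) j * w j i').symm

theorem rdet_comb [Fintype κ] [DecidableEq κ] (e : ι ≃ κ ⊕ κ₁) (B : Matrix κ κ ℂ) (k : κ → ι → ℂ)
    (c : κ₁ → ι → ℂ) :
    rdet e (Sum.elim (fun i => ∑ j, B i j • k j) c) = B.det * rdet e (Sum.elim k c) := by
  classical
  have : Finite (κ ⊕ κ₁) := Finite.of_equiv ι e
  have : Finite κ₁ := Finite.sum_right κ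
  have : Fintype κ₁ := Fintype.ofFinite κ₁
  have h1 : (Matrix.fromBlocks B 0 0 (1 : Matrix κ₁ κ₁ ℂ)).det = B.det := by
    rw [Matrix.det_fromBlocks_zero₂₁, Matrix.det_one, mul_one]
  rw [← h1, ← rdet_lmul]
  congr 1
  funext i
  rcases i with i | i
  · simp [Fintype.sum_sum_type]
  · simp only [Sum.elim_inr, Fintype.sum_sum_type, Matrix.fromBlocks_apply₂₁,
      Matrix.fromBlocks_apply₂₂, Matrix.zero_apply, zero_smul, Finset.sum_const_zero, zero_add]
    rw [Finset.sum_eq_single i]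
    · simp
    · intro j _ hj
      rw [Matrix.one_apply_ne hj.symm, zero_smul]
    · simp

theorem rdet_comb' [Fintype κ₀] [Fintype κ] [DecidableEq κ] (e : ι ≃ κ₀ ⊕ κ) (A : Matrix κ κ₀ ℂ)
    (B : Matrix κ κ ℂ) (k : κ₀ → ι → ℂ) (b : κ → ι → ℂ) :
    rdet e (Sum.elim k (fun i => ∑ j, A i j • k j + ∑ j, B i j • b j)) =
      B.det * rdet e (Sum.elim k b) := by
  classical
  have h1 : (Matrix.fromBlocks (1 : Matrix κ₀ κ₀ ℂ) 0 A B).det = B.det := by
    rw [Matrix.det_fromBlocks_zero₁₂, Matrix.det_one, one_mul]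
  rw [← h1, ← rdet_lmul]
  congr 1
  funext i
  rcases i with i | i
  · simp only [Sum.elim_inl, Fintype.sum_sum_type, Matrix.fromBlocks_apply₁₁,
      Matrix.fromBlocks_apply₁₂, Matrix.zero_apply, zero_smul, Finset.sum_const_zero, add_zero]
    rw [Finset.sum_eq_single i]
    · simp
    · intro j _ hj
      rw [Matrix.one_apply_ne hj.symm, zero_smul]
    · simp
  · simp [Fintype.sum_sum_type]

theorem rdet_exchange_aux (L : (ι → ℂ) →ₗ[ℂ] (ι' → ℂ)) (k : κ₀ → ι → ℂ) (hk : ∀ i, L (k i) = 0)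
    (b b' : κ → ι → ℂ) (r : κ₁ → ι' → ℂ) (e : ι ≃ κ₀ ⊕ κ) (e' : ι' ≃ κ ⊕ κ₁)
    (h0 : rdet e (Sum.elim k b) ≠ 0) :
    rdet e (Sum.elim k b) * rdet e' (Sum.elim (fun i => L (b' i)) r) =
      rdet e (Sum.elim k b') * rdet e' (Sum.elim (fun i => L (b i)) r) := by
  classical
  have : Finite (κ₀ ⊕ κ) := Finite.of_equiv ι e
  have : Finite κ₀ := Finite.sum_left κ
  have : Finite κ := Finite.sum_right κ₀
  have : Fintype κ₀ := Fintype.ofFinite κ₀
  have : Fintype κ := Fintype.ofFinite κ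
  have hspan : ∀ v : ι → ℂ, ∃ (a : κ₀ → ℂ) (c : κ → ℂ), v = ∑ j, a j • k j + ∑ j, c j • b j := by
    intro v
    set W : Matrix ι ι ℂ := Matrix.of fun i i' => Sum.elim k b (e i) i' with hW
    have hu : IsUnit W.det := by
      rw [isUnit_iff_ne_zero]; exact h0
    have h1 : (v ᵥ* W⁻¹) ᵥ* W = v := by
      rw [Matrix.vecMul_vecMul, Matrix.nonsing_inv_mul _ hu, Matrix.vecMul_one]
    refine ⟨fun j => (v ᵥ* W⁻¹) (e.symm (Sum.inl j)), fun j => (v ᵥ* W⁻¹) (e.symm (Sum.inr j)), ?_⟩
    conv_lhs => rw [← h1]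
    ext l
    simp only [Matrix.vecMul, dotProduct, Pi.add_apply, Finset.sum_apply, Pi.smul_apply, smul_eq_mul]
    rw [← Equiv.sum_comp e.symm, Fintype.sum_sum_type]
    simp [hW]
  choose A hA using hspan
  choose B hB using hA
  have hb' : b' = fun i => ∑ j, A (b' i) j • k j + ∑ j, B (b' i) j • b j := by
    funext i
    exact hB (b' i)
  have hL : (fun i => L (b' i)) = fun i => ∑ j, B (b' i) j • L (b j) := by
    funext i
    conv_lhs => rw [hB (b' i)]
    rw [map_add, map_sum, map_sum]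
    simp [hk]
  have e1 := rdet_comb' e (Matrix.of fun i j => A (b' i) j) (Matrix.of fun i j => B (b' i) j) k b
  have e2 := rdet_comb e' (Matrix.of fun i j => B (b' i) j) (fun i => L (b i)) r
  simp only [Matrix.of_apply] at e1 e2
  rw [← hb'] at e1
  rw [← hL] at e2
  rw [e1, e2]
  ring

theorem rdet_exchange (L : (ι → ℂ) →ₗ[ℂ] (ι' → ℂ)) (k : κ₀ → ι → ℂ) (hk : ∀ i, L (k i) = 0)
    (b b' : κ → ι → ℂ) (r : κ₁ → ι' → ℂ) (e : ι ≃ κ₀ ⊕ κ) (e' : ι' ≃ κ ⊕ κ₁) :
    rdet e (Sum.elim k b) * rdet e' (Sum.elim (fun i => L (b' i)) r) =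
      rdet e (Sum.elim k b') * rdet e' (Sum.elim (fun i => L (b i)) r) := by
  by_cases h : rdet e (Sum.elim k b) = 0
  · by_cases h' : rdet e (Sum.elim k b') = 0
    · rw [h, h', zero_mul, zero_mul]
    · exact (rdet_exchange_aux L k hk b' b r e e' h').symm
  · exact rdet_exchange_aux L k hk b b' r e e' h

theorem rdet_update_sum [DecidableEq κ] (e : ι ≃ κ) (w : κ → ι → ℂ) (i₀ : κ) (S : Finset κ)
    (h : i₀ ∈ S) : rdet e (Function.update w i₀ (∑ i ∈ S, w i)) = rdet e w := by
  have key : ∀ v : ι → ℂ, rdet e (Function.update w i₀ v) =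
      Matrix.detRowAlternating (Function.update (fun i => w (e i)) (e.symm i₀) v) := by
    intro v
    unfold rdet
    change Matrix.detRowAlternating _ = _
    congr 1
    funext i
    by_cases hi : i = e.symm i₀
    · subst hi
      ext l
      simp
    · have h1 : e i ≠ i₀ := fun h => hi (by rw [← h]; simp)
      ext l
      simp [Function.update_of_ne hi, Function.update_of_ne h1]
  rw [key, AlternatingMap.map_update_sum, Finset.sum_eq_single i₀]
  · rw [← key, Function.update_eq_self]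
  · intro j _ hj
    have h1 : w j = (fun i => w (e i)) (e.symm j) := by simp
    rw [h1]
    apply AlternatingMap.map_update_self
    intro h
    exact hj (e.symm.injective h).symm
  · intro h'
    exact absurd h h'

theorem det_row_exchange [DecidableEq κ] [Fintype κ] (A : Matrix κ κ ℂ) (r : κ) (w w' x : κ → ℂ)
    (h : ∀ i, i ≠ r → A i ⬝ᵥ x = 0) :
    (A.updateRow r w).det * (w' ⬝ᵥ x) = (A.updateRow r w').det * (w ⬝ᵥ x) := by
  by_cases hx : x = 0
  · subst hx
    simp
  · obtain ⟨i, hi⟩ : ∃ i, x i ≠ 0 := by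
      by_contra hcon
      push Not at hcon
      exact hx (funext hcon)
    have key : ∀ w : κ → ℂ, (A.updateRow r w).det * x i =
        (w ⬝ᵥ x) * (A.updateRow r (Pi.single i 1)).det := by
      intro w
      have h1 : (A.updateRow r w) *ᵥ x = (w ⬝ᵥ x) • Pi.single r 1 := by
        funext j
        by_cases hj : j = r
        · subst hj
          simp [Matrix.mulVec, Matrix.updateRow_self]
        · simp only [Matrix.mulVec, Matrix.updateRow_ne hj, h j hj, Pi.smul_apply, smul_eq_mul]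
          rw [Pi.single_eq_of_ne hj, mul_zero]
      have h2 : (A.updateRow r w).adjugate *ᵥ ((A.updateRow r w) *ᵥ x) =
          (A.updateRow r w).det • x := by
        rw [Matrix.mulVec_mulVec, Matrix.adjugate_mul, Matrix.smul_mulVec, Matrix.one_mulVec]
      rw [h1, Matrix.mulVec_smul] at h2
      have h3 := congrFun h2 i
      simp only [Pi.smul_apply, smul_eq_mul] at h3
      rw [← h3]
      congr 1
      rw [Matrix.mulVec_single_one]
      simp only [Matrix.col_apply, Matrix.adjugate_apply, Matrix.updateRow_idem]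
    have k1 := key w
    have k2 := key w'
    have : ((A.updateRow r w).det * (w' ⬝ᵥ x)) * x i = ((A.updateRow r w').det * (w ⬝ᵥ x)) * x i := by
      calc _ = ((A.updateRow r w).det * x i) * (w' ⬝ᵥ x) := by ring
        _ = _ := by rw [k1]
        _ = ((A.updateRow r w').det * x i) * (w ⬝ᵥ x) := by rw [k2]; ring
        _ = _ := by ring
    exact mul_right_cancel₀ hi this

end LA

end Pool.Agent.Helper34.OneLoop
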