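import Pool.Agent.Helper34.OneLoop.CU

/-! # Module NV: the Neumann-Zagier relation and consequences

Data `(ξ, w)` on flags with `ξ x = w x - w (iota (rho x))` (`iota (rho x) = turn⁻¹ x`) and
`w (iota (kap x)) = - w x`; `p x = w x - w (iota x)` is then an antisymmetric cocycle of the cusp torus.
-/

namespace Pool.Agent.Helper34.OneLoop

open Equiv Matrix Finset

namespace NV

variable {N : ℕ} {T : Triang N} {z : Fin N → ℂ} (K : Cells T) (D : Develop T z)

/-- `(a, b, c, d) ↦ (c, d, a, b)`. -/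
def op (x : Flag N) : Flag N := x.rmul (swap 0 2 * swap 1 3) (by decide)

lemma op_op (x : Flag N) : op (op x) = x := by
  exact Flag.ext2 _ _ rfl rfl rfl

/-- Structure of the variation data. -/
structure Var (T : Triang N) where
  xi : Flag N → ℂ
  w : Flag N → ℂ
  prim : ∀ x, w x - w (T.iota x.rho) = xi x
  anti : ∀ x, w (T.iota x.kap) = -w x
  opp : ∀ x, xi (op x) = xi x
  tri : ∀ x, xi x + xi x.rho + xi x.rho.rho = 0

namespace Var

variable (V V' : Var T)

/-- the cocycle -/
def p (x : Flag N) : ℂ := V.w x - V.w (T.iota x)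

lemma w_iota (x : Flag N) : V.w (T.iota x) = -V.w x.kap.kap := by
  have := V.anti x.kap.kap
  rwa [Flag.kap3] at this

lemma p_eq (x : Flag N) : V.p x = V.w x + V.w x.kap.kap := by
  unfold p
  rw [V.w_iota]
  ring

lemma kap2_rho (x : Flag N) : x.rho.kap.kap = x.rev := by
  exact Flag.ext2 _ _ rfl rfl rfl

lemma xi_eq (x : Flag N) : V.xi x = V.w x + V.w x.rev := by
  rw [← V.prim, V.w_iota, kap2_rho]
  ring

lemma p_iota (x : Flag N) : V.p (T.iota x) = -V.p x := by
  unfold p
  rw [T.iota_iota]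
  ring

lemma p_cocycle (x : Flag N) : V.p x + V.p x.rho + V.p x.rho.rho = 0 := by
  have h1 := V.prim x
  have h2 := V.prim x.rho
  have h3 := V.prim x.rho.rho
  rw [Flag.rho3] at h3
  have h4 := V.tri x
  unfold p
  linear_combination h1 + h2 + h3 + h4

end Var

/-! ### sums over flags -/

lemma sum_bij (σ : Flag N → Flag N) (h : Function.Injective σ) (F : Flag N → ℂ) :
    ∑ x, F (σ x) = ∑ x, F x := (Finite.injective_iff_bijective.1 h).sum_comp F

lemma rho_inj : Function.Injective (Flag.rho (N := N)) := by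
  intro x y h
  have := congrArg (fun w => Flag.rho (Flag.rho w)) h
  simpa only [Flag.rho3] using this

lemma kap_inj : Function.Injective (Flag.kap (N := N)) := by
  intro x y h
  have := congrArg (fun w => Flag.kap (Flag.kap w)) h
  simpa only [Flag.kap3] using this

lemma rev_inj : Function.Injective (Flag.rev (N := N)) := by
  intro x y h
  have := congrArg (fun w => Flag.rev w) h
  simpa only [Flag.rev_rev] using this

lemma op_inj : Function.Injective (op (N := N)) := by
  intro x y h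
  have := congrArg (fun w => op w) h
  simpa only [op_op] using this

variable (V V' : Var T)

/-- the face identity -/
lemma face_id : ∑ x, V.w x * (V'.w x.kap - V'.w x.kap.kap) = 0 := by
  have h1 : ∑ x, V.w x * V'.w x.kap = ∑ x, V.w (T.iota x) * V'.w (T.iota x).kap :=
    (sum_bij T.iota T.iota_injective (fun x : Flag N => V.w x * V'.w x.kap)).symm
  have h2 : ∀ x, V.w (T.iota x) * V'.w (T.iota x).kap = V.w x.kap.kap * V'.w x.kap := by
    intro x
    have h3 : (T.iota x).kap = T.iota x.kap.kap := by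
      have := Triang.kap_iota_kap (T := T) x.kap.kap
      rwa [Flag.kap3] at this
    rw [V.w_iota, h3, V'.w_iota, Flag.kap3]
    ring
  have h3 : ∑ x : Flag N, V.w x.kap.kap * V'.w x.kap = ∑ x, V.w x * V'.w x.kap.kap := by
    have := sum_bij Flag.kap kap_inj (fun x : Flag N => V.w x.kap.kap * V'.w x.kap)
    rw [← this]
    refine Finset.sum_congr rfl fun x _ => ?_
    rw [Flag.kap3]
  simp only [mul_sub, Finset.sum_sub_distrib]
  rw [h1, Finset.sum_congr rfl fun x _ => h2 x, h3, sub_self]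

lemma flag_eq1 (x : Flag N) : x.rho.rho.kap.kap = x.rho.rev := by
  exact Flag.ext2 _ _ rfl rfl rfl

lemma flag_eq2 (x : Flag N) : x.rho.rho.rev = x.kap.kap := by
  exact Flag.ext2 _ _ rfl rfl rfl

lemma flag_eq3 (x : Flag N) : x.rev.rho = x.kap := by
  exact Flag.ext2 _ _ rfl rfl rfl

lemma flag_eq4 (x : Flag N) : x.kap.rho.rho = x.rev := by
  exact Flag.ext2 _ _ rfl rfl rfl

lemma flag_eq5 (x : Flag N) : op x.rho = x.kap.rev := by
  exact Flag.ext2 _ _ rfl rfl rfl

lemma flag_eq6 (x : Flag N) : op x.rho.rho = x.kap.rho := by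
  exact Flag.ext2 _ _ rfl rfl rfl

/-- `Γ` -/
def Gam (x : Flag N) : ℂ := (V'.w x.rho - V'.w x.rho.rev) + (V'.w x.rho.rho - V'.w x.kap.kap) +
  (V'.w x.kap.rho - V'.w x.kap.rho.rev) + (V'.w x.kap - V'.w x.kap.rev)

lemma Gam_rev (x : Flag N) : Gam V' x.rev = Gam V' x := by
  unfold Gam
  have e1 : x.rev.rho = x.kap := flag_eq3 x
  have e2 : x.rev.rho.rho = x.kap.rho := by rw [e1]
  have e3 : x.rev.kap = x.rho := by
    have := flag_eq3 x.rev
    rw [Flag.rev_rev] at this
    exact this.symm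
  have e4 : x.rev.kap.kap = x.kap.rho.rev := by
    have := flag_eq2 x.rev
    rw [← this, e2]
  have e5 : x.rho.rho.rev = x.kap.kap := flag_eq2 x
  rw [e2, e1, e4, e3, e5]
  ring

lemma Gam_op (x : Flag N) : Gam V' (op x) = -Gam V' x := by
  unfold Gam
  have e1 : (op x).rho = x.rho.rev := by
    exact Flag.ext2 _ _ rfl rfl rfl
  have e2 : (op x).rho.rho = x.kap.rho.rev := by
    exact Flag.ext2 _ _ rfl rfl rfl
  have e3 : (op x).kap = x.kap.rev := by
    exact Flag.ext2 _ _ rfl rfl rfl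
  have e4 : (op x).kap.kap = x.kap.rho := by
    exact Flag.ext2 _ _ rfl rfl rfl
  have e5 : (op x).kap.rho = x.kap.kap := by
    exact Flag.ext2 _ _ rfl rfl rfl
  have e6 : x.kap.kap.rev = x.rho.rho := by
    exact Flag.ext2 _ _ rfl rfl rfl
  rw [e2, e1, e4, e5, e3, e6, Flag.rev_rev, Flag.rev_rev]
  ring


lemma sum_w_Gam : ∑ x, V.w x * Gam V' x = 0 := by
  have h1 : ∑ x, V.xi x * Gam V' x = 0 := by
    have := sum_bij op op_inj (fun x => V.xi x * Gam V' x)
    have h2 : ∑ x, V.xi (op x) * Gam V' (op x) = -∑ x, V.xi x * Gam V' x := by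
      rw [← Finset.sum_neg_distrib]
      refine Finset.sum_congr rfl fun x _ => ?_
      rw [V.opp, Gam_op]
      ring
    rw [h2] at this
    linear_combination (-1 / 2 : ℂ) * this
  have h3 : ∑ x, V.w x * Gam V' x = ∑ x, V.w x.rev * Gam V' x := by
    have := sum_bij Flag.rev rev_inj (fun x => V.w x * Gam V' x)
    rw [← this]
    refine Finset.sum_congr rfl fun x _ => ?_
    rw [Gam_rev]
  have h4 : ∑ x, V.xi x * Gam V' x = ∑ x, V.w x * Gam V' x + ∑ x, V.w x.rev * Gam V' x := by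
    rw [← Finset.sum_add_distrib]
    refine Finset.sum_congr rfl fun x _ => ?_
    rw [V.xi_eq]
    ring
  rw [h1, ← h3] at h4
  linear_combination (-1 / 2 : ℂ) * h4

/-- The Neumann-Zagier relation. -/
theorem nz : ∑ x, V.p x * (V'.p x.rho - V'.p x.rho.rho) =
    ∑ x, V.xi x * (V'.xi x.rho - V'.xi x.rho.rho) := by
  set Q : Flag N → ℂ := fun x => V'.p x.rho - V'.p x.rho.rho with hQ
  set E : Flag N → ℂ := fun x => V'.xi x.rho - V'.xi x.rho.rho with hE
  have hL : ∑ x, V.p x * Q x = ∑ x, V.w x * (Q x + Q x.kap) := by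
    have h1 : ∑ x, V.w x.kap.kap * Q x = ∑ x, V.w x * Q x.kap := by
      have := sum_bij Flag.kap kap_inj (fun x : Flag N => V.w x.kap.kap * Q x)
      rw [← this]
      refine Finset.sum_congr rfl fun x _ => ?_
      rw [Flag.kap3]
    simp only [V.p_eq, add_mul, mul_add, Finset.sum_add_distrib]
    rw [h1]
  have hR : ∑ x, V.xi x * E x = ∑ x, V.w x * (E x + E x.rev) := by
    have h1 : ∑ x, V.w x.rev * E x = ∑ x, V.w x * E x.rev := by
      have := sum_bij Flag.rev rev_inj (fun x : Flag N => V.w x.rev * E x)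
      rw [← this]
      refine Finset.sum_congr rfl fun x _ => ?_
      rw [Flag.rev_rev]
    simp only [V.xi_eq, add_mul, mul_add, Finset.sum_add_distrib]
    rw [h1]
  have hpt : ∀ x, Q x + Q x.kap + 3 * (V'.w x.kap - V'.w x.kap.kap) - (E x + E x.rev) = Gam V' x := by
    intro x
    have c1 := V'.opp x.rho
    have c2 := V'.opp x.rho.rho
    rw [flag_eq5, V'.xi_eq, V'.xi_eq, Flag.rev_rev] at c1
    rw [flag_eq6, V'.xi_eq, V'.xi_eq, flag_eq2] at c2
    have hq1 : Q x = V'.w x.rho + V'.w x.rev - (V'.w x.rho.rho + V'.w x.rho.rev) := by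
      rw [hQ]
      simp only
      rw [V'.p_eq, V'.p_eq, Var.kap2_rho, flag_eq1]
    have hq2 : Q x.kap = V'.w x.kap.rho + V'.w x.kap.rev - (V'.w x.rev + V'.w x.kap.rho.rev) := by
      rw [hQ]
      simp only
      rw [V'.p_eq, V'.p_eq, Var.kap2_rho, flag_eq1, flag_eq4]
    have he1 : E x = V'.w x.rho + V'.w x.rho.rev - (V'.w x.rho.rho + V'.w x.kap.kap) := by
      rw [hE]
      simp only
      rw [V'.xi_eq, V'.xi_eq, flag_eq2]
    have he2 : E x.rev = V'.w x.kap + V'.w x.kap.rev - (V'.w x.kap.rho + V'.w x.kap.rho.rev) := by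
      rw [hE]
      simp only
      rw [V'.xi_eq, V'.xi_eq, flag_eq3]
    rw [hq1, hq2, he1, he2]
    unfold Gam
    linear_combination c1 + c2
  have h0 := face_id V V'
  have h1 := sum_w_Gam V V'
  have h2 : ∑ x, V.w x * Gam V' x = ∑ x, V.w x * (Q x + Q x.kap) +
      3 * ∑ x, V.w x * (V'.w x.kap - V'.w x.kap.kap) - ∑ x, V.w x * (E x + E x.rev) := by
    rw [Finset.mul_sum, ← Finset.sum_add_distrib, ← Finset.sum_sub_distrib]
    refine Finset.sum_congr rfl fun x _ => ?_
    rw [← hpt x]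
    ring
  rw [hL, hR]
  rw [h1, h0] at h2
  linear_combination -h2

/-! ### the intersection form on antisymmetric functions -/

lemma inter_anti (hT : T.OneCusp) (F G : Flag N → ℂ) (hF : ∀ x, F (T.iota x) = -F x)
    (hG : ∀ x, G (T.iota x) = -G x) :
    (K.surf hT).inter (fun q => F (K.eps q)) (fun q => G (K.eps q)) =
      (1 / 6) * ∑ x, F x * (G x.rho - G x.rho.rho) := by
  have eF : ∀ d, (K.surf hT).ext (fun q => F (K.eps q)) d = F d := CU.pair_dch K F hF
  have eG : ∀ d, (K.surf hT).ext (fun q => G (K.eps q)) d = G d := CU.pair_dch K G hG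
  unfold Surf.inter
  congr 1
  have h1 : ∀ d : Flag N, (K.surf hT).ext (fun q => F (K.eps q)) d *
        (K.surf hT).ext (fun q => G (K.eps q)) ((K.surf hT).rho d) -
      (K.surf hT).ext (fun q => F (K.eps q)) ((K.surf hT).rho d) *
        (K.surf hT).ext (fun q => G (K.eps q)) d = F d * G d.rho - F d.rho * G d.rho.rho.rho := by
    intro d
    rw [eF, eF, eG, eG, Flag.rho3]
    rfl
  rw [Finset.sum_congr rfl fun d _ => h1 d]
  simp only [mul_sub, Finset.sum_sub_distrib]
  rw [sum_bij Flag.rho rho_inj (fun x : Flag N => F x * G x.rho.rho)]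

/-! ### primitives along the edges -/

section prim

/-- `turn` as a permutation. -/
noncomputable def tu (T : Triang N) : Perm (Flag N) :=
  Equiv.ofBijective T.turn (Finite.injective_iff_bijective.1 T.turn_injective)

lemma tu_apply (x : Flag N) : tu T x = T.turn x := rfl

lemma perm_inv_self (f : Perm (Flag N)) (x : Flag N) : f⁻¹ (f x) = x := f.symm_apply_apply x

lemma cls_tu_pow (k : ℕ) (x : Flag N) : K.cls ((tu T ^ k) x) = K.cls x := by
  induction k with
  | zero => rfl
  | succ k ih => rw [pow_succ', Perm.mul_apply, tu_apply, K.cls_turn, ih]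

lemma sum_period (ξ : Flag N → ℂ) (h : ∀ o, ∑ x : Flag N with K.cls x = o, ξ x = 0) (x : Flag N) :
    ∑ k ∈ range (orderOf (tu T)), ξ (((tu T)⁻¹ ^ k) x) = 0 := by
  classical
  obtain ⟨m, hm⟩ : ∃ m, orderOf (tu T) = m + 1 :=
    Nat.exists_eq_succ_of_ne_zero (orderOf_pos (tu T)).ne'
  set F : Flag N → ℂ := fun x => ∑ k ∈ range (orderOf (tu T)), ξ (((tu T)⁻¹ ^ k) x) with hF
  have hinv : ∀ x, F (T.turn x) = F x := by
    intro x
    simp only [hF, hm]
    rw [Finset.sum_range_succ', Finset.sum_range_succ]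
    congr 1
    · refine Finset.sum_congr rfl fun k _ => ?_
      rw [pow_succ, Perm.mul_apply, ← tu_apply, perm_inv_self]
    · rw [pow_zero, Perm.one_apply, ← tu_apply]
      congr 1
      have : (tu T)⁻¹ ^ m = tu T := by
        have h1 : (tu T) ^ (m + 1) = 1 := by rw [← hm]; exact pow_orderOf_eq_one _
        rw [inv_pow, inv_eq_iff_mul_eq_one, ← pow_succ, h1]
      rw [this]
  have hpow : ∀ k x, F (T.turn^[k] x) = F x := by
    intro k
    induction k with
    | zero => intro x; rfl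
    | succ k ih => intro x; rw [Function.iterate_succ_apply, ih, hinv]
  have h1 : ∑ y : Flag N with K.cls y = K.cls x, F y = 0 := by
    simp only [hF]
    rw [Finset.sum_comm]
    apply Finset.sum_eq_zero
    intro k _
    rw [Finset.sum_filter]
    have h2 := Equiv.sum_comp ((tu T) ^ k) (fun y => if K.cls y = K.cls x then
      ξ (((tu T)⁻¹ ^ k) y) else 0)
    rw [← h2]
    have h3 := h (K.cls x)
    rw [Finset.sum_filter] at h3
    refine Eq.trans (Finset.sum_congr rfl fun y _ => ?_) h3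
    rw [cls_tu_pow, inv_pow, perm_inv_self]
  have h2 : ∑ y : Flag N with K.cls y = K.cls x, F y =
      ((univ.filter fun y : Flag N => K.cls y = K.cls x).card : ℂ) * F x := by
    rw [← nsmul_eq_mul, ← Finset.sum_const]
    refine Finset.sum_congr rfl fun y hy => ?_
    obtain ⟨k, hk⟩ := (K.cls_iff x y).1 (Finset.mem_filter.1 hy).2.symm
    rw [← hk, hpow]
  rw [h2] at h1
  rcases mul_eq_zero.1 h1 with h3 | h3
  · exfalso
    have : 0 < (univ.filter fun y : Flag N => K.cls y = K.cls x).card :=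
      Finset.card_pos.2 ⟨x, by simp⟩
    exact this.ne' (by exact_mod_cast h3)
  · exact h3

lemma exists_prim (ξ : Flag N → ℂ) (h : ∀ o, ∑ x : Flag N with K.cls x = o, ξ x = 0) :
    ∃ w : Flag N → ℂ, ∀ x, w (T.turn x) - w x = ξ (T.turn x) := by
  classical
  obtain ⟨m, hm⟩ : ∃ m, orderOf (tu T) = m + 1 :=
    Nat.exists_eq_succ_of_ne_zero (orderOf_pos (tu T)).ne'
  refine ⟨fun x => (1 / ((m : ℂ) + 1)) *
    ∑ k ∈ range (m + 1), ((m : ℂ) + 1 - k) * ξ (((tu T)⁻¹ ^ k) x), fun x => ?_⟩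
  have h0 := sum_period K ξ h x
  rw [hm] at h0
  have hm1 : (m : ℂ) + 1 ≠ 0 := by
    have : ((m + 1 : ℕ) : ℂ) ≠ 0 := Nat.cast_ne_zero.2 (Nat.succ_ne_zero m)
    simpa using this
  have h1 : ∑ k ∈ range (m + 1), ((m : ℂ) + 1 - k) * ξ (((tu T)⁻¹ ^ k) (T.turn x)) =
      ((m : ℂ) + 1) * ξ (T.turn x) +
        (∑ k ∈ range (m + 1), ((m : ℂ) + 1 - k) * ξ (((tu T)⁻¹ ^ k) x) -
          ∑ k ∈ range (m + 1), ξ (((tu T)⁻¹ ^ k) x)) := by
    rw [Finset.sum_range_succ']
    have h2 : ∀ k, ξ (((tu T)⁻¹ ^ (k + 1)) (T.turn x)) = ξ (((tu T)⁻¹ ^ k) x) := by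
      intro k
      rw [pow_succ, Perm.mul_apply, ← tu_apply, perm_inv_self]
    simp only [h2]
    rw [← Finset.sum_sub_distrib, Finset.sum_range_succ]
    simp only [pow_zero, Perm.one_apply, Nat.cast_zero, sub_zero]
    have h3 : ((m : ℂ) + 1 - m) * ξ (((tu T)⁻¹ ^ m) x) - ξ (((tu T)⁻¹ ^ m) x) = 0 := by ring
    rw [h3, add_zero, add_comm]
    congr 1
    refine Finset.sum_congr rfl fun k _ => ?_
    push_cast
    ring
  simp only []
  rw [h1, h0, sub_zero]
  field_simp
  ring

end prim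

/-- Variation data from a function on flags whose sums over the oriented edges vanish. -/
lemma exists_var (ξ : Flag N → ℂ) (h : ∀ o, ∑ x : Flag N with K.cls x = o, ξ x = 0)
    (hrev : ∀ x, ξ x.rev = ξ x) (hop : ∀ x, ξ (op x) = ξ x)
    (htri : ∀ x, ξ x + ξ x.rho + ξ x.rho.rho = 0) : ∃ V : Var T, V.xi = ξ := by
  obtain ⟨w₀, hw₀⟩ := exists_prim K ξ h
  refine ⟨⟨ξ, fun x => (1 / 2) * (w₀ x - w₀ (T.turn x).rev), fun x => ?_, fun x => ?_, hop, htri⟩, rfl⟩
  · -- x = turn y with y = iota (rho x)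
    have hy : T.turn (T.iota x.rho) = x := T.turn_iota_rho x
    set y := T.iota x.rho with hyd
    have h1 := hw₀ y
    have h2 := hw₀ (T.turn x).rev
    rw [T.turn_rev_turn, hrev] at h2
    rw [hy] at h1
    show (1 / 2) * (w₀ x - w₀ (T.turn x).rev) - (1 / 2) * (w₀ y - w₀ (T.turn y).rev) = ξ x
    rw [hy]
    linear_combination (1 / 2 : ℂ) * h1 + (1 / 2 : ℂ) * h2
  · show (1 / 2) * (w₀ (T.iota x.kap) - w₀ (T.turn (T.iota x.kap)).rev) =
      -((1 / 2) * (w₀ x - w₀ (T.turn x).rev))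
    rw [← T.rev_turn, T.turn_rev_turn, Flag.rev_rev]
    ring

/-- Complex conjugation of variation data. -/
def conjVar (V : Var T) : Var T where
  xi x := (starRingEnd ℂ) (V.xi x)
  w x := (starRingEnd ℂ) (V.w x)
  prim x := by rw [← map_sub, V.prim]
  anti x := by rw [V.anti, map_neg]
  opp x := by rw [V.opp]
  tri x := by rw [← map_add, ← map_add, V.tri, map_zero]

/-- The variation of the complete structure. -/
noncomputable def baseVar (D : Develop T z) : Var T where
  xi x := D.c x 0 1 * D.c x 2 3 * D.augk x.1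
  w x := CU.rr D x
  prim x := by
    have := D.cc_augk x
    unfold CU.rr
    rw [this]
  anti x := by
    have h1 : (T.iota x.kap).kap = T.iota x := T.kap_iota_kap x
    have h2 : (T.iota x.kap).kap.kap = T.iota x.kap.kap := by
      rw [h1]
      have := Triang.kap_iota_kap (T := T) x.kap.kap
      rwa [Flag.kap3] at this
    unfold CU.rr
    rw [h2, h1, D.u_iota, D.u_iota, D.u_iota]
    ring
  opp x := by
    have h1 : D.c (op x) 0 1 = D.c x 2 3 := rfl
    have h2 : D.c (op x) 2 3 = D.c x 0 1 := rfl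
    have h3 : (op x).1 = x.1 := rfl
    rw [h1, h2, h3]
    ring
  tri x := by
    have h1 : D.c x.rho 0 1 = D.c x 0 2 := rfl
    have h2 : D.c x.rho 2 3 = D.c x 3 1 := rfl
    have h3 : D.c x.rho.rho 0 1 = D.c x 0 3 := rfl
    have h4 : D.c x.rho.rho 2 3 = D.c x 1 2 := rfl
    have h5 : x.rho.1 = x.1 := rfl
    have h6 : x.rho.rho.1 = x.1 := rfl
    have h7 := D.plucker x
    have h8 := D.c_swap x 1 3
    rw [h1, h2, h3, h4, h5, h6, h8]
    linear_combination D.augk x.1 * h7

lemma baseVar_p (x : Flag N) : (baseVar D).p x = 2 * D.u x := CU.rr_iota D x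

end NV

end Pool.Agent.Helper34.OneLoop
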